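import Mathlib

/-!
# Deterministic machines reading permutations, and mixing of inputs
-/

namespace Pool.Agent.TR

open Finset Equiv

section Basic

variable {K U Q : Type}

/-- The value of the input at a coordinate. -/
def val (z : K → Perm U) (i : K × U) : U := z i.1 i.2

/-- The answer to a query. -/
def qans (z : K → Perm U) (q : K × Bool × U) : U :=
  if q.2.1 then z q.1 q.2.2 else (z q.1).symm q.2.2

/-- The coordinate read by a query. -/
def qsrc (z : K → Perm U) (q : K × Bool × U) : K × U :=
  (q.1, if q.2.1 then q.2.2 else (z q.1).symm q.2.2)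

lemma q_congr (z z' : K → Perm U) (q : K × Bool × U)
    (h : val z' (qsrc z q) = val z (qsrc z q)) :
    qans z' q = qans z q ∧ qsrc z' q = qsrc z q := by
  obtain ⟨κ, dr, u⟩ := q
  cases dr with
  | true => exact ⟨by simpa [qans, qsrc, val] using h, by simp [qsrc]⟩
  | false =>
    simp only [val, qsrc, Bool.false_eq_true, if_false, Equiv.apply_symm_apply] at h
    have h1 : (z' κ).symm u = (z κ).symm u := by
      rw [Equiv.symm_apply_eq]; exact h.symm
    exact ⟨by simp [qans, h1], by simp [qsrc, h1]⟩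

lemma val_ext {z z' : K → Perm U} (h : ∀ i, val z i = val z' i) : z = z' := by
  funext κ
  ext u
  exact h (κ, u)

/-- Deterministic machines. -/
structure DM (K U Q : Type) where
  start : Q
  ask : ℕ → Q → Option (K × Bool × U)
  step : ℕ → Q → Option U → Q

/-- The states of the run. -/
def DM.run (M : DM K U Q) (z : K → Perm U) : ℕ → Q
  | 0 => M.start
  | τ + 1 => M.step τ (M.run z τ) ((M.ask τ (M.run z τ)).map (qans z))

/-- Mixing two inputs. -/
def mix (sd : K → Bool) (z z' : K → Perm U) : K → Perm U := fun κ => if sd κ then z κ else z' κ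

lemma val_mix_true {sd : K → Bool} {z z' : K → Perm U} {i : K × U} (h : sd i.1 = true) :
    val (mix sd z z') i = val z i := by simp [val, mix, h]

lemma val_mix_false {sd : K → Bool} {z z' : K → Perm U} {i : K × U} (h : sd i.1 = false) :
    val (mix sd z z') i = val z' i := by simp [val, mix, h]

lemma mix_mix (sd : K → Bool) (z z' : K → Perm U) :
    mix sd (mix sd z z') (mix sd z' z) = z := by
  funext κ
  unfold mix
  cases sd κ <;> simp

lemma mix_self (sd : K → Bool) (z : K → Perm U) : mix sd z z = z := by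
  funext κ
  unfold mix
  cases sd κ <;> simp

end Basic

section Hits

variable {K U Q : Type} [Fintype K] [Fintype U] [DecidableEq K] [DecidableEq U]

/-- The coordinates read in segment `j`. -/
noncomputable def hit (M : DM K U Q) (L : ℕ) (z : K → Perm U) (j : ℕ) : Finset (K × U) := by
  classical
  exact Finset.univ.filter fun i => ∃ τ, τ / L = j ∧ ∃ q, M.ask τ (M.run z τ) = some q ∧
    qsrc z q = i

lemma mem_hit {M : DM K U Q} {L : ℕ} {z : K → Perm U} {j : ℕ} {i : K × U} :
    i ∈ hit M L z j ↔ ∃ τ, τ / L = j ∧ ∃ q, M.ask τ (M.run z τ) = some q ∧ qsrc z q = i := by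
  classical
  simp [hit]

lemma hit_card (M : DM K U Q) (L : ℕ) (hL : 0 < L) (z : K → Perm U) (j : ℕ) :
    (hit M L z j).card ≤ L := by
  classical
  have h1 : ∀ i ∈ hit M L z j, ∃ τ, τ / L = j ∧ ∃ q, M.ask τ (M.run z τ) = some q ∧
    qsrc z q = i := fun i hi => mem_hit.1 hi
  choose! f hf using h1
  calc (hit M L z j).card ≤ (Finset.Ico (j * L) (j * L + L)).card := by
        refine Finset.card_le_card_of_injOn f ?_ ?_
        · intro i hi
          have h2 := (hf i hi).1
          rw [Finset.mem_coe, Finset.mem_Ico]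
          have h3 := Nat.div_mul_le_self (f i) L
          have h4 := Nat.lt_div_mul_add (a := f i) hL
          rw [h2] at h3 h4
          exact ⟨h3, h4⟩
        · intro i hi i' hi' hff
          obtain ⟨_, q, hq, hs⟩ := hf i hi
          obtain ⟨_, q', hq', hs'⟩ := hf i' hi'
          rw [hff, hq'] at hq
          obtain rfl := Option.some.inj hq
          rw [← hs, ← hs']
    _ = L := by simp

/-- The segments in which a coordinate is read. -/
noncomputable def seg (M : DM K U Q) (L r : ℕ) (z : K → Perm U) (i : K × U) : Finset (Fin r) := by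
  classical
  exact Finset.univ.filter fun j : Fin r => i ∈ hit M L z j

lemma mem_seg {M : DM K U Q} {L r : ℕ} {z : K → Perm U} {i : K × U} {j : Fin r} :
    j ∈ seg M L r z i ↔ i ∈ hit M L z j := by
  classical
  simp [seg]

lemma sum_seg_card (M : DM K U Q) (L r : ℕ) (hL : 0 < L) (z : K → Perm U) :
    ∑ i, (seg M L r z i).card ≤ r * L := by
  classical
  have h1 : ∑ i, (seg M L r z i).card = ∑ j : Fin r, (hit M L z j).card := by
    have e1 : ∀ i, (seg M L r z i).card = ∑ j : Fin r, if i ∈ hit M L z j then 1 else 0 := by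
      intro i
      rw [seg, Finset.card_filter]
    simp_rw [e1]
    rw [Finset.sum_comm]
    refine Finset.sum_congr rfl fun j _ => ?_
    simp
  rw [h1]
  calc _ ≤ ∑ _j : Fin r, L := Finset.sum_le_sum fun j _ => hit_card M L hL z j
    _ = _ := by simp

variable (M : DM K U Q) (L r : ℕ) (sd : K → Bool)

omit [Fintype K] [Fintype U] [DecidableEq K] [DecidableEq U] in
lemma next_seg {τ : ℕ} (hL : 0 < L) (hτ : τ < r * L) : τ / L < r :=
  (Nat.div_lt_iff_lt_mul hL).2 hτ

/-- The run on a mixed input follows the two runs. -/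
lemma mix_run (hL : 0 < L) (c : ℕ → Bool) (z z' : K → Perm U) (F : Finset (K × U))
    (hoff : ∀ i, i ∉ F → val z i = val z' i)
    (hbd : ∀ j : Fin r, M.run z ((j + 1) * L) = M.run z' ((j + 1) * L))
    (h1 : ∀ j < r, c j = true → ∀ i ∈ hit M L z j, sd i.1 = false → i ∉ F)
    (h2 : ∀ j < r, c j = false → ∀ i ∈ hit M L z' j, sd i.1 = true → i ∉ F) :
    ∀ τ ≤ r * L, M.run (mix sd z z') τ = if c (τ / L) then M.run z τ else M.run z' τ := by
  intro τ
  induction τ with
  | zero => intro _; split_ifs <;> rfl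
  | succ τ ih =>
    intro hτ
    have hτ' : τ < r * L := by omega
    have ih := ih hτ'.le
    have hj : τ / L < r := next_seg L r hL hτ'
    have hseg : M.run z (τ + 1) = M.run z' (τ + 1) ∨ (τ + 1) / L = τ / L := by
      by_cases hm : L ∣ τ + 1
      · left
        obtain ⟨j, hj'⟩ := hm
        have hj0 : j ≠ 0 := by rintro rfl; omega
        obtain ⟨j', rfl⟩ := Nat.exists_eq_succ_of_ne_zero hj0
        have hj'r : j' < r := by
          have h3 : L * (j' + 1) ≤ L * r := by rw [mul_comm L r]; have := hj'; simp only [Nat.succ_eq_add_one] at this; omega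
          have := Nat.le_of_mul_le_mul_left h3 hL
          omega
        have := hbd ⟨j', hj'r⟩
        simp only at this
        rw [hj', Nat.succ_eq_add_one, mul_comm L (j' + 1)]
        exact this
      · right
        rw [Nat.succ_div, if_neg hm, add_zero]
    by_cases hc : c (τ / L) = true
    · rw [if_pos hc] at ih
      have hnext : M.run (mix sd z z') (τ + 1) = M.run z (τ + 1) := by
        show M.step τ (M.run (mix sd z z') τ) ((M.ask τ (M.run (mix sd z z') τ)).map
          (qans (mix sd z z'))) = M.step τ (M.run z τ) ((M.ask τ (M.run z τ)).map (qans z))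
        rw [ih]
        congr 1
        rcases hq : M.ask τ (M.run z τ) with _ | q
        · rfl
        · simp only [Option.map_some]
          congr 1
          refine (q_congr z (mix sd z z') q ?_).1
          cases hs : sd (qsrc z q).1 with
          | true => exact val_mix_true hs
          | false =>
            rw [val_mix_false hs]
            exact (hoff _ (h1 _ hj hc _ (mem_hit.2 ⟨τ, rfl, q, hq, rfl⟩) hs)).symm
      rw [hnext]
      rcases hseg with h | h
      · rw [h]; simp
      · rw [h, if_pos hc]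
    · have hc' : c (τ / L) = false := by simpa using hc
      rw [if_neg hc] at ih
      have hnext : M.run (mix sd z z') (τ + 1) = M.run z' (τ + 1) := by
        show M.step τ (M.run (mix sd z z') τ) ((M.ask τ (M.run (mix sd z z') τ)).map
          (qans (mix sd z z'))) = M.step τ (M.run z' τ) ((M.ask τ (M.run z' τ)).map (qans z'))
        rw [ih]
        congr 1
        rcases hq : M.ask τ (M.run z' τ) with _ | q
        · rfl
        · simp only [Option.map_some]
          congr 1
          refine (q_congr z' (mix sd z z') q ?_).1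
          cases hs : sd (qsrc z' q).1 with
          | false => exact val_mix_false hs
          | true =>
            rw [val_mix_true hs]
            exact hoff _ (h2 _ hj hc' _ (mem_hit.2 ⟨τ, rfl, q, hq, rfl⟩) hs)
      rw [hnext]
      rcases hseg with h | h
      · rw [h]; simp
      · rw [h, if_neg hc]

lemma mix_hit_true (hL : 0 < L) (c : ℕ → Bool) (z z' : K → Perm U) (F : Finset (K × U))
    (hoff : ∀ i, i ∉ F → val z i = val z' i)
    (hbd : ∀ j : Fin r, M.run z ((j + 1) * L) = M.run z' ((j + 1) * L))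
    (h1 : ∀ j < r, c j = true → ∀ i ∈ hit M L z j, sd i.1 = false → i ∉ F)
    (h2 : ∀ j < r, c j = false → ∀ i ∈ hit M L z' j, sd i.1 = true → i ∉ F)
    (j : ℕ) (hj : j < r) (hc : c j = true) : hit M L (mix sd z z') j = hit M L z j := by
  have hrun := mix_run M L r sd hL c z z' F hoff hbd h1 h2
  have key : ∀ τ, τ / L = j → M.run (mix sd z z') τ = M.run z τ := by
    intro τ hτ
    have : τ < r * L := (Nat.div_lt_iff_lt_mul hL).1 (hτ ▸ hj)
    rw [hrun τ this.le, hτ, if_pos hc]
  have hq : ∀ τ q, τ / L = j → M.ask τ (M.run z τ) = some q → qsrc (mix sd z z') q = qsrc z q := by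
    intro τ q hτ hq
    refine (q_congr z (mix sd z z') q ?_).2
    cases hs : sd (qsrc z q).1 with
    | true => exact val_mix_true hs
    | false =>
      rw [val_mix_false hs]
      exact (hoff _ (h1 j hj hc _ (mem_hit.2 ⟨τ, hτ, q, hq, rfl⟩) hs)).symm
  ext i
  rw [mem_hit, mem_hit]
  constructor
  · rintro ⟨τ, hτ, q, hask, hs⟩
    rw [key τ hτ] at hask
    exact ⟨τ, hτ, q, hask, by rw [← hq τ q hτ hask]; exact hs⟩
  · rintro ⟨τ, hτ, q, hask, hs⟩
    exact ⟨τ, hτ, q, by rw [key τ hτ]; exact hask, by rw [hq τ q hτ hask]; exact hs⟩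

lemma mix_hit_false (hL : 0 < L) (c : ℕ → Bool) (z z' : K → Perm U) (F : Finset (K × U))
    (hoff : ∀ i, i ∉ F → val z i = val z' i)
    (hbd : ∀ j : Fin r, M.run z ((j + 1) * L) = M.run z' ((j + 1) * L))
    (h1 : ∀ j < r, c j = true → ∀ i ∈ hit M L z j, sd i.1 = false → i ∉ F)
    (h2 : ∀ j < r, c j = false → ∀ i ∈ hit M L z' j, sd i.1 = true → i ∉ F)
    (j : ℕ) (hj : j < r) (hc : c j = false) : hit M L (mix sd z z') j = hit M L z' j := by
  have hrun := mix_run M L r sd hL c z z' F hoff hbd h1 h2
  have key : ∀ τ, τ / L = j → M.run (mix sd z z') τ = M.run z' τ := by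
    intro τ hτ
    have : τ < r * L := (Nat.div_lt_iff_lt_mul hL).1 (hτ ▸ hj)
    rw [hrun τ this.le, hτ, if_neg (by simp [hc])]
  have hq : ∀ τ q, τ / L = j → M.ask τ (M.run z' τ) = some q →
      qsrc (mix sd z z') q = qsrc z' q := by
    intro τ q hτ hq
    refine (q_congr z' (mix sd z z') q ?_).2
    cases hs : sd (qsrc z' q).1 with
    | false => exact val_mix_false hs
    | true =>
      rw [val_mix_true hs]
      exact hoff _ (h2 j hj hc _ (mem_hit.2 ⟨τ, hτ, q, hq, rfl⟩) hs)
  ext i
  rw [mem_hit, mem_hit]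
  constructor
  · rintro ⟨τ, hτ, q, hask, hs⟩
    rw [key τ hτ] at hask
    exact ⟨τ, hτ, q, hask, by rw [← hq τ q hτ hask]; exact hs⟩
  · rintro ⟨τ, hτ, q, hask, hs⟩
    exact ⟨τ, hτ, q, by rw [key τ hτ]; exact hask, by rw [hq τ q hτ hask]; exact hs⟩

end Hits

section Marks

variable {K U Q : Type} [Fintype K] [Fintype U] [DecidableEq K] [DecidableEq U] {r g V : ℕ}

/-- The number of segments in `S` of colour `b`. -/
def own (χ : Fin r → Bool ⊕ Fin g) (S : Finset (Fin r)) (b : Bool) : ℕ :=
  (S.filter fun j => χ j = Sum.inl b).card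

/-- The candidates. -/
def PSet (sd : K → Bool) (k : ℕ) (χ : Fin r → Bool ⊕ Fin g) (m : K × U → Fin V)
    (S : K × U → Finset (Fin r)) : Finset (K × U) :=
  Finset.univ.filter fun i => (∀ j ∈ S i, χ j = Sum.inl true ∨ χ j = Sum.inl false) ∧
    own χ (S i) (sd i.1) ≤ k ∧ (m i : ℕ) < (g + 2) ^ own χ (S i) (sd i.1)

/-- The survivors. -/
def FSet (sd : K → Bool) (k : ℕ) (χ : Fin r → Bool ⊕ Fin g) (m : K × U → Fin V)
    (S : K × U → Finset (Fin r)) : Finset (K × U) :=
  (PSet sd k χ m S).filter fun i => ∀ j ∈ S i, χ j ≠ Sum.inl (!sd i.1)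

lemma FSet_subset {sd : K → Bool} {k : ℕ} {χ : Fin r → Bool ⊕ Fin g} {m : K × U → Fin V}
    {S : K × U → Finset (Fin r)} : FSet sd k χ m S ⊆ PSet sd k χ m S :=
  Finset.filter_subset _ _

lemma mem_FSet {sd : K → Bool} {k : ℕ} {χ : Fin r → Bool ⊕ Fin g} {m : K × U → Fin V}
    {S : K × U → Finset (Fin r)} {i : K × U} : i ∈ FSet sd k χ m S ↔
      (∀ j ∈ S i, χ j = Sum.inl (sd i.1)) ∧ (S i).card ≤ k ∧ (m i : ℕ) < (g + 2) ^ (S i).card := by
  have hcase : ∀ j, (χ j = Sum.inl true ∨ χ j = Sum.inl false) ∧ χ j ≠ Sum.inl (!sd i.1) ↔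
      χ j = Sum.inl (sd i.1) := by
    intro j
    rcases χ j with (b | b) | c <;> cases sd i.1 <;> simp
  have hown : (∀ j ∈ S i, χ j = Sum.inl (sd i.1)) → own χ (S i) (sd i.1) = (S i).card := by
    intro h
    unfold own
    rw [Finset.filter_true_of_mem h]
  unfold FSet PSet
  rw [Finset.mem_filter, Finset.mem_filter]
  simp only [Finset.mem_univ, true_and]
  constructor
  · rintro ⟨⟨h1, h2, h3⟩, h4⟩
    have h5 : ∀ j ∈ S i, χ j = Sum.inl (sd i.1) := fun j hj => (hcase j).1 ⟨h1 j hj, h4 j hj⟩
    rw [hown h5] at h2 h3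
    exact ⟨h5, h2, h3⟩
  · rintro ⟨h5, h2, h3⟩
    rw [← hown h5] at h2 h3
    exact ⟨⟨fun j hj => ((hcase j).2 (h5 j hj)).1, h2, h3⟩, fun j hj => ((hcase j).2 (h5 j hj)).2⟩

variable (M : DM K U Q) (L r : ℕ) (sd : K → Bool) (k : ℕ) (χ : Fin r → Bool ⊕ Fin g)
  (m : K × U → Fin V)

/-- The class of an input is closed under mixing. -/
lemma closure (hL : 0 < L) (z z' : K → Perm U) (F : Finset (K × U))
    (hF : F ⊆ FSet sd k χ m (seg M L r z))
    (hoff : ∀ i, i ∉ F → val z i = val z' i)
    (hbd : ∀ j : Fin r, M.run z ((j + 1) * L) = M.run z' ((j + 1) * L))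
    (hP : PSet sd k χ m (seg M L r z) = PSet sd k χ m (seg M L r z'))
    (hFF : FSet sd k χ m (seg M L r z) = FSet sd k χ m (seg M L r z')) :
    (∀ j : Fin r, M.run (mix sd z z') ((j + 1) * L) = M.run z ((j + 1) * L)) ∧
    PSet sd k χ m (seg M L r (mix sd z z')) = PSet sd k χ m (seg M L r z) ∧
    FSet sd k χ m (seg M L r (mix sd z z')) = FSet sd k χ m (seg M L r z) := by
  classical
  have hFz : ∀ i ∈ F, ∀ j : Fin r, i ∈ hit M L z j → χ j = Sum.inl (sd i.1) := by
    intro i hi j hj
    exact (mem_FSet.1 (hF hi)).1 j (mem_seg.2 hj)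
  have hFz' : ∀ i ∈ F, ∀ j : Fin r, i ∈ hit M L z' j → χ j = Sum.inl (sd i.1) := by
    intro i hi j hj
    exact (mem_FSet.1 (hFF ▸ hF hi)).1 j (mem_seg.2 hj)
  -- general: any colouring that sends red to `z` and blue to `z'`
  have hgen : ∀ c : ℕ → Bool, (∀ j : Fin r, χ j = Sum.inl true → c j = true) →
      (∀ j : Fin r, χ j = Sum.inl false → c j = false) →
      (∀ j < r, c j = true → ∀ i ∈ hit M L z j, sd i.1 = false → i ∉ F) ∧
      (∀ j < r, c j = false → ∀ i ∈ hit M L z' j, sd i.1 = true → i ∉ F) := by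
    intro c hc1 hc2
    constructor
    · intro j hj hcj i hi hs hiF
      have h3 := hFz i hiF ⟨j, hj⟩ hi
      rw [hs] at h3
      have := hc2 ⟨j, hj⟩ h3
      simp only at this
      rw [hcj] at this
      exact absurd this (by decide)
    · intro j hj hcj i hi hs hiF
      have h3 := hFz' i hiF ⟨j, hj⟩ hi
      rw [hs] at h3
      have := hc1 ⟨j, hj⟩ h3
      simp only at this
      rw [hcj] at this
      exact absurd this (by decide)
  set c1 : ℕ → Bool := fun j => if h : j < r then decide (χ ⟨j, h⟩ ≠ Sum.inl false) else true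
    with hc1
  set c2 : ℕ → Bool := fun j => if h : j < r then decide (χ ⟨j, h⟩ = Sum.inl true) else true
    with hc2
  have c1v : ∀ j : Fin r, c1 j = decide (χ j ≠ Sum.inl false) := by
    intro j; simp [hc1]
  have c2v : ∀ j : Fin r, c2 j = decide (χ j = Sum.inl true) := by
    intro j; simp [hc2]
  obtain ⟨a1, a2⟩ := hgen c1 (fun j hj => by rw [c1v, hj]; simp) (fun j hj => by rw [c1v, hj]; simp)
  obtain ⟨b1, b2⟩ := hgen c2 (fun j hj => by rw [c2v, hj]; simp) (fun j hj => by rw [c2v, hj]; simp)
  have red : ∀ j : Fin r, χ j = Sum.inl true → hit M L (mix sd z z') j = hit M L z j :=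
    fun j hj => mix_hit_true M L r sd hL c1 z z' F hoff hbd a1 a2 j j.2 (by rw [c1v, hj]; simp)
  have blue : ∀ j : Fin r, χ j = Sum.inl false → hit M L (mix sd z z') j = hit M L z' j :=
    fun j hj => mix_hit_false M L r sd hL c1 z z' F hoff hbd a1 a2 j j.2 (by rw [c1v, hj]; simp)
  have grey1 : ∀ j : Fin r, χ j ≠ Sum.inl true → χ j ≠ Sum.inl false →
      hit M L (mix sd z z') j = hit M L z j :=
    fun j hj hj' => mix_hit_true M L r sd hL c1 z z' F hoff hbd a1 a2 j j.2
      (by rw [c1v]; simpa using hj')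
  have grey2 : ∀ j : Fin r, χ j ≠ Sum.inl true → χ j ≠ Sum.inl false →
      hit M L (mix sd z z') j = hit M L z' j :=
    fun j hj hj' => mix_hit_false M L r sd hL c2 z z' F hoff hbd b1 b2 j j.2
      (by rw [c2v]; simpa using hj)
  -- membership of segments
  have sred : ∀ i (j : Fin r), χ j = Sum.inl true →
      (j ∈ seg M L r (mix sd z z') i ↔ j ∈ seg M L r z i) := by
    intro i j hj; rw [mem_seg, mem_seg, red j hj]
  have sblue : ∀ i (j : Fin r), χ j = Sum.inl false →
      (j ∈ seg M L r (mix sd z z') i ↔ j ∈ seg M L r z' i) := by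
    intro i j hj; rw [mem_seg, mem_seg, blue j hj]
  have sgrey1 : ∀ i (j : Fin r), χ j ≠ Sum.inl true → χ j ≠ Sum.inl false →
      (j ∈ seg M L r (mix sd z z') i ↔ j ∈ seg M L r z i) := by
    intro i j hj hj'; rw [mem_seg, mem_seg, grey1 j hj hj']
  have sgrey2 : ∀ i (j : Fin r), χ j ≠ Sum.inl true → χ j ≠ Sum.inl false →
      (j ∈ seg M L r (mix sd z z') i ↔ j ∈ seg M L r z' i) := by
    intro i j hj hj'; rw [mem_seg, mem_seg, grey2 j hj hj']
  have ownred : ∀ i, own χ (seg M L r (mix sd z z') i) true = own χ (seg M L r z i) true := by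
    intro i
    unfold own
    congr 1
    ext j
    rw [Finset.mem_filter, Finset.mem_filter]
    exact ⟨fun h => ⟨(sred i j h.2).1 h.1, h.2⟩, fun h => ⟨(sred i j h.2).2 h.1, h.2⟩⟩
  have ownblue : ∀ i, own χ (seg M L r (mix sd z z') i) false = own χ (seg M L r z' i) false := by
    intro i
    unfold own
    congr 1
    ext j
    rw [Finset.mem_filter, Finset.mem_filter]
    exact ⟨fun h => ⟨(sblue i j h.2).1 h.1, h.2⟩, fun h => ⟨(sblue i j h.2).2 h.1, h.2⟩⟩
  have ng1 : ∀ i, (∀ j ∈ seg M L r (mix sd z z') i, χ j = Sum.inl true ∨ χ j = Sum.inl false) ↔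
      (∀ j ∈ seg M L r z i, χ j = Sum.inl true ∨ χ j = Sum.inl false) := by
    intro i
    constructor
    · intro h j hj
      by_contra hcon
      push Not at hcon
      rcases h j ((sgrey1 i j hcon.1 hcon.2).2 hj) with h' | h'
      · exact hcon.1 h'
      · exact hcon.2 h'
    · intro h j hj
      by_contra hcon
      push Not at hcon
      rcases h j ((sgrey1 i j hcon.1 hcon.2).1 hj) with h' | h'
      · exact hcon.1 h'
      · exact hcon.2 h'
  have ng2 : ∀ i, (∀ j ∈ seg M L r (mix sd z z') i, χ j = Sum.inl true ∨ χ j = Sum.inl false) ↔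
      (∀ j ∈ seg M L r z' i, χ j = Sum.inl true ∨ χ j = Sum.inl false) := by
    intro i
    constructor
    · intro h j hj
      by_contra hcon
      push Not at hcon
      rcases h j ((sgrey2 i j hcon.1 hcon.2).2 hj) with h' | h'
      · exact hcon.1 h'
      · exact hcon.2 h'
    · intro h j hj
      by_contra hcon
      push Not at hcon
      rcases h j ((sgrey2 i j hcon.1 hcon.2).1 hj) with h' | h'
      · exact hcon.1 h'
      · exact hcon.2 h'
  have hPm : PSet sd k χ m (seg M L r (mix sd z z')) = PSet sd k χ m (seg M L r z) := by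
    ext i
    cases hs : sd i.1 with
    | true =>
      simp only [PSet, Finset.mem_filter, Finset.mem_univ, true_and, hs]
      rw [ng1, ownred]
    | false =>
      rw [hP]
      simp only [PSet, Finset.mem_filter, Finset.mem_univ, true_and, hs]
      rw [ng2, ownblue]
  refine ⟨?_, hPm, ?_⟩
  · intro j
    have hle : ((j : ℕ) + 1) * L ≤ r * L := Nat.mul_le_mul_right _ j.2
    rw [mix_run M L r sd hL c1 z z' F hoff hbd a1 a2 _ hle]
    split_ifs
    · rfl
    · exact (hbd j).symm
  · ext i
    cases hs : sd i.1 with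
    | true =>
      rw [hFF]
      unfold FSet
      rw [Finset.mem_filter, Finset.mem_filter, hPm, hP, hs]
      refine and_congr_right fun _ => ?_
      constructor
      · intro h j hj hcol
        exact h j ((sblue i j (by simpa using hcol)).2 hj) hcol
      · intro h j hj hcol
        exact h j ((sblue i j (by simpa using hcol)).1 hj) hcol
    | false =>
      unfold FSet
      rw [Finset.mem_filter, Finset.mem_filter, hPm, hs]
      refine and_congr_right fun _ => ?_
      constructor
      · intro h j hj hcol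
        exact h j ((sred i j (by simpa using hcol)).2 hj) hcol
      · intro h j hj hcol
        exact h j ((sred i j (by simpa using hcol)).1 hj) hcol

end Marks

end Pool.Agent.TR
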