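import Mathlib

/-!
# The inequality for one cell
-/

namespace Pool.Agent.TR

open Finset

variable {U : Type} [Fintype U]

open Classical in
/-- The weight of adjacent pairs is at least the expected proportion of the weight of
nonadjacent pairs, up to the weight of nonadjacent pairs with a heavy member. -/
lemma cell_ineq (adj : U → U → Prop) (κ₀ lam Λ δ : ℝ) (hδ : 0 < δ) (hδ3 : δ ≤ 1 / 3)
    (hκ : 0 ≤ κ₀) (hκδ : κ₀ ≤ δ / 2) (hlam : 0 ≤ lam) (hΛ : 0 ≤ Λ) (hU : 0 < Fintype.card U)
    (hmix : ∀ a b : U → ℝ, |(∑ x, ∑ y, if adj x y then a x * b y else 0) -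
      κ₀ * ((∑ x, a x) * (∑ y, b y))| ≤ lam * (Real.sqrt (∑ x, a x ^ 2) *
        Real.sqrt (∑ y, b y ^ 2)))
    (hlΛ : lam * Λ / Fintype.card U ≤ δ * κ₀)
    (a b : U → ℝ) (ha : ∀ x, 0 ≤ a x) (hb : ∀ y, 0 ≤ b y) :
    (1 - 3 * δ) * κ₀ * (∑ x, ∑ y, if adj x y then 0 else a x * b y) -
      2 / δ * κ₀ * (∑ x, ∑ y, if ¬ adj x y ∧ (Λ * (∑ x, a x) < Fintype.card U * a x ∨
        Λ * (∑ y, b y) < Fintype.card U * b y) then a x * b y else 0) ≤
      ∑ x, ∑ y, if adj x y then a x * b y else 0 := by
  set n : ℝ := (Fintype.card U : ℝ) with hn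
  have hn0 : 0 < n := by rw [hn]; exact_mod_cast hU
  set A := ∑ x, a x with hA
  set A' := ∑ y, b y with hA'
  have hA0 : 0 ≤ A := Finset.sum_nonneg fun x _ => ha x
  have hA'0 : 0 ≤ A' := Finset.sum_nonneg fun x _ => hb x
  set T1 := ∑ x, ∑ y, if adj x y then a x * b y else 0 with hT1
  set T0 := ∑ x, ∑ y, if adj x y then 0 else a x * b y with hT0
  set bad := ∑ x, ∑ y, if ¬ adj x y ∧ (Λ * A < n * a x ∨ Λ * A' < n * b y) then a x * b y
    else 0 with hbad
  have hT10 : 0 ≤ T1 := Finset.sum_nonneg fun x _ => Finset.sum_nonneg fun y _ => by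
    split_ifs
    · exact mul_nonneg (ha x) (hb y)
    · exact le_rfl
  have hT00 : 0 ≤ T0 := Finset.sum_nonneg fun x _ => Finset.sum_nonneg fun y _ => by
    split_ifs
    · exact le_rfl
    · exact mul_nonneg (ha x) (hb y)
  have hbad0 : 0 ≤ bad := Finset.sum_nonneg fun x _ => Finset.sum_nonneg fun y _ => by
    split_ifs
    · exact mul_nonneg (ha x) (hb y)
    · exact le_rfl
  have hsum : T1 + T0 = A * A' := by
    rw [hT1, hT0, hA, hA', Finset.sum_mul_sum, ← Finset.sum_add_distrib]
    refine Finset.sum_congr rfl fun x _ => ?_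
    rw [← Finset.sum_add_distrib]
    refine Finset.sum_congr rfl fun y _ => ?_
    split_ifs <;> ring
  have hT0le : T0 ≤ A * A' := by linarith
  have hδ' : 0 ≤ 1 - 3 * δ := by linarith
  have hmain0 : (1 - 3 * δ) * κ₀ * T0 ≤ κ₀ * (A * A') := by
    have h1 : (1 - 3 * δ) * κ₀ * T0 ≤ 1 * κ₀ * (A * A') := by
      apply mul_le_mul _ hT0le hT00 (by positivity)
      exact mul_le_mul_of_nonneg_right (by linarith) hκ
    linarith
  have hbadt : 0 ≤ 2 / δ * κ₀ * bad := by positivity
  -- truncated weights
  set a1 : U → ℝ := fun x => if Λ * A < n * a x then 0 else a x with ha1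
  set b1 : U → ℝ := fun y => if Λ * A' < n * b y then 0 else b y with hb1
  have ha10 : ∀ x, 0 ≤ a1 x := fun x => by
    simp only [ha1]; split_ifs
    · exact le_rfl
    · exact ha x
  have hb10 : ∀ x, 0 ≤ b1 x := fun x => by
    simp only [hb1]; split_ifs
    · exact le_rfl
    · exact hb x
  have ha1le : ∀ x, a1 x ≤ a x := fun x => by
    simp only [ha1]; split_ifs
    · exact ha x
    · exact le_rfl
  have hb1le : ∀ x, b1 x ≤ b x := fun x => by
    simp only [hb1]; split_ifs
    · exact hb x
    · exact le_rfl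
  have hsqa : ∑ x, a1 x ^ 2 ≤ Λ * A / n * A := by
    calc ∑ x, a1 x ^ 2 ≤ ∑ x, Λ * A / n * a x := by
          refine Finset.sum_le_sum fun x _ => ?_
          simp only [ha1]
          split_ifs with h
          · rw [zero_pow two_ne_zero]
            exact mul_nonneg (by positivity) (ha x)
          · push Not at h
            rw [sq]
            apply mul_le_mul_of_nonneg_right _ (ha x)
            rw [le_div_iff₀ hn0]
            linarith
      _ = _ := by rw [← Finset.mul_sum]
  have hsqb : ∑ x, b1 x ^ 2 ≤ Λ * A' / n * A' := by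
    calc ∑ x, b1 x ^ 2 ≤ ∑ x, Λ * A' / n * b x := by
          refine Finset.sum_le_sum fun x _ => ?_
          simp only [hb1]
          split_ifs with h
          · rw [zero_pow two_ne_zero]
            exact mul_nonneg (by positivity) (hb x)
          · push Not at h
            rw [sq]
            apply mul_le_mul_of_nonneg_right _ (hb x)
            rw [le_div_iff₀ hn0]
            linarith
      _ = _ := by rw [← Finset.mul_sum]
  have hprod : Real.sqrt (∑ x, a1 x ^ 2) * Real.sqrt (∑ y, b1 y ^ 2) ≤ Λ / n * (A * A') := by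
    rw [← Real.sqrt_mul (Finset.sum_nonneg fun _ _ => sq_nonneg _)]
    apply Real.sqrt_le_iff.2
    refine ⟨by positivity, ?_⟩
    calc (∑ x, a1 x ^ 2) * (∑ y, b1 y ^ 2) ≤ (Λ * A / n * A) * (Λ * A' / n * A') :=
          mul_le_mul hsqa hsqb (Finset.sum_nonneg fun _ _ => sq_nonneg _) (by positivity)
      _ = _ := by ring
  set α := ∑ x, (if Λ * A < n * a x then a x else 0) with hα
  set β := ∑ y, (if Λ * A' < n * b y then b y else 0) with hβ
  have hα0 : 0 ≤ α := Finset.sum_nonneg fun x _ => by
    split_ifs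
    · exact ha x
    · exact le_rfl
  have hβ0 : 0 ≤ β := Finset.sum_nonneg fun x _ => by
    split_ifs
    · exact hb x
    · exact le_rfl
  have hA1 : ∑ x, a1 x = A - α := by
    rw [eq_sub_iff_add_eq, hα, hA, ← Finset.sum_add_distrib]
    refine Finset.sum_congr rfl fun x _ => ?_
    simp only [ha1]
    split_ifs <;> ring
  have hB1 : ∑ x, b1 x = A' - β := by
    rw [eq_sub_iff_add_eq, hβ, hA', ← Finset.sum_add_distrib]
    refine Finset.sum_congr rfl fun x _ => ?_
    simp only [hb1]
    split_ifs <;> ring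
  have hT1ge : κ₀ * ((A - α) * (A' - β)) - δ * κ₀ * (A * A') ≤ T1 := by
    have h1 := (abs_le.1 (hmix a1 b1)).1
    rw [hA1, hB1] at h1
    have h2 : (∑ x, ∑ y, if adj x y then a1 x * b1 y else 0) ≤ T1 := by
      refine Finset.sum_le_sum fun x _ => Finset.sum_le_sum fun y _ => ?_
      split_ifs
      · exact mul_le_mul (ha1le x) (hb1le y) (hb10 y) (ha x)
      · exact le_rfl
    have h3 : lam * (Real.sqrt (∑ x, a1 x ^ 2) * Real.sqrt (∑ y, b1 y ^ 2)) ≤
        δ * κ₀ * (A * A') := by
      calc _ ≤ lam * (Λ / n * (A * A')) := mul_le_mul_of_nonneg_left hprod hlam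
        _ = (lam * Λ / n) * (A * A') := by ring
        _ ≤ _ := mul_le_mul_of_nonneg_right hlΛ (by positivity)
    linarith
  by_cases hcase : α * A' + β * A ≤ 2 * δ * (A * A')
  · have h1 : A * A' - (α * A' + β * A) ≤ (A - α) * (A' - β) := by
      have : 0 ≤ α * β := mul_nonneg hα0 hβ0
      nlinarith
    have h2 : κ₀ * (A * A' - 2 * δ * (A * A')) ≤ κ₀ * ((A - α) * (A' - β)) :=
      mul_le_mul_of_nonneg_left (by linarith) hκ
    have h3 : (1 - 3 * δ) * κ₀ * T0 ≤ (1 - 3 * δ) * κ₀ * (A * A') :=
      mul_le_mul_of_nonneg_left hT0le (by positivity)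
    nlinarith
  · push Not at hcase
    by_cases hT : δ / 2 * (A * A') ≤ T1
    · have h1 : κ₀ * (A * A') ≤ δ / 2 * (A * A') :=
        mul_le_mul_of_nonneg_right hκδ (by positivity)
      linarith
    · push Not at hT
      have hbadge : δ / 2 * (A * A') ≤ bad := by
        rcases lt_or_ge (δ * (A * A')) (α * A') with h | h
        · have h1 : α * A' - T1 ≤ bad := by
            rw [sub_le_iff_le_add, hα, hA', hbad, hT1, Finset.sum_mul_sum,
              ← Finset.sum_add_distrib]
            refine Finset.sum_le_sum fun x _ => ?_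
            rw [← Finset.sum_add_distrib]
            refine Finset.sum_le_sum fun y _ => ?_
            have hab := mul_nonneg (ha x) (hb y)
            by_cases e1 : adj x y <;> by_cases e2 : Λ * A < n * a x <;>
              by_cases e3 : Λ * A' < n * b y <;> simp [e1, e2, e3, hab]
          linarith
        · have h0 : δ * (A * A') < β * A := by linarith
          have h1 : β * A - T1 ≤ bad := by
            rw [sub_le_iff_le_add, mul_comm β A, hβ, hA, hbad, hT1, Finset.sum_mul_sum,
              ← Finset.sum_add_distrib]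
            refine Finset.sum_le_sum fun x _ => ?_
            rw [← Finset.sum_add_distrib]
            refine Finset.sum_le_sum fun y _ => ?_
            have hab := mul_nonneg (ha x) (hb y)
            by_cases e1 : adj x y <;> by_cases e2 : Λ * A < n * a x <;>
              by_cases e3 : Λ * A' < n * b y <;> simp [e1, e2, e3, hab]
          linarith
      have h1 : κ₀ * (A * A') ≤ 2 / δ * κ₀ * bad := by
        calc κ₀ * (A * A') = 2 / δ * κ₀ * (δ / 2 * (A * A')) := by field_simp
          _ ≤ _ := mul_le_mul_of_nonneg_left hbadge (by positivity)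
      linarith

end Pool.Agent.TR
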