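import Mathlib
import Pool.Agent.Lib_helper21.TR.Machine

/-!
# Probabilities of survival
-/

set_option linter.unusedSectionVars false

namespace Pool.Agent.TR

open Finset Equiv

section General

lemma sum_pi_prod {A C : Type} [Fintype A] [DecidableEq A] [Fintype C] (f : A → C → ℝ) :
    ∑ u : A → C, ∏ a, f a (u a) = ∏ a, ∑ c, f a c := by
  rw [Finset.prod_univ_sum, Fintype.piFinset_univ]

lemma prod_ite_mem {A : Type} [Fintype A] [DecidableEq A] (S : Finset A) (x : ℝ) :
    ∏ a, (if a ∈ S then x else 1) = x ^ S.card := by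
  rw [Finset.prod_ite_mem, Finset.univ_inter, Finset.prod_const]

/-- Colourings with prescribed colours on two sets and weights on a third one. -/
lemma sum_colour {r g : ℕ} (S S' S3 : Finset (Fin r)) (h12 : Disjoint S S') (h13 : Disjoint S S3)
    (h23 : Disjoint S' S3) (c1 c2 : Bool ⊕ Fin g) (φ : Bool ⊕ Fin g → ℝ) :
    ∑ χ : Fin r → Bool ⊕ Fin g, ((if ∀ j ∈ S, χ j = c1 then (1 : ℝ) else 0) *
      (if ∀ j ∈ S', χ j = c2 then (1 : ℝ) else 0)) * ∏ j ∈ S3, φ (χ j) =
    ((g : ℝ) + 2) ^ r * ((1 / ((g : ℝ) + 2)) ^ S.card * (1 / ((g : ℝ) + 2)) ^ S'.card *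
      ((∑ c, φ c) / ((g : ℝ) + 2)) ^ S3.card) := by
  have hw : ((g : ℝ) + 2) ≠ 0 := by positivity
  have e1 : ∀ χ : Fin r → Bool ⊕ Fin g, ((if ∀ j ∈ S, χ j = c1 then (1 : ℝ) else 0) *
      (if ∀ j ∈ S', χ j = c2 then (1 : ℝ) else 0)) * ∏ j ∈ S3, φ (χ j) =
      ∏ j, ((if j ∈ S then (if χ j = c1 then (1 : ℝ) else 0) else 1) *
        (if j ∈ S' then (if χ j = c2 then (1 : ℝ) else 0) else 1) *
        (if j ∈ S3 then φ (χ j) else 1)) := by
    intro χ
    rw [Finset.prod_mul_distrib, Finset.prod_mul_distrib]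
    rw [Finset.prod_ite_mem, Finset.prod_ite_mem, Finset.prod_ite_mem, Finset.univ_inter,
      Finset.univ_inter, Finset.univ_inter]
    rw [Finset.prod_ite_zero, Finset.prod_ite_zero, Finset.prod_const_one, Finset.prod_const_one]
    congr
  simp_rw [e1]
  rw [sum_pi_prod (fun j c => ((if j ∈ S then (if c = c1 then (1 : ℝ) else 0) else 1) *
        (if j ∈ S' then (if c = c2 then (1 : ℝ) else 0) else 1) *
        (if j ∈ S3 then φ c else 1)))]
  have e2 : ∀ j, ∑ c, ((if j ∈ S then (if c = c1 then (1 : ℝ) else 0) else 1) *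
        (if j ∈ S' then (if c = c2 then (1 : ℝ) else 0) else 1) *
        (if j ∈ S3 then φ c else 1)) =
      ((g : ℝ) + 2) * ((if j ∈ S then 1 / ((g : ℝ) + 2) else 1) *
        (if j ∈ S' then 1 / ((g : ℝ) + 2) else 1) *
        (if j ∈ S3 then (∑ c, φ c) / ((g : ℝ) + 2) else 1)) := by
    intro j
    by_cases h1 : j ∈ S
    · have h2 : j ∉ S' := fun h => Finset.disjoint_left.1 h12 h1 h
      have h3 : j ∉ S3 := fun h => Finset.disjoint_left.1 h13 h1 h
      simp [h1, h2, h3]
      field_simp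
    · by_cases h2 : j ∈ S'
      · have h3 : j ∉ S3 := fun h => Finset.disjoint_left.1 h23 h2 h
        simp [h1, h2, h3]
        field_simp
      · by_cases h3 : j ∈ S3
        · simp [h1, h2, h3]
          field_simp
        · simp [h1, h2, h3]
          ring
  rw [Finset.prod_congr rfl fun j _ => e2 j]
  rw [Finset.prod_mul_distrib, Finset.prod_mul_distrib, Finset.prod_mul_distrib, prod_ite_mem,
    prod_ite_mem, prod_ite_mem, Finset.prod_const, Finset.card_univ, Fintype.card_fin]

/-- Marks below thresholds. -/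
lemma card_marks {I : Type} [Fintype I] [DecidableEq I] {V : ℕ} (hV : 0 < V) (A : Finset I)
    (θ : I → ℕ) (hθ : ∀ i ∈ A, θ i ≤ V) :
    ((Finset.univ.filter fun m : I → Fin V => ∀ i ∈ A, (m i : ℕ) < θ i).card : ℝ) =
      (V : ℝ) ^ Fintype.card I * ∏ i ∈ A, ((θ i : ℝ) / V) := by
  have hV0 : (V : ℝ) ≠ 0 := by positivity
  rw [Finset.card_filter]
  push_cast
  have e1 : ∀ m : I → Fin V, (if ∀ i ∈ A, (m i : ℕ) < θ i then (1 : ℝ) else 0) =
      ∏ i, (if i ∈ A then (if (m i : ℕ) < θ i then (1 : ℝ) else 0) else 1) := by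
    intro m
    rw [Finset.prod_ite_mem, Finset.univ_inter, Finset.prod_ite_zero, Finset.prod_const_one]
    congr
  simp_rw [e1]
  rw [sum_pi_prod (fun i (c : Fin V) => if i ∈ A then (if (c : ℕ) < θ i then (1 : ℝ) else 0) else 1)]
  have e2 : ∀ i, ∑ c : Fin V, (if i ∈ A then (if (c : ℕ) < θ i then (1 : ℝ) else 0) else 1) =
      (V : ℝ) * (if i ∈ A then ((θ i : ℝ) / V) else 1) := by
    intro i
    by_cases h : i ∈ A
    · simp only [h, if_true]
      rw [Finset.sum_boole]
      have : (Finset.univ.filter fun c : Fin V => (c : ℕ) < θ i).card = θ i := by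
        have h1 := Fin.card_filter_val_lt (n := V) (m := θ i)
        rw [h1]
        exact min_eq_right (hθ i h)
      rw [this]
      field_simp
    · simp [h]
  rw [Finset.prod_congr rfl fun i _ => e2 i, Finset.prod_mul_distrib, Finset.prod_ite_mem,
    Finset.univ_inter, Finset.prod_const, Finset.card_univ]

end General

section Survive

variable {K U : Type} [Fintype K] [Fintype U] [DecidableEq K] [DecidableEq U] {r g V : ℕ}
  (sd : K → Bool) (k : ℕ) (S : K × U → Finset (Fin r))

/-- The weight of survival of a coordinate given the colouring. -/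
noncomputable def gw (V : ℕ) (i : K × U) (χ : Fin r → Bool ⊕ Fin g) : ℝ :=
  if (∀ j ∈ S i, χ j = Sum.inl (sd i.1)) ∧ (S i).card ≤ k then
    ((g : ℝ) + 2) ^ (S i).card / V else 0

/-- The weight of candidacy of a coordinate given the colouring. -/
noncomputable def pw (V : ℕ) (i : K × U) (χ : Fin r → Bool ⊕ Fin g) : ℝ :=
  if (∀ j ∈ S i, χ j = Sum.inl true ∨ χ j = Sum.inl false) ∧ own χ (S i) (sd i.1) ≤ k then
    ((g : ℝ) + 2) ^ (own χ (S i) (sd i.1)) / V else 0

lemma gw_nonneg (i : K × U) (χ : Fin r → Bool ⊕ Fin g) : 0 ≤ gw sd k S V i χ := by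
  unfold gw; split_ifs <;> positivity

lemma pw_nonneg (i : K × U) (χ : Fin r → Bool ⊕ Fin g) : 0 ≤ pw sd k S V i χ := by
  unfold pw; split_ifs <;> positivity

lemma pw_le_one (hV : (g + 2) ^ k ≤ V) (i : K × U) (χ : Fin r → Bool ⊕ Fin g) :
    pw sd k S V i χ ≤ 1 := by
  have hV0 : (0 : ℝ) < V := by
    have : 0 < (g + 2) ^ k := by positivity
    exact_mod_cast lt_of_lt_of_le this hV
  have hVR : ((g : ℝ) + 2) ^ k ≤ V := by exact_mod_cast hV
  unfold pw
  split_ifs with h
  · rw [div_le_one hV0]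
    refine le_trans (pow_le_pow_right₀ (by linarith [(Nat.cast_nonneg g : (0:ℝ) ≤ g)]) h.2) hVR
  · norm_num

lemma count_FF (hV : (g + 2) ^ k ≤ V) (χ : Fin r → Bool ⊕ Fin g) (i i' : K × U) (h : i ≠ i') :
    ((Finset.univ.filter fun m : K × U → Fin V => i ∈ FSet sd k χ m S ∧
      i' ∈ FSet sd k χ m S).card : ℝ) =
      (V : ℝ) ^ Fintype.card (K × U) * (gw sd k S V i χ * gw sd k S V i' χ) := by
  have hV0 : 0 < V := lt_of_lt_of_le (by positivity) hV
  by_cases h1 : (∀ j ∈ S i, χ j = Sum.inl (sd i.1)) ∧ (S i).card ≤ k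
  · by_cases h2 : (∀ j ∈ S i', χ j = Sum.inl (sd i'.1)) ∧ (S i').card ≤ k
    · have e1 : (Finset.univ.filter fun m : K × U → Fin V => i ∈ FSet sd k χ m S ∧
          i' ∈ FSet sd k χ m S) = Finset.univ.filter fun m : K × U → Fin V =>
          ∀ x ∈ ({i, i'} : Finset (K × U)), (m x : ℕ) < (g + 2) ^ (S x).card := by
        ext m
        simp only [Finset.mem_filter, Finset.mem_univ, true_and, mem_FSet, Finset.mem_insert,
          Finset.mem_singleton, forall_eq_or_imp, forall_eq]
        tauto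
      rw [e1, card_marks hV0]
      · rw [Finset.prod_pair h, gw, gw, if_pos h1, if_pos h2]
        push_cast
        rfl
      · intro x hx
        simp only [Finset.mem_insert, Finset.mem_singleton] at hx
        rcases hx with rfl | rfl
        · exact (Nat.pow_le_pow_right (by omega) h1.2).trans hV
        · exact (Nat.pow_le_pow_right (by omega) h2.2).trans hV
    · have e1 : (Finset.univ.filter fun m : K × U → Fin V => i ∈ FSet sd k χ m S ∧
          i' ∈ FSet sd k χ m S) = ∅ := by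
        rw [Finset.filter_eq_empty_iff]
        intro m _ hm
        exact h2 ⟨(mem_FSet.1 hm.2).1, (mem_FSet.1 hm.2).2.1⟩
      have e2 : gw sd k S V i' χ = 0 := by rw [gw, if_neg h2]
      rw [e1, e2]; simp
  · have e1 : (Finset.univ.filter fun m : K × U → Fin V => i ∈ FSet sd k χ m S ∧
          i' ∈ FSet sd k χ m S) = ∅ := by
      rw [Finset.filter_eq_empty_iff]
      intro m _ hm
      exact h1 ⟨(mem_FSet.1 hm.1).1, (mem_FSet.1 hm.1).2.1⟩
    have e2 : gw sd k S V i χ = 0 := by rw [gw, if_neg h1]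
    rw [e1, e2]; simp

lemma count_FFF (hV : (g + 2) ^ k ≤ V) (χ : Fin r → Bool ⊕ Fin g) (i i' i2 : K × U)
    (h : i ≠ i') (h' : i2 ≠ i) (h'' : i2 ≠ i') :
    ((Finset.univ.filter fun m : K × U → Fin V => (i ∈ FSet sd k χ m S ∧
      i' ∈ FSet sd k χ m S) ∧ i2 ∈ FSet sd k χ m S).card : ℝ) =
      (V : ℝ) ^ Fintype.card (K × U) *
        ((gw sd k S V i χ * gw sd k S V i' χ) * gw sd k S V i2 χ) := by
  have hV0 : 0 < V := lt_of_lt_of_le (by positivity) hV
  by_cases h1 : (∀ j ∈ S i, χ j = Sum.inl (sd i.1)) ∧ (S i).card ≤ k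
  · by_cases h2 : (∀ j ∈ S i', χ j = Sum.inl (sd i'.1)) ∧ (S i').card ≤ k
    · by_cases h3 : (∀ j ∈ S i2, χ j = Sum.inl (sd i2.1)) ∧ (S i2).card ≤ k
      · have e1 : (Finset.univ.filter fun m : K × U → Fin V => (i ∈ FSet sd k χ m S ∧
            i' ∈ FSet sd k χ m S) ∧ i2 ∈ FSet sd k χ m S) =
            Finset.univ.filter fun m : K × U → Fin V =>
            ∀ x ∈ ({i2, i, i'} : Finset (K × U)), (m x : ℕ) < (g + 2) ^ (S x).card := by
          ext m
          simp only [Finset.mem_filter, Finset.mem_univ, true_and, mem_FSet, Finset.mem_insert,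
            Finset.mem_singleton, forall_eq_or_imp, forall_eq]
          tauto
        rw [e1, card_marks hV0]
        · rw [Finset.prod_insert (by simp [h', h'']), Finset.prod_pair h, gw, gw, gw, if_pos h1,
            if_pos h2, if_pos h3]
          push_cast
          ring
        · intro x hx
          simp only [Finset.mem_insert, Finset.mem_singleton] at hx
          rcases hx with rfl | rfl | rfl
          · exact (Nat.pow_le_pow_right (by omega) h3.2).trans hV
          · exact (Nat.pow_le_pow_right (by omega) h1.2).trans hV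
          · exact (Nat.pow_le_pow_right (by omega) h2.2).trans hV
      · have e1 : (Finset.univ.filter fun m : K × U → Fin V => (i ∈ FSet sd k χ m S ∧
            i' ∈ FSet sd k χ m S) ∧ i2 ∈ FSet sd k χ m S) = ∅ := by
          rw [Finset.filter_eq_empty_iff]
          intro m _ hm
          exact h3 ⟨(mem_FSet.1 hm.2).1, (mem_FSet.1 hm.2).2.1⟩
        have e2 : gw sd k S V i2 χ = 0 := by rw [gw, if_neg h3]
        rw [e1, e2]; simp
    · have e1 : (Finset.univ.filter fun m : K × U → Fin V => (i ∈ FSet sd k χ m S ∧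
          i' ∈ FSet sd k χ m S) ∧ i2 ∈ FSet sd k χ m S) = ∅ := by
        rw [Finset.filter_eq_empty_iff]
        intro m _ hm
        exact h2 ⟨(mem_FSet.1 hm.1.2).1, (mem_FSet.1 hm.1.2).2.1⟩
      have e2 : gw sd k S V i' χ = 0 := by rw [gw, if_neg h2]
      rw [e1, e2]; simp
  · have e1 : (Finset.univ.filter fun m : K × U → Fin V => (i ∈ FSet sd k χ m S ∧
          i' ∈ FSet sd k χ m S) ∧ i2 ∈ FSet sd k χ m S) = ∅ := by
      rw [Finset.filter_eq_empty_iff]
      intro m _ hm
      exact h1 ⟨(mem_FSet.1 hm.1.1).1, (mem_FSet.1 hm.1.1).2.1⟩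
    have e2 : gw sd k S V i χ = 0 := by rw [gw, if_neg h1]
    rw [e1, e2]; simp

lemma count_FFP (hV : (g + 2) ^ k ≤ V) (χ : Fin r → Bool ⊕ Fin g) (i i' i2 : K × U)
    (h : i ≠ i') (h' : i2 ≠ i) (h'' : i2 ≠ i') :
    ((Finset.univ.filter fun m : K × U → Fin V => (i ∈ FSet sd k χ m S ∧
      i' ∈ FSet sd k χ m S) ∧ i2 ∈ PSet sd k χ m S).card : ℝ) =
      (V : ℝ) ^ Fintype.card (K × U) *
        ((gw sd k S V i χ * gw sd k S V i' χ) * pw sd k S V i2 χ) := by
  have hV0 : 0 < V := lt_of_lt_of_le (by positivity) hV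
  have memP : ∀ m : K × U → Fin V, i2 ∈ PSet sd k χ m S ↔
      ((∀ j ∈ S i2, χ j = Sum.inl true ∨ χ j = Sum.inl false) ∧
      own χ (S i2) (sd i2.1) ≤ k) ∧ (m i2 : ℕ) < (g + 2) ^ own χ (S i2) (sd i2.1) := by
    intro m
    simp only [PSet, Finset.mem_filter, Finset.mem_univ, true_and]
    tauto
  by_cases h1 : (∀ j ∈ S i, χ j = Sum.inl (sd i.1)) ∧ (S i).card ≤ k
  · by_cases h2 : (∀ j ∈ S i', χ j = Sum.inl (sd i'.1)) ∧ (S i').card ≤ k
    · by_cases h3 : (∀ j ∈ S i2, χ j = Sum.inl true ∨ χ j = Sum.inl false) ∧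
          own χ (S i2) (sd i2.1) ≤ k
      · set θ : K × U → ℕ := fun x => if x = i2 then (g + 2) ^ own χ (S i2) (sd i2.1)
          else (g + 2) ^ (S x).card with hθ
        have θ2 : θ i2 = (g + 2) ^ own χ (S i2) (sd i2.1) := by simp [hθ]
        have θi : θ i = (g + 2) ^ (S i).card := by simp [hθ, h'.symm]
        have θi' : θ i' = (g + 2) ^ (S i').card := by simp [hθ, h''.symm]
        have e1 : (Finset.univ.filter fun m : K × U → Fin V => (i ∈ FSet sd k χ m S ∧
            i' ∈ FSet sd k χ m S) ∧ i2 ∈ PSet sd k χ m S) =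
            Finset.univ.filter fun m : K × U → Fin V =>
            ∀ x ∈ ({i2, i, i'} : Finset (K × U)), (m x : ℕ) < θ x := by
          ext m
          simp only [Finset.mem_filter, Finset.mem_univ, true_and, mem_FSet, memP,
            Finset.mem_insert, Finset.mem_singleton, forall_eq_or_imp, forall_eq, θ2, θi, θi']
          tauto
        rw [e1, card_marks hV0]
        · rw [Finset.prod_insert (by simp [h', h'']), Finset.prod_pair h, gw, gw, pw, if_pos h1,
            if_pos h2, if_pos h3, θ2, θi, θi']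
          push_cast
          ring
        · intro x hx
          simp only [Finset.mem_insert, Finset.mem_singleton] at hx
          rcases hx with rfl | rfl | rfl
          · rw [θ2]; exact (Nat.pow_le_pow_right (by omega) h3.2).trans hV
          · rw [θi]; exact (Nat.pow_le_pow_right (by omega) h1.2).trans hV
          · rw [θi']; exact (Nat.pow_le_pow_right (by omega) h2.2).trans hV
      · have e1 : (Finset.univ.filter fun m : K × U → Fin V => (i ∈ FSet sd k χ m S ∧
            i' ∈ FSet sd k χ m S) ∧ i2 ∈ PSet sd k χ m S) = ∅ := by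
          rw [Finset.filter_eq_empty_iff]
          intro m _ hm
          exact h3 ((memP m).1 hm.2).1
        have e2 : pw sd k S V i2 χ = 0 := by rw [pw, if_neg h3]
        rw [e1, e2]; simp
    · have e1 : (Finset.univ.filter fun m : K × U → Fin V => (i ∈ FSet sd k χ m S ∧
          i' ∈ FSet sd k χ m S) ∧ i2 ∈ PSet sd k χ m S) = ∅ := by
        rw [Finset.filter_eq_empty_iff]
        intro m _ hm
        exact h2 ⟨(mem_FSet.1 hm.1.2).1, (mem_FSet.1 hm.1.2).2.1⟩
      have e2 : gw sd k S V i' χ = 0 := by rw [gw, if_neg h2]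
      rw [e1, e2]; simp
  · have e1 : (Finset.univ.filter fun m : K × U → Fin V => (i ∈ FSet sd k χ m S ∧
          i' ∈ FSet sd k χ m S) ∧ i2 ∈ PSet sd k χ m S) = ∅ := by
      rw [Finset.filter_eq_empty_iff]
      intro m _ hm
      exact h1 ⟨(mem_FSet.1 hm.1.1).1, (mem_FSet.1 hm.1.1).2.1⟩
    have e2 : gw sd k S V i χ = 0 := by rw [gw, if_neg h1]
    rw [e1, e2]; simp

lemma gg_zero (i i' : K × U) (hi : sd i.1 = true) (hi' : sd i'.1 = false)
    (h : ¬ ((S i).card ≤ k ∧ (S i').card ≤ k ∧ Disjoint (S i) (S i')))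
    (χ : Fin r → Bool ⊕ Fin g) : gw sd k S V i χ * gw sd k S V i' χ = 0 := by
  by_contra hcon
  have h1 : gw sd k S V i χ ≠ 0 := left_ne_zero_of_mul hcon
  have h2 : gw sd k S V i' χ ≠ 0 := right_ne_zero_of_mul hcon
  unfold gw at h1 h2
  have h1' := (ite_ne_right_iff.1 h1).1
  have h2' := (ite_ne_right_iff.1 h2).1
  apply h
  refine ⟨h1'.2, h2'.2, ?_⟩
  rw [Finset.disjoint_left]
  intro j hj hj'
  have e1 := h1'.1 j hj
  have e2 := h2'.1 j hj'
  rw [hi] at e1
  rw [hi', e1] at e2
  simp at e2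

lemma gw_prod (i i' : K × U) (hi : sd i.1 = true) (hi' : sd i'.1 = false)
    (h1 : (S i).card ≤ k) (h2 : (S i').card ≤ k) (χ : Fin r → Bool ⊕ Fin g) :
    gw sd k S V i χ * gw sd k S V i' χ = (((g : ℝ) + 2) ^ (S i).card / V) *
      (((g : ℝ) + 2) ^ (S i').card / V) *
      ((if ∀ j ∈ S i, χ j = Sum.inl true then (1 : ℝ) else 0) *
      (if ∀ j ∈ S i', χ j = Sum.inl false then (1 : ℝ) else 0)) := by
  unfold gw
  rw [hi, hi']
  by_cases a1 : ∀ j ∈ S i, χ j = Sum.inl true
  · by_cases a2 : ∀ j ∈ S i', χ j = Sum.inl false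
    · rw [if_pos ⟨a1, h1⟩, if_pos ⟨a2, h2⟩, if_pos a1, if_pos a2]; ring
    · rw [if_neg (fun h => a2 h.1 : ¬ ((∀ j ∈ S i', χ j = Sum.inl false) ∧ (S i').card ≤ k)),
        if_neg a2]; ring
  · rw [if_neg (fun h => a1 h.1 : ¬ ((∀ j ∈ S i, χ j = Sum.inl true) ∧ (S i).card ≤ k)),
        if_neg a1]; ring

lemma sum_gg (i i' : K × U) (hi : sd i.1 = true) (hi' : sd i'.1 = false)
    (h1 : (S i).card ≤ k) (h2 : (S i').card ≤ k) (h3 : Disjoint (S i) (S i')) :
    ∑ χ : Fin r → Bool ⊕ Fin g, gw sd k S V i χ * gw sd k S V i' χ =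
      ((g : ℝ) + 2) ^ r / (V : ℝ) ^ 2 := by
  have hw : ((g : ℝ) + 2) ≠ 0 := by positivity
  simp_rw [gw_prod sd k S i i' hi hi' h1 h2]
  rw [← Finset.mul_sum]
  have := sum_colour (g := g) (S i) (S i') ∅ h3 (by simp) (by simp) (Sum.inl true) (Sum.inl false)
    (fun _ => 1)
  simp only [Finset.prod_empty, mul_one, Finset.card_empty, pow_zero] at this
  rw [this, one_div, inv_pow, inv_pow]
  field_simp

lemma sum_gg_le (i i' : K × U) (hi : sd i.1 = true) (hi' : sd i'.1 = false) :
    ∑ χ : Fin r → Bool ⊕ Fin g, gw sd k S V i χ * gw sd k S V i' χ ≤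
      ((g : ℝ) + 2) ^ r / (V : ℝ) ^ 2 := by
  by_cases h : (S i).card ≤ k ∧ (S i').card ≤ k ∧ Disjoint (S i) (S i')
  · exact (sum_gg sd k S i i' hi hi' h.1 h.2.1 h.2.2).le
  · rw [Finset.sum_eq_zero fun χ _ => gg_zero sd k S i i' hi hi' h χ]
    positivity

lemma sum_ggg_le (i i' i2 : K × U) (hi : sd i.1 = true) (hi' : sd i'.1 = false) :
    ∑ χ : Fin r → Bool ⊕ Fin g, (gw sd k S V i χ * gw sd k S V i' χ) * gw sd k S V i2 χ ≤
      ((g : ℝ) + 2) ^ r / (V : ℝ) ^ 3 * (if Disjoint (S i2) (S (if sd i2.1 then i else i')) then 1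
        else ((g : ℝ) + 2) ^ k) := by
  have hw : ((g : ℝ) + 2) ≠ 0 := by positivity
  have hw1 : (1 : ℝ) ≤ (g : ℝ) + 2 := by linarith [(Nat.cast_nonneg g : (0:ℝ) ≤ g)]
  have hrhs : (0 : ℝ) ≤ ((g : ℝ) + 2) ^ r / (V : ℝ) ^ 3 *
      (if Disjoint (S i2) (S (if sd i2.1 then i else i')) then 1 else ((g : ℝ) + 2) ^ k) := by
    apply mul_nonneg (by positivity)
    split_ifs <;> positivity
  by_cases h : (S i).card ≤ k ∧ (S i').card ≤ k ∧ Disjoint (S i) (S i')
  swap
  · rw [Finset.sum_eq_zero fun χ _ => by rw [gg_zero sd k S i i' hi hi' h χ, zero_mul]]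
    exact hrhs
  obtain ⟨h1, h2, h3⟩ := h
  by_cases h4 : (S i2).card ≤ k
  swap
  · rw [Finset.sum_eq_zero fun χ _ => ?_]
    · exact hrhs
    · have : gw sd k S V i2 χ = 0 := by
        unfold gw; rw [if_neg (fun h => h4 h.2)]
      rw [this, mul_zero]
  -- the opposite side
  by_cases h5 : Disjoint (S i2) (S (if sd i2.1 then i' else i))
  swap
  · rw [Finset.sum_eq_zero fun χ _ => ?_]
    · exact hrhs
    · by_contra hcon
      have e1 := left_ne_zero_of_mul hcon
      have e2 : gw sd k S V i2 χ ≠ 0 := right_ne_zero_of_mul hcon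
      have e3 : gw sd k S V i χ ≠ 0 := left_ne_zero_of_mul e1
      have e4 : gw sd k S V i' χ ≠ 0 := right_ne_zero_of_mul e1
      unfold gw at e2 e3 e4
      have e2' := (ite_ne_right_iff.1 e2).1.1
      have e3' := (ite_ne_right_iff.1 e3).1.1
      have e4' := (ite_ne_right_iff.1 e4).1.1
      rw [Finset.not_disjoint_iff] at h5
      obtain ⟨j, hj, hj'⟩ := h5
      have f2 := e2' j hj
      cases hb : sd i2.1 with
      | true =>
        simp only [hb, if_true] at hj'
        have f4 := e4' j hj'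
        rw [f2, hb, hi'] at f4
        simp at f4
      | false =>
        simp only [hb, Bool.false_eq_true, if_false] at hj'
        have f3 := e3' j hj'
        rw [f2, hb, hi] at f3
        simp at f3
  set S3 := S i2 \ (S i ∪ S i') with hS3
  have hd1 : Disjoint (S i) S3 := by
    rw [hS3, Finset.disjoint_left]
    intro j hj hj'
    rw [Finset.mem_sdiff, Finset.mem_union] at hj'
    exact hj'.2 (Or.inl hj)
  have hd2 : Disjoint (S i') S3 := by
    rw [hS3, Finset.disjoint_left]
    intro j hj hj'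
    rw [Finset.mem_sdiff, Finset.mem_union] at hj'
    exact hj'.2 (Or.inr hj)
  have hle : ∀ χ : Fin r → Bool ⊕ Fin g, (gw sd k S V i χ * gw sd k S V i' χ) * gw sd k S V i2 χ ≤
      ((((g : ℝ) + 2) ^ (S i).card / V) * (((g : ℝ) + 2) ^ (S i').card / V) *
        (((g : ℝ) + 2) ^ (S i2).card / V)) *
      (((if ∀ j ∈ S i, χ j = Sum.inl true then (1 : ℝ) else 0) *
      (if ∀ j ∈ S i', χ j = Sum.inl false then (1 : ℝ) else 0)) *
      ∏ j ∈ S3, (if χ j = Sum.inl (sd i2.1) then (1 : ℝ) else 0)) := by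
    intro χ
    rw [gw_prod sd k S i i' hi hi' h1 h2]
    have e5 : gw sd k S V i2 χ ≤ (((g : ℝ) + 2) ^ (S i2).card / V) *
        ∏ j ∈ S3, (if χ j = Sum.inl (sd i2.1) then (1 : ℝ) else 0) := by
      unfold gw
      rw [Finset.prod_ite_zero, Finset.prod_const_one]
      split_ifs with a1 a2 a2
      · simp
      · exfalso
        apply a2
        intro j hj
        exact a1.1 j (Finset.sdiff_subset hj)
      · positivity
      · positivity
    calc _ ≤ (((g : ℝ) + 2) ^ (S i).card / V) *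
      (((g : ℝ) + 2) ^ (S i').card / V) *
      ((if ∀ j ∈ S i, χ j = Sum.inl true then (1 : ℝ) else 0) *
      (if ∀ j ∈ S i', χ j = Sum.inl false then (1 : ℝ) else 0)) *
        ((((g : ℝ) + 2) ^ (S i2).card / V) *
        ∏ j ∈ S3, (if χ j = Sum.inl (sd i2.1) then (1 : ℝ) else 0)) := by
          apply mul_le_mul_of_nonneg_left e5
          apply mul_nonneg (by positivity)
          split_ifs <;> norm_num
      _ = _ := by ring
  refine (Finset.sum_le_sum fun χ _ => hle χ).trans ?_
  rw [← Finset.mul_sum, sum_colour (g := g) (S i) (S i') S3 h3 hd1 hd2 (Sum.inl true)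
    (Sum.inl false) (fun c => if c = Sum.inl (sd i2.1) then (1 : ℝ) else 0)]
  have e6 : ∑ c : Bool ⊕ Fin g, (if c = Sum.inl (sd i2.1) then (1 : ℝ) else 0) = 1 := by simp
  rw [e6]
  have e7 : ((g : ℝ) + 2) ^ (S i2).card * (1 / ((g : ℝ) + 2)) ^ S3.card ≤
      (if Disjoint (S i2) (S (if sd i2.1 then i else i')) then 1 else ((g : ℝ) + 2) ^ k) := by
    have hS3le : S3.card ≤ (S i2).card := Finset.card_le_card Finset.sdiff_subset
    by_cases hd : Disjoint (S i2) (S (if sd i2.1 then i else i'))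
    · rw [if_pos hd]
      have : S3 = S i2 := by
        rw [hS3, Finset.sdiff_eq_self_iff_disjoint, Finset.disjoint_union_right]
        cases hb : sd i2.1 with
        | true =>
          simp only [hb, if_true] at hd h5
          exact ⟨hd, h5⟩
        | false =>
          simp only [hb, Bool.false_eq_true, if_false] at hd h5
          exact ⟨h5, hd⟩
      rw [this, one_div, inv_pow, mul_inv_cancel₀ (by positivity)]
    · rw [if_neg hd]
      calc ((g : ℝ) + 2) ^ (S i2).card * (1 / ((g : ℝ) + 2)) ^ S3.card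
          ≤ ((g : ℝ) + 2) ^ k * 1 := by
            apply mul_le_mul (pow_le_pow_right₀ hw1 h4) _ (by positivity) (by positivity)
            apply pow_le_one₀ (by positivity)
            rw [div_le_one (by positivity)]
            exact hw1
        _ = _ := mul_one _
  calc _ = ((g : ℝ) + 2) ^ r / (V : ℝ) ^ 3 *
        ((((g : ℝ) + 2) ^ (S i).card * (1 / ((g : ℝ) + 2)) ^ (S i).card) *
        (((g : ℝ) + 2) ^ (S i').card * (1 / ((g : ℝ) + 2)) ^ (S i').card) *
        (((g : ℝ) + 2) ^ (S i2).card * (1 / ((g : ℝ) + 2)) ^ S3.card)) := by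
        rw [div_eq_mul_inv _ ((V : ℝ) ^ 3)]
        ring
    _ = ((g : ℝ) + 2) ^ r / (V : ℝ) ^ 3 *
        (((g : ℝ) + 2) ^ (S i2).card * (1 / ((g : ℝ) + 2)) ^ S3.card) := by
        rw [one_div, inv_pow, inv_pow, mul_inv_cancel₀ (by positivity),
          mul_inv_cancel₀ (by positivity), one_mul, one_mul]
    _ ≤ _ := mul_le_mul_of_nonneg_left e7 (by positivity)

lemma sum_ggp_le (hV : (g + 2) ^ k ≤ V) (hg : 2 ≤ g) (hkg : k ≤ g + 2)
    (i i' i2 : K × U) (hi : sd i.1 = true) (hi' : sd i'.1 = false) :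
    ∑ χ : Fin r → Bool ⊕ Fin g, (gw sd k S V i χ * gw sd k S V i' χ) * pw sd k S V i2 χ ≤
      ((g : ℝ) + 2) ^ r / (V : ℝ) ^ 2 * (if Disjoint (S i2) (S i ∪ S i') then 8 / (V : ℝ)
        else 1) := by
  have hw : ((g : ℝ) + 2) ≠ 0 := by positivity
  have hw1 : (1 : ℝ) ≤ (g : ℝ) + 2 := by linarith [(Nat.cast_nonneg g : (0:ℝ) ≤ g)]
  by_cases hd : Disjoint (S i2) (S i ∪ S i')
  swap
  · rw [if_neg hd, mul_one]
    refine le_trans (Finset.sum_le_sum fun χ _ => ?_) (sum_gg_le sd k S i i' hi hi')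
    exact mul_le_of_le_one_right (mul_nonneg (gw_nonneg sd k S i χ) (gw_nonneg sd k S i' χ))
      (pw_le_one sd k S hV i2 χ)
  rw [if_pos hd]
  by_cases h : (S i).card ≤ k ∧ (S i').card ≤ k ∧ Disjoint (S i) (S i')
  swap
  · rw [Finset.sum_eq_zero fun χ _ => by rw [gg_zero sd k S i i' hi hi' h χ, zero_mul]]
    positivity
  obtain ⟨h1, h2, h3⟩ := h
  rw [Finset.disjoint_union_right] at hd
  -- the pointwise bound with general weights
  have hpt : ∀ (A : ℝ) (φ : Bool ⊕ Fin g → ℝ),
      (∀ χ : Fin r → Bool ⊕ Fin g, pw sd k S V i2 χ ≤ A / V * ∏ j ∈ S i2, φ (χ j)) →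
      ∑ χ : Fin r → Bool ⊕ Fin g, (gw sd k S V i χ * gw sd k S V i' χ) * pw sd k S V i2 χ ≤
      ((g : ℝ) + 2) ^ r / (V : ℝ) ^ 2 * (A / V * ((∑ c, φ c) / ((g : ℝ) + 2)) ^ (S i2).card) := by
    intro A φ hφ
    calc _ ≤ ∑ χ : Fin r → Bool ⊕ Fin g, ((((g : ℝ) + 2) ^ (S i).card / V) *
        (((g : ℝ) + 2) ^ (S i').card / V) * (A / V)) *
        (((if ∀ j ∈ S i, χ j = Sum.inl true then (1 : ℝ) else 0) *
        (if ∀ j ∈ S i', χ j = Sum.inl false then (1 : ℝ) else 0)) *
          ∏ j ∈ S i2, φ (χ j)) := by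
          refine Finset.sum_le_sum fun χ _ => ?_
          refine (mul_le_mul_of_nonneg_left (hφ χ) (mul_nonneg (gw_nonneg sd k S i χ)
            (gw_nonneg sd k S i' χ))).trans (le_of_eq ?_)
          rw [gw_prod sd k S i i' hi hi' h1 h2]
          ring
      _ = _ := by
          rw [← Finset.mul_sum, sum_colour (g := g) (S i) (S i') (S i2) h3 hd.1.symm hd.2.symm
            (Sum.inl true) (Sum.inl false) φ]
          rw [one_div, inv_pow, inv_pow]
          field_simp
  by_cases h4 : (S i2).card ≤ 2 * k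
  · refine (hpt 1 (fun c => if c = Sum.inl (sd i2.1) then ((g : ℝ) + 2) else
      if c = Sum.inl (!sd i2.1) then 1 else 0) ?_).trans ?_
    · intro χ
      unfold pw
      split_ifs with a1
      · rw [div_mul_eq_mul_div, one_mul]
        apply div_le_div_of_nonneg_right _ (Nat.cast_nonneg V)
        unfold own
        have e1 : ∀ j ∈ S i2, (if χ j = Sum.inl (sd i2.1) then ((g : ℝ) + 2) else
            if χ j = Sum.inl (!sd i2.1) then 1 else 0) =
            if χ j = Sum.inl (sd i2.1) then ((g : ℝ) + 2) else 1 := by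
          intro j hj
          rcases a1.1 j hj with hc | hc <;> cases hb : sd i2.1 <;> simp [hc]
        rw [Finset.prod_congr rfl e1, Finset.prod_ite, Finset.prod_const, Finset.prod_const_one,
          mul_one]
      · apply mul_nonneg (by positivity)
        exact Finset.prod_nonneg fun j _ => by split_ifs <;> positivity
    · apply mul_le_mul_of_nonneg_left _ (by positivity)
      have e2 : ∑ c : Bool ⊕ Fin g, (if c = Sum.inl (sd i2.1) then ((g : ℝ) + 2) else
          if c = Sum.inl (!sd i2.1) then 1 else 0) = (g : ℝ) + 2 + 1 := by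
        rw [Fintype.sum_sum_type]
        cases sd i2.1 <;> simp
        ring
      rw [e2]
      have e3 : ((g : ℝ) + 2 + 1) / ((g : ℝ) + 2) = 1 + 1 / ((g : ℝ) + 2) := by field_simp
      rw [e3]
      have e4 : (1 + 1 / ((g : ℝ) + 2)) ^ (S i2).card ≤ 8 := by
        have f1 : (1 + 1 / ((g : ℝ) + 2)) ^ (S i2).card ≤
            (Real.exp (1 / ((g : ℝ) + 2))) ^ (2 * (g + 2)) := by
          calc (1 + 1 / ((g : ℝ) + 2)) ^ (S i2).card
              ≤ (Real.exp (1 / ((g : ℝ) + 2))) ^ (S i2).card := by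
                apply pow_le_pow_left₀ (by positivity)
                have := Real.add_one_le_exp (1 / ((g : ℝ) + 2))
                linarith
            _ ≤ _ := by
                apply pow_le_pow_right₀
                · exact Real.one_le_exp (by positivity)
                · omega
        have f2 : (Real.exp (1 / ((g : ℝ) + 2))) ^ (2 * (g + 2)) = Real.exp 1 ^ 2 := by
          rw [← Real.exp_nat_mul, ← Real.exp_nat_mul]
          congr 1
          push_cast
          field_simp
        rw [f2] at f1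
        have f3 := Real.exp_one_lt_d9
        have f4 := Real.exp_pos 1
        nlinarith
      calc 1 / (V : ℝ) * (1 + 1 / ((g : ℝ) + 2)) ^ (S i2).card ≤ 1 / (V : ℝ) * 8 :=
            mul_le_mul_of_nonneg_left e4 (by positivity)
        _ = _ := by ring
  · push Not at h4
    refine (hpt (((g : ℝ) + 2) ^ k) (fun c => if c = Sum.inl true ∨ c = Sum.inl false then 1
      else 0) ?_).trans ?_
    · intro χ
      unfold pw
      split_ifs with a1
      · rw [Finset.prod_ite_zero, if_pos a1.1, Finset.prod_const_one, mul_one]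
        apply div_le_div_of_nonneg_right _ (Nat.cast_nonneg V)
        exact pow_le_pow_right₀ hw1 a1.2
      · apply mul_nonneg (by positivity)
        exact Finset.prod_nonneg fun j _ => by split_ifs <;> positivity
    · apply mul_le_mul_of_nonneg_left _ (by positivity)
      have e2 : ∑ c : Bool ⊕ Fin g, (if c = Sum.inl true ∨ c = Sum.inl false then (1 : ℝ)
          else 0) = 2 := by
        rw [Fintype.sum_sum_type]
        simp
      rw [e2]
      have hw4 : (4 : ℝ) ≤ (g : ℝ) + 2 := by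
        have : (2 : ℝ) ≤ g := by exact_mod_cast hg
        linarith
      have e3 : ((g : ℝ) + 2) ^ k * (2 / ((g : ℝ) + 2)) ^ (S i2).card ≤ 1 := by
        obtain ⟨x, hx⟩ : ∃ x, (S i2).card = 2 * k + x := ⟨(S i2).card - 2 * k, by omega⟩
        rw [hx, pow_add, ← mul_assoc, pow_mul, ← mul_pow]
        have f1 : ((g : ℝ) + 2) * (2 / ((g : ℝ) + 2)) ^ 2 ≤ 1 := by
          rw [div_pow, ← mul_div_assoc, div_le_one (by positivity)]
          nlinarith
        have f2 : (2 / ((g : ℝ) + 2)) ≤ 1 := by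
          rw [div_le_one (by positivity)]; linarith
        calc _ ≤ (1 : ℝ) * 1 := mul_le_mul (pow_le_one₀ (by positivity) f1)
              (pow_le_one₀ (by positivity) f2) (by positivity) (by norm_num)
          _ = 1 := one_mul 1
      calc ((g : ℝ) + 2) ^ k / (V : ℝ) * (2 / ((g : ℝ) + 2)) ^ (S i2).card
          = (((g : ℝ) + 2) ^ k * (2 / ((g : ℝ) + 2)) ^ (S i2).card) / V := by ring
        _ ≤ 1 / V := div_le_div_of_nonneg_right e3 (Nat.cast_nonneg V)
        _ ≤ 8 / V := div_le_div_of_nonneg_right (by norm_num) (Nat.cast_nonneg V)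

end Survive

end Pool.Agent.TR
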