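import Mathlib
import Pool.Agent.Lib_helper21.TR.Prob

/-!
# Locations, matchings and the probability of matching a location
-/

set_option linter.unusedSectionVars false

namespace Pool.Agent.TR

open Finset Equiv

/-- A bipartite graph on the set `K` of permutation indices. -/
structure BG (K E : Type) where
  sd : K → Bool
  ky : Bool → E → K
  hsd : ∀ b ε, sd (ky b ε) = b
  inj : ∀ ε ε', ky true ε = ky true ε' → ky false ε = ky false ε' → ε = ε'

/-- The endpoint of type `b` of a location. -/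
def BG.pt {K E U : Type} (H : BG K E) (b : Bool) (ℓ : E × U) : K × U := (H.ky b ℓ.1, ℓ.2)

lemma BG.sd_pt {K E U : Type} (H : BG K E) (b : Bool) (ℓ : E × U) : H.sd (H.pt b ℓ).1 = b :=
  H.hsd b ℓ.1

lemma BG.pt_inj {K E U : Type} (H : BG K E) {ℓ ℓ' : E × U} (h : ∀ b, H.pt b ℓ = H.pt b ℓ') :
    ℓ = ℓ' := by
  obtain ⟨ε, u⟩ := ℓ
  obtain ⟨ε', u'⟩ := ℓ'
  have h1 := h true
  have h2 := h false
  simp only [BG.pt, Prod.mk.injEq] at h1 h2
  rw [H.inj ε ε' h1.1 h2.1, h1.2]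

variable {K U E : Type} [Fintype K] [Fintype U] [Fintype E] [DecidableEq K] [DecidableEq U]
  [DecidableEq E] (H : BG K E)

open Classical in
/-- The isolated edges. -/
noncomputable def mat (F : Finset (K × U)) : Finset (E × U) :=
  Finset.univ.filter fun ℓ => (∀ b, H.pt b ℓ ∈ F) ∧
    ∀ ℓ', (∀ b, H.pt b ℓ' ∈ F) → (∃ b, H.pt b ℓ' = H.pt b ℓ) → ℓ' = ℓ

lemma mem_mat {F : Finset (K × U)} {ℓ : E × U} : ℓ ∈ mat H F ↔ (∀ b, H.pt b ℓ ∈ F) ∧
    ∀ ℓ', (∀ b, H.pt b ℓ' ∈ F) → (∃ b, H.pt b ℓ' = H.pt b ℓ) → ℓ' = ℓ := by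
  classical
  simp [mat]

open Classical in
/-- The free coordinates of a cell. -/
noncomputable def free (F : Finset (K × U)) (D : E × U → Bool) (ℓ : E × U) : Finset (K × U) :=
  Finset.univ.filter fun i => ∃ ℓ' ∈ mat H F, ∃ b, i = H.pt b ℓ' ∧ (ℓ' = ℓ ∨ D ℓ' = b)

open Classical in
/-- The free coordinates of type `b` of a full cell. -/
noncomputable def full (F : Finset (K × U)) (D : E × U → Bool) (b : Bool) : Finset (K × U) :=
  Finset.univ.filter fun i => ∃ ℓ' ∈ mat H F, i = H.pt b ℓ' ∧ D ℓ' = b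

lemma mem_free {F : Finset (K × U)} {D : E × U → Bool} {ℓ : E × U} {i : K × U} :
    i ∈ free H F D ℓ ↔ ∃ ℓ' ∈ mat H F, ∃ b, i = H.pt b ℓ' ∧ (ℓ' = ℓ ∨ D ℓ' = b) := by
  classical
  simp [free]

lemma mem_full {F : Finset (K × U)} {D : E × U → Bool} {b : Bool} {i : K × U} :
    i ∈ full H F D b ↔ ∃ ℓ' ∈ mat H F, i = H.pt b ℓ' ∧ D ℓ' = b := by
  classical
  simp [full]

lemma free_subset {F : Finset (K × U)} {D : E × U → Bool} {ℓ : E × U} : free H F D ℓ ⊆ F := by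
  intro i hi
  obtain ⟨ℓ', h, b, rfl, _⟩ := (mem_free H).1 hi
  exact ((mem_mat H).1 h).1 b

lemma full_subset {F : Finset (K × U)} {D : E × U → Bool} {b : Bool} : full H F D b ⊆ F := by
  intro i hi
  obtain ⟨ℓ', h, rfl, _⟩ := (mem_full H).1 hi
  exact ((mem_mat H).1 h).1 b

lemma full_subset_free {F : Finset (K × U)} {D : E × U → Bool} {b : Bool} {ℓ : E × U} :
    full H F D b ⊆ free H F D ℓ := by
  intro i hi
  obtain ⟨ℓ', h, rfl, hD⟩ := (mem_full H).1 hi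
  exact (mem_free H).2 ⟨ℓ', h, b, rfl, Or.inr hD⟩

/-- Outside the location of the cell one of the endpoints is not free. -/
lemma not_free {F : Finset (K × U)} {D : E × U → Bool} {ℓ ℓ' : E × U} (hne : ℓ' ≠ ℓ) :
    ∃ b, H.pt b ℓ' ∉ free H F D ℓ := by
  by_contra hcon
  push Not at hcon
  obtain ⟨ℓ1, h1, b1, e1, d1⟩ := (mem_free H).1 (hcon true)
  obtain ⟨ℓ2, h2, b2, e2, d2⟩ := (mem_free H).1 (hcon false)
  have hb1 : b1 = true := by
    have := congrArg (fun i => H.sd i.1) e1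
    simp only [BG.sd_pt] at this
    exact this.symm
  have hb2 : b2 = false := by
    have := congrArg (fun i => H.sd i.1) e2
    simp only [BG.sd_pt] at this
    exact this.symm
  subst hb1 hb2
  have hall : ∀ b, H.pt b ℓ' ∈ F := fun b => free_subset H (hcon b)
  have f1 := ((mem_mat H).1 h1).2 ℓ' hall ⟨true, e1⟩
  have f2 := ((mem_mat H).1 h2).2 ℓ' hall ⟨false, e2⟩
  subst f1
  subst f2
  rcases d1 with d1 | d1
  · exact hne d1
  · rcases d2 with d2 | d2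
    · exact hne d2
    · rw [d1] at d2; exact absurd d2 (by decide)

/-- Free coordinates of type `b` when the location of the cell has type `b`. -/
lemma free_eq_full {F : Finset (K × U)} {D : E × U → Bool} {ℓ : E × U} {b : Bool}
    (hD : D ℓ = b) {i : K × U} (hi : H.sd i.1 = b) (h : i ∈ free H F D ℓ) :
    i ∈ full H F D b := by
  obtain ⟨ℓ', h1, b', rfl, h2⟩ := (mem_free H).1 h
  have hb : b' = b := by rw [← hi, BG.sd_pt]
  subst hb
  rcases h2 with h2 | h2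
  · subst h2
    exact (mem_full H).2 ⟨ℓ', h1, rfl, hD⟩
  · exact (mem_full H).2 ⟨ℓ', h1, rfl, h2⟩

open Classical in
/-- The coordinates whose survival destroys the isolation of a location. -/
noncomputable def nb (ℓ : E × U) : Finset (K × U) :=
  Finset.univ.filter fun i => ∃ ℓ' b, ℓ' ≠ ℓ ∧ H.pt b ℓ' = H.pt b ℓ ∧ i = H.pt (!b) ℓ'

lemma mem_nb {ℓ : E × U} {i : K × U} : i ∈ nb H ℓ ↔
    ∃ ℓ' b, ℓ' ≠ ℓ ∧ H.pt b ℓ' = H.pt b ℓ ∧ i = H.pt (!b) ℓ' := by
  classical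
  simp [nb]

lemma nb_ne {ℓ : E × U} {i : K × U} (h : i ∈ nb H ℓ) (b : Bool) : i ≠ H.pt b ℓ := by
  obtain ⟨ℓ', b', hne, h1, rfl⟩ := (mem_nb H).1 h
  intro h2
  have hb : (!b') = b := by
    have := congrArg (fun i => H.sd i.1) h2
    simpa only [BG.sd_pt] using this
  subst hb
  apply hne
  apply H.pt_inj
  intro c
  cases hb' : b' <;> cases c <;> simp_all

section Count

variable {r g V : ℕ} (k : ℕ) (S : K × U → Finset (Fin r))

/-- The number of choices of colours and marks. -/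
noncomputable def nTh (r g V : ℕ) (K U : Type) [Fintype K] [Fintype U] : ℝ :=
  ((g : ℝ) + 2) ^ r * (V : ℝ) ^ Fintype.card (K × U)

lemma card_prod_filter (p : (Fin r → Bool ⊕ Fin g) → (K × U → Fin V) → Prop)
    [DecidablePred fun θ : (Fin r → Bool ⊕ Fin g) × (K × U → Fin V) => p θ.1 θ.2]
    [∀ χ, DecidablePred (p χ)] :
    ((Finset.univ.filter fun θ : (Fin r → Bool ⊕ Fin g) × (K × U → Fin V) =>
      p θ.1 θ.2).card : ℝ) = ∑ χ, ((Finset.univ.filter fun m => p χ m).card : ℝ) := by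
  simp_rw [Finset.card_filter]
  push_cast
  rw [Fintype.sum_prod_type]

open Classical in
lemma pr_FF_le (hV : (g + 2) ^ k ≤ V) (i i' : K × U) (hi : H.sd i.1 = true)
    (hi' : H.sd i'.1 = false) :
    ((Finset.univ.filter fun θ : (Fin r → Bool ⊕ Fin g) × (K × U → Fin V) =>
      i ∈ FSet H.sd k θ.1 θ.2 S ∧ i' ∈ FSet H.sd k θ.1 θ.2 S).card : ℝ) ≤
      nTh r g V K U / (V : ℝ) ^ 2 := by
  have hne : i ≠ i' := by rintro rfl; rw [hi] at hi'; exact absurd hi' (by decide)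
  rw [card_prod_filter (fun χ m => i ∈ FSet H.sd k χ m S ∧ i' ∈ FSet H.sd k χ m S)]
  have e1 : ∀ χ : Fin r → Bool ⊕ Fin g, ((Finset.univ.filter fun m : K × U → Fin V =>
      i ∈ FSet H.sd k χ m S ∧ i' ∈ FSet H.sd k χ m S).card : ℝ) =
      (V : ℝ) ^ Fintype.card (K × U) * (gw H.sd k S V i χ * gw H.sd k S V i' χ) := by
    intro χ
    rw [← count_FF H.sd k S hV χ i i' hne]
  rw [Finset.sum_congr rfl fun χ _ => e1 χ, ← Finset.mul_sum]
  refine (mul_le_mul_of_nonneg_left (sum_gg_le H.sd k S i i' hi hi') (by positivity)).trans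
    (le_of_eq ?_)
  unfold nTh; ring

open Classical in
lemma pr_FF_eq (hV : (g + 2) ^ k ≤ V) (i i' : K × U) (hi : H.sd i.1 = true)
    (hi' : H.sd i'.1 = false) (h1 : (S i).card ≤ k) (h2 : (S i').card ≤ k)
    (h3 : Disjoint (S i) (S i')) :
    ((Finset.univ.filter fun θ : (Fin r → Bool ⊕ Fin g) × (K × U → Fin V) =>
      i ∈ FSet H.sd k θ.1 θ.2 S ∧ i' ∈ FSet H.sd k θ.1 θ.2 S).card : ℝ) =
      nTh r g V K U / (V : ℝ) ^ 2 := by
  have hne : i ≠ i' := by rintro rfl; rw [hi] at hi'; exact absurd hi' (by decide)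
  rw [card_prod_filter (fun χ m => i ∈ FSet H.sd k χ m S ∧ i' ∈ FSet H.sd k χ m S)]
  have e1 : ∀ χ : Fin r → Bool ⊕ Fin g, ((Finset.univ.filter fun m : K × U → Fin V =>
      i ∈ FSet H.sd k χ m S ∧ i' ∈ FSet H.sd k χ m S).card : ℝ) =
      (V : ℝ) ^ Fintype.card (K × U) * (gw H.sd k S V i χ * gw H.sd k S V i' χ) := by
    intro χ
    rw [← count_FF H.sd k S hV χ i i' hne]
  rw [Finset.sum_congr rfl fun χ _ => e1 χ, ← Finset.mul_sum,
    sum_gg H.sd k S i i' hi hi' h1 h2 h3]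
  unfold nTh; ring

open Classical in
lemma pr_FFF_le (hV : (g + 2) ^ k ≤ V) (i i' i2 : K × U) (hi : H.sd i.1 = true)
    (hi' : H.sd i'.1 = false) (h2 : i2 ≠ i) (h2' : i2 ≠ i') :
    ((Finset.univ.filter fun θ : (Fin r → Bool ⊕ Fin g) × (K × U → Fin V) =>
      (i ∈ FSet H.sd k θ.1 θ.2 S ∧ i' ∈ FSet H.sd k θ.1 θ.2 S) ∧
        i2 ∈ FSet H.sd k θ.1 θ.2 S).card : ℝ) ≤
      nTh r g V K U / (V : ℝ) ^ 3 * (if Disjoint (S i2) (S (if H.sd i2.1 then i else i')) then 1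
        else ((g : ℝ) + 2) ^ k) := by
  have hne : i ≠ i' := by rintro rfl; rw [hi] at hi'; exact absurd hi' (by decide)
  rw [card_prod_filter (fun χ m => (i ∈ FSet H.sd k χ m S ∧ i' ∈ FSet H.sd k χ m S) ∧
    i2 ∈ FSet H.sd k χ m S)]
  have e1 : ∀ χ : Fin r → Bool ⊕ Fin g, ((Finset.univ.filter fun m : K × U → Fin V =>
      (i ∈ FSet H.sd k χ m S ∧ i' ∈ FSet H.sd k χ m S) ∧ i2 ∈ FSet H.sd k χ m S).card : ℝ) =
      (V : ℝ) ^ Fintype.card (K × U) * ((gw H.sd k S V i χ * gw H.sd k S V i' χ) *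
        gw H.sd k S V i2 χ) := by
    intro χ
    rw [← count_FFF H.sd k S hV χ i i' i2 hne h2 h2']
  rw [Finset.sum_congr rfl fun χ _ => e1 χ, ← Finset.mul_sum]
  refine (mul_le_mul_of_nonneg_left (sum_ggg_le H.sd k S i i' i2 hi hi') (by positivity)).trans
    (le_of_eq ?_)
  unfold nTh; ring

open Classical in
lemma pr_FFP_le (hV : (g + 2) ^ k ≤ V) (hg : 2 ≤ g) (hkg : k ≤ g + 2) (i i' i2 : K × U)
    (hi : H.sd i.1 = true) (hi' : H.sd i'.1 = false) (h2 : i2 ≠ i) (h2' : i2 ≠ i') :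
    ((Finset.univ.filter fun θ : (Fin r → Bool ⊕ Fin g) × (K × U → Fin V) =>
      (i ∈ FSet H.sd k θ.1 θ.2 S ∧ i' ∈ FSet H.sd k θ.1 θ.2 S) ∧
        i2 ∈ PSet H.sd k θ.1 θ.2 S).card : ℝ) ≤
      nTh r g V K U / (V : ℝ) ^ 2 * (if Disjoint (S i2) (S i ∪ S i') then 8 / (V : ℝ)
        else 1) := by
  have hne : i ≠ i' := by rintro rfl; rw [hi] at hi'; exact absurd hi' (by decide)
  rw [card_prod_filter (fun χ m => (i ∈ FSet H.sd k χ m S ∧ i' ∈ FSet H.sd k χ m S) ∧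
    i2 ∈ PSet H.sd k χ m S)]
  have e1 : ∀ χ : Fin r → Bool ⊕ Fin g, ((Finset.univ.filter fun m : K × U → Fin V =>
      (i ∈ FSet H.sd k χ m S ∧ i' ∈ FSet H.sd k χ m S) ∧ i2 ∈ PSet H.sd k χ m S).card : ℝ) =
      (V : ℝ) ^ Fintype.card (K × U) * ((gw H.sd k S V i χ * gw H.sd k S V i' χ) *
        pw H.sd k S V i2 χ) := by
    intro χ
    rw [← count_FFP H.sd k S hV χ i i' i2 hne h2 h2']
  rw [Finset.sum_congr rfl fun χ _ => e1 χ, ← Finset.mul_sum]
  refine (mul_le_mul_of_nonneg_left (sum_ggp_le H.sd k S hV hg hkg i i' i2 hi hi')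
    (by positivity)).trans (le_of_eq ?_)
  unfold nTh; ring

open Classical in
/-- A good location is matched with the expected probability. -/
lemma pr_mat (hV : (g + 2) ^ k ≤ V) (hg : 2 ≤ g) (hkg : k ≤ g + 2) (f : ℕ) (hf : 0 < f)
    (ℓ : E × U) (h1 : (S (H.pt true ℓ)).card ≤ k) (h2 : (S (H.pt false ℓ)).card ≤ k)
    (h3 : Disjoint (S (H.pt true ℓ)) (S (H.pt false ℓ))) (D0 τ X : ℝ)
    (hD0 : ((nb H ℓ).card : ℝ) ≤ D0)
    (hτ : (((nb H ℓ).filter fun i2 => ¬ Disjoint (S i2)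
      (S (H.pt (H.sd i2.1) ℓ))).card : ℝ) ≤ τ)
    (hX : (((Finset.univ : Finset (K × U)).filter fun i2 => ¬ Disjoint (S i2)
      (S (H.pt true ℓ) ∪ S (H.pt false ℓ))).card : ℝ) ≤ X) :
    nTh r g V K U / (V : ℝ) ^ 2 * (1 - (D0 + τ * ((g : ℝ) + 2) ^ k) / V -
      (2 + 8 * Fintype.card (K × U) / V + X) / f) ≤
    ((Finset.univ.filter fun θ : (Fin r → Bool ⊕ Fin g) × (K × U → Fin V) =>
      ℓ ∈ mat H (FSet H.sd k θ.1 θ.2 S) ∧ (PSet H.sd k θ.1 θ.2 S).card ≤ f).card : ℝ) := by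
  have hV0 : 0 < V := lt_of_lt_of_le (by positivity) hV
  have hV0R : (0 : ℝ) < V := by exact_mod_cast hV0
  have hf0R : (0 : ℝ) < f := by exact_mod_cast hf
  have hn0 : 0 ≤ nTh r g V K U := by unfold nTh; positivity
  set i := H.pt true ℓ with hi
  set i' := H.pt false ℓ with hi'
  have si : H.sd i.1 = true := H.sd_pt true ℓ
  have si' : H.sd i'.1 = false := H.sd_pt false ℓ
  set A := (Finset.univ.filter fun θ : (Fin r → Bool ⊕ Fin g) × (K × U → Fin V) =>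
      i ∈ FSet H.sd k θ.1 θ.2 S ∧ i' ∈ FSet H.sd k θ.1 θ.2 S) with hA
  set B := (Finset.univ.filter fun θ : (Fin r → Bool ⊕ Fin g) × (K × U → Fin V) =>
      ℓ ∈ mat H (FSet H.sd k θ.1 θ.2 S) ∧ (PSet H.sd k θ.1 θ.2 S).card ≤ f) with hB
  set C := A.filter fun θ => f < (PSet H.sd k θ.1 θ.2 S).card with hC
  have hAcard : (A.card : ℝ) = nTh r g V K U / (V : ℝ) ^ 2 :=
    pr_FF_eq H k S hV i i' si si' h1 h2 h3
  -- covering
  have hcov : A ⊆ B ∪ (C ∪ (nb H ℓ).biUnion fun i2 => Finset.univ.filter fun θ :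
      (Fin r → Bool ⊕ Fin g) × (K × U → Fin V) => (i ∈ FSet H.sd k θ.1 θ.2 S ∧
        i' ∈ FSet H.sd k θ.1 θ.2 S) ∧ i2 ∈ FSet H.sd k θ.1 θ.2 S) := by
    intro θ hθ
    have hθ' := (Finset.mem_filter.1 hθ).2
    rw [Finset.mem_union, Finset.mem_union, Finset.mem_biUnion]
    by_cases hc : f < (PSet H.sd k θ.1 θ.2 S).card
    · right; left
      exact Finset.mem_filter.2 ⟨hθ, hc⟩
    by_cases hm : ℓ ∈ mat H (FSet H.sd k θ.1 θ.2 S)
    · left
      exact Finset.mem_filter.2 ⟨Finset.mem_univ _, hm, not_lt.1 hc⟩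
    · right; right
      rw [mem_mat] at hm
      push Not at hm
      obtain ⟨ℓ', hℓ', ⟨b, hb⟩, hne⟩ := hm (by
        intro b
        cases b with
        | true => exact hθ'.1
        | false => exact hθ'.2)
      refine ⟨H.pt (!b) ℓ', (mem_nb H).2 ⟨ℓ', b, hne, hb, rfl⟩, ?_⟩
      exact Finset.mem_filter.2 ⟨Finset.mem_univ _, hθ', hℓ' (!b)⟩
  have hcard := (Finset.card_le_card hcov).trans ((Finset.card_union_le _ _).trans
    (Nat.add_le_add_left ((Finset.card_union_le _ _).trans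
      (Nat.add_le_add_left Finset.card_biUnion_le _)) _))
  have hcardR : (A.card : ℝ) ≤ B.card + (C.card + ∑ i2 ∈ nb H ℓ,
      ((Finset.univ.filter fun θ : (Fin r → Bool ⊕ Fin g) × (K × U → Fin V) =>
        (i ∈ FSet H.sd k θ.1 θ.2 S ∧ i' ∈ FSet H.sd k θ.1 θ.2 S) ∧
          i2 ∈ FSet H.sd k θ.1 θ.2 S).card : ℝ)) := by exact_mod_cast hcard
  -- the neighbours
  have hnb : ∑ i2 ∈ nb H ℓ,
      ((Finset.univ.filter fun θ : (Fin r → Bool ⊕ Fin g) × (K × U → Fin V) =>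
        (i ∈ FSet H.sd k θ.1 θ.2 S ∧ i' ∈ FSet H.sd k θ.1 θ.2 S) ∧
          i2 ∈ FSet H.sd k θ.1 θ.2 S).card : ℝ) ≤
      nTh r g V K U / (V : ℝ) ^ 2 * ((D0 + τ * ((g : ℝ) + 2) ^ k) / V) := by
    have e1 : ∀ i2 ∈ nb H ℓ, ((Finset.univ.filter fun θ : (Fin r → Bool ⊕ Fin g) ×
        (K × U → Fin V) => (i ∈ FSet H.sd k θ.1 θ.2 S ∧ i' ∈ FSet H.sd k θ.1 θ.2 S) ∧
          i2 ∈ FSet H.sd k θ.1 θ.2 S).card : ℝ) ≤
        nTh r g V K U / (V : ℝ) ^ 3 * (1 + if ¬ Disjoint (S i2) (S (H.pt (H.sd i2.1) ℓ)) then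
          ((g : ℝ) + 2) ^ k else 0) := by
      intro i2 hi2
      refine (pr_FFF_le H k S hV i i' i2 si si' (nb_ne H hi2 true) (nb_ne H hi2 false)).trans ?_
      apply mul_le_mul_of_nonneg_left _ (by positivity)
      have e2 : (if H.sd i2.1 then i else i') = H.pt (H.sd i2.1) ℓ := by
        cases H.sd i2.1 <;> rfl
      rw [e2]
      have : (0 : ℝ) ≤ ((g : ℝ) + 2) ^ k := by positivity
      split_ifs <;> linarith
    refine (Finset.sum_le_sum e1).trans ?_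
    rw [← Finset.mul_sum, Finset.sum_add_distrib, Finset.sum_const, nsmul_eq_mul, mul_one,
      ← Finset.sum_filter, Finset.sum_const, nsmul_eq_mul]
    have e3 : ((nb H ℓ).card : ℝ) + (((nb H ℓ).filter fun i2 => ¬ Disjoint (S i2)
      (S (H.pt (H.sd i2.1) ℓ))).card : ℝ) * ((g : ℝ) + 2) ^ k ≤ D0 + τ * ((g : ℝ) + 2) ^ k :=
      add_le_add hD0 (mul_le_mul_of_nonneg_right hτ (by positivity))
    calc _ ≤ nTh r g V K U / (V : ℝ) ^ 3 * (D0 + τ * ((g : ℝ) + 2) ^ k) :=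
          mul_le_mul_of_nonneg_left e3 (by positivity)
      _ = _ := by field_simp
  -- many candidates
  have hCc : (C.card : ℝ) ≤ nTh r g V K U / (V : ℝ) ^ 2 *
      ((2 + 8 * Fintype.card (K × U) / V + X) / f) := by
    have e1 : (f : ℝ) * C.card ≤ ∑ θ ∈ A, ((PSet H.sd k θ.1 θ.2 S).card : ℝ) := by
      calc (f : ℝ) * C.card = ∑ _θ ∈ C, (f : ℝ) := by
            rw [Finset.sum_const, nsmul_eq_mul]; ring
        _ ≤ ∑ θ ∈ C, ((PSet H.sd k θ.1 θ.2 S).card : ℝ) := by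
            refine Finset.sum_le_sum fun θ hθ => ?_
            exact_mod_cast (Finset.mem_filter.1 hθ).2.le
        _ ≤ _ := Finset.sum_le_sum_of_subset_of_nonneg (Finset.filter_subset _ _)
            fun _ _ _ => by positivity
    have e2 : ∑ θ ∈ A, ((PSet H.sd k θ.1 θ.2 S).card : ℝ) = ∑ i2 : K × U,
        ((Finset.univ.filter fun θ : (Fin r → Bool ⊕ Fin g) × (K × U → Fin V) =>
        (i ∈ FSet H.sd k θ.1 θ.2 S ∧ i' ∈ FSet H.sd k θ.1 θ.2 S) ∧
          i2 ∈ PSet H.sd k θ.1 θ.2 S).card : ℝ) := by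
      have f1 : ∀ θ ∈ A, ((PSet H.sd k θ.1 θ.2 S).card : ℝ) =
          ∑ i2 : K × U, if i2 ∈ PSet H.sd k θ.1 θ.2 S then (1 : ℝ) else 0 := by
        intro θ _
        simp
      rw [Finset.sum_congr rfl f1, Finset.sum_comm]
      refine Finset.sum_congr rfl fun i2 _ => ?_
      rw [hA, Finset.sum_filter, Finset.card_filter]
      push_cast
      refine Finset.sum_congr rfl fun θ _ => ?_
      by_cases a1 : i ∈ FSet H.sd k θ.1 θ.2 S ∧ i' ∈ FSet H.sd k θ.1 θ.2 S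
      · by_cases a2 : i2 ∈ PSet H.sd k θ.1 θ.2 S
        · rw [if_pos a1, if_pos a2, if_pos ⟨a1, a2⟩]
        · rw [if_pos a1, if_neg a2, if_neg (fun h => a2 h.2)]
      · rw [if_neg a1, if_neg (fun h => a1 h.1)]
    have e3 : ∀ i2 : K × U, ((Finset.univ.filter fun θ : (Fin r → Bool ⊕ Fin g) ×
        (K × U → Fin V) => (i ∈ FSet H.sd k θ.1 θ.2 S ∧ i' ∈ FSet H.sd k θ.1 θ.2 S) ∧
          i2 ∈ PSet H.sd k θ.1 θ.2 S).card : ℝ) ≤ nTh r g V K U / (V : ℝ) ^ 2 *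
        (((if i2 = i then 1 else 0) + (if i2 = i' then 1 else 0)) + (8 / (V : ℝ) +
          if ¬ Disjoint (S i2) (S i ∪ S i') then 1 else 0)) := by
      intro i2
      by_cases a1 : i2 = i ∨ i2 = i'
      · have f1 : ((Finset.univ.filter fun θ : (Fin r → Bool ⊕ Fin g) ×
          (K × U → Fin V) => (i ∈ FSet H.sd k θ.1 θ.2 S ∧ i' ∈ FSet H.sd k θ.1 θ.2 S) ∧
          i2 ∈ PSet H.sd k θ.1 θ.2 S).card : ℝ) ≤ nTh r g V K U / (V : ℝ) ^ 2 := by
          refine le_trans ?_ (pr_FF_le H k S hV i i' si si')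
          have : (Finset.univ.filter fun θ : (Fin r → Bool ⊕ Fin g) ×
            (K × U → Fin V) => (i ∈ FSet H.sd k θ.1 θ.2 S ∧ i' ∈ FSet H.sd k θ.1 θ.2 S) ∧
            i2 ∈ PSet H.sd k θ.1 θ.2 S) ⊆ A := by
            intro θ hθ
            exact Finset.mem_filter.2 ⟨Finset.mem_univ _, (Finset.mem_filter.1 hθ).2.1⟩
          exact_mod_cast Finset.card_le_card this
        refine f1.trans (le_mul_of_one_le_right (by positivity) ?_)
        have f2 : (0 : ℝ) ≤ 8 / V := by positivity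
        rcases a1 with a1 | a1
        · rw [if_pos a1]; split_ifs <;> linarith
        · rw [if_pos a1]; split_ifs <;> linarith
      · push Not at a1
        refine (pr_FFP_le H k S hV hg hkg i i' i2 si si' a1.1 a1.2).trans ?_
        apply mul_le_mul_of_nonneg_left _ (by positivity)
        rw [if_neg a1.1, if_neg a1.2]
        have f2 : (0 : ℝ) ≤ 8 / V := by positivity
        split_ifs <;> linarith
    have e4 : (f : ℝ) * C.card ≤ nTh r g V K U / (V : ℝ) ^ 2 *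
        (2 + 8 * Fintype.card (K × U) / V + X) := by
      refine e1.trans ?_
      rw [e2]
      refine (Finset.sum_le_sum fun i2 _ => e3 i2).trans ?_
      rw [← Finset.mul_sum]
      apply mul_le_mul_of_nonneg_left _ (by positivity)
      have s1 : ∀ x : K × U, ∑ i2 : K × U, (if i2 = x then (1 : ℝ) else 0) = 1 := by
        intro x; simp
      have s3 : ∑ i2 : K × U, (if ¬ Disjoint (S i2) (S i ∪ S i') then (1 : ℝ) else 0) =
          (((Finset.univ : Finset (K × U)).filter fun i2 => ¬ Disjoint (S i2)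
            (S i ∪ S i')).card : ℝ) := by
        rw [Finset.sum_boole]
      rw [Finset.sum_add_distrib, Finset.sum_add_distrib, Finset.sum_add_distrib,
        Finset.sum_const, Finset.card_univ, nsmul_eq_mul, s1, s1, s3]
      have f3 : (Fintype.card (K × U) : ℝ) * (8 / V) = 8 * Fintype.card (K × U) / V := by ring
      rw [f3]
      linarith
    rw [← mul_div_assoc, le_div_iff₀ hf0R]
    linarith
  have hfin : nTh r g V K U / (V : ℝ) ^ 2 * (1 - (D0 + τ * ((g : ℝ) + 2) ^ k) / V -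
      (2 + 8 * Fintype.card (K × U) / V + X) / f) = nTh r g V K U / (V : ℝ) ^ 2 -
      nTh r g V K U / (V : ℝ) ^ 2 * ((D0 + τ * ((g : ℝ) + 2) ^ k) / V) -
      nTh r g V K U / (V : ℝ) ^ 2 * ((2 + 8 * Fintype.card (K × U) / V + X) / f) := by ring
  rw [hfin, ← hAcard]
  rw [← hAcard] at hnb hCc
  linarith

end Count

end Pool.Agent.TR
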