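import Mathlib
import Pool.Agent.Lib_helper21.TR.Loc
import Pool.Agent.Lib_helper21.TR.CellIneq

/-!
# Cells of accepted inputs
-/

set_option linter.unusedSectionVars false

namespace Pool.Agent.TR

open Finset Equiv

variable {K U E Q : Type} [Fintype K] [Fintype U] [Fintype E] [DecidableEq K] [DecidableEq U]
  [DecidableEq E] (H : BG K E)

/-- There is a triangle at the location `ℓ`. -/
def tri (adj : U → U → Prop) (z : K → Perm U) (ℓ : E × U) : Prop :=
  adj (val z (H.pt true ℓ)) (val z (H.pt false ℓ))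

variable {r g V : ℕ} (M : DM K U Q) (L : ℕ) (Acc : Q → Prop) (adj : U → U → Prop) (k f : ℕ)
  (θ : (Fin r → Bool ⊕ Fin g) × (K × U → Fin V)) (D : E × U → Bool)

/-- The candidates of an input. -/
noncomputable def PP (z : K → Perm U) : Finset (K × U) := PSet H.sd k θ.1 θ.2 (seg M L r z)

/-- The survivors of an input. -/
noncomputable def FF (z : K → Perm U) : Finset (K × U) := FSet H.sd k θ.1 θ.2 (seg M L r z)

/-- Two inputs have the same description. -/
def dsc (z z' : K → Perm U) : Prop :=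
  (∀ j : Fin r, M.run z ((j + 1) * L) = M.run z' ((j + 1) * L)) ∧
    PP H M L k θ z = PP H M L k θ z' ∧ FF H M L k θ z = FF H M L k θ z'

lemma dsc_refl (z : K → Perm U) : dsc H M L k θ z z := ⟨fun _ => rfl, rfl, rfl⟩

variable {H M L k θ} in
lemma dsc.symm {z z' : K → Perm U} (h : dsc H M L k θ z z') : dsc H M L k θ z' z :=
  ⟨fun j => (h.1 j).symm, h.2.1.symm, h.2.2.symm⟩

variable {H M L k θ} in
lemma dsc.trans {z z' z'' : K → Perm U} (h : dsc H M L k θ z z') (h' : dsc H M L k θ z' z'') :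
    dsc H M L k θ z z'' :=
  ⟨fun j => (h.1 j).trans (h'.1 j), h.2.1.trans h'.2.1, h.2.2.trans h'.2.2⟩

variable {H M L k θ} in
lemma dsc.final {z z' : K → Perm U} (h : dsc H M L k θ z z') (hr : 0 < r) :
    M.run z (r * L) = M.run z' (r * L) := by
  have := h.1 ⟨r - 1, by omega⟩
  simp only at this
  rwa [Nat.sub_add_cancel (by omega)] at this

/-- Same description and same values off the free coordinates of the cell. -/
def rel (ℓ : E × U) (z z' : K → Perm U) : Prop :=
  dsc H M L k θ z z' ∧ ∀ i, i ∉ free H (FF H M L k θ z) D ℓ → val z i = val z' i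

lemma rel_refl (ℓ : E × U) (z : K → Perm U) : rel H M L k θ D ℓ z z :=
  ⟨dsc_refl H M L k θ z, fun _ _ => rfl⟩

variable {H M L k θ D} in
lemma rel.symm {ℓ : E × U} {z z' : K → Perm U} (h : rel H M L k θ D ℓ z z') :
    rel H M L k θ D ℓ z' z :=
  ⟨h.1.symm, fun i hi => (h.2 i (by rw [h.1.2.2]; exact hi)).symm⟩

variable {H M L k θ D} in
lemma rel.trans {ℓ : E × U} {z z' z'' : K → Perm U} (h : rel H M L k θ D ℓ z z')
    (h' : rel H M L k θ D ℓ z' z'') : rel H M L k θ D ℓ z z'' :=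
  ⟨h.1.trans h'.1, fun i hi => (h.2 i hi).trans (h'.2 i (by rw [← h.1.2.2]; exact hi))⟩

open Classical in
/-- The accepted inputs with `ℓ` matched and no triangle outside `ℓ`. -/
noncomputable def GG (ℓ : E × U) : Finset (K → Perm U) :=
  Finset.univ.filter fun z => Acc (M.run z (r * L)) ∧ (PP H M L k θ z).card ≤ f ∧
    ℓ ∈ mat H (FF H M L k θ z) ∧ ∀ ℓ', ℓ' ≠ ℓ → ¬ tri H adj z ℓ'

lemma mem_GG {ℓ : E × U} {z : K → Perm U} : z ∈ GG H M L Acc adj k f θ ℓ ↔
    Acc (M.run z (r * L)) ∧ (PP H M L k θ z).card ≤ f ∧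
    ℓ ∈ mat H (FF H M L k θ z) ∧ ∀ ℓ', ℓ' ≠ ℓ → ¬ tri H adj z ℓ' := by
  classical
  simp [GG]

open Classical in
/-- The cell of an input. -/
noncomputable def WW (ℓ : E × U) (z : K → Perm U) : Finset (K → Perm U) :=
  (GG H M L Acc adj k f θ ℓ).filter fun z' => rel H M L k θ D ℓ z z'

lemma mem_WW {ℓ : E × U} {z z' : K → Perm U} : z' ∈ WW H M L Acc adj k f θ D ℓ z ↔
    z' ∈ GG H M L Acc adj k f θ ℓ ∧ rel H M L k θ D ℓ z z' := by
  classical
  simp [WW]

/-- Cells are closed under mixing. -/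
lemma WW_mix (hL : 0 < L) (hr : 0 < r) {ℓ : E × U} {z0 z z' : K → Perm U}
    (hz : z ∈ WW H M L Acc adj k f θ D ℓ z0) (hz' : z' ∈ WW H M L Acc adj k f θ D ℓ z0) :
    mix H.sd z z' ∈ WW H M L Acc adj k f θ D ℓ z0 := by
  rw [mem_WW, mem_GG] at hz hz' ⊢
  obtain ⟨⟨a1, a2, a3, a4⟩, a5⟩ := hz
  obtain ⟨⟨b1, b2, b3, b4⟩, b5⟩ := hz'
  have hrel := a5.symm.trans b5
  have hcl := closure M L r H.sd k θ.1 θ.2 hL z z' (free H (FF H M L k θ z) D ℓ)
    (free_subset H) hrel.2 hrel.1.1 hrel.1.2.1 hrel.1.2.2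
  have hd : dsc H M L k θ z (mix H.sd z z') :=
    ⟨fun j => (hcl.1 j).symm, hcl.2.1.symm, hcl.2.2.symm⟩
  have hrm : rel H M L k θ D ℓ z (mix H.sd z z') := by
    refine ⟨hd, fun i hi => ?_⟩
    cases hs : H.sd i.1 with
    | true => rw [val_mix_true hs]
    | false => rw [val_mix_false hs]; exact hrel.2 i hi
  refine ⟨⟨?_, ?_, ?_, ?_⟩, a5.trans hrm⟩
  · rw [← hd.final hr]; exact a1
  · rw [← hd.2.1]; exact a2
  · rw [← hd.2.2]; exact a3
  · intro ℓ' hne ht
    unfold tri at ht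
    rw [val_mix_true (H.sd_pt true ℓ'), val_mix_false (H.sd_pt false ℓ')] at ht
    obtain ⟨b, hb⟩ := not_free H (F := FF H M L k θ z) (D := D) hne
    cases b with
    | true =>
      rw [hrel.2 _ hb] at ht
      exact b4 ℓ' hne ht
    | false =>
      rw [← hrel.2 _ hb] at ht
      exact a4 ℓ' hne ht

open Classical in
lemma WW_prod (hL : 0 < L) (hr : 0 < r) (ℓ : E × U) (z0 : K → Perm U) (x y : U) :
    ((WW H M L Acc adj k f θ D ℓ z0).filter fun z => val z (H.pt true ℓ) = x ∧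
      val z (H.pt false ℓ) = y).card * (WW H M L Acc adj k f θ D ℓ z0).card =
    ((WW H M L Acc adj k f θ D ℓ z0).filter fun z => val z (H.pt true ℓ) = x).card *
    ((WW H M L Acc adj k f θ D ℓ z0).filter fun z => val z (H.pt false ℓ) = y).card := by
  rw [← Finset.card_product, ← Finset.card_product]
  symm
  refine Finset.card_nbij' (fun p => (mix H.sd p.1 p.2, mix H.sd p.2 p.1))
    (fun p => (mix H.sd p.1 p.2, mix H.sd p.2 p.1)) ?_ ?_ ?_ ?_
  · rintro ⟨z, z'⟩ h
    rw [Finset.mem_coe, Finset.mem_product, Finset.mem_filter, Finset.mem_filter] at h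
    rw [Finset.mem_coe, Finset.mem_product, Finset.mem_filter]
    refine ⟨⟨WW_mix H M L Acc adj k f θ D hL hr h.1.1 h.2.1, ?_, ?_⟩,
      WW_mix H M L Acc adj k f θ D hL hr h.2.1 h.1.1⟩
    · rw [val_mix_true (H.sd_pt true ℓ)]; exact h.1.2
    · rw [val_mix_false (H.sd_pt false ℓ)]; exact h.2.2
  · rintro ⟨z, z'⟩ h
    rw [Finset.mem_coe, Finset.mem_product, Finset.mem_filter] at h
    rw [Finset.mem_coe, Finset.mem_product, Finset.mem_filter, Finset.mem_filter]
    refine ⟨⟨WW_mix H M L Acc adj k f θ D hL hr h.1.1 h.2, ?_⟩,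
      ⟨WW_mix H M L Acc adj k f θ D hL hr h.2 h.1.1, ?_⟩⟩
    · rw [val_mix_true (H.sd_pt true ℓ)]; exact h.1.2.1
    · rw [val_mix_false (H.sd_pt false ℓ)]; exact h.1.2.2
  · rintro ⟨z, z'⟩ _
    simp only [mix_mix]
  · rintro ⟨z, z'⟩ _
    simp only [mix_mix]

open Classical in
/-- The value at the endpoint of type `b` is heavy in the cell. -/
def Heavy (Λ : ℝ) (ℓ : E × U) (b : Bool) (z : K → Perm U) : Prop :=
  Λ * ((WW H M L Acc adj k f θ D ℓ z).card : ℝ) < Fintype.card U *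
    (((WW H M L Acc adj k f θ D ℓ z).filter fun z' => val z' (H.pt b ℓ) =
      val z (H.pt b ℓ)).card : ℝ)

lemma WW_congr {ℓ : E × U} {z z' : K → Perm U} (h : rel H M L k θ D ℓ z z') :
    WW H M L Acc adj k f θ D ℓ z = WW H M L Acc adj k f θ D ℓ z' := by
  ext w
  rw [mem_WW, mem_WW]
  exact ⟨fun hw => ⟨hw.1, h.symm.trans hw.2⟩, fun hw => ⟨hw.1, h.trans hw.2⟩⟩

lemma sum_fiber_nonneg {α : Type} [DecidableEq α] (s : Finset α) (R : α → α → Prop)
    [DecidableRel R] (hrefl : ∀ a, R a a) (hsymm : ∀ a b, R a b → R b a)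
    (htrans : ∀ a b c, R a b → R b c → R a c) (φ : α → ℝ)
    (h : ∀ a ∈ s, 0 ≤ ∑ x ∈ s.filter (fun x => R a x), φ x) : 0 ≤ ∑ x ∈ s, φ x := by
  classical
  have hmaps : ∀ a ∈ s, s.filter (fun x => R a x) ∈ s.image (fun a => s.filter (fun x => R a x)) :=
    fun a ha => Finset.mem_image_of_mem _ ha
  rw [← Finset.sum_fiberwise_of_maps_to hmaps]
  refine Finset.sum_nonneg fun c hc => ?_
  rw [Finset.mem_image] at hc
  obtain ⟨a, ha, rfl⟩ := hc
  refine le_of_le_of_eq (h a ha) ?_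
  refine Finset.sum_congr ?_ fun _ _ => rfl
  ext x
  rw [Finset.mem_filter, Finset.mem_filter]
  refine and_congr_right fun hx => ⟨fun hax => ?_, fun hax => ?_⟩
  · ext y
    rw [Finset.mem_filter, Finset.mem_filter]
    exact and_congr_right fun _ => ⟨fun hxy => htrans _ _ _ hax hxy,
      fun hay => htrans _ _ _ (hsymm _ _ hax) hay⟩
  · have : x ∈ s.filter (fun y => R x y) := Finset.mem_filter.2 ⟨hx, hrefl x⟩
    rw [hax] at this
    exact (Finset.mem_filter.1 this).2

open Classical in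
/-- Summation over a cell by the values at the two endpoints. -/
lemma WW_sum (hL : 0 < L) (hr : 0 < r) (ℓ : E × U) (z0 : K → Perm U) (φ : U → U → Prop) :
    ∑ x, ∑ y, (if φ x y then
      (((WW H M L Acc adj k f θ D ℓ z0).filter fun z => val z (H.pt true ℓ) = x).card : ℝ) *
      (((WW H M L Acc adj k f θ D ℓ z0).filter fun z => val z (H.pt false ℓ) = y).card : ℝ)
      else 0) =
    ((WW H M L Acc adj k f θ D ℓ z0).card : ℝ) * (((WW H M L Acc adj k f θ D ℓ z0).filter fun z =>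
      φ (val z (H.pt true ℓ)) (val z (H.pt false ℓ))).card : ℝ) := by
  set W := WW H M L Acc adj k f θ D ℓ z0 with hW
  have h1 : ∀ x y, (if φ x y then ((W.filter fun z => val z (H.pt true ℓ) = x).card : ℝ) *
      ((W.filter fun z => val z (H.pt false ℓ) = y).card : ℝ) else 0) =
      (W.card : ℝ) * ∑ z ∈ W, if (val z (H.pt true ℓ) = x ∧ val z (H.pt false ℓ) = y) ∧
        φ x y then (1 : ℝ) else 0 := by
    intro x y
    have h2 := WW_prod H M L Acc adj k f θ D hL hr ℓ z0 x y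
    rw [← hW] at h2
    have h3 : ((W.filter fun z => val z (H.pt true ℓ) = x).card : ℝ) *
      ((W.filter fun z => val z (H.pt false ℓ) = y).card : ℝ) =
      (W.card : ℝ) * ((W.filter fun z => val z (H.pt true ℓ) = x ∧
        val z (H.pt false ℓ) = y).card : ℝ) := by
      rw [← Nat.cast_mul, ← h2]; push_cast; ring
    by_cases hφ : φ x y
    · rw [if_pos hφ, h3, Finset.card_filter]
      push_cast
      congr 1
      refine Finset.sum_congr rfl fun z _ => ?_
      simp [hφ]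
    · rw [if_neg hφ]
      simp [hφ]
  simp_rw [h1, ← Finset.mul_sum]
  congr 1
  rw [Finset.card_filter]
  push_cast
  have h4 : ∑ x, ∑ y, ∑ z ∈ W, (if (val z (H.pt true ℓ) = x ∧ val z (H.pt false ℓ) = y) ∧
        φ x y then (1 : ℝ) else 0) = ∑ z ∈ W, ∑ x, ∑ y, (if (val z (H.pt true ℓ) = x ∧
          val z (H.pt false ℓ) = y) ∧ φ x y then (1 : ℝ) else 0) := by
    have : ∀ x, ∑ y, ∑ z ∈ W, (if (val z (H.pt true ℓ) = x ∧ val z (H.pt false ℓ) = y) ∧
        φ x y then (1 : ℝ) else 0) = ∑ z ∈ W, ∑ y, (if (val z (H.pt true ℓ) = x ∧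
          val z (H.pt false ℓ) = y) ∧ φ x y then (1 : ℝ) else 0) := fun x => Finset.sum_comm
    simp_rw [this]
    exact Finset.sum_comm
  rw [h4]
  refine Finset.sum_congr rfl fun z _ => ?_
  rw [Finset.sum_eq_single (val z (H.pt true ℓ)), Finset.sum_eq_single (val z (H.pt false ℓ))]
  · simp
  · intro y _ hy
    rw [if_neg]
    rintro ⟨⟨_, h⟩, _⟩
    exact hy h.symm
  · intro h; exact absurd (Finset.mem_univ _) h
  · intro x _ hx
    refine Finset.sum_eq_zero fun y _ => ?_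
    rw [if_neg]
    rintro ⟨⟨h, _⟩, _⟩
    exact hx h.symm
  · intro h; exact absurd (Finset.mem_univ _) h

open Classical in
/-- The inequality summed over all cells of one location. -/
lemma cell_sum (hL : 0 < L) (hr : 0 < r) (κ₀ lam Λ δ : ℝ) (hδ : 0 < δ) (hδ3 : δ ≤ 1 / 3)
    (hκ : 0 ≤ κ₀) (hκδ : κ₀ ≤ δ / 2) (hlam : 0 ≤ lam) (hΛ : 0 ≤ Λ) (hU : 0 < Fintype.card U)
    (hmix : ∀ a b : U → ℝ, |(∑ x, ∑ y, if adj x y then a x * b y else 0) -
      κ₀ * ((∑ x, a x) * (∑ y, b y))| ≤ lam * (Real.sqrt (∑ x, a x ^ 2) *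
        Real.sqrt (∑ y, b y ^ 2)))
    (hlΛ : lam * Λ / Fintype.card U ≤ δ * κ₀) (ℓ : E × U) :
    (1 - 3 * δ) * κ₀ * (((GG H M L Acc adj k f θ ℓ).filter fun z => ¬ tri H adj z ℓ).card : ℝ) -
      2 / δ * κ₀ * (((GG H M L Acc adj k f θ ℓ).filter fun z => ¬ tri H adj z ℓ ∧
        (Heavy H M L Acc adj k f θ D Λ ℓ true z ∨
          Heavy H M L Acc adj k f θ D Λ ℓ false z)).card : ℝ) ≤
      (((GG H M L Acc adj k f θ ℓ).filter fun z => tri H adj z ℓ).card : ℝ) := by
  set G := GG H M L Acc adj k f θ ℓ with hG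
  have key := sum_fiber_nonneg G (fun z z' => rel H M L k θ D ℓ z z')
    (rel_refl H M L k θ D ℓ) (fun _ _ h => h.symm) (fun _ _ _ h h' => h.trans h')
    (fun z => (if tri H adj z ℓ then (1 : ℝ) else 0) - (1 - 3 * δ) * κ₀ *
      (if ¬ tri H adj z ℓ then 1 else 0) + 2 / δ * κ₀ * (if ¬ tri H adj z ℓ ∧
        (Heavy H M L Acc adj k f θ D Λ ℓ true z ∨
          Heavy H M L Acc adj k f θ D Λ ℓ false z) then 1 else 0)) ?_
  · rw [Finset.sum_add_distrib, Finset.sum_sub_distrib, ← Finset.mul_sum, ← Finset.mul_sum,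
      Finset.sum_boole, Finset.sum_boole, Finset.sum_boole] at key
    linarith
  · intro z0 hz0
    have hWeq : (G.filter fun x => rel H M L k θ D ℓ z0 x) = WW H M L Acc adj k f θ D ℓ z0 := rfl
    rw [hWeq]
    set W := WW H M L Acc adj k f θ D ℓ z0 with hW
    have hz0W : z0 ∈ W := by
      rw [hW, mem_WW]; exact ⟨hz0, rel_refl H M L k θ D ℓ z0⟩
    have hn0 : (0 : ℝ) < W.card := by
      exact_mod_cast Finset.card_pos.2 ⟨z0, hz0W⟩
    set a : U → ℝ := fun x => ((W.filter fun z => val z (H.pt true ℓ) = x).card : ℝ) with ha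
    set b : U → ℝ := fun y => ((W.filter fun z => val z (H.pt false ℓ) = y).card : ℝ) with hb
    have hsa : ∑ x, a x = W.card := by
      simp only [ha]
      rw [← Nat.cast_sum, ← Finset.card_eq_sum_card_fiberwise (fun _ _ => Finset.mem_univ _)]
    have hsb : ∑ x, b x = W.card := by
      simp only [hb]
      rw [← Nat.cast_sum, ← Finset.card_eq_sum_card_fiberwise (fun _ _ => Finset.mem_univ _)]
    have hci := cell_ineq adj κ₀ lam Λ δ hδ hδ3 hκ hκδ hlam hΛ hU hmix hlΛ a b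
      (fun x => Nat.cast_nonneg _) (fun x => Nat.cast_nonneg _)
    rw [hsa, hsb] at hci
    have e1 := WW_sum H M L Acc adj k f θ D hL hr ℓ z0 (fun x y => adj x y)
    have e0 := WW_sum H M L Acc adj k f θ D hL hr ℓ z0 (fun x y => ¬ adj x y)
    have eb := WW_sum H M L Acc adj k f θ D hL hr ℓ z0 (fun x y => ¬ adj x y ∧
      (Λ * (W.card : ℝ) < Fintype.card U * a x ∨ Λ * (W.card : ℝ) < Fintype.card U * b y))
    rw [← hW] at e1 e0 eb
    have s1 : ∑ x, ∑ y, (if adj x y then a x * b y else 0) = (W.card : ℝ) *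
        ((W.filter fun z => adj (val z (H.pt true ℓ)) (val z (H.pt false ℓ))).card : ℝ) := by
      rw [← e1]
    have s0 : ∑ x, ∑ y, (if adj x y then 0 else a x * b y) = (W.card : ℝ) *
        ((W.filter fun z => ¬ adj (val z (H.pt true ℓ)) (val z (H.pt false ℓ))).card : ℝ) := by
      refine Eq.trans ?_ (e0.trans ?_)
      · refine Finset.sum_congr rfl fun x _ => Finset.sum_congr rfl fun y _ => ?_
        by_cases h : adj x y <;> simp [h, ha, hb]
      · congr
    have sb : (∑ x, ∑ y, if ¬ adj x y ∧ (Λ * (W.card : ℝ) < Fintype.card U * a x ∨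
        Λ * (W.card : ℝ) < Fintype.card U * b y) then a x * b y else 0) = (W.card : ℝ) *
        ((W.filter fun z => ¬ adj (val z (H.pt true ℓ)) (val z (H.pt false ℓ)) ∧
        (Λ * (W.card : ℝ) < Fintype.card U *
          ((W.filter fun z' => val z' (H.pt true ℓ) = val z (H.pt true ℓ)).card : ℝ) ∨
        Λ * (W.card : ℝ) < Fintype.card U *
          ((W.filter fun z' => val z' (H.pt false ℓ) = val z (H.pt false ℓ)).card : ℝ))).card :
            ℝ) := by
      refine Eq.trans ?_ (eb.trans ?_)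
      · refine Finset.sum_congr rfl fun x _ => Finset.sum_congr rfl fun y _ => ?_
        congr
      · congr
    rw [s1, s0, sb] at hci
    -- heaviness inside the cell
    have hheavy : ∀ z ∈ W, ∀ c : Bool, (Heavy H M L Acc adj k f θ D Λ ℓ c z ↔
        Λ * (W.card : ℝ) < Fintype.card U *
          ((W.filter fun z' => val z' (H.pt c ℓ) = val z (H.pt c ℓ)).card : ℝ)) := by
      intro z hz c
      unfold Heavy
      rw [← WW_congr H M L Acc adj k f θ D ((mem_WW H M L Acc adj k f θ D).1 hz).2, ← hW]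
    rw [Finset.sum_add_distrib, Finset.sum_sub_distrib, ← Finset.mul_sum, ← Finset.mul_sum,
      Finset.sum_boole, Finset.sum_boole, Finset.sum_boole]
    have f1 : (W.filter fun z => tri H adj z ℓ) = W.filter fun z =>
        adj (val z (H.pt true ℓ)) (val z (H.pt false ℓ)) := rfl
    have f0 : (W.filter fun z => ¬ tri H adj z ℓ) = W.filter fun z =>
        ¬ adj (val z (H.pt true ℓ)) (val z (H.pt false ℓ)) := rfl
    have fb : (W.filter fun z => ¬ tri H adj z ℓ ∧
        (Heavy H M L Acc adj k f θ D Λ ℓ true z ∨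
          Heavy H M L Acc adj k f θ D Λ ℓ false z)) = W.filter fun z =>
        ¬ adj (val z (H.pt true ℓ)) (val z (H.pt false ℓ)) ∧
        (Λ * (W.card : ℝ) < Fintype.card U *
          ((W.filter fun z' => val z' (H.pt true ℓ) = val z (H.pt true ℓ)).card : ℝ) ∨
        Λ * (W.card : ℝ) < Fintype.card U *
          ((W.filter fun z' => val z' (H.pt false ℓ) = val z (H.pt false ℓ)).card : ℝ)) := by
      refine Finset.filter_congr fun z hz => ?_
      rw [hheavy z hz true, hheavy z hz false]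
      rfl
    rw [f1, f0, fb]
    have h5 : (W.card : ℝ) * ((1 - 3 * δ) * κ₀ * ((W.filter fun z =>
        ¬ adj (val z (H.pt true ℓ)) (val z (H.pt false ℓ))).card : ℝ) - 2 / δ * κ₀ *
        ((W.filter fun z => ¬ adj (val z (H.pt true ℓ)) (val z (H.pt false ℓ)) ∧
        (Λ * (W.card : ℝ) < Fintype.card U *
          ((W.filter fun z' => val z' (H.pt true ℓ) = val z (H.pt true ℓ)).card : ℝ) ∨
        Λ * (W.card : ℝ) < Fintype.card U *
          ((W.filter fun z' => val z' (H.pt false ℓ) = val z (H.pt false ℓ)).card : ℝ))).card :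
            ℝ)) ≤ (W.card : ℝ) * ((W.filter fun z =>
        adj (val z (H.pt true ℓ)) (val z (H.pt false ℓ))).card : ℝ) := by
      refine le_trans (le_of_eq ?_) hci
      ring
    have h6 := le_of_mul_le_mul_left h5 hn0
    linarith

end Pool.Agent.TR
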