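import Mathlib
import Pool.Agent.Lib_helper21.TR.Cell

/-!
# Heavy values of cells are heavy one-sidedly
-/

set_option linter.unusedSectionVars false

namespace Pool.Agent.TR

open Finset Equiv

variable {K U E Q : Type} [Fintype K] [Fintype U] [Fintype E] [DecidableEq K] [DecidableEq U]
  [DecidableEq E] (H : BG K E)

variable {r g V : ℕ} (M : DM K U Q) (L : ℕ) (Acc : Q → Prop) (adj : U → U → Prop) (k f : ℕ)
  (θ : (Fin r → Bool ⊕ Fin g) × (K × U → Fin V)) (D : E × U → Bool)

/-- Mixing with the sides chosen by `b`. -/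
def mixb (sd : K → Bool) (b : Bool) (z z' : K → Perm U) : K → Perm U :=
  if b then mix sd z z' else mix sd z' z

lemma mixb_eq (sd : K → Bool) (b : Bool) (z z' : K → Perm U) (κ : K) :
    mixb sd b z z' κ = if sd κ = b then z κ else z' κ := by
  unfold mixb mix
  cases b <;> cases h : sd κ <;> simp [h]

open Classical in
/-- The accepted triangle-free inputs with few candidates. -/
noncomputable def ZT : Finset (K → Perm U) :=
  Finset.univ.filter fun z => Acc (M.run z (r * L)) ∧ (PP H M L k θ z).card ≤ f ∧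
    ∀ ℓ : E × U, ¬ tri H adj z ℓ

lemma mem_ZT {z : K → Perm U} : z ∈ ZT H M L Acc adj k f θ ↔
    Acc (M.run z (r * L)) ∧ (PP H M L k θ z).card ≤ f ∧ ∀ ℓ : E × U, ¬ tri H adj z ℓ := by
  classical
  simp [ZT]

open Classical in
/-- The one-sided class. -/
noncomputable def CC (b : Bool) (z : K → Perm U) : Finset (K → Perm U) :=
  (ZT H M L Acc adj k f θ).filter fun z' => dsc H M L k θ z z' ∧
    ∀ i, i ∉ full H (FF H M L k θ z) D b → val z i = val z' i

lemma mem_CC {b : Bool} {z z' : K → Perm U} : z' ∈ CC H M L Acc adj k f θ D b z ↔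
    z' ∈ ZT H M L Acc adj k f θ ∧ dsc H M L k θ z z' ∧
    ∀ i, i ∉ full H (FF H M L k θ z) D b → val z i = val z' i := by
  classical
  simp [CC]

open Classical in
/-- One-sided heaviness. -/
def OHeavy (Λ : ℝ) (b : Bool) (z : K → Perm U) (i : K × U) : Prop :=
  Λ * ((CC H M L Acc adj k f θ D b z).card : ℝ) < Fintype.card U *
    (((CC H M L Acc adj k f θ D b z).filter fun z' => val z' i = val z i).card : ℝ)

lemma OHeavy_of_Heavy (hL : 0 < L) (hr : 0 < r) {Λ : ℝ} (hΛ : 0 ≤ Λ) {ℓ : E × U} {b : Bool}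
    {z : K → Perm U} (hz : z ∈ GG H M L Acc adj k f θ ℓ) (ht : ¬ tri H adj z ℓ) (hD : D ℓ = b)
    (hh : Heavy H M L Acc adj k f θ D Λ ℓ b z) :
    OHeavy H M L Acc adj k f θ D Λ b z (H.pt b ℓ) := by
  classical
  unfold Heavy at hh
  set W := WW H M L Acc adj k f θ D ℓ z with hW
  have hzW : z ∈ W := (mem_WW H M L Acc adj k f θ D).2 ⟨hz, rel_refl H M L k θ D ℓ z⟩
  have hmixb : ∀ z1 ∈ W, ∀ z2 ∈ W, mixb H.sd b z1 z2 ∈ W := by
    intro z1 h1 z2 h2
    unfold mixb
    split_ifs
    · exact WW_mix H M L Acc adj k f θ D hL hr h1 h2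
    · exact WW_mix H M L Acc adj k f θ D hL hr h2 h1
  set W1 := W.filter fun z' => ∀ κ, H.sd κ ≠ b → z' κ = z κ with hW1
  set W2 := W.filter fun z' => ∀ κ, H.sd κ = b → z' κ = z κ with hW2
  have hzW2 : z ∈ W2 := Finset.mem_filter.2 ⟨hzW, fun _ _ => rfl⟩
  have hbij : ∀ p : U → Prop, (W.filter fun z' => p (val z' (H.pt b ℓ))).card =
      (W1.filter fun z' => p (val z' (H.pt b ℓ))).card * W2.card := by
    intro p
    rw [← Finset.card_product]
    refine Finset.card_nbij' (fun z' => (mixb H.sd b z' z, mixb H.sd b z z'))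
      (fun q => mixb H.sd b q.1 q.2) ?_ ?_ ?_ ?_
    · intro z' hz'
      rw [Finset.mem_coe, Finset.mem_filter] at hz'
      rw [Finset.mem_coe, Finset.mem_product, Finset.mem_filter, hW1, hW2, Finset.mem_filter,
        Finset.mem_filter]
      refine ⟨⟨⟨hmixb _ hz'.1 _ hzW, ?_⟩, ?_⟩, hmixb _ hzW _ hz'.1, ?_⟩
      · intro κ hκ
        simp only
        rw [mixb_eq, if_neg hκ]
      · have : val (mixb H.sd b z' z) (H.pt b ℓ) = val z' (H.pt b ℓ) := by
          unfold val
          rw [mixb_eq, if_pos (H.sd_pt b ℓ)]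
        simp only [this]
        exact hz'.2
      · intro κ hκ
        simp only
        rw [mixb_eq, if_pos hκ]
    · rintro ⟨z1, z2⟩ hq
      rw [Finset.mem_coe, Finset.mem_product, Finset.mem_filter, hW1, hW2, Finset.mem_filter,
        Finset.mem_filter] at hq
      rw [Finset.mem_coe, Finset.mem_filter]
      refine ⟨hmixb _ hq.1.1.1 _ hq.2.1, ?_⟩
      have : val (mixb H.sd b z1 z2) (H.pt b ℓ) = val z1 (H.pt b ℓ) := by
        unfold val
        rw [mixb_eq, if_pos (H.sd_pt b ℓ)]
      simp only [this]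
      exact hq.1.2
    · intro z' _
      funext κ
      simp only [mixb_eq]
      split_ifs <;> rfl
    · rintro ⟨z1, z2⟩ hq
      rw [Finset.mem_coe, Finset.mem_product, Finset.mem_filter, hW1, hW2, Finset.mem_filter,
        Finset.mem_filter] at hq
      have h1 := hq.1.1.2
      have h2 := hq.2.2
      simp only at h1 h2
      refine Prod.ext ?_ ?_
      · funext κ
        simp only [mixb_eq]
        split_ifs with h
        · rfl
        · exact (h1 κ h).symm
      · funext κ
        simp only [mixb_eq]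
        split_ifs with h
        · exact (h2 κ h).symm
        · rfl
  have hW2pos : (0 : ℝ) < W2.card := by exact_mod_cast Finset.card_pos.2 ⟨z, hzW2⟩
  have c1 : (W.card : ℝ) = W1.card * W2.card := by
    have := hbij (fun _ => True)
    simp only [Finset.filter_true] at this
    exact_mod_cast this
  have c2 : ((W.filter fun z' => val z' (H.pt b ℓ) = val z (H.pt b ℓ)).card : ℝ) =
      (W1.filter fun z' => val z' (H.pt b ℓ) = val z (H.pt b ℓ)).card * W2.card := by
    have h0 := hbij (fun x => x = val z (H.pt b ℓ))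
    have h1 : (W.filter fun z' => val z' (H.pt b ℓ) = val z (H.pt b ℓ)).card =
        (W1.filter fun z' => val z' (H.pt b ℓ) = val z (H.pt b ℓ)).card * W2.card := by
      convert h0
    exact_mod_cast h1
  have hred : Λ * (W1.card : ℝ) < Fintype.card U *
      ((W1.filter fun z' => val z' (H.pt b ℓ) = val z (H.pt b ℓ)).card : ℝ) := by
    have h3 : (Λ * (W1.card : ℝ)) * W2.card < (Fintype.card U *
      ((W1.filter fun z' => val z' (H.pt b ℓ) = val z (H.pt b ℓ)).card : ℝ)) * W2.card := by
      calc _ = Λ * ((W1.card : ℝ) * W2.card) := by ring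
        _ < _ := by rw [← c1]; exact hh
        _ = _ := by rw [c2]; ring
    exact lt_of_mul_lt_mul_right h3 hW2pos.le
  rw [mem_GG] at hz
  -- the members of the class with the same value
  have hsub1 : (W1.filter fun z' => val z' (H.pt b ℓ) = val z (H.pt b ℓ)) ⊆
      (CC H M L Acc adj k f θ D b z).filter fun z' => val z' (H.pt b ℓ) = val z (H.pt b ℓ) := by
    intro z' hz'
    rw [Finset.mem_filter, hW1, Finset.mem_filter, hW, mem_WW, mem_GG] at hz'
    obtain ⟨⟨⟨⟨a1, a2, a3, a4⟩, a5⟩, a6⟩, a7⟩ := hz'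
    rw [Finset.mem_filter, mem_CC, mem_ZT]
    refine ⟨⟨⟨a1, a2, ?_⟩, a5.1, ?_⟩, a7⟩
    · intro ℓ'
      by_cases hℓ : ℓ' = ℓ
      · subst hℓ
        have hv : ∀ c, val z' (H.pt c ℓ') = val z (H.pt c ℓ') := by
          intro c
          by_cases hc : c = b
          · subst hc; exact a7
          · unfold val
            rw [a6 _ (by rw [H.sd_pt]; exact hc)]
        unfold tri
        rw [hv, hv]
        exact ht
      · exact a4 ℓ' hℓ
    · intro i hi
      by_cases hs : H.sd i.1 = b
      · refine a5.2 i fun hfree => hi ?_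
        exact free_eq_full H hD hs hfree
      · unfold val
        rw [a6 _ hs]
  have hsub2 : CC H M L Acc adj k f θ D b z ⊆ W1 := by
    intro z' hz'
    rw [mem_CC, mem_ZT] at hz'
    obtain ⟨⟨a1, a2, a3⟩, a4, a5⟩ := hz'
    rw [hW1, Finset.mem_filter, hW, mem_WW, mem_GG]
    refine ⟨⟨⟨a1, a2, ?_, fun ℓ' _ => a3 ℓ'⟩, a4, ?_⟩, ?_⟩
    · rw [← a4.2.2]; exact hz.2.2.1
    · intro i hi
      exact a5 i fun h => hi (full_subset_free H h)
    · intro κ hκ
      ext u
      refine (a5 (κ, u) fun h => hκ ?_).symm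
      obtain ⟨ℓ', _, e, _⟩ := (mem_full H).1 h
      have := congrArg (fun i => H.sd i.1) e
      simpa [BG.sd_pt] using this
  unfold OHeavy
  have hc1 : ((W1.filter fun z' => val z' (H.pt b ℓ) = val z (H.pt b ℓ)).card : ℝ) ≤
      (((CC H M L Acc adj k f θ D b z).filter fun z' => val z' (H.pt b ℓ) =
        val z (H.pt b ℓ)).card : ℝ) := by exact_mod_cast Finset.card_le_card hsub1
  have hc2 : ((CC H M L Acc adj k f θ D b z).card : ℝ) ≤ W1.card := by
    exact_mod_cast Finset.card_le_card hsub2
  calc Λ * ((CC H M L Acc adj k f θ D b z).card : ℝ) ≤ Λ * W1.card :=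
        mul_le_mul_of_nonneg_left hc2 hΛ
    _ < _ := hred
    _ ≤ _ := mul_le_mul_of_nonneg_left hc1 (by positivity)

lemma free_update (F : Finset (K × U)) (ℓ : E × U) (c : Bool) :
    free H F (Function.update D ℓ c) ℓ = free H F D ℓ := by
  ext i
  rw [mem_free, mem_free]
  refine exists_congr fun ℓ' => and_congr_right fun _ => exists_congr fun b =>
    and_congr_right fun _ => ?_
  by_cases h : ℓ' = ℓ
  · simp [h]
  · rw [Function.update_of_ne h]

lemma Heavy_update {Λ : ℝ} {ℓ : E × U} {b c : Bool} {z : K → Perm U} :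
    Heavy H M L Acc adj k f θ (Function.update D ℓ c) Λ ℓ b z ↔
      Heavy H M L Acc adj k f θ D Λ ℓ b z := by
  have h1 : ∀ z z', rel H M L k θ (Function.update D ℓ c) ℓ z z' ↔ rel H M L k θ D ℓ z z' := by
    intro z z'
    unfold rel
    rw [free_update]
  have h2 : WW H M L Acc adj k f θ (Function.update D ℓ c) ℓ z =
      WW H M L Acc adj k f θ D ℓ z := by
    ext w
    rw [mem_WW, mem_WW, h1]
  unfold Heavy
  rw [h2]

open Classical in
/-- Heaviness is independent of the type of the location. -/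
lemma heavy_types (Λ : ℝ) (ℓ : E × U) (b : Bool) (z : K → Perm U) :
    (Finset.univ.filter fun D : E × U → Bool => Heavy H M L Acc adj k f θ D Λ ℓ b z).card =
    2 * (Finset.univ.filter fun D : E × U → Bool => Heavy H M L Acc adj k f θ D Λ ℓ b z ∧
      D ℓ = b).card := by
  have h1 := Finset.card_filter_add_card_filter_not
    (s := (Finset.univ.filter fun D : E × U → Bool => Heavy H M L Acc adj k f θ D Λ ℓ b z))
    (fun D => D ℓ = b)
  rw [Finset.filter_filter, Finset.filter_filter] at h1
  have h2 : (Finset.univ.filter fun D : E × U → Bool => Heavy H M L Acc adj k f θ D Λ ℓ b z ∧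
      ¬ D ℓ = b).card = (Finset.univ.filter fun D : E × U → Bool =>
        Heavy H M L Acc adj k f θ D Λ ℓ b z ∧ D ℓ = b).card := by
    refine Finset.card_nbij' (fun D => Function.update D ℓ (!D ℓ))
      (fun D => Function.update D ℓ (!D ℓ)) ?_ ?_ ?_ ?_
    · intro D hD
      simp only [Finset.coe_filter, Finset.mem_univ, true_and, Set.mem_ofPred_eq] at hD ⊢
      refine ⟨(Heavy_update H M L Acc adj k f θ D).2 hD.1, ?_⟩
      rw [Function.update_self]
      have := hD.2
      cases hx : D ℓ <;> cases b <;> simp_all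
    · intro D hD
      simp only [Finset.coe_filter, Finset.mem_univ, true_and, Set.mem_ofPred_eq] at hD ⊢
      refine ⟨(Heavy_update H M L Acc adj k f θ D).2 hD.1, ?_⟩
      rw [Function.update_self]
      have := hD.2
      cases hx : D ℓ <;> cases b <;> simp_all
    · intro D _
      simp
    · intro D _
      simp
  omega

end Pool.Agent.TR
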