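import Mathlib
import Pool.Agent.Lib_helper21.TS.Density
import Pool.Agent.Lib_helper21.TR.Heavy

/-!
# Few inputs have many heavy values
-/

set_option linter.unusedSectionVars false

namespace Pool.Agent.TR

open Finset Equiv Pool.Agent.TS

section Fact

lemma fact_ratio (m h : ℕ) (hm : h ≤ m) :
    ((m - h).factorial : ℝ) * (m : ℝ) ^ h ≤ Real.exp h * m.factorial := by
  have h1 : h.factorial * m ^ h ≤ h ^ h * m.descFactorial h := by
    rw [← Nat.descFactorial_self, Nat.descFactorial_eq_prod_range, Nat.descFactorial_eq_prod_range,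
      ← Finset.card_range h, ← Finset.prod_const, ← Finset.prod_const, Finset.card_range,
      ← Finset.prod_mul_distrib, ← Finset.prod_mul_distrib]
    refine Finset.prod_le_prod' fun i hi => ?_
    rw [Finset.mem_range] at hi
    rw [Nat.sub_mul, Nat.mul_sub]
    have : h * i ≤ i * m := by rw [mul_comm]; exact Nat.mul_le_mul_left _ hm
    omega
  have h2 : (m - h).factorial * m.descFactorial h = m.factorial :=
    Nat.factorial_mul_descFactorial hm
  have h3 := pow_le_exp_mul_factorial h
  have h1R : (h.factorial : ℝ) * (m : ℝ) ^ h ≤ (h : ℝ) ^ h * m.descFactorial h := by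
    exact_mod_cast h1
  have hf : (0 : ℝ) < h.factorial := by exact_mod_cast Nat.factorial_pos h
  have h4 : (m : ℝ) ^ h ≤ Real.exp h * m.descFactorial h := by
    have : (h.factorial : ℝ) * (m : ℝ) ^ h ≤ h.factorial * (Real.exp h * m.descFactorial h) := by
      calc _ ≤ (h : ℝ) ^ h * m.descFactorial h := h1R
        _ ≤ (Real.exp h * h.factorial) * m.descFactorial h :=
            mul_le_mul_of_nonneg_right h3 (by positivity)
        _ = _ := by ring
    exact le_of_mul_le_mul_left this hf
  calc ((m - h).factorial : ℝ) * (m : ℝ) ^ h ≤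
        (m - h).factorial * (Real.exp h * m.descFactorial h) :=
        mul_le_mul_of_nonneg_left h4 (by positivity)
    _ = Real.exp h * (((m - h).factorial * m.descFactorial h : ℕ) : ℝ) := by push_cast; ring
    _ = _ := by rw [h2]

end Fact

variable {K U : Type} [Fintype K] [Fintype U] [DecidableEq K] [DecidableEq U]

/-- The number of elements of `F` in the permutation `κ`. -/
def cntK (F : Finset (K × U)) (κ : K) : ℕ := (Finset.univ.filter fun u => (κ, u) ∈ F).card

open Classical in
/-- The inputs agreeing with `z` off `F`. -/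
noncomputable def clsOff (F : Finset (K × U)) (z : K → Perm U) : Finset (K → Perm U) :=
  Finset.univ.filter fun z' => ∀ i, i ∉ F → val z i = val z' i

lemma mem_clsOff {F : Finset (K × U)} {z z' : K → Perm U} :
    z' ∈ clsOff F z ↔ ∀ i, i ∉ F → val z i = val z' i := by
  classical
  simp [clsOff]

lemma card_clsOff (F : Finset (K × U)) (z : K → Perm U) :
    (clsOff F z).card = ∏ κ, (cntK F κ).factorial := by
  classical
  have h1 : (clsOff F z).card = (Fintype.piFinset fun κ => Finset.univ.filter fun g : Perm U =>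
      ∀ u, u ∉ (Finset.univ.filter fun u => (κ, u) ∈ F) → g u = u).card := by
    refine Finset.card_nbij' (fun z' κ => (z κ)⁻¹ * z' κ) (fun g κ => z κ * g κ) ?_ ?_ ?_ ?_
    · intro z' hz'
      rw [Finset.mem_coe, mem_clsOff] at hz'
      rw [Finset.mem_coe, Fintype.mem_piFinset]
      intro κ
      rw [Finset.mem_filter]
      refine ⟨Finset.mem_univ _, fun u hu => ?_⟩
      have := hz' (κ, u) (by simpa using hu)
      simp only [val] at this
      rw [Perm.mul_apply, Perm.inv_eq_iff_eq]
      exact this.symm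
    · intro g hg
      rw [Finset.mem_coe, Fintype.mem_piFinset] at hg
      rw [Finset.mem_coe, mem_clsOff]
      rintro ⟨κ, u⟩ hi
      have := (Finset.mem_filter.1 (hg κ)).2 u (by simpa using hi)
      simp only [val, Perm.mul_apply, this]
    · intro z' _
      funext κ
      simp
    · intro g _
      funext κ
      simp
  rw [h1, Fintype.card_piFinset]
  refine Finset.prod_congr rfl fun κ _ => ?_
  rw [cntK, ← card_perm_fix]

lemma card_clsOff_ratio (F Hs : Finset (K × U)) (hH : Hs ⊆ F) :
    (∏ κ, ((cntK (F \ Hs) κ).factorial : ℝ)) * ∏ i ∈ Hs, (cntK F i.1 : ℝ) ≤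
      Real.exp Hs.card * ∏ κ, ((cntK F κ).factorial : ℝ) := by
  classical
  have h1 : ∏ i ∈ Hs, (cntK F i.1 : ℝ) = ∏ κ, (cntK F κ : ℝ) ^ (cntK Hs κ) := by
    rw [← Finset.prod_fiberwise_of_maps_to (s := Hs) (t := Finset.univ)
      (g := fun p => p.1) (fun _ _ => Finset.mem_univ _)]
    refine Finset.prod_congr rfl fun κ _ => ?_
    rw [Finset.prod_congr rfl (g := fun _ => (cntK F κ : ℝ))]
    · rw [Finset.prod_const]
      congr 1
      rw [cntK]
      refine Finset.card_bij (fun p _ => p.2) ?_ ?_ ?_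
      · rintro ⟨κ', u⟩ hp
        rw [Finset.mem_filter] at hp
        obtain ⟨hp1, rfl⟩ := hp
        simpa using hp1
      · rintro ⟨κ', u⟩ hp ⟨κ'', u'⟩ hp' huu
        rw [Finset.mem_filter] at hp hp'
        exact Prod.ext (hp.2.trans hp'.2.symm) huu
      · intro u hu
        exact ⟨(κ, u), by simpa using hu, rfl⟩
    · intro p hp
      rw [Finset.mem_filter] at hp
      rw [hp.2]
  have h2 : (Hs.card : ℝ) = ∑ κ, (cntK Hs κ : ℝ) := by
    rw [Finset.card_eq_sum_card_fiberwise (s := Hs) (t := Finset.univ)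
      (f := fun p => p.1) (fun _ _ => Finset.mem_univ _)]
    push_cast
    refine Finset.sum_congr rfl fun κ _ => ?_
    rw [cntK]
    norm_cast
    refine Finset.card_bij (fun p _ => p.2) ?_ ?_ ?_
    · rintro ⟨κ', u⟩ hp
      rw [Finset.mem_filter] at hp
      obtain ⟨hp1, rfl⟩ := hp
      simpa using hp1
    · rintro ⟨κ', u⟩ hp ⟨κ'', u'⟩ hp' huu
      rw [Finset.mem_filter] at hp hp'
      exact Prod.ext (hp.2.trans hp'.2.symm) huu
    · intro u hu
      exact ⟨(κ, u), by simpa using hu, rfl⟩
  rw [h1, h2, Real.exp_sum, ← Finset.prod_mul_distrib, ← Finset.prod_mul_distrib]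
  refine Finset.prod_le_prod (fun κ _ => by positivity) fun κ _ => ?_
  have h3 : cntK (F \ Hs) κ = cntK F κ - cntK Hs κ := by
    unfold cntK
    rw [← Finset.card_sdiff_of_subset]
    · congr 1
      ext u
      simp [Finset.mem_sdiff]
    · intro u hu
      simp only [Finset.mem_filter, Finset.mem_univ, true_and] at hu ⊢
      exact hH hu
  have h4 : cntK Hs κ ≤ cntK F κ := by
    unfold cntK
    refine Finset.card_le_card fun u hu => ?_
    simp only [Finset.mem_filter, Finset.mem_univ, true_and] at hu ⊢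
    exact hH hu
  rw [h3]
  exact fact_ratio _ _ h4

open Classical in
/-- The class of `z` within `Z`. -/
noncomputable def cl (Z : Finset (K → Perm U)) (F : Finset (K × U)) (z : K → Perm U) :
    Finset (K → Perm U) := Z.filter fun z' => ∀ i, i ∉ F → val z i = val z' i

lemma mem_cl {Z : Finset (K → Perm U)} {F : Finset (K × U)} {z z' : K → Perm U} :
    z' ∈ cl Z F z ↔ z' ∈ Z ∧ ∀ i, i ∉ F → val z i = val z' i := by
  classical
  simp [cl]

open Classical in
/-- Heaviness in the class. -/
def hv (Z : Finset (K → Perm U)) (F : Finset (K × U)) (Λ : ℝ) (z : K → Perm U)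
    (i : K × U) : Prop :=
  Λ * ((cl Z F z).card : ℝ) < Fintype.card U *
    (((cl Z F z).filter fun z' => val z' i = val z i).card : ℝ)

open Classical in
/-- The count for one class and one set of coordinates. -/
lemma class_count (Z : Finset (K → Perm U)) (F Hs : Finset (K × U)) (hH : Hs ⊆ F) (Λ : ℝ)
    (hΛ : 0 < Λ) (hU : 0 < Fintype.card U)
    (hbig : ∀ i ∈ Hs, (Fintype.card U : ℝ) / Real.sqrt Λ ≤ cntK F i.1) (z0 : K → Perm U)
    (hz0 : z0 ∈ Z) :
    (((cl Z F z0).filter fun z => ∀ i ∈ Hs, hv Z F Λ z i).card : ℝ) ≤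
      (Real.exp 1 / Real.sqrt Λ) ^ Hs.card * (clsOff F z0).card := by
  set n : ℝ := (Fintype.card U : ℝ) with hn
  have hn0 : 0 < n := by rw [hn]; exact_mod_cast hU
  have hsq : 0 < Real.sqrt Λ := Real.sqrt_pos.2 hΛ
  set C := cl Z F z0 with hC
  have hz0C : z0 ∈ C := (mem_cl).2 ⟨hz0, fun _ _ => rfl⟩
  have hC0 : (0 : ℝ) < C.card := by exact_mod_cast Finset.card_pos.2 ⟨z0, hz0C⟩
  have hcl : ∀ z ∈ C, cl Z F z = C := by
    intro z hz
    rw [hC, mem_cl] at hz
    ext w
    rw [hC, mem_cl, mem_cl]
    exact ⟨fun h => ⟨h.1, fun i hi => (hz.2 i hi).trans (h.2 i hi)⟩,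
      fun h => ⟨h.1, fun i hi => (hz.2 i hi).symm.trans (h.2 i hi)⟩⟩
  -- heavy values
  set HV : K × U → Finset U := fun i => Finset.univ.filter fun x =>
    Λ * (C.card : ℝ) < n * ((C.filter fun z' => val z' i = x).card : ℝ) with hHV
  have hHVcard : ∀ i, ((HV i).card : ℝ) ≤ n / Λ := by
    intro i
    rw [le_div_iff₀ hΛ]
    have h1 : ((HV i).card : ℝ) * (Λ * C.card) ≤ n * C.card := by
      calc ((HV i).card : ℝ) * (Λ * C.card) = ∑ _x ∈ HV i, Λ * (C.card : ℝ) := by
            rw [Finset.sum_const, nsmul_eq_mul]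
        _ ≤ ∑ x ∈ HV i, n * ((C.filter fun z' => val z' i = x).card : ℝ) :=
            Finset.sum_le_sum fun x hx => (Finset.mem_filter.1 hx).2.le
        _ ≤ ∑ x, n * ((C.filter fun z' => val z' i = x).card : ℝ) :=
            Finset.sum_le_sum_of_subset_of_nonneg (Finset.subset_univ _)
              fun _ _ _ => by positivity
        _ = n * C.card := by
            rw [← Finset.mul_sum]
            congr 1
            rw [Finset.card_eq_sum_card_fiberwise (s := C) (t := Finset.univ)
              (f := fun z' => val z' i) (fun _ _ => Finset.mem_univ _)]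
            push_cast
            rfl
    have h2 : (((HV i).card : ℝ) * Λ) * C.card ≤ n * C.card := by
      calc _ = ((HV i).card : ℝ) * (Λ * C.card) := by ring
        _ ≤ _ := h1
    exact le_of_mul_le_mul_right h2 hC0
  set S := C.filter fun z => ∀ i ∈ Hs, hv Z F Λ z i with hS
  have hSval : ∀ z ∈ S, ∀ i ∈ Hs, val z i ∈ HV i := by
    intro z hz i hi
    rw [hS, Finset.mem_filter] at hz
    have := hz.2 i hi
    unfold hv at this
    rw [hcl z hz.1] at this
    rw [hHV, Finset.mem_filter]
    exact ⟨Finset.mem_univ _, this⟩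
  set ph : (K → Perm U) → (K × U → Option U) := fun z i => if i ∈ Hs then some (val z i) else none
    with hph
  have him : S.image ph ⊆ Fintype.piFinset fun i => if i ∈ Hs then (HV i).image some else {none} := by
    intro w hw
    rw [Finset.mem_image] at hw
    obtain ⟨z, hz, rfl⟩ := hw
    rw [Fintype.mem_piFinset]
    intro i
    by_cases hi : i ∈ Hs
    · rw [if_pos hi]
      simp only [hph, if_pos hi]
      exact Finset.mem_image_of_mem _ (hSval z hz i hi)
    · rw [if_neg hi]
      simp only [hph, if_neg hi, Finset.mem_singleton]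
  have himcard : ((S.image ph).card : ℝ) ≤ (n / Λ) ^ Hs.card := by
    have h1 := Finset.card_le_card him
    rw [Fintype.card_piFinset] at h1
    have h2 : ∏ i, (if i ∈ Hs then (HV i).image some else ({none} : Finset (Option U))).card =
        ∏ i ∈ Hs, (HV i).card := by
      rw [← Finset.prod_subset (Finset.subset_univ Hs)]
      · refine Finset.prod_congr rfl fun i hi => ?_
        rw [if_pos hi, Finset.card_image_of_injective _ (Option.some_injective _)]
      · intro i _ hi
        rw [if_neg hi, Finset.card_singleton]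
    rw [h2] at h1
    calc ((S.image ph).card : ℝ) ≤ ((∏ i ∈ Hs, (HV i).card : ℕ) : ℝ) := by exact_mod_cast h1
      _ = ∏ i ∈ Hs, ((HV i).card : ℝ) := by push_cast; rfl
      _ ≤ ∏ _i ∈ Hs, (n / Λ) := Finset.prod_le_prod (fun _ _ => by positivity)
          fun i _ => hHVcard i
      _ = _ := by rw [Finset.prod_const]
  have hfib : ∀ w ∈ S.image ph, (S.filter fun z => ph z = w).card ≤
      ∏ κ, (cntK (F \ Hs) κ).factorial := by
    intro w hw
    rw [Finset.mem_image] at hw
    obtain ⟨z1, hz1, rfl⟩ := hw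
    rw [← card_clsOff (F \ Hs) z1]
    refine Finset.card_le_card fun z hz => ?_
    rw [Finset.mem_filter, hS, Finset.mem_filter, hC, mem_cl] at hz
    rw [hS, Finset.mem_filter, hC, mem_cl] at hz1
    rw [mem_clsOff]
    intro i hi
    rw [Finset.mem_sdiff] at hi
    push Not at hi
    by_cases hiF : i ∈ F
    · have hiH := hi hiF
      have := congrFun hz.2 i
      simp only [hph, if_pos hiH, Option.some.injEq] at this
      exact this.symm
    · exact (hz1.1.2 i hiF).symm.trans (hz.1.1.2 i hiF)
  have hcard := Finset.card_le_mul_card_image S _ hfib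
  have hcardR : (S.card : ℝ) ≤ (∏ κ, ((cntK (F \ Hs) κ).factorial : ℝ)) *
      ((S.image ph).card : ℝ) := by exact_mod_cast hcard
  have hP0 : 0 ≤ ∏ κ, ((cntK (F \ Hs) κ).factorial : ℝ) :=
    Finset.prod_nonneg fun _ _ => by positivity
  have hratio := card_clsOff_ratio F Hs hH
  have hcl2 : ((clsOff F z0).card : ℝ) = ∏ κ, ((cntK F κ).factorial : ℝ) := by
    rw [card_clsOff]; push_cast; rfl
  rw [← hcl2] at hratio
  have hprodge : (n / Real.sqrt Λ) ^ Hs.card ≤ ∏ i ∈ Hs, (cntK F i.1 : ℝ) := by
    rw [← Finset.prod_const]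
    exact Finset.prod_le_prod (fun _ _ => by positivity) hbig
  have hfin : (∏ κ, ((cntK (F \ Hs) κ).factorial : ℝ)) * (n / Real.sqrt Λ) ^ Hs.card ≤
      Real.exp Hs.card * (clsOff F z0).card :=
    (mul_le_mul_of_nonneg_left hprodge hP0).trans hratio
  have hpos : 0 < (n / Real.sqrt Λ) ^ Hs.card := by positivity
  have h5 : (∏ κ, ((cntK (F \ Hs) κ).factorial : ℝ)) ≤
      Real.exp Hs.card * (clsOff F z0).card / (n / Real.sqrt Λ) ^ Hs.card := by
    rw [le_div_iff₀ hpos]; exact hfin
  calc (S.card : ℝ) ≤ (∏ κ, ((cntK (F \ Hs) κ).factorial : ℝ)) * ((S.image ph).card : ℝ) :=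
        hcardR
    _ ≤ (Real.exp Hs.card * (clsOff F z0).card / (n / Real.sqrt Λ) ^ Hs.card) *
        (n / Λ) ^ Hs.card := mul_le_mul h5 himcard (by positivity) (by positivity)
    _ = (Real.exp 1 / Real.sqrt Λ) ^ Hs.card * (clsOff F z0).card := by
        have e1 : Real.exp (Hs.card : ℝ) = Real.exp 1 ^ Hs.card := by
          rw [← Real.exp_nat_mul, mul_one]
        have e2 : (n / Λ) ^ Hs.card / (n / Real.sqrt Λ) ^ Hs.card =
            (1 / Real.sqrt Λ) ^ Hs.card := by
          rw [← div_pow]
          congr 1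
          have : Λ = Real.sqrt Λ * Real.sqrt Λ := (Real.mul_self_sqrt hΛ.le).symm
          rw [div_div_div_eq]
          nth_rewrite 2 [this]
          field_simp
        calc _ = Real.exp Hs.card * (clsOff F z0).card *
              ((n / Λ) ^ Hs.card / (n / Real.sqrt Λ) ^ Hs.card) := by ring
          _ = _ := by
              rw [e1, e2, div_pow, div_pow, one_pow]
              ring

open Classical in
/-- The count for one set of coordinates. -/
lemma set_count (Z : Finset (K → Perm U)) (F Hs : Finset (K × U)) (hH : Hs ⊆ F) (Λ : ℝ)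
    (hΛ : 0 < Λ) (hU : 0 < Fintype.card U)
    (hbig : ∀ i ∈ Hs, (Fintype.card U : ℝ) / Real.sqrt Λ ≤ cntK F i.1) :
    ((Z.filter fun z => ∀ i ∈ Hs, hv Z F Λ z i).card : ℝ) ≤
      (Real.exp 1 / Real.sqrt Λ) ^ Hs.card * Fintype.card (K → Perm U) := by
  set c := (Real.exp 1 / Real.sqrt Λ) ^ Hs.card with hc
  have hc0 : 0 ≤ c := by positivity
  have key := sum_fiber_nonneg (Finset.univ : Finset (K → Perm U))
    (fun z z' => ∀ i, i ∉ F → val z i = val z' i) (fun _ _ _ => rfl)
    (fun _ _ h i hi => (h i hi).symm) (fun _ _ _ h h' i hi => (h i hi).trans (h' i hi))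
    (fun z => c - if z ∈ Z ∧ ∀ i ∈ Hs, hv Z F Λ z i then (1 : ℝ) else 0) ?_
  · rw [Finset.sum_sub_distrib, Finset.sum_const, Finset.card_univ, nsmul_eq_mul,
      Finset.sum_boole] at key
    have e1 : (Finset.univ.filter fun z => z ∈ Z ∧ ∀ i ∈ Hs, hv Z F Λ z i) =
        Z.filter fun z => ∀ i ∈ Hs, hv Z F Λ z i := by
      ext z; simp
    rw [e1] at key
    linarith
  · intro a _
    have e2 : (Finset.univ.filter fun z' : K → Perm U => ∀ i, i ∉ F → val a i = val z' i) =
        clsOff F a := rfl
    rw [e2, Finset.sum_sub_distrib, Finset.sum_const, nsmul_eq_mul, Finset.sum_boole]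
    by_cases hne : ∃ z0 ∈ Z, z0 ∈ clsOff F a
    · obtain ⟨z0, hz0, hz0a⟩ := hne
      rw [mem_clsOff] at hz0a
      have h1 := class_count Z F Hs hH Λ hΛ hU hbig z0 hz0
      have h2 : clsOff F z0 = clsOff F a := by
        ext w
        rw [mem_clsOff, mem_clsOff]
        exact ⟨fun h i hi => (hz0a i hi).trans (h i hi), fun h i hi => (hz0a i hi).symm.trans (h i hi)⟩
      rw [h2] at h1
      have h3 : ((clsOff F a).filter fun z => z ∈ Z ∧ ∀ i ∈ Hs, hv Z F Λ z i) =
          (cl Z F z0).filter fun z => ∀ i ∈ Hs, hv Z F Λ z i := by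
        ext w
        rw [Finset.mem_filter, Finset.mem_filter, mem_cl, ← h2, mem_clsOff]
        tauto
      rw [h3]
      linarith
    · push Not at hne
      have h3 : ((clsOff F a).filter fun z => z ∈ Z ∧ ∀ i ∈ Hs, hv Z F Λ z i) = ∅ := by
        rw [Finset.filter_eq_empty_iff]
        intro w hw hw'
        exact hne w hw'.1 hw
      rw [h3]
      simp only [Finset.card_empty, Nat.cast_zero, sub_zero]
      positivity

open Classical in
/-- The total number of heavy coordinates. -/
lemma total_count (Z : Finset (K → Perm U)) (F : Finset (K × U)) (Λ : ℝ)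
    (hΛ : 0 < Λ) (hU : 0 < Fintype.card U) (h0 : ℕ) :
    ∑ z ∈ Z, ((F.filter fun i => hv Z F Λ z i).card : ℝ) ≤
      Z.card * (h0 + Fintype.card (K × U) / Real.sqrt Λ) +
      F.card * (2 ^ F.card * ((Real.exp 1 / Real.sqrt Λ) ^ h0 * Fintype.card (K → Perm U))) := by
  have hsq : 0 < Real.sqrt Λ := Real.sqrt_pos.2 hΛ
  have hn0 : (0 : ℝ) < Fintype.card U := by exact_mod_cast hU
  set big := F.filter fun i => (Fintype.card U : ℝ) / Real.sqrt Λ ≤ cntK F i.1 with hbig
  set c := (Real.exp 1 / Real.sqrt Λ) ^ h0 * (Fintype.card (K → Perm U) : ℝ) with hc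
  set Bad := Z.filter fun z => h0 ≤ (big.filter fun i => hv Z F Λ z i).card with hBad
  have hBadc : (Bad.card : ℝ) ≤ 2 ^ F.card * c := by
    have h1 : Bad ⊆ (F.powerset.filter fun Hs => Hs ⊆ big ∧ Hs.card = h0).biUnion fun Hs =>
        Z.filter fun z => ∀ i ∈ Hs, hv Z F Λ z i := by
      intro z hz
      rw [hBad, Finset.mem_filter] at hz
      obtain ⟨Hs, hHs, hcard⟩ := Finset.exists_subset_card_eq hz.2
      rw [Finset.mem_biUnion]
      refine ⟨Hs, ?_, ?_⟩
      · rw [Finset.mem_filter, Finset.mem_powerset]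
        have h2 : Hs ⊆ big := hHs.trans (Finset.filter_subset _ _)
        exact ⟨h2.trans (Finset.filter_subset _ _), h2, hcard⟩
      · rw [Finset.mem_filter]
        exact ⟨hz.1, fun i hi => (Finset.mem_filter.1 (hHs hi)).2⟩
    have h2 := (Finset.card_le_card h1).trans Finset.card_biUnion_le
    have h3 : (Bad.card : ℝ) ≤ ∑ Hs ∈ F.powerset.filter (fun Hs => Hs ⊆ big ∧ Hs.card = h0),
        ((Z.filter fun z => ∀ i ∈ Hs, hv Z F Λ z i).card : ℝ) := by exact_mod_cast h2
    refine h3.trans ?_
    calc _ ≤ ∑ _Hs ∈ F.powerset.filter (fun Hs => Hs ⊆ big ∧ Hs.card = h0), c := by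
          refine Finset.sum_le_sum fun Hs hHs => ?_
          rw [Finset.mem_filter, Finset.mem_powerset] at hHs
          have := set_count Z F Hs hHs.1 Λ hΛ hU (fun i hi => (Finset.mem_filter.1
            (hHs.2.1 hi)).2)
          rw [hHs.2.2] at this
          exact this
      _ ≤ ∑ _Hs ∈ F.powerset, c :=
          Finset.sum_le_sum_of_subset_of_nonneg (Finset.filter_subset _ _)
            fun _ _ _ => by positivity
      _ = _ := by
          rw [Finset.sum_const, Finset.card_powerset, nsmul_eq_mul]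
          push_cast
          ring
  -- the small permutations
  have hsmall : (((F.filter fun i => ¬ ((Fintype.card U : ℝ) / Real.sqrt Λ ≤
      cntK F i.1)).card : ℕ) : ℝ) ≤ Fintype.card (K × U) / Real.sqrt Λ := by
    rw [Finset.card_eq_sum_card_fiberwise (t := (Finset.univ : Finset K))
      (f := fun p => p.1) (fun _ _ => Finset.mem_univ _)]
    push_cast
    have h1 : ∀ κ : K, (((F.filter fun i => ¬ ((Fintype.card U : ℝ) / Real.sqrt Λ ≤
      cntK F i.1)).filter fun p => p.1 = κ).card : ℝ) ≤ (Fintype.card U : ℝ) / Real.sqrt Λ := by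
      intro κ
      by_cases hκ : (Fintype.card U : ℝ) / Real.sqrt Λ ≤ cntK F κ
      · have : ((F.filter fun i => ¬ ((Fintype.card U : ℝ) / Real.sqrt Λ ≤
            cntK F i.1)).filter fun p => p.1 = κ) = ∅ := by
          rw [Finset.filter_eq_empty_iff]
          rintro ⟨κ', u⟩ hp hp'
          rw [Finset.mem_filter] at hp
          simp only at hp'
          subst hp'
          exact hp.2 hκ
        rw [this]
        simp only [Finset.card_empty, Nat.cast_zero]
        positivity
      · push Not at hκ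
        refine le_trans ?_ hκ.le
        have h2 : ((F.filter fun i => ¬ ((Fintype.card U : ℝ) / Real.sqrt Λ ≤
            cntK F i.1)).filter fun p => p.1 = κ).card ≤ cntK F κ := by
          unfold cntK
          refine Finset.card_le_card_of_injOn (fun p => p.2) ?_ ?_
          · rintro ⟨κ', u⟩ hp
            rw [Finset.mem_coe, Finset.mem_filter, Finset.mem_filter] at hp
            obtain ⟨⟨hp1, _⟩, rfl⟩ := hp
            simpa using hp1
          · rintro ⟨κ', u⟩ hp ⟨κ'', u'⟩ hp' huu
            rw [Finset.mem_coe, Finset.mem_filter] at hp hp'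
            exact Prod.ext (hp.2.trans hp'.2.symm) huu
        exact_mod_cast h2
    calc _ ≤ ∑ _κ : K, (Fintype.card U : ℝ) / Real.sqrt Λ := Finset.sum_le_sum fun κ _ => h1 κ
      _ = _ := by
          rw [Finset.sum_const, Finset.card_univ, nsmul_eq_mul, Fintype.card_prod]
          push_cast
          ring
  -- the pointwise bound
  have hpt : ∀ z ∈ Z, ((F.filter fun i => hv Z F Λ z i).card : ℝ) ≤
      (h0 + Fintype.card (K × U) / Real.sqrt Λ) + if z ∈ Bad then (F.card : ℝ) else 0 := by
    intro z hz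
    by_cases hb : z ∈ Bad
    · rw [if_pos hb]
      have h1 : ((F.filter fun i => hv Z F Λ z i).card : ℝ) ≤ F.card := by
        exact_mod_cast Finset.card_le_card (Finset.filter_subset _ _)
      have h2 : (0 : ℝ) ≤ h0 + Fintype.card (K × U) / Real.sqrt Λ := by positivity
      linarith
    · rw [if_neg hb, add_zero]
      have hlt : (big.filter fun i => hv Z F Λ z i).card < h0 := by
        by_contra hcon
        exact hb (Finset.mem_filter.2 ⟨hz, not_lt.1 hcon⟩)
      have h1 : (F.filter fun i => hv Z F Λ z i) ⊆ (big.filter fun i => hv Z F Λ z i) ∪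
          (F.filter fun i => ¬ ((Fintype.card U : ℝ) / Real.sqrt Λ ≤ cntK F i.1)) := by
        intro i hi
        rw [Finset.mem_filter] at hi
        rw [Finset.mem_union, Finset.mem_filter, Finset.mem_filter, Finset.mem_filter]
        by_cases h : (Fintype.card U : ℝ) / Real.sqrt Λ ≤ cntK F i.1
        · exact Or.inl ⟨⟨hi.1, h⟩, hi.2⟩
        · exact Or.inr ⟨hi.1, h⟩
      have h2 := (Finset.card_le_card h1).trans (Finset.card_union_le _ _)
      have h3 : ((F.filter fun i => hv Z F Λ z i).card : ℝ) ≤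
          (big.filter fun i => hv Z F Λ z i).card +
          ((F.filter fun i => ¬ ((Fintype.card U : ℝ) / Real.sqrt Λ ≤ cntK F i.1)).card : ℝ) := by
        exact_mod_cast h2
      have h4 : ((big.filter fun i => hv Z F Λ z i).card : ℝ) ≤ h0 := by exact_mod_cast hlt.le
      linarith
  refine (Finset.sum_le_sum hpt).trans ?_
  rw [Finset.sum_add_distrib, Finset.sum_const, nsmul_eq_mul]
  have h6 : ∑ z ∈ Z, (if z ∈ Bad then (F.card : ℝ) else 0) = F.card * Bad.card := by
    rw [Finset.sum_ite_mem, Finset.inter_eq_right.2 (Finset.filter_subset _ _),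
      Finset.sum_const, nsmul_eq_mul, mul_comm]
  rw [h6]
  have h7 : (F.card : ℝ) * Bad.card ≤ F.card * (2 ^ F.card * c) :=
    mul_le_mul_of_nonneg_left hBadc (by positivity)
  linarith

end Pool.Agent.TR
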