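import Mathlib
import Pool.Agent.Lib_helper21.TR.HCount

/-!
# Summation over all descriptions
-/

set_option linter.unusedSectionVars false

namespace Pool.Agent.TR

open Finset Equiv Pool.Agent.TS

open Classical in
/-- The number of pairs of nested sets with a small outer set. -/
lemma card_nested {I : Type} [Fintype I] [DecidableEq I] (f : ℕ) (V : ℝ) (hV : 1 ≤ V) :
    ((Finset.univ.filter fun p : Finset I × Finset I => p.2 ⊆ p.1 ∧ p.1.card ≤ f).card : ℝ) ≤
      V ^ f * Real.exp (2 * Fintype.card I / V) := by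
  have hV0 : 0 < V := by linarith
  have h1 : ((Finset.univ.filter fun p : Finset I × Finset I => p.2 ⊆ p.1 ∧
      p.1.card ≤ f).card : ℝ) = ∑ P : Finset I, if P.card ≤ f then (2 : ℝ) ^ P.card else 0 := by
    rw [Finset.card_filter]
    push_cast
    rw [Fintype.sum_prod_type]
    refine Finset.sum_congr rfl fun P _ => ?_
    simp only
    by_cases h : P.card ≤ f
    · rw [if_pos h]
      simp only [h, and_true]
      rw [Finset.sum_boole]
      have : (Finset.univ.filter fun x : Finset I => x ⊆ P) = P.powerset := by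
        ext x; simp
      rw [this, Finset.card_powerset]
      push_cast
      rfl
    · rw [if_neg h]
      simp [h]
  rw [h1]
  have h2 : ∀ P : Finset I, (if P.card ≤ f then (2 : ℝ) ^ P.card else 0) ≤
      V ^ f * ((2 / V) ^ P.card * 1 ^ (Fintype.card I - P.card)) := by
    intro P
    rw [one_pow, mul_one]
    split_ifs with h
    · rw [div_pow, mul_div_assoc', le_div_iff₀ (by positivity)]
      calc (2 : ℝ) ^ P.card * V ^ P.card ≤ 2 ^ P.card * V ^ f :=
            mul_le_mul_of_nonneg_left (pow_le_pow_right₀ hV h) (by positivity)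
        _ = _ := by ring
    · positivity
  refine (Finset.sum_le_sum fun P _ => h2 P).trans ?_
  rw [← Finset.mul_sum]
  apply mul_le_mul_of_nonneg_left _ (by positivity)
  have h3 := Finset.sum_pow_mul_eq_add_pow (2 / V) (1 : ℝ) (Finset.univ : Finset I)
  rw [Finset.powerset_univ, Finset.card_univ] at h3
  rw [h3]
  calc (2 / V + 1) ^ Fintype.card I ≤ (Real.exp (2 / V)) ^ Fintype.card I :=
        pow_le_pow_left₀ (by positivity) (Real.add_one_le_exp _) _
    _ = Real.exp (2 * Fintype.card I / V) := by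
        rw [← Real.exp_nat_mul]
        congr 1
        ring

variable {K U E Q : Type} [Fintype K] [Fintype U] [Fintype E] [DecidableEq K] [DecidableEq U]
  [DecidableEq E] [Fintype Q] (H : BG K E)

variable {r g V : ℕ} (M : DM K U Q) (L : ℕ) (Acc : Q → Prop) (adj : U → U → Prop) (k f : ℕ)
  (θ : (Fin r → Bool ⊕ Fin g) × (K × U → Fin V)) (D : E × U → Bool)

/-- The description of an input. -/
noncomputable def dd (z : K → Perm U) : (Fin r → Q) × Finset (K × U) × Finset (K × U) :=
  (fun j => M.run z ((j + 1) * L), PP H M L k θ z, FF H M L k θ z)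

lemma dsc_iff {z z' : K → Perm U} : dsc H M L k θ z z' ↔ dd H M L k θ z = dd H M L k θ z' := by
  unfold dsc dd
  rw [Prod.mk.injEq, Prod.mk.injEq]
  exact and_congr ⟨fun h => funext h, fun h j => congrFun h j⟩ Iff.rfl

/-- The bound for the number of descriptions. -/
noncomputable def nDesc (r f : ℕ) (V : ℝ) (cQ cI : ℕ) : ℝ :=
  (cQ : ℝ) ^ r * (V ^ f * Real.exp (2 * cI / V))

lemma image_card (hV : 1 ≤ (V : ℝ)) [DecidableEq ((Fin r → Q) × Finset (K × U) × Finset (K × U))] :
    (((ZT H M L Acc adj k f θ).image (dd H M L k θ)).card : ℝ) ≤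
      nDesc r f V (Fintype.card Q) (Fintype.card (K × U)) := by
  classical
  have h1 : (ZT H M L Acc adj k f θ).image (dd H M L k θ) ⊆
      (Finset.univ : Finset (Fin r → Q)) ×ˢ
        (Finset.univ.filter fun p : Finset (K × U) × Finset (K × U) => p.2 ⊆ p.1 ∧
          p.1.card ≤ f) := by
    intro d hd
    rw [Finset.mem_image] at hd
    obtain ⟨z, hz, rfl⟩ := hd
    rw [mem_ZT] at hz
    rw [Finset.mem_product, Finset.mem_filter]
    exact ⟨Finset.mem_univ _, Finset.mem_univ _, FSet_subset, hz.2.1⟩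
  have h2 := Finset.card_le_card h1
  rw [Finset.card_product, Finset.card_univ, Fintype.card_fun, Fintype.card_fin] at h2
  have h3 : (((ZT H M L Acc adj k f θ).image (dd H M L k θ)).card : ℝ) ≤
      (Fintype.card Q : ℝ) ^ r * ((Finset.univ.filter fun p : Finset (K × U) × Finset (K × U) =>
        p.2 ⊆ p.1 ∧ p.1.card ≤ f).card : ℝ) := by exact_mod_cast h2
  refine h3.trans ?_
  unfold nDesc
  exact mul_le_mul_of_nonneg_left (card_nested f V hV) (by positivity)

open Classical in
/-- The total number of one-sidedly heavy free coordinates. -/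
lemma oheavy_sum (hV : 1 ≤ (V : ℝ)) (Λ : ℝ) (hΛ : 0 < Λ) (hU : 0 < Fintype.card U) (h0 : ℕ)
    (b : Bool) :
    ∑ z ∈ ZT H M L Acc adj k f θ, (((full H (FF H M L k θ z) D b).filter fun i =>
      OHeavy H M L Acc adj k f θ D Λ b z i).card : ℝ) ≤
      (ZT H M L Acc adj k f θ).card * (h0 + Fintype.card (K × U) / Real.sqrt Λ) +
      nDesc r f V (Fintype.card Q) (Fintype.card (K × U)) *
        (f * (2 ^ f * ((Real.exp 1 / Real.sqrt Λ) ^ h0 * Fintype.card (K → Perm U)))) := by
  have hsq : 0 < Real.sqrt Λ := Real.sqrt_pos.2 hΛ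
  set Z := ZT H M L Acc adj k f θ with hZ
  set im := Z.image (dd H M L k θ) with him
  have hmaps : ∀ z ∈ Z, dd H M L k θ z ∈ im := fun z hz => Finset.mem_image_of_mem _ hz
  rw [← Finset.sum_fiberwise_of_maps_to hmaps]
  have hfib : ∀ d ∈ im, ∑ z ∈ Z.filter (fun z => dd H M L k θ z = d),
      (((full H (FF H M L k θ z) D b).filter fun i =>
        OHeavy H M L Acc adj k f θ D Λ b z i).card : ℝ) ≤
      ((Z.filter fun z => dd H M L k θ z = d).card : ℝ) *
        (h0 + Fintype.card (K × U) / Real.sqrt Λ) +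
      (f * (2 ^ f * ((Real.exp 1 / Real.sqrt Λ) ^ h0 * Fintype.card (K → Perm U)))) := by
    intro d hd
    rw [him, Finset.mem_image] at hd
    obtain ⟨z0, hz0, rfl⟩ := hd
    set Zd := Z.filter fun z => dd H M L k θ z = dd H M L k θ z0 with hZd
    set F := full H (FF H M L k θ z0) D b with hF
    have hmem : ∀ z ∈ Zd, FF H M L k θ z = FF H M L k θ z0 ∧ dsc H M L k θ z z0 := by
      intro z hz
      rw [hZd, Finset.mem_filter] at hz
      have := (dsc_iff H M L k θ).2 hz.2
      exact ⟨this.2.2, this⟩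
    have hcl : ∀ z ∈ Zd, CC H M L Acc adj k f θ D b z = cl Zd F z := by
      intro z hz
      ext w
      rw [mem_CC, mem_cl, hZd, Finset.mem_filter, (hmem z hz).1, dsc_iff]
      constructor
      · rintro ⟨h1, h2, h3⟩
        exact ⟨⟨h1, h2.symm.trans (Finset.mem_filter.1 hz).2⟩, h3⟩
      · rintro ⟨⟨h1, h2⟩, h3⟩
        exact ⟨h1, (Finset.mem_filter.1 hz).2.trans h2.symm, h3⟩
    have hcount := total_count Zd F Λ hΛ hU h0
    have hsum : ∑ z ∈ Zd, (((full H (FF H M L k θ z) D b).filter fun i =>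
        OHeavy H M L Acc adj k f θ D Λ b z i).card : ℝ) =
        ∑ z ∈ Zd, ((F.filter fun i => hv Zd F Λ z i).card : ℝ) := by
      refine Finset.sum_congr rfl fun z hz => ?_
      rw [(hmem z hz).1]
      congr 2
      refine Finset.filter_congr fun i _ => ?_
      unfold OHeavy hv
      rw [hcl z hz]
    rw [hsum]
    refine hcount.trans ?_
    have hFf : F.card ≤ f := by
      rw [hZ, mem_ZT] at hz0
      exact (Finset.card_le_card (full_subset H)).trans ((Finset.card_le_card
        FSet_subset).trans hz0.2.1)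
    have hFfR : (F.card : ℝ) ≤ f := by exact_mod_cast hFf
    have h2 : (2 : ℝ) ^ F.card ≤ 2 ^ f := pow_le_pow_right₀ (by norm_num) hFf
    have h3 : (0 : ℝ) ≤ (Real.exp 1 / Real.sqrt Λ) ^ h0 * Fintype.card (K → Perm U) := by
      positivity
    have h4 : (F.card : ℝ) * (2 ^ F.card * ((Real.exp 1 / Real.sqrt Λ) ^ h0 *
        Fintype.card (K → Perm U))) ≤ f * (2 ^ f * ((Real.exp 1 / Real.sqrt Λ) ^ h0 *
        Fintype.card (K → Perm U))) :=
      mul_le_mul hFfR (mul_le_mul_of_nonneg_right h2 h3) (by positivity) (by positivity)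
    linarith
  refine (Finset.sum_le_sum hfib).trans ?_
  rw [Finset.sum_add_distrib, ← Finset.sum_mul, Finset.sum_const, nsmul_eq_mul]
  have h5 : ∑ d ∈ im, ((Z.filter fun z => dd H M L k θ z = d).card : ℝ) = Z.card := by
    rw [Finset.card_eq_sum_card_fiberwise hmaps]
    push_cast
    rfl
  rw [h5]
  have h6 := image_card H M L Acc adj k f θ hV
  have h7 : (0 : ℝ) ≤ f * (2 ^ f * ((Real.exp 1 / Real.sqrt Λ) ^ h0 *
    Fintype.card (K → Perm U))) := by positivity
  have h8 := mul_le_mul_of_nonneg_right h6 h7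
  linarith

end Pool.Agent.TR
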