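import Mathlib
import Pool.Agent.Lib_helper21.TR.Desc

/-!
# The inequality for deterministic machines
-/

set_option linter.unusedSectionVars false

namespace Pool.Agent.TR

open Finset Equiv Pool.Agent.TS

variable {K U E Q : Type} [Fintype K] [Fintype U] [Fintype E] [DecidableEq K] [DecidableEq U]
  [DecidableEq E] [Fintype Q] (H : BG K E)

/-- Exactly one triangle, at `ℓ`. -/
def only (adj : U → U → Prop) (z : K → Perm U) (ℓ : E × U) : Prop :=
  tri H adj z ℓ ∧ ∀ ℓ', ℓ' ≠ ℓ → ¬ tri H adj z ℓ'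

variable {r g V : ℕ} (M : DM K U Q) (L : ℕ) (Acc : Q → Prop) (adj : U → U → Prop) (k f : ℕ)

open Classical in
/-- The number of choices for which a location is matched and there are few candidates. -/
noncomputable def prb (r g V : ℕ) (z : K → Perm U) (ℓ : E × U) : ℝ :=
  ((Finset.univ.filter fun θ : (Fin r → Bool ⊕ Fin g) × (K × U → Fin V) =>
    ℓ ∈ mat H (FF H M L k θ z) ∧ (PP H M L k θ z).card ≤ f).card : ℝ)

lemma prb_le (hV : (g + 2) ^ k ≤ V) (z : K → Perm U) (ℓ : E × U) :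
    prb H M L k f r g V z ℓ ≤ nTh r g V K U / (V : ℝ) ^ 2 := by
  classical
  refine le_trans ?_ (pr_FF_le H k (seg M L r z) hV (H.pt true ℓ) (H.pt false ℓ)
    (H.sd_pt true ℓ) (H.sd_pt false ℓ))
  unfold prb
  have : (Finset.univ.filter fun θ : (Fin r → Bool ⊕ Fin g) × (K × U → Fin V) =>
      ℓ ∈ mat H (FF H M L k θ z) ∧ (PP H M L k θ z).card ≤ f) ⊆
      (Finset.univ.filter fun θ : (Fin r → Bool ⊕ Fin g) × (K × U → Fin V) =>
      H.pt true ℓ ∈ FSet H.sd k θ.1 θ.2 (seg M L r z) ∧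
        H.pt false ℓ ∈ FSet H.sd k θ.1 θ.2 (seg M L r z)) := by
    intro θ hθ
    rw [Finset.mem_filter] at hθ ⊢
    have := ((mem_mat H).1 hθ.2.1).1
    exact ⟨Finset.mem_univ _, this true, this false⟩
  exact_mod_cast Finset.card_le_card this

open Classical in
/-- The heavy part for one choice. -/
lemma heavy_part (hL : 0 < L) (hr : 0 < r) (θ : (Fin r → Bool ⊕ Fin g) × (K × U → Fin V))
    (Λ : ℝ) (hΛ : 0 ≤ Λ) (b : Bool) :
    ∑ D : E × U → Bool, ∑ ℓ : E × U, (((GG H M L Acc adj k f θ ℓ).filter fun z =>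
      ¬ tri H adj z ℓ ∧ Heavy H M L Acc adj k f θ D Λ ℓ b z).card : ℝ) ≤
    2 * ∑ D : E × U → Bool, ∑ z ∈ ZT H M L Acc adj k f θ,
      (((full H (FF H M L k θ z) D b).filter fun i =>
        OHeavy H M L Acc adj k f θ D Λ b z i).card : ℝ) := by
  -- exchange the sums and use the independence of the type
  have h1 : ∑ D : E × U → Bool, ∑ ℓ : E × U, (((GG H M L Acc adj k f θ ℓ).filter fun z =>
      ¬ tri H adj z ℓ ∧ Heavy H M L Acc adj k f θ D Λ ℓ b z).card : ℝ) =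
      2 * ∑ D : E × U → Bool, ∑ ℓ : E × U, (((GG H M L Acc adj k f θ ℓ).filter fun z =>
      ¬ tri H adj z ℓ ∧ (Heavy H M L Acc adj k f θ D Λ ℓ b z ∧ D ℓ = b)).card : ℝ) := by
    rw [Finset.sum_comm, Finset.sum_comm (s := (Finset.univ : Finset (E × U → Bool))),
      Finset.mul_sum]
    refine Finset.sum_congr rfl fun ℓ _ => ?_
    have e1 : ∀ p : (E × U → Bool) → (K → Perm U) → Prop,
        ∑ D : E × U → Bool, (((GG H M L Acc adj k f θ ℓ).filter fun z =>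
        ¬ tri H adj z ℓ ∧ p D z).card : ℝ) =
        ∑ z ∈ (GG H M L Acc adj k f θ ℓ).filter (fun z => ¬ tri H adj z ℓ),
          ((Finset.univ.filter fun D => p D z).card : ℝ) := by
      intro p
      simp_rw [Finset.card_filter]
      push_cast
      rw [Finset.sum_comm, Finset.sum_filter]
      refine Finset.sum_congr rfl fun z _ => ?_
      by_cases h : tri H adj z ℓ <;> simp [h]
    have e3 : ∑ D : E × U → Bool, (((GG H M L Acc adj k f θ ℓ).filter fun z =>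
      ¬ tri H adj z ℓ ∧ (Heavy H M L Acc adj k f θ D Λ ℓ b z ∧ D ℓ = b)).card : ℝ) =
      ∑ z ∈ (GG H M L Acc adj k f θ ℓ).filter (fun z => ¬ tri H adj z ℓ),
          ((Finset.univ.filter fun D => Heavy H M L Acc adj k f θ D Λ ℓ b z ∧
            D ℓ = b).card : ℝ) := by
      convert e1 (fun D z => Heavy H M L Acc adj k f θ D Λ ℓ b z ∧ D ℓ = b)
    rw [e1 (fun D z => Heavy H M L Acc adj k f θ D Λ ℓ b z), e3, Finset.mul_sum]
    refine Finset.sum_congr rfl fun z _ => ?_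
    have := heavy_types H M L Acc adj k f θ Λ ℓ b z
    exact_mod_cast this
  rw [h1]
  apply mul_le_mul_of_nonneg_left _ (by norm_num)
  refine Finset.sum_le_sum fun D _ => ?_
  -- exchange to the sum over inputs
  have h2 : ∑ ℓ : E × U, (((GG H M L Acc adj k f θ ℓ).filter fun z =>
      ¬ tri H adj z ℓ ∧ (Heavy H M L Acc adj k f θ D Λ ℓ b z ∧ D ℓ = b)).card : ℝ) =
      ∑ z : K → Perm U, ((Finset.univ.filter fun ℓ : E × U =>
        z ∈ GG H M L Acc adj k f θ ℓ ∧ ¬ tri H adj z ℓ ∧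
          Heavy H M L Acc adj k f θ D Λ ℓ b z ∧ D ℓ = b).card : ℝ) := by
    have e2 : ∀ ℓ : E × U, (((GG H M L Acc adj k f θ ℓ).filter fun z =>
        ¬ tri H adj z ℓ ∧ (Heavy H M L Acc adj k f θ D Λ ℓ b z ∧ D ℓ = b)).card : ℝ) =
        ∑ z : K → Perm U, if z ∈ GG H M L Acc adj k f θ ℓ ∧ ¬ tri H adj z ℓ ∧
          Heavy H M L Acc adj k f θ D Λ ℓ b z ∧ D ℓ = b then (1 : ℝ) else 0 := by
      intro ℓ
      rw [Finset.sum_boole]
      congr 2
      ext z
      simp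
    simp_rw [e2]
    rw [Finset.sum_comm]
    refine Finset.sum_congr rfl fun z _ => ?_
    rw [Finset.sum_boole]
  rw [h2]
  have h3 : ∑ z : K → Perm U, ((Finset.univ.filter fun ℓ : E × U =>
        z ∈ GG H M L Acc adj k f θ ℓ ∧ ¬ tri H adj z ℓ ∧
          Heavy H M L Acc adj k f θ D Λ ℓ b z ∧ D ℓ = b).card : ℝ) =
      ∑ z ∈ ZT H M L Acc adj k f θ, ((Finset.univ.filter fun ℓ : E × U =>
        z ∈ GG H M L Acc adj k f θ ℓ ∧ ¬ tri H adj z ℓ ∧
          Heavy H M L Acc adj k f θ D Λ ℓ b z ∧ D ℓ = b).card : ℝ) := by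
    symm
    apply Finset.sum_subset (Finset.subset_univ _)
    intro z _ hz
    have : (Finset.univ.filter fun ℓ : E × U =>
        z ∈ GG H M L Acc adj k f θ ℓ ∧ ¬ tri H adj z ℓ ∧
          Heavy H M L Acc adj k f θ D Λ ℓ b z ∧ D ℓ = b) = ∅ := by
      rw [Finset.filter_eq_empty_iff]
      rintro ℓ _ ⟨a1, a2, _⟩
      apply hz
      rw [mem_GG] at a1
      rw [mem_ZT]
      refine ⟨a1.1, a1.2.1, fun ℓ' => ?_⟩
      by_cases h : ℓ' = ℓ
      · rw [h]; exact a2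
      · exact a1.2.2.2 ℓ' h
    rw [this]; simp
  rw [h3]
  refine Finset.sum_le_sum fun z _ => ?_
  have h4 : (Finset.univ.filter fun ℓ : E × U =>
        z ∈ GG H M L Acc adj k f θ ℓ ∧ ¬ tri H adj z ℓ ∧
          Heavy H M L Acc adj k f θ D Λ ℓ b z ∧ D ℓ = b).card ≤
      ((full H (FF H M L k θ z) D b).filter fun i =>
        OHeavy H M L Acc adj k f θ D Λ b z i).card := by
    refine Finset.card_le_card_of_injOn (fun ℓ => H.pt b ℓ) ?_ ?_
    · intro ℓ hℓ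
      rw [Finset.mem_coe, Finset.mem_filter] at hℓ
      obtain ⟨_, a1, a2, a3, a4⟩ := hℓ
      rw [Finset.mem_coe, Finset.mem_filter]
      refine ⟨(mem_full H).2 ⟨ℓ, ?_, rfl, a4⟩, OHeavy_of_Heavy H M L Acc adj k f θ D hL hr hΛ
        a1 a2 a4 a3⟩
      exact ((mem_GG H M L Acc adj k f θ).1 a1).2.2.1
    · intro ℓ hℓ ℓ' hℓ' hpt
      rw [Finset.mem_coe, Finset.mem_filter] at hℓ hℓ'
      have m1 := ((mem_GG H M L Acc adj k f θ).1 hℓ.2.1).2.2.1
      have m2 := ((mem_GG H M L Acc adj k f θ).1 hℓ'.2.1).2.2.1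
      exact ((mem_mat H).1 m2).2 ℓ ((mem_mat H).1 m1).1 ⟨b, hpt⟩
  exact_mod_cast h4

open Classical in
/-- The inequality for deterministic machines. -/
theorem det_ineq (hL : 0 < L) (hr : 0 < r) (hVk : (g + 2) ^ k ≤ V)
    (κ₀ lam Λ δ η : ℝ) (hδ : 0 < δ) (hδ3 : δ ≤ 1 / 3)
    (hκ : 0 ≤ κ₀) (hκδ : κ₀ ≤ δ / 2) (hlam : 0 ≤ lam) (hΛ : 0 < Λ) (hU : 0 < Fintype.card U)
    (hmix : ∀ a b : U → ℝ, |(∑ x, ∑ y, if adj x y then a x * b y else 0) -
      κ₀ * ((∑ x, a x) * (∑ y, b y))| ≤ lam * (Real.sqrt (∑ x, a x ^ 2) *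
        Real.sqrt (∑ y, b y ^ 2)))
    (hlΛ : lam * Λ / Fintype.card U ≤ δ * κ₀) (h0 : ℕ)
    (hgood : ∀ z : K → Perm U, (1 - η) * Fintype.card (E × U) * (nTh r g V K U / (V : ℝ) ^ 2) ≤
      ∑ ℓ : E × U, prb H M L k f r g V z ℓ) :
    κ₀ * ((1 - 3 * δ) * ((1 - η) * Fintype.card (E × U) *
      ((Finset.univ.filter fun z : K → Perm U => Acc (M.run z (r * L)) ∧
        ∀ ℓ : E × U, ¬ tri H adj z ℓ).card : ℝ)) -
      8 / δ * (V : ℝ) ^ 2 * (((Finset.univ.filter fun z : K → Perm U =>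
        ∀ ℓ : E × U, ¬ tri H adj z ℓ).card : ℝ) * (h0 + Fintype.card (K × U) / Real.sqrt Λ) +
        nDesc r f V (Fintype.card Q) (Fintype.card (K × U)) *
        (f * (2 ^ f * ((Real.exp 1 / Real.sqrt Λ) ^ h0 * Fintype.card (K → Perm U)))))) ≤
      ((Finset.univ.filter fun z : K → Perm U => Acc (M.run z (r * L)) ∧
        ∃ ℓ : E × U, only H adj z ℓ).card : ℝ) := by
  have hV0 : 0 < V := lt_of_lt_of_le (by positivity) hVk
  have hV0R : (0 : ℝ) < V := by exact_mod_cast hV0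
  have hV1R : (1 : ℝ) ≤ V := by exact_mod_cast hV0
  set aTF := (Finset.univ.filter fun z : K → Perm U => Acc (M.run z (r * L)) ∧
        ∀ ℓ : E × U, ¬ tri H adj z ℓ) with haTF
  set TF := (Finset.univ.filter fun z : K → Perm U => ∀ ℓ : E × U, ¬ tri H adj z ℓ) with hTF
  set aOT := (Finset.univ.filter fun z : K → Perm U => Acc (M.run z (r * L)) ∧
        ∃ ℓ : E × U, only H adj z ℓ) with haOT
  set R := nDesc r f V (Fintype.card Q) (Fintype.card (K × U)) *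
        (f * (2 ^ f * ((Real.exp 1 / Real.sqrt Λ) ^ h0 * (Fintype.card (K → Perm U) : ℝ)))) with hR
  set nT := nTh r g V K U with hnT
  have hnT0 : 0 < nT := by rw [hnT]; unfold nTh; positivity
  set nD : ℝ := (Fintype.card (E × U → Bool) : ℝ) with hnD
  have hnD0 : 0 < nD := by rw [hnD]; exact_mod_cast Fintype.card_pos
  have hcT : (Fintype.card ((Fin r → Bool ⊕ Fin g) × (K × U → Fin V)) : ℝ) = nT := by
    rw [hnT, nTh, Fintype.card_prod, Fintype.card_fun, Fintype.card_fun, Fintype.card_sum,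
      Fintype.card_bool, Fintype.card_fin, Fintype.card_fin, Fintype.card_fin]
    push_cast
    ring
  -- the sums
  have hsum : ∑ θ : (Fin r → Bool ⊕ Fin g) × (K × U → Fin V), ∑ D : E × U → Bool, ∑ ℓ : E × U,
      ((1 - 3 * δ) * κ₀ * (((GG H M L Acc adj k f θ ℓ).filter fun z =>
        ¬ tri H adj z ℓ).card : ℝ) -
      2 / δ * κ₀ * (((GG H M L Acc adj k f θ ℓ).filter fun z => ¬ tri H adj z ℓ ∧
        (Heavy H M L Acc adj k f θ D Λ ℓ true z ∨
          Heavy H M L Acc adj k f θ D Λ ℓ false z)).card : ℝ)) ≤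
      ∑ θ : (Fin r → Bool ⊕ Fin g) × (K × U → Fin V), ∑ D : E × U → Bool, ∑ ℓ : E × U,
      (((GG H M L Acc adj k f θ ℓ).filter fun z => tri H adj z ℓ).card : ℝ) :=
    Finset.sum_le_sum fun θ _ => Finset.sum_le_sum fun D _ => Finset.sum_le_sum fun ℓ _ =>
      cell_sum H M L Acc adj k f θ D hL hr κ₀ lam Λ δ hδ hδ3 hκ hκδ hlam hΛ.le hU hmix hlΛ ℓ
  simp_rw [Finset.sum_sub_distrib, ← Finset.mul_sum] at hsum
  -- exchange to sums over inputs
  have hex : ∀ p : (K → Perm U) → E × U → Prop,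
      ∑ θ : (Fin r → Bool ⊕ Fin g) × (K × U → Fin V), ∑ _D : E × U → Bool, ∑ ℓ : E × U,
      (((GG H M L Acc adj k f θ ℓ).filter fun z => p z ℓ).card : ℝ) =
      nD * ∑ z : K → Perm U, ∑ ℓ : E × U, (if Acc (M.run z (r * L)) ∧
        (∀ ℓ', ℓ' ≠ ℓ → ¬ tri H adj z ℓ') ∧ p z ℓ then prb H M L k f r g V z ℓ else 0) := by
    intro p
    have e1 : ∀ θ : (Fin r → Bool ⊕ Fin g) × (K × U → Fin V), ∀ ℓ : E × U,
        (((GG H M L Acc adj k f θ ℓ).filter fun z => p z ℓ).card : ℝ) =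
        ∑ z : K → Perm U, (if Acc (M.run z (r * L)) ∧
        (∀ ℓ', ℓ' ≠ ℓ → ¬ tri H adj z ℓ') ∧ p z ℓ then (if ℓ ∈ mat H (FF H M L k θ z) ∧
          (PP H M L k θ z).card ≤ f then (1 : ℝ) else 0) else 0) := by
      intro θ ℓ
      rw [Finset.card_filter, GG, Finset.sum_filter]
      push_cast
      refine Finset.sum_congr rfl fun z _ => ?_
      by_cases a1 : Acc (M.run z (r * L)) <;>
        by_cases a2 : (PP H M L k θ z).card ≤ f <;>
        by_cases a3 : ℓ ∈ mat H (FF H M L k θ z) <;>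
        by_cases a4 : (∀ ℓ', ℓ' ≠ ℓ → ¬ tri H adj z ℓ') <;>
        by_cases a5 : p z ℓ <;> simp [a1, a2, a3, a5]
    simp_rw [Finset.sum_const, Finset.card_univ, nsmul_eq_mul, ← hnD, ← Finset.mul_sum]
    congr 1
    simp_rw [e1]
    have e2 : ∀ θ : (Fin r → Bool ⊕ Fin g) × (K × U → Fin V),
        ∑ ℓ : E × U, ∑ z : K → Perm U, (if Acc (M.run z (r * L)) ∧
        (∀ ℓ', ℓ' ≠ ℓ → ¬ tri H adj z ℓ') ∧ p z ℓ then (if ℓ ∈ mat H (FF H M L k θ z) ∧
          (PP H M L k θ z).card ≤ f then (1 : ℝ) else 0) else 0) =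
        ∑ z : K → Perm U, ∑ ℓ : E × U, (if Acc (M.run z (r * L)) ∧
        (∀ ℓ', ℓ' ≠ ℓ → ¬ tri H adj z ℓ') ∧ p z ℓ then (if ℓ ∈ mat H (FF H M L k θ z) ∧
          (PP H M L k θ z).card ≤ f then (1 : ℝ) else 0) else 0) := fun θ => Finset.sum_comm
    simp_rw [e2]
    rw [Finset.sum_comm]
    refine Finset.sum_congr rfl fun z _ => ?_
    rw [Finset.sum_comm]
    refine Finset.sum_congr rfl fun ℓ _ => ?_
    unfold prb
    rw [Finset.card_filter]
    push_cast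
    split_ifs
    · rfl
    · exact Finset.sum_const_zero
  -- triangle-free part
  have h0sum : nD * ((aTF.card : ℝ) * ((1 - η) * Fintype.card (E × U) * (nT / (V : ℝ) ^ 2))) ≤
      ∑ θ : (Fin r → Bool ⊕ Fin g) × (K × U → Fin V), ∑ _D : E × U → Bool, ∑ ℓ : E × U,
      (((GG H M L Acc adj k f θ ℓ).filter fun z => ¬ tri H adj z ℓ).card : ℝ) := by
    have hx : ∑ θ : (Fin r → Bool ⊕ Fin g) × (K × U → Fin V), ∑ _D : E × U → Bool,
        ∑ ℓ : E × U, (((GG H M L Acc adj k f θ ℓ).filter fun z => ¬ tri H adj z ℓ).card : ℝ) =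
        nD * ∑ z : K → Perm U, ∑ ℓ : E × U, (if Acc (M.run z (r * L)) ∧
        (∀ ℓ', ℓ' ≠ ℓ → ¬ tri H adj z ℓ') ∧ ¬ tri H adj z ℓ then
          prb H M L k f r g V z ℓ else 0) := by
      convert hex (fun z ℓ => ¬ tri H adj z ℓ)
    rw [hx]
    apply mul_le_mul_of_nonneg_left _ hnD0.le
    have e3 : ∀ z ∈ aTF, (1 - η) * Fintype.card (E × U) * (nT / (V : ℝ) ^ 2) ≤
        ∑ ℓ : E × U, (if Acc (M.run z (r * L)) ∧
        (∀ ℓ', ℓ' ≠ ℓ → ¬ tri H adj z ℓ') ∧ ¬ tri H adj z ℓ then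
          prb H M L k f r g V z ℓ else 0) := by
      intro z hz
      rw [haTF, Finset.mem_filter] at hz
      refine (hgood z).trans (le_of_eq ?_)
      refine Finset.sum_congr rfl fun ℓ _ => ?_
      rw [if_pos ⟨hz.2.1, fun ℓ' _ => hz.2.2 ℓ', hz.2.2 ℓ⟩]
    calc (aTF.card : ℝ) * ((1 - η) * Fintype.card (E × U) * (nT / (V : ℝ) ^ 2))
        = ∑ _z ∈ aTF, (1 - η) * Fintype.card (E × U) * (nT / (V : ℝ) ^ 2) := by
          rw [Finset.sum_const, nsmul_eq_mul]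
      _ ≤ ∑ z ∈ aTF, ∑ ℓ : E × U, (if Acc (M.run z (r * L)) ∧
        (∀ ℓ', ℓ' ≠ ℓ → ¬ tri H adj z ℓ') ∧ ¬ tri H adj z ℓ then
          prb H M L k f r g V z ℓ else 0) := Finset.sum_le_sum e3
      _ ≤ _ := Finset.sum_le_sum_of_subset_of_nonneg (Finset.subset_univ _)
          fun z _ _ => Finset.sum_nonneg fun ℓ _ => by
            split_ifs
            · unfold prb; positivity
            · exact le_rfl
  -- one-triangle part
  have h1sum : ∑ θ : (Fin r → Bool ⊕ Fin g) × (K × U → Fin V), ∑ _D : E × U → Bool,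
      ∑ ℓ : E × U, (((GG H M L Acc adj k f θ ℓ).filter fun z => tri H adj z ℓ).card : ℝ) ≤
      nD * ((aOT.card : ℝ) * (nT / (V : ℝ) ^ 2)) := by
    rw [hex (fun z ℓ => tri H adj z ℓ)]
    apply mul_le_mul_of_nonneg_left _ hnD0.le
    have e4 : ∀ z : K → Perm U, ∑ ℓ : E × U, (if Acc (M.run z (r * L)) ∧
        (∀ ℓ', ℓ' ≠ ℓ → ¬ tri H adj z ℓ') ∧ tri H adj z ℓ then
          prb H M L k f r g V z ℓ else 0) ≤ if z ∈ aOT then nT / (V : ℝ) ^ 2 else 0 := by
      intro z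
      by_cases hz : z ∈ aOT
      · rw [if_pos hz]
        rw [haOT, Finset.mem_filter] at hz
        obtain ⟨_, hz1, ℓ0, hz2⟩ := hz
        rw [Finset.sum_eq_single ℓ0]
        · rw [if_pos ⟨hz1, hz2.2, hz2.1⟩]
          exact prb_le H M L k f hVk z ℓ0
        · intro ℓ _ hne
          rw [if_neg]
          rintro ⟨_, _, h⟩
          exact hz2.2 ℓ hne h
        · intro h; exact absurd (Finset.mem_univ _) h
      · rw [if_neg hz]
        refine (Finset.sum_eq_zero fun ℓ _ => ?_).le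
        rw [if_neg]
        rintro ⟨a1, a2, a3⟩
        exact hz (Finset.mem_filter.2 ⟨Finset.mem_univ _, a1, ℓ, a3, a2⟩)
    refine (Finset.sum_le_sum fun z _ => e4 z).trans (le_of_eq ?_)
    rw [Finset.sum_ite_mem, Finset.univ_inter, Finset.sum_const, nsmul_eq_mul]
  -- heavy part
  have hZT : ∀ θ : (Fin r → Bool ⊕ Fin g) × (K × U → Fin V),
      ((ZT H M L Acc adj k f θ).card : ℝ) ≤ TF.card := by
    intro θ
    have : ZT H M L Acc adj k f θ ⊆ TF := by
      intro z hz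
      rw [mem_ZT] at hz
      exact Finset.mem_filter.2 ⟨Finset.mem_univ _, hz.2.2⟩
    exact_mod_cast Finset.card_le_card this
  set W := (TF.card : ℝ) * (h0 + Fintype.card (K × U) / Real.sqrt Λ) + R with hW
  have hbsum : ∑ θ : (Fin r → Bool ⊕ Fin g) × (K × U → Fin V), ∑ D : E × U → Bool,
      ∑ ℓ : E × U, (((GG H M L Acc adj k f θ ℓ).filter fun z => ¬ tri H adj z ℓ ∧
        (Heavy H M L Acc adj k f θ D Λ ℓ true z ∨
          Heavy H M L Acc adj k f θ D Λ ℓ false z)).card : ℝ) ≤ nT * (4 * nD * W) := by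
    have e5 : ∀ θ : (Fin r → Bool ⊕ Fin g) × (K × U → Fin V), ∀ b : Bool,
        ∑ D : E × U → Bool, ∑ ℓ : E × U, (((GG H M L Acc adj k f θ ℓ).filter fun z =>
        ¬ tri H adj z ℓ ∧ Heavy H M L Acc adj k f θ D Λ ℓ b z).card : ℝ) ≤ 2 * nD * W := by
      intro θ b
      refine (heavy_part H M L Acc adj k f hL hr θ Λ hΛ.le b).trans ?_
      rw [mul_assoc]
      apply mul_le_mul_of_nonneg_left _ (by norm_num)
      calc _ ≤ ∑ _D : E × U → Bool, W := by
            refine Finset.sum_le_sum fun D _ => ?_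
            refine (oheavy_sum H M L Acc adj k f θ D hV1R Λ hΛ hU h0 b).trans ?_
            rw [hW]
            have : (0 : ℝ) ≤ h0 + Fintype.card (K × U) / Real.sqrt Λ := by positivity
            have := mul_le_mul_of_nonneg_right (hZT θ) this
            linarith
        _ = _ := by rw [Finset.sum_const, Finset.card_univ, nsmul_eq_mul]
    have e6 : ∀ θ : (Fin r → Bool ⊕ Fin g) × (K × U → Fin V), ∑ D : E × U → Bool,
      ∑ ℓ : E × U, (((GG H M L Acc adj k f θ ℓ).filter fun z => ¬ tri H adj z ℓ ∧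
        (Heavy H M L Acc adj k f θ D Λ ℓ true z ∨
          Heavy H M L Acc adj k f θ D Λ ℓ false z)).card : ℝ) ≤ 4 * nD * W := by
      intro θ
      have e7 : ∑ D : E × U → Bool,
        ∑ ℓ : E × U, (((GG H M L Acc adj k f θ ℓ).filter fun z => ¬ tri H adj z ℓ ∧
        (Heavy H M L Acc adj k f θ D Λ ℓ true z ∨
          Heavy H M L Acc adj k f θ D Λ ℓ false z)).card : ℝ) ≤
        ∑ D : E × U → Bool, ∑ ℓ : E × U, (((GG H M L Acc adj k f θ ℓ).filter fun z =>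
        ¬ tri H adj z ℓ ∧ Heavy H M L Acc adj k f θ D Λ ℓ true z).card : ℝ) +
        ∑ D : E × U → Bool, ∑ ℓ : E × U, (((GG H M L Acc adj k f θ ℓ).filter fun z =>
        ¬ tri H adj z ℓ ∧ Heavy H M L Acc adj k f θ D Λ ℓ false z).card : ℝ) := by
        rw [← Finset.sum_add_distrib]
        refine Finset.sum_le_sum fun D _ => ?_
        rw [← Finset.sum_add_distrib]
        refine Finset.sum_le_sum fun ℓ _ => ?_
        have : ((GG H M L Acc adj k f θ ℓ).filter fun z => ¬ tri H adj z ℓ ∧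
          (Heavy H M L Acc adj k f θ D Λ ℓ true z ∨
          Heavy H M L Acc adj k f θ D Λ ℓ false z)) ⊆
          ((GG H M L Acc adj k f θ ℓ).filter fun z =>
            ¬ tri H adj z ℓ ∧ Heavy H M L Acc adj k f θ D Λ ℓ true z) ∪
          ((GG H M L Acc adj k f θ ℓ).filter fun z =>
            ¬ tri H adj z ℓ ∧ Heavy H M L Acc adj k f θ D Λ ℓ false z) := by
          intro z hz
          rw [Finset.mem_union, Finset.mem_filter, Finset.mem_filter]
          rw [Finset.mem_filter] at hz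
          rcases hz.2.2 with h | h
          · exact Or.inl ⟨hz.1, hz.2.1, h⟩
          · exact Or.inr ⟨hz.1, hz.2.1, h⟩
        have := (Finset.card_le_card this).trans (Finset.card_union_le _ _)
        exact_mod_cast this
      have := e5 θ true
      have := e5 θ false
      linarith
    calc _ ≤ ∑ _θ : (Fin r → Bool ⊕ Fin g) × (K × U → Fin V), 4 * nD * W :=
          Finset.sum_le_sum fun θ _ => e6 θ
      _ = _ := by rw [Finset.sum_const, Finset.card_univ, nsmul_eq_mul, hcT]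
  -- conclusion
  have hδ' : 0 ≤ 1 - 3 * δ := by linarith
  have f1 : (1 - 3 * δ) * κ₀ * (nD * ((aTF.card : ℝ) * ((1 - η) * Fintype.card (E × U) *
      (nT / (V : ℝ) ^ 2)))) - 2 / δ * κ₀ * (nT * (4 * nD * W)) ≤
      nD * ((aOT.card : ℝ) * (nT / (V : ℝ) ^ 2)) := by
    have g1 := mul_le_mul_of_nonneg_left h0sum (show 0 ≤ (1 - 3 * δ) * κ₀ by positivity)
    have g2 := mul_le_mul_of_nonneg_left hbsum (show 0 ≤ 2 / δ * κ₀ by positivity)
    linarith
  have f2 : 0 < nD * (nT / (V : ℝ) ^ 2) := by positivity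
  have f3 : (nD * (nT / (V : ℝ) ^ 2)) * (κ₀ * ((1 - 3 * δ) * ((1 - η) * Fintype.card (E × U) *
      (aTF.card : ℝ)) - 8 / δ * (V : ℝ) ^ 2 * W)) ≤ (nD * (nT / (V : ℝ) ^ 2)) * aOT.card := by
    refine le_trans (le_of_eq ?_) (f1.trans (le_of_eq ?_))
    · field_simp
      ring
    · ring
  exact le_of_mul_le_mul_left f3 f2

/-- The inequality for deterministic machines, with the sets as arguments. -/
theorem det_ineq' (hL : 0 < L) (hr : 0 < r) (hVk : (g + 2) ^ k ≤ V)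
    (κ₀ lam Λ δ η : ℝ) (hδ : 0 < δ) (hδ3 : δ ≤ 1 / 3)
    (hκ : 0 ≤ κ₀) (hκδ : κ₀ ≤ δ / 2) (hlam : 0 ≤ lam) (hΛ : 0 < Λ) (hU : 0 < Fintype.card U)
    (hmix : ∀ a b : U → ℝ, ∀ [DecidableRel adj],
      |(∑ x, ∑ y, if adj x y then a x * b y else 0) -
      κ₀ * ((∑ x, a x) * (∑ y, b y))| ≤ lam * (Real.sqrt (∑ x, a x ^ 2) *
        Real.sqrt (∑ y, b y ^ 2)))
    (hlΛ : lam * Λ / Fintype.card U ≤ δ * κ₀) (h0 : ℕ)
    (hgood : ∀ z : K → Perm U, (1 - η) * Fintype.card (E × U) * (nTh r g V K U / (V : ℝ) ^ 2) ≤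
      ∑ ℓ : E × U, prb H M L k f r g V z ℓ)
    (S0 S1 T0 : Finset (K → Perm U))
    (hS0 : ∀ z, z ∈ S0 ↔ Acc (M.run z (r * L)) ∧ ∀ ℓ : E × U, ¬ tri H adj z ℓ)
    (hT0 : ∀ z, z ∈ T0 ↔ ∀ ℓ : E × U, ¬ tri H adj z ℓ)
    (hS1 : ∀ z, z ∈ S1 ↔ Acc (M.run z (r * L)) ∧ ∃ ℓ : E × U, only H adj z ℓ) :
    κ₀ * ((1 - 3 * δ) * ((1 - η) * Fintype.card (E × U) * (S0.card : ℝ)) -
      8 / δ * (V : ℝ) ^ 2 * ((T0.card : ℝ) * (h0 + Fintype.card (K × U) / Real.sqrt Λ) +
        nDesc r f V (Fintype.card Q) (Fintype.card (K × U)) *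
        (f * (2 ^ f * ((Real.exp 1 / Real.sqrt Λ) ^ h0 * Fintype.card (K → Perm U)))))) ≤
      (S1.card : ℝ) := by
  classical
  have e0 : S0 = (Finset.univ.filter fun z : K → Perm U => Acc (M.run z (r * L)) ∧
        ∀ ℓ : E × U, ¬ tri H adj z ℓ) := by ext z; simp [hS0]
  have e1 : S1 = (Finset.univ.filter fun z : K → Perm U => Acc (M.run z (r * L)) ∧
        ∃ ℓ : E × U, only H adj z ℓ) := by ext z; simp [hS1]
  have e2 : T0 = (Finset.univ.filter fun z : K → Perm U =>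
        ∀ ℓ : E × U, ¬ tri H adj z ℓ) := by ext z; simp [hT0]
  have := det_ineq H M L Acc adj k f hL hr hVk κ₀ lam Λ δ η hδ hδ3 hκ hκδ hlam hΛ hU
    (fun a b => hmix a b) hlΛ h0 hgood
  rw [e0, e1, e2]
  convert this

end Pool.Agent.TR
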