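import Mathlib
import Pool.Agent.Lib_helper21.TS.Mix

/-!
# Weighted expander mixing for Cayley sum graphs of finite abelian groups
-/

namespace Pool.Agent.TR

open Finset AddChar

section General

variable {G : Type} [AddCommGroup G] [Fintype G] [DecidableEq G]

lemma parsevalR (a : G → ℝ) :
    ∑ ψ : AddChar G ℂ, ‖∑ y, (a y : ℂ) * ψ y‖ ^ 2 = (Fintype.card G : ℝ) * ∑ y, (a y) ^ 2 := by
  have h : ∀ ψ : AddChar G ℂ, ((‖∑ y, (a y : ℂ) * ψ y‖ ^ 2 : ℝ) : ℂ) =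
      ∑ y, ∑ y', ((a y : ℂ) * (a y' : ℂ)) * ψ (y - y') := by
    intro ψ
    rw [Complex.ofReal_pow, ← Complex.conj_mul', map_sum, mul_comm, Finset.sum_mul_sum]
    refine Finset.sum_congr rfl fun y _ => Finset.sum_congr rfl fun y' _ => ?_
    rw [map_mul, Complex.conj_ofReal, sub_eq_add_neg, AddChar.map_add_eq_mul,
      AddChar.map_neg_eq_conj]
    ring
  have h2 : ((∑ ψ : AddChar G ℂ, ‖∑ y, (a y : ℂ) * ψ y‖ ^ 2 : ℝ) : ℂ) =
      (((Fintype.card G : ℝ) * ∑ y, (a y) ^ 2 : ℝ) : ℂ) := by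
    push_cast
    simp_rw [← Complex.ofReal_pow, h]
    rw [Finset.sum_comm]
    simp_rw [Finset.sum_comm (s := (Finset.univ : Finset (AddChar G ℂ)))]
    have : ∀ y, ∑ y', ∑ ψ : AddChar G ℂ, ((a y : ℂ) * (a y' : ℂ)) * ψ (y - y') =
        (Fintype.card G : ℂ) * ((a y ^ 2 : ℝ) : ℂ) := by
      intro y
      simp_rw [← Finset.mul_sum, AddChar.sum_apply_eq_ite, sub_eq_zero, mul_ite, mul_zero]
      rw [Finset.sum_ite_eq]
      simp
      ring
    rw [Finset.sum_congr rfl fun y _ => this y, ← Finset.mul_sum]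
  exact_mod_cast h2

/-- Expander mixing with weights. -/
lemma mixingR {K : Type} [Fintype K] (g : K → G) (lam : ℝ) (hlam : 0 ≤ lam)
    (hg : ∀ ψ : AddChar G ℂ, ψ ≠ 0 → ‖∑ k, ψ (g k)‖ ≤ lam) (a b : G → ℝ) :
    |(∑ x, ∑ k, a x * b (x + g k)) -
      (Fintype.card K : ℝ) / (Fintype.card G) * ((∑ x, a x) * (∑ y, b y))| ≤
      lam * (Real.sqrt (∑ x, a x ^ 2) * Real.sqrt (∑ y, b y ^ 2)) := by
  set fV : AddChar G ℂ → ℂ := fun ψ => ∑ x, (a x : ℂ) * ψ x with hfV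
  set fW : AddChar G ℂ → ℂ := fun ψ => ∑ y, (b y : ℂ) * ψ y with hfW
  set fS : AddChar G ℂ → ℂ := fun ψ => ∑ k, ψ (g k) with hfS
  have hG : (0 : ℝ) < Fintype.card G := by exact_mod_cast Fintype.card_pos
  have hzero : ∑ ψ : AddChar G ℂ, fW ψ * (starRingEnd ℂ) (fV ψ) * (starRingEnd ℂ) (fS ψ) =
      (((Fintype.card G : ℝ) * ∑ x, ∑ k, a x * b (x + g k) : ℝ) : ℂ) := by
    have h1 : ∀ ψ : AddChar G ℂ, fW ψ * (starRingEnd ℂ) (fV ψ) * (starRingEnd ℂ) (fS ψ) =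
        ∑ y, ∑ x, ∑ k, ((b y : ℂ) * (a x : ℂ)) * ψ (y - x - g k) := by
      intro ψ
      simp only [hfV, hfW, hfS, map_sum]
      rw [Finset.sum_mul_sum, Finset.sum_mul]
      refine Finset.sum_congr rfl fun y _ => ?_
      rw [Finset.sum_mul_sum]
      refine Finset.sum_congr rfl fun x _ => Finset.sum_congr rfl fun k _ => ?_
      rw [map_mul, Complex.conj_ofReal, sub_eq_add_neg, sub_eq_add_neg, AddChar.map_add_eq_mul,
        AddChar.map_add_eq_mul, AddChar.map_neg_eq_conj, AddChar.map_neg_eq_conj]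
      ring
    simp_rw [h1]
    rw [Finset.sum_comm]
    have h2 : ∀ y, ∑ ψ : AddChar G ℂ, ∑ x, ∑ k, ((b y : ℂ) * (a x : ℂ)) * ψ (y - x - g k) =
        ∑ x, ∑ k, if y = x + g k then (Fintype.card G : ℂ) * ((b y : ℂ) * (a x : ℂ)) else 0 := by
      intro y
      rw [Finset.sum_comm]
      refine Finset.sum_congr rfl fun x _ => ?_
      rw [Finset.sum_comm]
      refine Finset.sum_congr rfl fun k _ => ?_
      rw [← Finset.mul_sum, AddChar.sum_apply_eq_ite]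
      have : y - x - g k = 0 ↔ y = x + g k := by
        rw [sub_eq_zero, sub_eq_iff_eq_add']
      by_cases h : y = x + g k
      · rw [if_pos (this.2 h), if_pos h]; ring
      · rw [if_neg (fun h' => h (this.1 h')), if_neg h, mul_zero]
    simp_rw [h2]
    rw [Finset.sum_comm]
    push_cast
    rw [Finset.mul_sum]
    refine Finset.sum_congr rfl fun x _ => ?_
    rw [Finset.sum_comm, Finset.mul_sum]
    refine Finset.sum_congr rfl fun k _ => ?_
    rw [Finset.sum_ite_eq']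
    simp
    ring
  rw [← Finset.add_sum_erase _ _ (Finset.mem_univ (0 : AddChar G ℂ))] at hzero
  have h0 : fW 0 * (starRingEnd ℂ) (fV 0) * (starRingEnd ℂ) (fS 0) =
      (((Fintype.card K : ℝ) * ((∑ x, a x) * (∑ y, b y)) : ℝ) : ℂ) := by
    simp [hfV, hfW, hfS]
    ring
  rw [h0] at hzero
  have hle : |(Fintype.card G : ℝ) * (∑ x, ∑ k, a x * b (x + g k)) -
      (Fintype.card K : ℝ) * ((∑ x, a x) * (∑ y, b y))| ≤
      lam * ∑ ψ : AddChar G ℂ, ‖fW ψ‖ * ‖fV ψ‖ := by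
    have h2 : ‖(((Fintype.card G : ℝ) * (∑ x, ∑ k, a x * b (x + g k)) -
      (Fintype.card K : ℝ) * ((∑ x, a x) * (∑ y, b y)) : ℝ) : ℂ)‖ =
        ‖∑ ψ ∈ (Finset.univ : Finset (AddChar G ℂ)).erase 0,
          fW ψ * (starRingEnd ℂ) (fV ψ) * (starRingEnd ℂ) (fS ψ)‖ := by
      rw [Complex.ofReal_sub, ← hzero, add_sub_cancel_left]
    rw [Complex.norm_real, Real.norm_eq_abs] at h2
    rw [h2, Finset.mul_sum]
    refine (norm_sum_le _ _).trans ?_
    refine (Finset.sum_le_sum (f := fun ψ => ‖fW ψ * (starRingEnd ℂ) (fV ψ) *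
      (starRingEnd ℂ) (fS ψ)‖) (g := fun ψ => lam * (‖fW ψ‖ * ‖fV ψ‖)) ?_).trans ?_
    · intro ψ hψ
      have := hg ψ (Finset.ne_of_mem_erase hψ)
      rw [norm_mul, norm_mul, RCLike.norm_conj, RCLike.norm_conj, mul_comm lam]
      exact mul_le_mul_of_nonneg_left this (by positivity)
    · exact Finset.sum_le_sum_of_subset_of_nonneg (Finset.erase_subset _ _)
        fun ψ _ _ => by positivity
  have hcs : (∑ ψ : AddChar G ℂ, ‖fW ψ‖ * ‖fV ψ‖) ^ 2 ≤
      ((Fintype.card G : ℝ) * ∑ y, b y ^ 2) * ((Fintype.card G : ℝ) * ∑ x, a x ^ 2) := by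
    rw [← parsevalR b, ← parsevalR a]
    exact Finset.sum_mul_sq_le_sq_mul_sq _ _ _
  have hcs2 : (∑ ψ : AddChar G ℂ, ‖fW ψ‖ * ‖fV ψ‖) ≤
      (Fintype.card G : ℝ) * (Real.sqrt (∑ x, a x ^ 2) * Real.sqrt (∑ y, b y ^ 2)) := by
    rw [← pow_le_pow_iff_left₀ (Finset.sum_nonneg fun _ _ => by positivity) (by positivity)
      (two_ne_zero)]
    refine hcs.trans (le_of_eq ?_)
    rw [mul_pow, mul_pow, Real.sq_sqrt (Finset.sum_nonneg fun _ _ => sq_nonneg _),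
      Real.sq_sqrt (Finset.sum_nonneg fun _ _ => sq_nonneg _)]
    ring
  have h3 : |(∑ x, ∑ k, a x * b (x + g k)) -
      (Fintype.card K : ℝ) / (Fintype.card G) * ((∑ x, a x) * (∑ y, b y))| =
      |(Fintype.card G : ℝ) * (∑ x, ∑ k, a x * b (x + g k)) -
      (Fintype.card K : ℝ) * ((∑ x, a x) * (∑ y, b y))| / Fintype.card G := by
    rw [eq_div_iff hG.ne', ← abs_of_pos hG, ← abs_mul, abs_of_pos hG]
    congr 1
    field_simp
  rw [h3, div_le_iff₀ hG]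
  calc _ ≤ lam * ∑ ψ : AddChar G ℂ, ‖fW ψ‖ * ‖fV ψ‖ := hle
    _ ≤ lam * ((Fintype.card G : ℝ) * (Real.sqrt (∑ x, a x ^ 2) * Real.sqrt (∑ y, b y ^ 2))) :=
        mul_le_mul_of_nonneg_left hcs2 hlam
    _ = _ := by ring

/-- Mixing for sets: number of pairs `(b, k)` with `b ∈ Z`, `b + g k ∈ Y`. -/
lemma mixing_sets {K : Type} [Fintype K] (g : K → G) (lam : ℝ) (hlam : 0 ≤ lam)
    (hg : ∀ ψ : AddChar G ℂ, ψ ≠ 0 → ‖∑ k, ψ (g k)‖ ≤ lam) (Z Y : Finset G) :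
    ((Finset.univ.filter fun p : G × K => p.1 ∈ Z ∧ p.1 + g p.2 ∈ Y).card : ℝ) ≤
      (Fintype.card K : ℝ) / (Fintype.card G) * (Z.card * Y.card) +
        lam * Real.sqrt (Z.card * Y.card) := by
  have h := mixingR g lam hlam hg (fun x => if x ∈ Z then 1 else 0) (fun y => if y ∈ Y then 1 else 0)
  have h1 : ∑ x, ∑ k, (if x ∈ Z then (1 : ℝ) else 0) * (if x + g k ∈ Y then 1 else 0) =
      ((Finset.univ.filter fun p : G × K => p.1 ∈ Z ∧ p.1 + g p.2 ∈ Y).card : ℝ) := by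
    rw [Finset.card_filter]
    push_cast
    rw [Fintype.sum_prod_type]
    refine Finset.sum_congr rfl fun x _ => Finset.sum_congr rfl fun k _ => ?_
    by_cases h1 : x ∈ Z <;> by_cases h2 : x + g k ∈ Y <;> simp [h1, h2]
  have h2 : ∀ Z : Finset G, ∑ x, (if x ∈ Z then (1 : ℝ) else 0) = Z.card := by
    intro Z; simp
  have h3 : ∀ Z : Finset G, ∑ x, (if x ∈ Z then (1 : ℝ) else 0) ^ 2 = Z.card := by
    intro Z; simp
  rw [h1, h2, h2, h3, h3] at h
  have h4 := (abs_le.1 h).2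
  rw [← Real.sqrt_mul (by positivity)] at h4
  linarith

end General

section Gen

open Pool.Agent.TS

variable {q : ℕ} [Fact q.Prime]

lemma gen_inj0 : Function.Injective (fun k : Gen q => (gen k : Blk q 0 × Inn q)) := by
  intro k k' h
  have h0 := congrFun (congrArg Prod.snd h) 0
  have h1 := congrFun (congrArg Prod.snd h) 1
  simp [gen, dir] at h0 h1
  obtain ⟨⟨s, hs⟩, t⟩ := k
  obtain ⟨⟨s', hs'⟩, t'⟩ := k'
  simp only at h0 h1
  subst h0
  have := mul_left_cancel₀ hs h1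
  subst this
  rfl

lemma gen_inj2 {a : ℕ} : Function.Injective (fun k : Gen q => (gen k : Blk q (a + 2) × Inn q)) := by
  intro k k' h
  have h0 := congrFun (congrArg Prod.fst h) 0
  have h1 := congrFun (congrArg Prod.fst h) 1
  simp [gen, dir] at h0 h1
  obtain ⟨⟨s, hs⟩, t⟩ := k
  obtain ⟨⟨s', hs'⟩, t'⟩ := k'
  simp only at h0 h1
  subst h0
  have := mul_left_cancel₀ hs h1
  subst this
  rfl

end Gen

end Pool.Agent.TR
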