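import Mathlib
import Pool.Agent.Lib_helper21.TR.Assembly

/-!
# Few inputs with one triangle
-/

set_option linter.unusedSectionVars false

namespace Pool.Agent.TR

open Finset Equiv

variable {K U E : Type} [Fintype K] [Fintype U] [Fintype E] [DecidableEq K] [DecidableEq U]
  [DecidableEq E] (H : BG K E) (adj : U → U → Prop)

/-- Swapping two values of one permutation. -/
def swp (z : K → Perm U) (κ : K) (u u' : U) : K → Perm U :=
  Function.update z κ (z κ * Equiv.swap u u')

lemma swp_swp (z : K → Perm U) (κ : K) (u u' : U) : swp (swp z κ u u') κ u u' = z := by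
  unfold swp
  rw [Function.update_self, Function.update_idem, mul_assoc, Equiv.swap_mul_self, mul_one,
    Function.update_eq_self]

open Classical in
/-- Bad partners for the swap. -/
noncomputable def bad1 (z : K → Perm U) (ℓ : E × U) : Finset U :=
  Finset.univ.filter fun u' => ∃ ε, H.ky true ε = H.ky true ℓ.1 ∧
    adj (z (H.ky true ℓ.1) u') (z (H.ky false ε) ℓ.2)

open Classical in
/-- Bad partners for the swap. -/
noncomputable def bad2 (z : K → Perm U) (ℓ : E × U) : Finset U :=
  Finset.univ.filter fun u' => ∃ ε, H.ky true ε = H.ky true ℓ.1 ∧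
    adj (z (H.ky true ℓ.1) ℓ.2) (z (H.ky false ε) u')

open Classical in
lemma bad1_card (D0 d1 : ℕ) (hD0 : ∀ κ, (Finset.univ.filter fun ε => H.ky true ε = κ).card ≤ D0)
    (hd : ∀ y, (Finset.univ.filter fun x => adj x y).card ≤ d1) (z : K → Perm U) (ℓ : E × U) :
    (bad1 H adj z ℓ).card ≤ D0 * d1 := by
  have h1 : bad1 H adj z ℓ ⊆ (Finset.univ.filter fun ε => H.ky true ε =
      H.ky true ℓ.1).biUnion fun ε => Finset.univ.filter fun u' =>
        adj (z (H.ky true ℓ.1) u') (z (H.ky false ε) ℓ.2) := by
    intro u' hu'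
    rw [bad1, Finset.mem_filter] at hu'
    obtain ⟨_, ε, h1, h2⟩ := hu'
    rw [Finset.mem_biUnion]
    exact ⟨ε, by simpa using h1, by simpa using h2⟩
  refine (Finset.card_le_card h1).trans (Finset.card_biUnion_le.trans ?_)
  calc _ ≤ ∑ _ε ∈ Finset.univ.filter (fun ε => H.ky true ε = H.ky true ℓ.1), d1 := by
        refine Finset.sum_le_sum fun ε _ => ?_
        refine le_trans ?_ (hd (z (H.ky false ε) ℓ.2))
        refine Finset.card_le_card_of_injOn (fun u' => z (H.ky true ℓ.1) u') ?_ ?_
        · intro u' hu'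
          simpa using hu'
        · intro u' _ u'' _ h
          exact (z (H.ky true ℓ.1)).injective h
    _ ≤ _ := by
        rw [Finset.sum_const, smul_eq_mul]
        exact Nat.mul_le_mul_right _ (hD0 _)

open Classical in
lemma bad2_card (D0 d1 : ℕ) (hD0 : ∀ κ, (Finset.univ.filter fun ε => H.ky true ε = κ).card ≤ D0)
    (hd : ∀ x, (Finset.univ.filter fun y => adj x y).card ≤ d1) (z : K → Perm U) (ℓ : E × U) :
    (bad2 H adj z ℓ).card ≤ D0 * d1 := by
  have h1 : bad2 H adj z ℓ ⊆ (Finset.univ.filter fun ε => H.ky true ε =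
      H.ky true ℓ.1).biUnion fun ε => Finset.univ.filter fun u' =>
        adj (z (H.ky true ℓ.1) ℓ.2) (z (H.ky false ε) u') := by
    intro u' hu'
    rw [bad2, Finset.mem_filter] at hu'
    obtain ⟨_, ε, h1, h2⟩ := hu'
    rw [Finset.mem_biUnion]
    exact ⟨ε, by simpa using h1, by simpa using h2⟩
  refine (Finset.card_le_card h1).trans (Finset.card_biUnion_le.trans ?_)
  calc _ ≤ ∑ _ε ∈ Finset.univ.filter (fun ε => H.ky true ε = H.ky true ℓ.1), d1 := by
        refine Finset.sum_le_sum fun ε _ => ?_
        refine le_trans ?_ (hd (z (H.ky true ℓ.1) ℓ.2))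
        refine Finset.card_le_card_of_injOn (fun u' => z (H.ky false ε) u') ?_ ?_
        · intro u' hu'
          simpa using hu'
        · intro u' _ u'' _ h
          exact (z (H.ky false ε)).injective h
    _ ≤ _ := by
        rw [Finset.sum_const, smul_eq_mul]
        exact Nat.mul_le_mul_right _ (hD0 _)

lemma swp_free (z : K → Perm U) (ℓ : E × U) (h : only H adj z ℓ) (u' : U)
    (h1 : u' ∉ bad1 H adj z ℓ) (h2 : u' ∉ bad2 H adj z ℓ) (ℓ' : E × U) :
    ¬ tri H adj (swp z (H.ky true ℓ.1) ℓ.2 u') ℓ' := by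
  classical
  have hyx : ∀ ε, H.ky false ε ≠ H.ky true ℓ.1 := by
    intro ε he
    have := congrArg H.sd he
    rw [H.hsd, H.hsd] at this
    exact absurd this (by decide)
  have hY : val (swp z (H.ky true ℓ.1) ℓ.2 u') (H.pt false ℓ') = val z (H.pt false ℓ') := by
    unfold val swp BG.pt
    simp only
    rw [Function.update_of_ne (hyx _)]
  intro ht
  unfold tri at ht
  rw [hY] at ht
  by_cases hk : H.ky true ℓ'.1 = H.ky true ℓ.1
  · have hX : val (swp z (H.ky true ℓ.1) ℓ.2 u') (H.pt true ℓ') =
        z (H.ky true ℓ.1) (Equiv.swap ℓ.2 u' ℓ'.2) := by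
      unfold val swp BG.pt
      simp only
      rw [hk, Function.update_self, Perm.mul_apply]
    rw [hX] at ht
    by_cases hu : ℓ'.2 = ℓ.2
    · rw [hu, Equiv.swap_apply_left] at ht
      apply h1
      rw [bad1, Finset.mem_filter]
      refine ⟨Finset.mem_univ _, ℓ'.1, hk, ?_⟩
      have : val z (H.pt false ℓ') = z (H.ky false ℓ'.1) ℓ.2 := by
        unfold val BG.pt; simp only; rw [hu]
      rw [this] at ht
      exact ht
    · by_cases hu' : ℓ'.2 = u'
      · rw [hu', Equiv.swap_apply_right] at ht
        apply h2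
        rw [bad2, Finset.mem_filter]
        refine ⟨Finset.mem_univ _, ℓ'.1, hk, ?_⟩
        have : val z (H.pt false ℓ') = z (H.ky false ℓ'.1) u' := by
          unfold val BG.pt; simp only; rw [hu']
        rw [this] at ht
        exact ht
      · rw [Equiv.swap_apply_of_ne_of_ne hu hu'] at ht
        apply h.2 ℓ' (fun he => hu (by rw [he]))
        unfold tri
        have : val z (H.pt true ℓ') = z (H.ky true ℓ.1) ℓ'.2 := by
          unfold val BG.pt; simp only; rw [hk]
        rw [this]
        exact ht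
  · have hX : val (swp z (H.ky true ℓ.1) ℓ.2 u') (H.pt true ℓ') = val z (H.pt true ℓ') := by
      unfold val swp BG.pt
      simp only
      rw [Function.update_of_ne hk]
    rw [hX] at ht
    exact h.2 ℓ' (fun he => hk (by rw [he])) ht

open Classical in
/-- The number of inputs with exactly one triangle. -/
theorem ot_bound (D0 d1 : ℕ)
    (hD0 : ∀ κ, (Finset.univ.filter fun ε => H.ky true ε = κ).card ≤ D0)
    (hd : ∀ y, (Finset.univ.filter fun x => adj x y).card ≤ d1)
    (hd' : ∀ x, (Finset.univ.filter fun y => adj x y).card ≤ d1) :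
    ((Finset.univ.filter fun z : K → Perm U => ∃ ℓ : E × U, only H adj z ℓ).card : ℝ) *
      ((Fintype.card U : ℝ) - 2 * (D0 * d1)) ≤
    ((Finset.univ.filter fun z : K → Perm U => ∀ ℓ : E × U, ¬ tri H adj z ℓ).card : ℝ) *
      Fintype.card (E × U) * d1 := by
  set src := (Finset.univ.filter fun t : (K → Perm U) × (E × U) × U => only H adj t.1 t.2.1 ∧
    t.2.2 ∉ bad1 H adj t.1 t.2.1 ∧ t.2.2 ∉ bad2 H adj t.1 t.2.1) with hsrc
  set tgt := (Finset.univ.filter fun t : (K → Perm U) × (E × U) × U =>
    (∀ ℓ : E × U, ¬ tri H adj t.1 ℓ) ∧ adj t.2.2 (val t.1 (H.pt false t.2.1))) with htgt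
  have hinj : src.card ≤ tgt.card := by
    refine Finset.card_le_card_of_injOn (fun t => (swp t.1 (H.ky true t.2.1.1) t.2.1.2 t.2.2,
      t.2.1, val t.1 (H.pt true t.2.1))) ?_ ?_
    · rintro ⟨z, ℓ, u'⟩ ht
      rw [Finset.mem_coe, hsrc, Finset.mem_filter] at ht
      obtain ⟨_, h1, h2, h3⟩ := ht
      simp only at h1 h2 h3
      rw [Finset.mem_coe, htgt, Finset.mem_filter]
      refine ⟨Finset.mem_univ _, swp_free H adj z ℓ h1 u' h2 h3, ?_⟩
      simp only
      have hY : val (swp z (H.ky true ℓ.1) ℓ.2 u') (H.pt false ℓ) = val z (H.pt false ℓ) := by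
        unfold val swp BG.pt
        simp only
        rw [Function.update_of_ne]
        intro he
        have := congrArg H.sd he
        rw [H.hsd, H.hsd] at this
        exact absurd this (by decide)
      rw [hY]
      exact h1.1
    · rintro ⟨z, ℓ, u'⟩ _ ⟨z2, ℓ2, u2⟩ _ h
      simp only [Prod.mk.injEq] at h
      obtain ⟨h1, rfl, h3⟩ := h
      have hu : u' = u2 := by
        have e1 : ∀ (z : K → Perm U) (u' : U), (swp z (H.ky true ℓ.1) ℓ.2 u')
            (H.ky true ℓ.1) u' = val z (H.pt true ℓ) := by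
          intro z u'
          unfold swp val BG.pt
          rw [Function.update_self, Perm.mul_apply, Equiv.swap_apply_right]
        have e2 := e1 z u'
        have e3 := e1 z2 u2
        rw [← h1, ← h3, ← e2] at e3
        exact ((Equiv.injective _) e3).symm
      subst hu
      have hz : z = z2 := by
        rw [← swp_swp z (H.ky true ℓ.1) ℓ.2 u', h1, swp_swp]
      rw [hz]
  -- count of the source
  have hS : ((Finset.univ.filter fun z : K → Perm U => ∃ ℓ : E × U, only H adj z ℓ).card : ℝ) ≤
      ((Finset.univ.filter fun t : (K → Perm U) × (E × U) => only H adj t.1 t.2).card : ℝ) := by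
    have : (Finset.univ.filter fun z : K → Perm U => ∃ ℓ : E × U, only H adj z ℓ) ⊆
        (Finset.univ.filter fun t : (K → Perm U) × (E × U) => only H adj t.1 t.2).image
          Prod.fst := by
      intro z hz
      obtain ⟨ℓ, hℓ⟩ := (Finset.mem_filter.1 hz).2
      exact Finset.mem_image.2 ⟨(z, ℓ), Finset.mem_filter.2 ⟨Finset.mem_univ _, hℓ⟩, rfl⟩
    exact_mod_cast (Finset.card_le_card this).trans Finset.card_image_le
  have hsrcge : ((Finset.univ.filter fun t : (K → Perm U) × (E × U) =>
      only H adj t.1 t.2).card : ℝ) * ((Fintype.card U : ℝ) - 2 * (D0 * d1)) ≤ src.card := by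
    have e1 : (src.card : ℝ) = ∑ t ∈ Finset.univ.filter (fun t : (K → Perm U) × (E × U) =>
        only H adj t.1 t.2), ((Finset.univ.filter fun u' => u' ∉ bad1 H adj t.1 t.2 ∧
          u' ∉ bad2 H adj t.1 t.2).card : ℝ) := by
      rw [hsrc, Finset.card_filter, Finset.sum_filter]
      push_cast
      rw [Fintype.sum_prod_type, Fintype.sum_prod_type]
      refine Finset.sum_congr rfl fun z _ => ?_
      rw [Fintype.sum_prod_type]
      refine Finset.sum_congr rfl fun ℓ _ => ?_
      simp only
      by_cases h : only H adj z ℓ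
      · simp only [h, true_and, if_true]
        rw [Finset.sum_boole]
      · simp [h]
    rw [e1]
    calc _ = ∑ _t ∈ Finset.univ.filter (fun t : (K → Perm U) × (E × U) =>
        only H adj t.1 t.2), ((Fintype.card U : ℝ) - 2 * (D0 * d1)) := by
          rw [Finset.sum_const, nsmul_eq_mul]
      _ ≤ _ := by
          refine Finset.sum_le_sum fun t _ => ?_
          have h1 : (Finset.univ : Finset U) ⊆ (Finset.univ.filter fun u' =>
              u' ∉ bad1 H adj t.1 t.2 ∧ u' ∉ bad2 H adj t.1 t.2) ∪
              (bad1 H adj t.1 t.2 ∪ bad2 H adj t.1 t.2) := by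
            intro u' _
            rw [Finset.mem_union, Finset.mem_union, Finset.mem_filter]
            by_cases a1 : u' ∈ bad1 H adj t.1 t.2
            · exact Or.inr (Or.inl a1)
            · by_cases a2 : u' ∈ bad2 H adj t.1 t.2
              · exact Or.inr (Or.inr a2)
              · exact Or.inl ⟨Finset.mem_univ _, a1, a2⟩
          have h2 := (Finset.card_le_card h1).trans ((Finset.card_union_le _ _).trans
            (Nat.add_le_add_left (Finset.card_union_le _ _) _))
          have h3 := bad1_card H adj D0 d1 hD0 hd t.1 t.2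
          have h4 := bad2_card H adj D0 d1 hD0 hd' t.1 t.2
          rw [Finset.card_univ] at h2
          have h5 : Fintype.card U ≤ (Finset.univ.filter fun u' =>
              u' ∉ bad1 H adj t.1 t.2 ∧ u' ∉ bad2 H adj t.1 t.2).card + 2 * (D0 * d1) := by
            omega
          have h6 : (Fintype.card U : ℝ) ≤ ((Finset.univ.filter fun u' =>
              u' ∉ bad1 H adj t.1 t.2 ∧ u' ∉ bad2 H adj t.1 t.2).card : ℝ) +
                2 * (D0 * d1) := by exact_mod_cast h5
          linarith
  have htgtle : (tgt.card : ℝ) ≤ ((Finset.univ.filter fun z : K → Perm U =>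
      ∀ ℓ : E × U, ¬ tri H adj z ℓ).card : ℝ) * Fintype.card (E × U) * d1 := by
    have e1 : (tgt.card : ℝ) = ∑ z ∈ Finset.univ.filter (fun z : K → Perm U =>
        ∀ ℓ : E × U, ¬ tri H adj z ℓ), ∑ ℓ : E × U,
          ((Finset.univ.filter fun w => adj w (val z (H.pt false ℓ))).card : ℝ) := by
      rw [htgt, Finset.card_filter, Finset.sum_filter]
      push_cast
      rw [Fintype.sum_prod_type]
      refine Finset.sum_congr rfl fun z _ => ?_
      by_cases h : ∀ ℓ : E × U, ¬ tri H adj z ℓ
      · rw [if_pos h, Fintype.sum_prod_type]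
        refine Finset.sum_congr rfl fun ℓ _ => ?_
        rw [← Finset.sum_boole]
        refine Finset.sum_congr rfl fun w _ => ?_
        simp only [h, true_and, not_false_eq_true, implies_true]
      · rw [if_neg h]
        refine Finset.sum_eq_zero fun t _ => ?_
        rw [if_neg (fun h' => h h'.1)]
    rw [e1]
    calc _ ≤ ∑ _z ∈ Finset.univ.filter (fun z : K → Perm U =>
        ∀ ℓ : E × U, ¬ tri H adj z ℓ), ∑ _ℓ : E × U, (d1 : ℝ) := by
          refine Finset.sum_le_sum fun z _ => Finset.sum_le_sum fun ℓ _ => ?_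
          exact_mod_cast hd _
      _ = _ := by
          rw [Finset.sum_const, Finset.sum_const, nsmul_eq_mul, nsmul_eq_mul, Finset.card_univ]
          ring
  have hneg : ((Finset.univ.filter fun z : K → Perm U => ∃ ℓ : E × U,
      only H adj z ℓ).card : ℝ) * ((Fintype.card U : ℝ) - 2 * (D0 * d1)) ≤ tgt.card := by
    rcases le_or_gt 0 ((Fintype.card U : ℝ) - 2 * (D0 * d1)) with h | h
    · calc _ ≤ ((Finset.univ.filter fun t : (K → Perm U) × (E × U) =>
            only H adj t.1 t.2).card : ℝ) * ((Fintype.card U : ℝ) - 2 * (D0 * d1)) :=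
            mul_le_mul_of_nonneg_right hS h
        _ ≤ src.card := hsrcge
        _ ≤ _ := by exact_mod_cast hinj
    · have h1 : ((Finset.univ.filter fun z : K → Perm U => ∃ ℓ : E × U,
        only H adj z ℓ).card : ℝ) * ((Fintype.card U : ℝ) - 2 * (D0 * d1)) ≤ 0 :=
        mul_nonpos_of_nonneg_of_nonpos (by positivity) h.le
      exact h1.trans (by positivity)
  exact hneg.trans htgtle

end Pool.Agent.TR
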