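import Mathlib
import Pool.Agent.Lib_helper21.TR.Mix
import Pool.Agent.Lib_helper21.TR.Switch

/-!
# Few bad locations
-/

set_option linter.unusedSectionVars false

namespace Pool.Agent.TR

open Finset Equiv

section Deg

variable {B C : Type} [AddCommGroup B] [Fintype B] [DecidableEq B] [Fintype C]

open Classical in
/-- Few pairs at vertices of large degree into a small set. -/
lemma deg_count (γ : C → B) (lam : ℝ) (hlam : 0 ≤ lam)
    (hγ : ∀ ψ : AddChar B ℂ, ψ ≠ 0 → ‖∑ k, ψ (γ k)‖ ≤ lam) (Y : Finset B) (τ1 : ℝ) (hτ : 0 < τ1)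
    (hY : 2 * (Fintype.card C : ℝ) * Y.card ≤ τ1 * Fintype.card B) :
    ((Finset.univ.filter fun p : B × C => p.1 + γ p.2 ∈ Y ∧
      τ1 < ((Finset.univ.filter fun c => p.1 + γ c ∈ Y).card : ℝ)).card : ℝ) ≤
      4 * lam ^ 2 / τ1 * Y.card := by
  have hB : (0 : ℝ) < Fintype.card B := by exact_mod_cast Fintype.card_pos
  set Z := (Finset.univ.filter fun b : B => τ1 <
    ((Finset.univ.filter fun c => b + γ c ∈ Y).card : ℝ)) with hZ
  have heq : (Finset.univ.filter fun p : B × C => p.1 + γ p.2 ∈ Y ∧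
      τ1 < ((Finset.univ.filter fun c => p.1 + γ c ∈ Y).card : ℝ)) =
      Finset.univ.filter fun p : B × C => p.1 ∈ Z ∧ p.1 + γ p.2 ∈ Y := by
    ext p
    simp only [Finset.mem_filter, Finset.mem_univ, true_and, hZ]
    tauto
  rw [heq]
  set e : ℝ := ((Finset.univ.filter fun p : B × C => p.1 ∈ Z ∧ p.1 + γ p.2 ∈ Y).card : ℝ) with he
  have he0 : 0 ≤ e := by positivity
  have h1 : e ≤ (Fintype.card C : ℝ) / (Fintype.card B) * (Z.card * Y.card) +
        lam * Real.sqrt (Z.card * Y.card) := by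
    have := mixing_sets γ lam hlam hγ Z Y
    rw [he]
    convert this
  have h2 : τ1 * Z.card ≤ e := by
    have e1 : e = ∑ b ∈ Z, ((Finset.univ.filter fun c => b + γ c ∈ Y).card : ℝ) := by
      rw [he, Finset.card_filter]
      push_cast
      rw [Fintype.sum_prod_type, ← Finset.sum_subset (Finset.subset_univ Z)]
      · refine Finset.sum_congr rfl fun b hb => ?_
        simp only [hb, true_and]
        rw [Finset.sum_boole]
      · intro b _ hb
        refine Finset.sum_eq_zero fun c _ => ?_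
        rw [if_neg (fun h => hb h.1)]
    rw [e1]
    calc τ1 * Z.card = ∑ _b ∈ Z, τ1 := by rw [Finset.sum_const, nsmul_eq_mul]; ring
      _ ≤ _ := Finset.sum_le_sum fun b hb => (Finset.mem_filter.1 hb).2.le
  have h3 : (Fintype.card C : ℝ) / (Fintype.card B) * (Z.card * Y.card) ≤ τ1 * Z.card / 2 := by
    rw [div_mul_eq_mul_div, div_le_iff₀ hB]
    have : (0 : ℝ) ≤ Z.card := by positivity
    nlinarith [mul_le_mul_of_nonneg_left hY this]
  have h4 : e ≤ 2 * (lam * Real.sqrt (Z.card * Y.card)) := by linarith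
  have h5 : e ^ 2 ≤ 4 * lam ^ 2 * (Z.card * Y.card) := by
    calc e ^ 2 ≤ (2 * (lam * Real.sqrt (Z.card * Y.card))) ^ 2 := pow_le_pow_left₀ he0 h4 2
      _ = 4 * lam ^ 2 * (Real.sqrt (Z.card * Y.card) ^ 2) := by ring
      _ = _ := by rw [Real.sq_sqrt (by positivity)]
  rcases eq_or_lt_of_le he0 with h | h
  · rw [← h]; positivity
  · have h6 : e * e ≤ e * (4 * lam ^ 2 / τ1 * Y.card) := by
      calc e * e = e ^ 2 := by ring
        _ ≤ 4 * lam ^ 2 * (Z.card * Y.card) := h5
        _ = 4 * lam ^ 2 / τ1 * Y.card * (τ1 * Z.card) := by field_simp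
        _ ≤ 4 * lam ^ 2 / τ1 * Y.card * e := mul_le_mul_of_nonneg_left h2 (by positivity)
        _ = _ := by ring
    exact le_of_mul_le_mul_left h6 h

end Deg

section Concrete

variable {J B U C Q : Type} [Fintype J] [AddCommGroup B] [Fintype B] [Fintype U] [Fintype C]
  [DecidableEq J] [DecidableEq B] [DecidableEq U] [DecidableEq C] (γ : C → B)

/-- The bipartite graph of permutation indices. -/
def HH (J : Type) (hγ : Function.Injective γ) : BG (Bool × (J × B)) ((J × B) × C) where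
  sd κ := κ.1
  ky b ε := (b, (ε.1.1, if b then ε.1.2 else ε.1.2 + γ ε.2))
  hsd := fun _ _ => rfl
  inj := by
    rintro ⟨⟨j, b⟩, c⟩ ⟨⟨j', b'⟩, c'⟩ h1 h2
    simp only [if_true, Bool.false_eq_true, if_false, Prod.mk.injEq, true_and] at h1 h2
    obtain ⟨rfl, rfl⟩ := h1
    have := hγ (add_left_cancel h2.2)
    rw [this]

variable (hγ : Function.Injective γ)

/-- The blocks read at a centre in segment `j`. -/
noncomputable def blk (hs : Finset ((Bool × (J × B)) × U)) (b : Bool) (c : J × U) : Finset B :=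
  Finset.univ.filter fun x => ((b, (c.1, x)), c.2) ∈ hs

lemma sum_blk (hs : Finset ((Bool × (J × B)) × U)) :
    ∑ c : J × U, ((blk hs true c).card + (blk hs false c).card) = hs.card := by
  classical
  have h1 : hs.card = ∑ i : (Bool × (J × B)) × U, if i ∈ hs then 1 else 0 := by
    simp
  rw [h1]
  have e : ∀ b (c : J × U), (blk hs b c).card =
      ∑ x : B, if ((b, (c.1, x)), c.2) ∈ hs then 1 else 0 := by
    intro b c
    rw [blk, Finset.card_filter]
  simp_rw [e]
  simp only [Fintype.sum_prod_type, Fintype.sum_bool]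
  rw [← Finset.sum_add_distrib]
  refine Finset.sum_congr rfl fun j _ => ?_
  rw [Finset.sum_add_distrib]
  congr 1 <;> exact Finset.sum_comm

lemma sum_blk_le (hs : Finset ((Bool × (J × B)) × U)) (b : Bool) :
    ∑ c : J × U, (blk hs b c).card ≤ hs.card := by
  rw [← sum_blk hs, Finset.sum_add_distrib]
  cases b
  · exact Nat.le_add_left _ _
  · exact Nat.le_add_right _ _

lemma blk_le (hs : Finset ((Bool × (J × B)) × U)) (b : Bool) (c : J × U) :
    (blk hs b c).card ≤ hs.card :=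
  (Finset.single_le_sum (f := fun c => (blk hs b c).card) (fun _ _ => Nat.zero_le _)
    (Finset.mem_univ c)).trans (sum_blk_le hs b)

open Classical in
/-- Locations with both endpoints in `hs`. -/
lemma both_count (lam : ℝ) (hlam : 0 ≤ lam)
    (hψ : ∀ ψ : AddChar B ℂ, ψ ≠ 0 → ‖∑ k, ψ (γ k)‖ ≤ lam)
    (hs : Finset ((Bool × (J × B)) × U)) (L : ℕ) (hL : hs.card ≤ L) :
    ((Finset.univ.filter fun ℓ : ((J × B) × C) × U => ∀ b, (HH γ J hγ).pt b ℓ ∈ hs).card : ℝ) ≤
      (Fintype.card C : ℝ) / (Fintype.card B) * (L : ℝ) ^ 2 + lam * L := by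
  have h1 : ((Finset.univ.filter fun ℓ : ((J × B) × C) × U =>
      ∀ b, (HH γ J hγ).pt b ℓ ∈ hs).card : ℝ) = ∑ c : J × U,
      ((Finset.univ.filter fun p : B × C => p.1 ∈ blk hs true c ∧
        p.1 + γ p.2 ∈ blk hs false c).card : ℝ) := by
    simp_rw [Finset.card_filter]
    push_cast
    rw [Fintype.sum_prod_type, Fintype.sum_prod_type, Fintype.sum_prod_type,
      Fintype.sum_prod_type]
    refine Finset.sum_congr rfl fun j _ => ?_
    have e1 : ∀ b : B, ∑ c : C, ∑ u : U, (if ∀ b', (HH γ J hγ).pt b' (((j, b), c), u) ∈ hs then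
        (1 : ℝ) else 0) = ∑ u : U, ∑ c : C, (if ∀ b', (HH γ J hγ).pt b' (((j, b), c), u) ∈ hs then
        (1 : ℝ) else 0) := fun b => Finset.sum_comm
    simp_rw [e1]
    rw [Finset.sum_comm]
    refine Finset.sum_congr rfl fun u _ => ?_
    rw [Fintype.sum_prod_type]
    refine Finset.sum_congr rfl fun b _ => Finset.sum_congr rfl fun c _ => ?_
    simp [HH, BG.pt, blk, Bool.forall_bool, and_comm]
  rw [h1]
  have h2 : ∀ c : J × U, ((Finset.univ.filter fun p : B × C => p.1 ∈ blk hs true c ∧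
        p.1 + γ p.2 ∈ blk hs false c).card : ℝ) ≤
      (Fintype.card C : ℝ) / (Fintype.card B) * (L * ((blk hs false c).card : ℝ)) +
        lam * (((blk hs true c).card + (blk hs false c).card : ℕ) : ℝ) := by
    intro c
    have h3 := mixing_sets γ lam hlam hψ (blk hs true c) (blk hs false c)
    have h4 : ((Finset.univ.filter fun p : B × C => p.1 ∈ blk hs true c ∧
        p.1 + γ p.2 ∈ blk hs false c).card : ℝ) ≤ (Fintype.card C : ℝ) / (Fintype.card B) *
        ((blk hs true c).card * (blk hs false c).card) +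
        lam * Real.sqrt ((blk hs true c).card * (blk hs false c).card) := by
      convert h3
    refine h4.trans (add_le_add ?_ ?_)
    · apply mul_le_mul_of_nonneg_left _ (by positivity)
      apply mul_le_mul_of_nonneg_right _ (by positivity)
      exact_mod_cast (blk_le hs true c).trans hL
    · apply mul_le_mul_of_nonneg_left _ hlam
      apply Real.sqrt_le_iff.2
      refine ⟨by positivity, ?_⟩
      push_cast
      have a1 : (0 : ℝ) ≤ (blk hs true c).card := by positivity
      have a2 : (0 : ℝ) ≤ (blk hs false c).card := by positivity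
      nlinarith
  refine (Finset.sum_le_sum fun c _ => h2 c).trans ?_
  rw [Finset.sum_add_distrib, ← Finset.mul_sum, ← Finset.mul_sum, ← Finset.mul_sum]
  have h5 : ∑ c : J × U, ((blk hs false c).card : ℝ) ≤ L := by
    exact_mod_cast (sum_blk_le hs false).trans hL
  have h6 : ∑ c : J × U, (((blk hs true c).card + (blk hs false c).card : ℕ) : ℝ) ≤ L := by
    have := (sum_blk hs).le.trans hL
    exact_mod_cast this
  apply add_le_add
  · apply mul_le_mul_of_nonneg_left _ (by positivity)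
    rw [sq]
    exact mul_le_mul_of_nonneg_left h5 (by positivity)
  · exact mul_le_mul_of_nonneg_left h6 hlam

open Classical in
/-- Locations with an endpoint of type `b` in `hs` and many neighbours of that type in `hs`. -/
lemma deg_count_loc (lam : ℝ) (hlam : 0 ≤ lam)
    (hψ : ∀ ψ : AddChar B ℂ, ψ ≠ 0 → ‖∑ k, ψ (γ k)‖ ≤ lam)
    (hs : Finset ((Bool × (J × B)) × U)) (L : ℕ) (hL : hs.card ≤ L) (τ1 : ℝ) (hτ : 0 < τ1)
    (hY : 2 * (Fintype.card C : ℝ) * L ≤ τ1 * Fintype.card B) (b : Bool) :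
    ((Finset.univ.filter fun ℓ : ((J × B) × C) × U => (HH γ J hγ).pt b ℓ ∈ hs ∧
      τ1 < (((nb (HH γ J hγ) ℓ).filter fun i2 => (HH γ J hγ).sd i2.1 = b ∧ i2 ∈ hs).card :
        ℝ)).card : ℝ) ≤ 4 * lam ^ 2 / τ1 * hs.card := by
  set H := HH γ J hγ with hH
  -- the block of the other endpoint
  set oth : ((J × B) × C) × U → B := fun ℓ => if b then ℓ.1.1.2 + γ ℓ.1.2 else ℓ.1.1.2 with hoth
  set γ' : C → B := fun c => if b then - γ c else γ c with hγ'
  have hψ' : ∀ ψ : AddChar B ℂ, ψ ≠ 0 → ‖∑ k, ψ (γ' k)‖ ≤ lam := by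
    intro ψ hne
    cases hb : b with
    | false => simpa [hγ', hb] using hψ ψ hne
    | true =>
      have : ∑ k, ψ (γ' k) = (starRingEnd ℂ) (∑ k, ψ (γ k)) := by
        rw [map_sum]
        refine Finset.sum_congr rfl fun k _ => ?_
        simp only [hγ', hb, if_true]
        rw [AddChar.map_neg_eq_conj]
      rw [this, RCLike.norm_conj]
      exact hψ ψ hne
  have hpt : ∀ ℓ : ((J × B) × C) × U, H.pt b ℓ = ((b, (ℓ.1.1.1, oth ℓ + γ' ℓ.1.2)), ℓ.2) := by
    intro ℓ
    cases hb : b <;> simp [hH, HH, BG.pt, hoth, hγ', hb]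
  -- the neighbours of type `b`
  have hnb : ∀ ℓ : ((J × B) × C) × U, (((nb H ℓ).filter fun i2 => H.sd i2.1 = b ∧
      i2 ∈ hs).card : ℝ) ≤ ((Finset.univ.filter fun c : C => oth ℓ + γ' c ∈
        blk hs b (ℓ.1.1.1, ℓ.2)).card : ℝ) := by
    intro ℓ
    have : ((nb H ℓ).filter fun i2 => H.sd i2.1 = b ∧ i2 ∈ hs) ⊆
        (Finset.univ.filter fun c : C => oth ℓ + γ' c ∈ blk hs b (ℓ.1.1.1, ℓ.2)).image
          fun c => ((b, (ℓ.1.1.1, oth ℓ + γ' c)), ℓ.2) := by
      intro i2 hi2
      rw [Finset.mem_filter, mem_nb] at hi2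
      obtain ⟨⟨ℓ', b', hne, hsame, rfl⟩, hsd, hin⟩ := hi2
      rw [BG.sd_pt] at hsd
      have hb' : b' = !b := by rw [← hsd, Bool.not_not]
      subst hb'
      rw [Bool.not_not] at hin ⊢
      have h1 : ℓ'.1.1.1 = ℓ.1.1.1 ∧ ℓ'.2 = ℓ.2 ∧ oth ℓ' = oth ℓ := by
        cases hb : b <;> simp [hH, HH, BG.pt, hb] at hsame <;>
          simp [hoth, hb, hsame]
      rw [hpt ℓ', h1.1, h1.2.1, h1.2.2] at hin ⊢
      rw [Finset.mem_image]
      refine ⟨ℓ'.1.2, ?_, rfl⟩
      rw [Finset.mem_filter, blk, Finset.mem_filter]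
      exact ⟨Finset.mem_univ _, Finset.mem_univ _, hin⟩
    exact_mod_cast (Finset.card_le_card this).trans Finset.card_image_le
  have h1 : ((Finset.univ.filter fun ℓ : ((J × B) × C) × U => H.pt b ℓ ∈ hs ∧
      τ1 < (((nb H ℓ).filter fun i2 => H.sd i2.1 = b ∧ i2 ∈ hs).card : ℝ)).card : ℝ) ≤
      ∑ c : J × U, ((Finset.univ.filter fun p : B × C => p.1 + γ' p.2 ∈ blk hs b c ∧
        τ1 < ((Finset.univ.filter fun c' => p.1 + γ' c' ∈ blk hs b c).card : ℝ)).card : ℝ) := by
    have h2 : (Finset.univ.filter fun ℓ : ((J × B) × C) × U => H.pt b ℓ ∈ hs ∧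
      τ1 < (((nb H ℓ).filter fun i2 => H.sd i2.1 = b ∧ i2 ∈ hs).card : ℝ)).card ≤
      ((Finset.univ : Finset (J × U)).sigma fun c => (Finset.univ.filter fun p : B × C =>
        p.1 + γ' p.2 ∈ blk hs b c ∧
        τ1 < ((Finset.univ.filter fun c' => p.1 + γ' c' ∈ blk hs b c).card : ℝ))).card := by
      refine Finset.card_le_card_of_injOn (fun ℓ => ⟨(ℓ.1.1.1, ℓ.2), (oth ℓ, ℓ.1.2)⟩) ?_ ?_
      · intro ℓ hℓ
        rw [Finset.mem_coe, Finset.mem_filter] at hℓ
        rw [Finset.mem_coe, Finset.mem_sigma, Finset.mem_filter]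
        refine ⟨Finset.mem_univ _, Finset.mem_univ _, ?_, hℓ.2.2.trans_le (hnb ℓ)⟩
        rw [blk, Finset.mem_filter]
        refine ⟨Finset.mem_univ _, ?_⟩
        have := hℓ.2.1
        rw [hpt ℓ] at this
        exact this
      · rintro ⟨⟨⟨j, x⟩, c⟩, u⟩ _ ⟨⟨⟨j', x'⟩, c'⟩, u'⟩ _ h
        simp only [Sigma.mk.injEq, Prod.mk.injEq] at h
        obtain ⟨⟨rfl, rfl⟩, h⟩ := h
        have h := eq_of_heq h
        simp only [hoth, Prod.mk.injEq] at h
        obtain ⟨h, rfl⟩ := h
        cases hb : b <;> simp [hb] at h <;> rw [h]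
    rw [Finset.card_sigma] at h2
    exact_mod_cast h2
  refine h1.trans ?_
  calc _ ≤ ∑ c : J × U, 4 * lam ^ 2 / τ1 * ((blk hs b c).card : ℝ) := by
        refine Finset.sum_le_sum fun c _ => ?_
        refine deg_count γ' lam hlam hψ' (blk hs b c) τ1 hτ ?_
        refine le_trans ?_ hY
        apply mul_le_mul_of_nonneg_left _ (by positivity)
        exact_mod_cast (blk_le hs b c).trans hL
    _ = 4 * lam ^ 2 / τ1 * ∑ c : J × U, ((blk hs b c).card : ℝ) := by rw [Finset.mul_sum]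
    _ ≤ _ := by
        apply mul_le_mul_of_nonneg_left _ (by positivity)
        exact_mod_cast sum_blk_le hs b

end Concrete

end Pool.Agent.TR
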