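import Mathlib
import Pool.Agent.Lib_helper21.TR.Bad

/-!
# Most locations are matched with the expected probability
-/

set_option linter.unusedSectionVars false

namespace Pool.Agent.TR

open Finset Equiv

variable {J B U C Q : Type} [Fintype J] [AddCommGroup B] [Fintype B] [Fintype U] [Fintype C]
  [DecidableEq J] [DecidableEq B] [DecidableEq U] [DecidableEq C] (γ : C → B)
  (hγ : Function.Injective γ) (M : DM (Bool × (J × B)) U Q) (L r k : ℕ)

/-- The location with the same endpoint of type `b` and label `c`. -/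
def lnb (b : Bool) (ℓ : ((J × B) × C) × U) (c : C) : ((J × B) × C) × U :=
  (((ℓ.1.1.1, if b then ℓ.1.1.2 else ℓ.1.1.2 + γ ℓ.1.2 - γ c), c), ℓ.2)

lemma lnb_spec (b : Bool) (ℓ ℓ' : ((J × B) × C) × U)
    (h : (HH γ J hγ).pt b ℓ' = (HH γ J hγ).pt b ℓ) : ℓ' = lnb γ b ℓ ℓ'.1.2 := by
  obtain ⟨⟨⟨j, x⟩, c⟩, u⟩ := ℓ
  obtain ⟨⟨⟨j', x'⟩, c'⟩, u'⟩ := ℓ'
  cases b
  · simp [HH, BG.pt] at h
    obtain ⟨⟨rfl, h⟩, rfl⟩ := h
    simp [lnb, ← h]
  · simp [HH, BG.pt] at h
    obtain ⟨⟨rfl, rfl⟩, rfl⟩ := h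
    simp [lnb]

lemma nb_card (ℓ : ((J × B) × C) × U) : (nb (HH γ J hγ) ℓ).card ≤ 2 * Fintype.card C := by
  classical
  have h1 : nb (HH γ J hγ) ℓ ⊆ (Finset.univ : Finset (Bool × C)).image fun p =>
      (HH γ J hγ).pt (!p.1) (lnb γ p.1 ℓ p.2) := by
    intro i hi
    obtain ⟨ℓ', b, _, hb, rfl⟩ := (mem_nb _).1 hi
    rw [Finset.mem_image]
    exact ⟨(b, ℓ'.1.2), Finset.mem_univ _, by rw [← lnb_spec γ hγ b ℓ ℓ' hb]⟩
  refine (Finset.card_le_card h1).trans (Finset.card_image_le.trans ?_)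
  rw [Finset.card_univ, Fintype.card_prod, Fintype.card_bool]

open Classical in
/-- Few locations with an endpoint read too often. -/
lemma bad_often (hL : 0 < L) (hk : 0 < k) (z : Bool × (J × B) → Perm U) (b : Bool) :
    ((Finset.univ.filter fun ℓ : ((J × B) × C) × U =>
      k < (seg M L r z ((HH γ J hγ).pt b ℓ)).card).card : ℝ) ≤
      Fintype.card C * (r * L) / k := by
  have hk0 : (0 : ℝ) < k := by exact_mod_cast hk
  set A := (Finset.univ.filter fun ℓ : ((J × B) × C) × U =>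
      k < (seg M L r z ((HH γ J hγ).pt b ℓ)).card) with hA
  set S := (Finset.univ.filter fun i : (Bool × (J × B)) × U => k < (seg M L r z i).card) with hS
  have h1 : A.card ≤ Fintype.card C * (A.image fun ℓ => (HH γ J hγ).pt b ℓ).card := by
    refine Finset.card_le_mul_card_image A _ fun i hi => ?_
    rw [Finset.mem_image] at hi
    obtain ⟨ℓ, _, rfl⟩ := hi
    rw [← Finset.card_univ]
    refine Finset.card_le_card_of_injOn (fun ℓ' => ℓ'.1.2) (fun _ _ => Finset.mem_coe.2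
      (Finset.mem_univ _)) ?_
    intro ℓ1 h1 ℓ2 h2 hc
    rw [Finset.mem_coe, Finset.mem_filter] at h1 h2
    rw [lnb_spec γ hγ b ℓ ℓ1 h1.2, lnb_spec γ hγ b ℓ ℓ2 h2.2]
    simp only at hc
    rw [hc]
  have h2 : (A.image fun ℓ => (HH γ J hγ).pt b ℓ).card ≤ S.card := by
    refine Finset.card_le_card fun i hi => ?_
    rw [Finset.mem_image] at hi
    obtain ⟨ℓ, hℓ, rfl⟩ := hi
    exact Finset.mem_filter.2 ⟨Finset.mem_univ _, (Finset.mem_filter.1 hℓ).2⟩
  have h3 : k * S.card ≤ r * L := by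
    calc k * S.card = ∑ _i ∈ S, k := by rw [Finset.sum_const, smul_eq_mul, mul_comm]
      _ ≤ ∑ i ∈ S, (seg M L r z i).card :=
          Finset.sum_le_sum fun i hi => (Finset.mem_filter.1 hi).2.le
      _ ≤ ∑ i, (seg M L r z i).card :=
          Finset.sum_le_sum_of_subset (Finset.subset_univ _)
      _ ≤ _ := sum_seg_card M L r hL z
  have h4 : A.card * k ≤ Fintype.card C * (r * L) := by
    calc A.card * k ≤ Fintype.card C * S.card * k :=
          Nat.mul_le_mul_right _ (h1.trans (Nat.mul_le_mul_left _ h2))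
      _ = Fintype.card C * (k * S.card) := by ring
      _ ≤ _ := Nat.mul_le_mul_left _ h3
  rw [le_div_iff₀ hk0]
  exact_mod_cast h4

open Classical in
/-- Few locations with endpoints read in the same segment. -/
lemma bad_meet (lam : ℝ) (hlam : 0 ≤ lam)
    (hψ : ∀ ψ : AddChar B ℂ, ψ ≠ 0 → ‖∑ k, ψ (γ k)‖ ≤ lam) (hL : 0 < L)
    (z : Bool × (J × B) → Perm U) :
    ((Finset.univ.filter fun ℓ : ((J × B) × C) × U =>
      ¬ Disjoint (seg M L r z ((HH γ J hγ).pt true ℓ))
        (seg M L r z ((HH γ J hγ).pt false ℓ))).card : ℝ) ≤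
      r * ((Fintype.card C : ℝ) / (Fintype.card B) * (L : ℝ) ^ 2 + lam * L) := by
  have h1 : (Finset.univ.filter fun ℓ : ((J × B) × C) × U =>
      ¬ Disjoint (seg M L r z ((HH γ J hγ).pt true ℓ))
        (seg M L r z ((HH γ J hγ).pt false ℓ))) ⊆
      (Finset.univ : Finset (Fin r)).biUnion fun j => Finset.univ.filter fun ℓ =>
        ∀ b, (HH γ J hγ).pt b ℓ ∈ hit M L z j := by
    intro ℓ hℓ
    rw [Finset.mem_filter, Finset.not_disjoint_iff] at hℓ
    obtain ⟨_, j, hj1, hj2⟩ := hℓ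
    rw [Finset.mem_biUnion]
    refine ⟨j, Finset.mem_univ _, ?_⟩
    rw [Finset.mem_filter]
    refine ⟨Finset.mem_univ _, fun b => ?_⟩
    cases b
    · exact mem_seg.1 hj2
    · exact mem_seg.1 hj1
  have h2 := (Finset.card_le_card h1).trans Finset.card_biUnion_le
  calc _ ≤ ∑ j : Fin r, ((Finset.univ.filter fun ℓ : ((J × B) × C) × U =>
        ∀ b, (HH γ J hγ).pt b ℓ ∈ hit M L z j).card : ℝ) := by exact_mod_cast h2
    _ ≤ ∑ _j : Fin r, ((Fintype.card C : ℝ) / (Fintype.card B) * (L : ℝ) ^ 2 + lam * L) :=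
        Finset.sum_le_sum fun j _ => both_count γ hγ lam hlam hψ _ L (hit_card M L hL z j)
    _ = _ := by rw [Finset.sum_const, Finset.card_univ, Fintype.card_fin, nsmul_eq_mul]

open Classical in
/-- Few locations with many neighbours read together with an endpoint. -/
lemma bad_deg (lam : ℝ) (hlam : 0 ≤ lam)
    (hψ : ∀ ψ : AddChar B ℂ, ψ ≠ 0 → ‖∑ k, ψ (γ k)‖ ≤ lam) (hL : 0 < L) (τ1 : ℝ) (hτ : 0 < τ1)
    (hY : 2 * (Fintype.card C : ℝ) * L ≤ τ1 * Fintype.card B)
    (z : Bool × (J × B) → Perm U) (b : Bool) :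
    ((Finset.univ.filter fun ℓ : ((J × B) × C) × U =>
      (seg M L r z ((HH γ J hγ).pt b ℓ)).card ≤ k ∧
      k * τ1 < (((nb (HH γ J hγ) ℓ).filter fun i2 => (HH γ J hγ).sd i2.1 = b ∧
        ¬ Disjoint (seg M L r z i2) (seg M L r z ((HH γ J hγ).pt b ℓ))).card : ℝ)).card : ℝ) ≤
      4 * lam ^ 2 / τ1 * (r * L) := by
  have h1 : (Finset.univ.filter fun ℓ : ((J × B) × C) × U =>
      (seg M L r z ((HH γ J hγ).pt b ℓ)).card ≤ k ∧
      k * τ1 < (((nb (HH γ J hγ) ℓ).filter fun i2 => (HH γ J hγ).sd i2.1 = b ∧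
        ¬ Disjoint (seg M L r z i2) (seg M L r z ((HH γ J hγ).pt b ℓ))).card : ℝ)) ⊆
      (Finset.univ : Finset (Fin r)).biUnion fun j => Finset.univ.filter fun ℓ =>
        (HH γ J hγ).pt b ℓ ∈ hit M L z j ∧
      τ1 < (((nb (HH γ J hγ) ℓ).filter fun i2 => (HH γ J hγ).sd i2.1 = b ∧
        i2 ∈ hit M L z j).card : ℝ) := by
    intro ℓ hℓ
    rw [Finset.mem_filter] at hℓ
    obtain ⟨_, hk, hlt⟩ := hℓ
    by_contra hcon
    rw [Finset.mem_biUnion] at hcon
    push Not at hcon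
    have h2 : ∀ j ∈ seg M L r z ((HH γ J hγ).pt b ℓ), (((nb (HH γ J hγ) ℓ).filter fun i2 =>
        (HH γ J hγ).sd i2.1 = b ∧ i2 ∈ hit M L z j).card : ℝ) ≤ τ1 := by
      intro j hj
      by_contra hgt
      apply hcon j (Finset.mem_univ _)
      rw [Finset.mem_filter]
      exact ⟨Finset.mem_univ _, mem_seg.1 hj, not_le.1 hgt⟩
    have h3 : ((nb (HH γ J hγ) ℓ).filter fun i2 => (HH γ J hγ).sd i2.1 = b ∧
        ¬ Disjoint (seg M L r z i2) (seg M L r z ((HH γ J hγ).pt b ℓ))) ⊆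
        (seg M L r z ((HH γ J hγ).pt b ℓ)).biUnion fun j => (nb (HH γ J hγ) ℓ).filter fun i2 =>
        (HH γ J hγ).sd i2.1 = b ∧ i2 ∈ hit M L z j := by
      intro i2 hi2
      rw [Finset.mem_filter, Finset.not_disjoint_iff] at hi2
      obtain ⟨hn, hs, j, hj1, hj2⟩ := hi2
      rw [Finset.mem_biUnion]
      refine ⟨j, hj2, ?_⟩
      rw [Finset.mem_filter]
      exact ⟨hn, hs, mem_seg.1 hj1⟩
    have h4 := (Finset.card_le_card h3).trans Finset.card_biUnion_le
    have h5 : (((nb (HH γ J hγ) ℓ).filter fun i2 => (HH γ J hγ).sd i2.1 = b ∧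
        ¬ Disjoint (seg M L r z i2) (seg M L r z ((HH γ J hγ).pt b ℓ))).card : ℝ) ≤
        k * τ1 := by
      calc _ ≤ ∑ j ∈ seg M L r z ((HH γ J hγ).pt b ℓ), (((nb (HH γ J hγ) ℓ).filter fun i2 =>
            (HH γ J hγ).sd i2.1 = b ∧ i2 ∈ hit M L z j).card : ℝ) := by exact_mod_cast h4
        _ ≤ ∑ _j ∈ seg M L r z ((HH γ J hγ).pt b ℓ), τ1 := Finset.sum_le_sum h2
        _ = ((seg M L r z ((HH γ J hγ).pt b ℓ)).card : ℝ) * τ1 := by
            rw [Finset.sum_const, nsmul_eq_mul]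
        _ ≤ _ := mul_le_mul_of_nonneg_right (by exact_mod_cast hk) hτ.le
    linarith
  have h2 := (Finset.card_le_card h1).trans Finset.card_biUnion_le
  calc _ ≤ ∑ j : Fin r, ((Finset.univ.filter fun ℓ : ((J × B) × C) × U =>
        (HH γ J hγ).pt b ℓ ∈ hit M L z j ∧
      τ1 < (((nb (HH γ J hγ) ℓ).filter fun i2 => (HH γ J hγ).sd i2.1 = b ∧
        i2 ∈ hit M L z j).card : ℝ)).card : ℝ) := by exact_mod_cast h2
    _ ≤ ∑ _j : Fin r, 4 * lam ^ 2 / τ1 * (L : ℝ) := by
        refine Finset.sum_le_sum fun j _ => ?_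
        refine (deg_count_loc γ hγ lam hlam hψ _ L (hit_card M L hL z j) τ1 hτ hY b).trans ?_
        apply mul_le_mul_of_nonneg_left _ (by positivity)
        exact_mod_cast hit_card M L hL z j
    _ = _ := by
        rw [Finset.sum_const, Finset.card_univ, Fintype.card_fin, nsmul_eq_mul]; ring

open Classical in
/-- The sum of the probabilities is large. -/
theorem good_sum {g V f : ℕ} (lam : ℝ) (hlam : 0 ≤ lam)
    (hψ : ∀ ψ : AddChar B ℂ, ψ ≠ 0 → ‖∑ k, ψ (γ k)‖ ≤ lam) (hL : 0 < L) (hk : 0 < k)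
    (hV : (g + 2) ^ k ≤ V) (hg : 2 ≤ g) (hkg : k ≤ g + 2) (hf : 0 < f) (τ1 : ℝ) (hτ : 0 < τ1)
    (hY : 2 * (Fintype.card C : ℝ) * L ≤ τ1 * Fintype.card B) (ηb ηw : ℝ) (hηw : ηw ≤ 1)
    (hηb0 : 0 ≤ ηb) (hηw0 : 0 ≤ ηw)
    (hbad : 2 * (Fintype.card C * (r * L) / k) +
      r * ((Fintype.card C : ℝ) / (Fintype.card B) * (L : ℝ) ^ 2 + lam * L) +
      2 * (4 * lam ^ 2 / τ1 * (r * L)) ≤ ηb * Fintype.card (((J × B) × C) × U))
    (hw : (2 * Fintype.card C + 2 * k * τ1 * ((g : ℝ) + 2) ^ k) / V +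
      (2 + 8 * Fintype.card ((Bool × (J × B)) × U) / V + 2 * k * L) / f ≤ ηw)
    (z : Bool × (J × B) → Perm U) :
    (1 - (ηb + ηw)) * Fintype.card (((J × B) × C) × U) *
      (nTh r g V (Bool × (J × B)) U / (V : ℝ) ^ 2) ≤
      ∑ ℓ : ((J × B) × C) × U, prb (HH γ J hγ) M L k f r g V z ℓ := by
  set H := HH γ J hγ with hH
  have hV0 : 0 < V := lt_of_lt_of_le (by positivity) hV
  have hV0R : (0 : ℝ) < V := by exact_mod_cast hV0
  set N := nTh r g V (Bool × (J × B)) U / (V : ℝ) ^ 2 with hN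
  have hN0 : 0 ≤ N := by rw [hN]; unfold nTh; positivity
  set S := seg M L r z with hS
  set B1 := fun b => (Finset.univ.filter fun ℓ : ((J × B) × C) × U => k < (S (H.pt b ℓ)).card)
    with hB1
  set B2 := (Finset.univ.filter fun ℓ : ((J × B) × C) × U =>
      ¬ Disjoint (S (H.pt true ℓ)) (S (H.pt false ℓ))) with hB2
  set B3 := fun b => (Finset.univ.filter fun ℓ : ((J × B) × C) × U =>
      (S (H.pt b ℓ)).card ≤ k ∧
      k * τ1 < (((nb H ℓ).filter fun i2 => H.sd i2.1 = b ∧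
        ¬ Disjoint (S i2) (S (H.pt b ℓ))).card : ℝ)) with hB3
  set Bad := B1 true ∪ (B1 false ∪ (B2 ∪ (B3 true ∪ B3 false))) with hBad
  have hBadc : (Bad.card : ℝ) ≤ ηb * Fintype.card (((J × B) × C) × U) := by
    have h1 : Bad.card ≤ (B1 true).card + ((B1 false).card + (B2.card + ((B3 true).card +
        (B3 false).card))) := by
      refine (Finset.card_union_le _ _).trans (Nat.add_le_add_left ?_ _)
      refine (Finset.card_union_le _ _).trans (Nat.add_le_add_left ?_ _)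
      refine (Finset.card_union_le _ _).trans (Nat.add_le_add_left ?_ _)
      exact Finset.card_union_le _ _
    have h1R : (Bad.card : ℝ) ≤ (B1 true).card + ((B1 false).card + (B2.card +
        ((B3 true).card + (B3 false).card))) := by exact_mod_cast h1
    have a1 := bad_often γ hγ M L r k hL hk z true
    have a2 := bad_often γ hγ M L r k hL hk z false
    have a3 := bad_meet γ hγ M L r lam hlam hψ hL z
    have a4 := bad_deg γ hγ M L r k lam hlam hψ hL τ1 hτ hY z true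
    have a5 := bad_deg γ hγ M L r k lam hlam hψ hL τ1 hτ hY z false
    simp only [← hH, ← hS] at a1 a2 a3 a4 a5
    linarith
  have hgood : ∀ ℓ ∉ Bad, N * (1 - ηw) ≤ prb H M L k f r g V z ℓ := by
    intro ℓ hℓ
    simp only [hBad, Finset.mem_union, not_or] at hℓ
    obtain ⟨b1, b2, b3, b4, b5⟩ := hℓ
    simp only [hB1, Finset.mem_filter, Finset.mem_univ, true_and, not_lt] at b1 b2
    simp only [hB2, Finset.mem_filter, Finset.mem_univ, true_and, not_not] at b3
    simp only [hB3, Finset.mem_filter, Finset.mem_univ, true_and, not_and, not_lt] at b4 b5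
    have c4 := b4 b1
    have c5 := b5 b2
    have hnb : ((nb H ℓ).card : ℝ) ≤ 2 * Fintype.card C := by
      exact_mod_cast nb_card γ hγ ℓ
    have hτc : (((nb H ℓ).filter fun i2 => ¬ Disjoint (S i2)
        (S (H.pt (H.sd i2.1) ℓ))).card : ℝ) ≤ 2 * k * τ1 := by
      have e1 : ((nb H ℓ).filter fun i2 => ¬ Disjoint (S i2) (S (H.pt (H.sd i2.1) ℓ))) ⊆
          ((nb H ℓ).filter fun i2 => H.sd i2.1 = true ∧
            ¬ Disjoint (S i2) (S (H.pt true ℓ))) ∪
          ((nb H ℓ).filter fun i2 => H.sd i2.1 = false ∧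
            ¬ Disjoint (S i2) (S (H.pt false ℓ))) := by
        intro i2 hi2
        rw [Finset.mem_union, Finset.mem_filter, Finset.mem_filter]
        rw [Finset.mem_filter] at hi2
        cases hb : H.sd i2.1 with
        | true => rw [hb] at hi2; exact Or.inl ⟨hi2.1, rfl, hi2.2⟩
        | false => rw [hb] at hi2; exact Or.inr ⟨hi2.1, rfl, hi2.2⟩
      have e2 := (Finset.card_le_card e1).trans (Finset.card_union_le _ _)
      have e3 : (((nb H ℓ).filter fun i2 => ¬ Disjoint (S i2)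
        (S (H.pt (H.sd i2.1) ℓ))).card : ℝ) ≤ (((nb H ℓ).filter fun i2 => H.sd i2.1 = true ∧
            ¬ Disjoint (S i2) (S (H.pt true ℓ))).card : ℝ) +
          (((nb H ℓ).filter fun i2 => H.sd i2.1 = false ∧
            ¬ Disjoint (S i2) (S (H.pt false ℓ))).card : ℝ) := by exact_mod_cast e2
      linarith
    have hXc : (((Finset.univ : Finset ((Bool × (J × B)) × U)).filter fun i2 => ¬ Disjoint (S i2)
        (S (H.pt true ℓ) ∪ S (H.pt false ℓ))).card : ℝ) ≤ 2 * k * L := by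
      have e1 : ((Finset.univ : Finset ((Bool × (J × B)) × U)).filter fun i2 =>
          ¬ Disjoint (S i2) (S (H.pt true ℓ) ∪ S (H.pt false ℓ))) ⊆
          (S (H.pt true ℓ) ∪ S (H.pt false ℓ)).biUnion fun j => hit M L z j := by
        intro i2 hi2
        rw [Finset.mem_filter, Finset.not_disjoint_iff] at hi2
        obtain ⟨_, j, hj1, hj2⟩ := hi2
        rw [Finset.mem_biUnion]
        exact ⟨j, hj2, mem_seg.1 hj1⟩
      have e2 := (Finset.card_le_card e1).trans Finset.card_biUnion_le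
      have e3 : ∑ j ∈ S (H.pt true ℓ) ∪ S (H.pt false ℓ), (hit M L z j).card ≤ 2 * k * L := by
        calc _ ≤ ∑ _j ∈ S (H.pt true ℓ) ∪ S (H.pt false ℓ), L :=
              Finset.sum_le_sum fun j _ => hit_card M L hL z j
          _ = (S (H.pt true ℓ) ∪ S (H.pt false ℓ)).card * L := by
              rw [Finset.sum_const, smul_eq_mul]
          _ ≤ (2 * k) * L := by
              apply Nat.mul_le_mul_right
              have := Finset.card_union_le (S (H.pt true ℓ)) (S (H.pt false ℓ))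
              omega
      exact_mod_cast e2.trans e3
    have := pr_mat H k S hV hg hkg f hf ℓ b1 b2 b3 (2 * Fintype.card C) (2 * k * τ1) (2 * k * L)
      hnb hτc hXc
    refine le_trans ?_ this
    rw [← hN]
    apply mul_le_mul_of_nonneg_left _ hN0
    linarith
  have hprb0 : ∀ ℓ, 0 ≤ prb H M L k f r g V z ℓ := fun ℓ => by unfold prb; positivity
  calc (1 - (ηb + ηw)) * Fintype.card (((J × B) × C) × U) * N
      ≤ (Fintype.card (((J × B) × C) × U) - Bad.card) * (N * (1 - ηw)) := by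
        have h1 : (0 : ℝ) ≤ Fintype.card (((J × B) × C) × U) := by positivity
        have h2 : (1 - ηb) * Fintype.card (((J × B) × C) × U) ≤
            Fintype.card (((J × B) × C) × U) - Bad.card := by linarith
        have h3 : 0 ≤ N * (1 - ηw) := mul_nonneg hN0 (by linarith)
        have h4 := mul_le_mul_of_nonneg_right h2 h3
        refine le_trans ?_ h4
        have h5 : (1 - (ηb + ηw)) ≤ (1 - ηb) * (1 - ηw) := by nlinarith
        have h6 : (0 : ℝ) ≤ Fintype.card (((J × B) × C) × U) * N := by positivity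
        calc _ = (1 - (ηb + ηw)) * (Fintype.card (((J × B) × C) × U) * N) := by ring
          _ ≤ ((1 - ηb) * (1 - ηw)) * (Fintype.card (((J × B) × C) × U) * N) :=
              mul_le_mul_of_nonneg_right h5 h6
          _ = _ := by ring
    _ = ∑ _ℓ ∈ Finset.univ \ Bad, N * (1 - ηw) := by
        rw [Finset.sum_const, nsmul_eq_mul, Finset.card_sdiff_of_subset (Finset.subset_univ _),
          Finset.card_univ, Nat.cast_sub (Finset.card_le_univ _)]
    _ ≤ ∑ ℓ ∈ Finset.univ \ Bad, prb H M L k f r g V z ℓ :=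
        Finset.sum_le_sum fun ℓ hℓ => hgood ℓ (Finset.mem_sdiff.1 hℓ).2
    _ ≤ _ := Finset.sum_le_sum_of_subset_of_nonneg (Finset.subset_univ _)
        fun ℓ _ _ => hprb0 ℓ

end Pool.Agent.TR
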