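import Mathlib
import Pool.Agent.Lib_helper21.TS.Defs

/-!
# Randomised random-access machines on graphs given by adjacency lists
-/

open MeasureTheory

namespace Pool.Agent.TR

open Pool.Agent.TS

/-- A randomised, nonuniform random-access machine with memory states in `Q` and random seeds in
`Ω` for graphs on `Fin n`. With seed `ω` it starts in `start ω`; at time `t` in state `x` it asks the
question `ask ω t x` about the input graph (entry `k` of the adjacency list of `v`, or whether `u`
and `v` are adjacent) and moves to the state `next ω t x a`, `a` being the answer (arbitrary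
functions). `output x = some b`: in state `x` the machine stops with the answer `b` (`true`: there
is a triangle). -/
structure RAM (n : ℕ) (Q Ω : Type) where
  start : Ω → Q
  ask : Ω → ℕ → Q → Query n
  next : Ω → ℕ → Q → Option (Fin n) → Q
  output : Q → Option Bool

/-- The state after `t` steps on the graph `G` with seed `ω`; a machine that has answered does not
change its state any more. -/
noncomputable def RAM.run {n : ℕ} {Q Ω : Type} (M : RAM n Q Ω) (ω : Ω) (G : SimpleGraph (Fin n)) :
    ℕ → Q
  | 0 => M.start ω
  | t + 1 =>
    if (M.output (M.run ω G t)).isSome then M.run ω G t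
    else M.next ω t (M.run ω G t) (answer G (M.ask ω t (M.run ω G t)))

/-- `G` has the degree sequence `δ`. -/
def HasDegrees {n : ℕ} (G : SimpleGraph (Fin n)) (δ : Fin n → ℕ) : Prop :=
  ∀ v, (adjList G v).length = δ v

/-- On every graph with degree sequence `δ` the machine answers correctly whether there is a
triangle with probability at least `2 / 3`, the seed being distributed according to `μ`. (First
clause: the state at every time is a random variable.) -/
def RAM.DetectsTriangles {n : ℕ} {Q Ω : Type} [MeasurableSpace Ω] (M : RAM n Q Ω) (μ : Measure Ω)
    (δ : Fin n → ℕ) : Prop :=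
  ∀ G : SimpleGraph (Fin n), HasDegrees G δ →
    (∀ t x, MeasurableSet {ω | M.run ω G t = x}) ∧
    2 / 3 ≤ μ.real {ω | ∃ t b, M.output (M.run ω G t) = some b ∧ (b = true ↔ ¬ G.CliqueFree 3)}

/-- The expected running time on every graph with degree sequence `δ` is at most `T`: the expected
number of steps made before time `m`, which is the sum over `t < m` of the probability that the
machine has not yet answered at time `t`, is at most `T` for every `m`. -/
def RAM.ExpectedTimeLE {n : ℕ} {Q Ω : Type} [MeasurableSpace Ω] (M : RAM n Q Ω) (μ : Measure Ω)
    (δ : Fin n → ℕ) (T : ℝ) : Prop :=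
  ∀ G : SimpleGraph (Fin n), HasDegrees G δ → ∀ m : ℕ,
    ∑ t ∈ Finset.range m, μ.real {ω | M.output (M.run ω G t) = none} ≤ T

end Pool.Agent.TR
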