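import Mathlib
import Pool.Agent.Lib_helper21.TS.Graph
import Pool.Agent.Lib_helper21.TS.Bound
import Pool.Agent.Lib_helper21.TR.Defs
import Pool.Agent.Lib_helper21.TR.Good

/-!
# From machines on graphs to machines reading permutations
-/

set_option linter.unusedSectionVars false

namespace Pool.Agent.TR

open Finset Equiv Pool.Agent.TS

section Conv

variable {J B U : Type}

/-- The pair of families of an input. -/
def toInp (z : Bool × (J × B) → Perm U) : Inp J B U := (fun κ => z (true, κ), fun κ => z (false, κ))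

/-- The input of a pair of families. -/
def ofInp (p : Inp J B U) : Bool × (J × B) → Perm U := fun κ => if κ.1 then p.1 κ.2 else p.2 κ.2

lemma toInp_ofInp (p : Inp J B U) : toInp (ofInp p) = p := rfl

lemma ofInp_toInp (z : Bool × (J × B) → Perm U) : ofInp (toInp z) = z := by
  funext κ
  obtain ⟨b, κ⟩ := κ
  cases b <;> rfl

/-- The equivalence of the two kinds of inputs. -/
def inpEquiv : (Bool × (J × B) → Perm U) ≃ Inp J B U where
  toFun := toInp
  invFun := ofInp
  left_inv := ofInp_toInp
  right_inv := toInp_ofInp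

/-- Conversion of queries. -/
def qconv (q : PQ J B U) : (Bool × (J × B)) × Bool × U := ((q.1, q.2.1), q.2.2.1, q.2.2.2)

lemma qans_qconv (z : Bool × (J × B) → Perm U) (q : PQ J B U) :
    qans z (qconv q) = ans (toInp z) q := by
  obtain ⟨ty, κ, dr, u⟩ := q
  cases ty <;> cases dr <;> simp [qans, qconv, ans, thePerm, toInp]

end Conv

section Mach

variable {J B U : Type} {t d w pad : ℕ} (eJ : J ≃ Fin t) (eB : B ≃ Fin d) (eU : U ≃ Fin w)
  {Q Ω : Type}

open Classical in
/-- The deterministic machine of a seed. -/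
noncomputable def dm (E : B × U → B × U → Prop) (M : RAM (t * w + (d * w + (d * w + pad))) Q Ω)
    (ω : Ω) : DM (Bool × (J × B)) U Q where
  start := M.start ω
  ask i x := (tr eJ eB eU pad (M.ask ω i x)).map qconv
  step i x a := if (M.output x).isSome then x else
    if h : ∃ z : Bool × (J × B) → Perm U,
      ((tr eJ eB eU pad (M.ask ω i x)).map qconv).map (qans z) = a then
      M.next ω i x (answer (theGraph eJ eB eU pad E (toInp h.choose)) (M.ask ω i x)) else x

lemma map_conv (z : Bool × (J × B) → Perm U) (q : Option (PQ J B U)) :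
    (q.map qconv).map (qans z) = q.map (ans (toInp z)) := by
  rcases q with _ | q
  · rfl
  · simp only [Option.map_some, qans_qconv]

lemma dm_run (E : B × U → B × U → Prop) (M : RAM (t * w + (d * w + (d * w + pad))) Q Ω)
    (ω : Ω) (z : Bool × (J × B) → Perm U) (i : ℕ) :
    (dm eJ eB eU E M ω).run z i = M.run ω (theGraph eJ eB eU pad E (toInp z)) i := by
  classical
  induction i with
  | zero => rfl
  | succ i ih =>
    show (dm eJ eB eU E M ω).step i ((dm eJ eB eU E M ω).run z i) _ = _
    rw [ih]
    simp only [dm, RAM.run]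
    split_ifs with h1 h2
    · rfl
    · congr 1
      apply answer_eq
      exact (map_conv h2.choose _).symm.trans (h2.choose_spec.trans (map_conv z _))
    · exact absurd ⟨z, rfl⟩ h2

end Mach

section TF

variable {J B U C : Type} [AddCommGroup B] (γ : C → B) (hγ : Function.Injective γ)
  (adj : U → U → Prop)

/-- The fixed graph between the two sides. -/
def EE : B × U → B × U → Prop := fun p q => ∃ c, q.1 = p.1 + γ c ∧ adj p.2 q.2

lemma tfree_iff_tri (z : Bool × (J × B) → Perm U) :
    TFree (EE γ adj) (toInp z).1 (toInp z).2 ↔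
      ∀ ℓ : ((J × B) × C) × U, ¬ tri (HH γ J hγ) adj z ℓ := by
  constructor
  · rintro h ⟨⟨⟨j, b⟩, c⟩, u⟩ ht
    exact h j u b (b + γ c) ⟨c, rfl, by simpa [tri, HH, BG.pt, val, toInp] using ht⟩
  · rintro h j u b b' ⟨c, hc, ha⟩
    simp only at hc
    subst hc
    exact h ⟨⟨⟨j, b⟩, c⟩, u⟩ (by simpa [tri, HH, BG.pt, val, toInp] using ha)

variable [Fintype J] [Fintype B] [Fintype U] [Fintype C] [DecidableEq J] [DecidableEq B]
  [DecidableEq U] [DecidableEq C]

open Classical in
lemma forb_row' (d1 : ℕ) (hd' : ∀ x, (Finset.univ.filter fun y => adj x y).card ≤ d1)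
    (π : J × B → Perm U) (κ : J × B) (u : U) :
    (Finset.univ.filter fun v => forb (EE γ adj) π κ u v).card ≤ Fintype.card C * d1 := by
  have h1 : (Finset.univ.filter fun v => forb (EE γ adj) π κ u v) ⊆
      (Finset.univ : Finset C).biUnion fun c => Finset.univ.filter fun v =>
        adj (π (κ.1, κ.2 - γ c) u) v := by
    intro v hv
    obtain ⟨b, c, hc, ha⟩ := (Finset.mem_filter.1 hv).2
    simp only at hc ha
    rw [Finset.mem_biUnion]
    refine ⟨c, Finset.mem_univ _, ?_⟩
    rw [Finset.mem_filter]
    refine ⟨Finset.mem_univ _, ?_⟩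
    have : κ.2 - γ c = b := by rw [hc]; simp
    rw [this]
    exact ha
  refine (Finset.card_le_card h1).trans (Finset.card_biUnion_le.trans ?_)
  calc _ ≤ ∑ _c : C, d1 := Finset.sum_le_sum fun c _ => hd' _
    _ = _ := by rw [Finset.sum_const, smul_eq_mul, Finset.card_univ]

open Classical in
lemma forb_col' (d1 : ℕ) (hd : ∀ y, (Finset.univ.filter fun x => adj x y).card ≤ d1)
    (π : J × B → Perm U) (κ : J × B) (v : U) :
    (Finset.univ.filter fun u => forb (EE γ adj) π κ u v).card ≤ Fintype.card C * d1 := by
  have h1 : (Finset.univ.filter fun u => forb (EE γ adj) π κ u v) ⊆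
      (Finset.univ : Finset C).biUnion fun c => Finset.univ.filter fun u =>
        adj (π (κ.1, κ.2 - γ c) u) v := by
    intro u hu
    obtain ⟨b, c, hc, ha⟩ := (Finset.mem_filter.1 hu).2
    simp only at hc ha
    rw [Finset.mem_biUnion]
    refine ⟨c, Finset.mem_univ _, ?_⟩
    rw [Finset.mem_filter]
    refine ⟨Finset.mem_univ _, ?_⟩
    have : κ.2 - γ c = b := by rw [hc]; simp
    rw [this]
    exact ha
  refine (Finset.card_le_card h1).trans (Finset.card_biUnion_le.trans ?_)
  calc _ ≤ ∑ _c : C, d1 := by
        refine Finset.sum_le_sum fun c _ => le_trans ?_ (hd v)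
        refine Finset.card_le_card_of_injOn (fun u => π (κ.1, κ.2 - γ c) u) ?_ ?_
        · intro u hu
          simpa using hu
        · intro u _ u' _ h
          exact (π (κ.1, κ.2 - γ c)).injective h
    _ = _ := by rw [Finset.sum_const, smul_eq_mul, Finset.card_univ]

open Classical in
/-- There are many triangle-free inputs. -/
lemma tf_count' (d1 : ℕ) (hd : ∀ y, (Finset.univ.filter fun x => adj x y).card ≤ d1)
    (hd' : ∀ x, (Finset.univ.filter fun y => adj x y).card ≤ d1)
    (h2 : 2 * (Fintype.card C * d1) ≤ Fintype.card U) :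
    Fintype.card (Bool × (J × B) → Perm U) ≤
      (Fintype.card U) ^ (2 * (Fintype.card C * d1) * Fintype.card (J × B)) *
      (Finset.univ.filter fun z : Bool × (J × B) → Perm U =>
        ∀ ℓ : ((J × B) × C) × U, ¬ tri (HH γ J hγ) adj z ℓ).card := by
  have h1 := tf_count (J := J) (EE γ adj) (Fintype.card C * d1)
    (fun π κ u _ => by
      have := forb_row' γ adj d1 hd' π κ u
      convert this)
    (fun π κ v _ => by
      have := forb_col' γ adj d1 hd π κ v
      convert this) h2
  have h3 : Fintype.card (Bool × (J × B) → Perm U) = Fintype.card (Inp J B U) :=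
    Fintype.card_congr inpEquiv
  have h4 : (tfSet J (EE γ adj)).card = (Finset.univ.filter fun z : Bool × (J × B) → Perm U =>
        ∀ ℓ : ((J × B) × C) × U, ¬ tri (HH γ J hγ) adj z ℓ).card := by
    symm
    refine Finset.card_nbij' toInp ofInp ?_ ?_ ?_ ?_
    · intro z hz
      rw [Finset.mem_coe, Finset.mem_filter] at hz
      rw [Finset.mem_coe, mem_tfSet]
      exact (tfree_iff_tri γ hγ adj z).2 hz.2
    · intro p hp
      rw [Finset.mem_coe, mem_tfSet] at hp
      rw [Finset.mem_coe, Finset.mem_filter]
      refine ⟨Finset.mem_univ _, (tfree_iff_tri γ hγ adj (ofInp p)).1 ?_⟩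
      rw [toInp_ofInp]
      exact hp
    · intro z _
      exact ofInp_toInp z
    · intro p _
      exact toInp_ofInp p
  rw [h3, ← h4]
  exact h1

end TF

end Pool.Agent.TR
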