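import Mathlib
import Pool.Agent.Lib_helper21.TR.Encode

/-!
# Averaging over the random seed
-/

set_option linter.unusedSectionVars false

open MeasureTheory

namespace Pool.Agent.TR

open Finset Equiv Pool.Agent.TS

section Runs

variable {n : ℕ} {Q Ω : Type} (M : RAM n Q Ω)

lemma run_stable (ω : Ω) (G : SimpleGraph (Fin n)) (t t' : ℕ) (h : t ≤ t')
    (hs : (M.output (M.run ω G t)).isSome) : M.run ω G t' = M.run ω G t := by
  induction t', h using Nat.le_induction with
  | base => rfl
  | succ t' _ ih =>
    show (if (M.output (M.run ω G t')).isSome then M.run ω G t' else _) = _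
    rw [ih, if_pos hs]

lemma out_none (ω : Ω) (G : SimpleGraph (Fin n)) (t t' : ℕ) (h : t ≤ t')
    (hs : M.output (M.run ω G t') = none) : M.output (M.run ω G t) = none := by
  by_contra hcon
  have h1 : (M.output (M.run ω G t)).isSome := Option.ne_none_iff_isSome.1 hcon
  rw [run_stable M ω G t t' h h1] at hs
  exact hcon hs

lemma out_some (ω : Ω) (G : SimpleGraph (Fin n)) (t t' : ℕ) (b b' : Bool)
    (hs : M.output (M.run ω G t) = some b) (hs' : M.output (M.run ω G t') = some b') :
    b = b' := by
  rcases le_total t t' with h | h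
  · have := run_stable M ω G t t' h (by rw [hs]; rfl)
    rw [this, hs] at hs'
    exact Option.some.inj hs'
  · have := run_stable M ω G t' t h (by rw [hs']; rfl)
    rw [this, hs'] at hs
    exact (Option.some.inj hs).symm

variable [Fintype Q] [MeasurableSpace Ω] (μ : Measure Ω) [IsProbabilityMeasure μ]

lemma meas_out (G : SimpleGraph (Fin n)) (hm : ∀ t x, MeasurableSet {ω | M.run ω G t = x})
    (t : ℕ) (o : Option Bool) : MeasurableSet {ω | M.output (M.run ω G t) = o} := by
  classical
  have : {ω | M.output (M.run ω G t) = o} =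
      ⋃ x ∈ (Finset.univ.filter fun x : Q => M.output x = o), {ω | M.run ω G t = x} := by
    ext ω
    simp
  rw [this]
  exact Finset.measurableSet_biUnion _ fun x _ => hm t x

lemma prob_none (G : SimpleGraph (Fin n)) (T : ℝ)
    (hT : ∀ m : ℕ, ∑ t ∈ Finset.range m, μ.real {ω | M.output (M.run ω G t) = none} ≤ T)
    (m : ℕ) : m * μ.real {ω | M.output (M.run ω G m) = none} ≤ T := by
  refine le_trans ?_ (hT m)
  rw [← nsmul_eq_mul, ← Finset.card_range m, ← Finset.sum_const, Finset.card_range]
  refine Finset.sum_le_sum fun t ht => ?_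
  apply measureReal_mono
  · intro ω hω
    exact out_none M ω G t m (Finset.mem_range.1 ht).le hω
  · exact measure_ne_top _ _

lemma prob_free (G : SimpleGraph (Fin n)) (hG : G.CliqueFree 3) (T : ℝ)
    (hT : ∀ m : ℕ, ∑ t ∈ Finset.range m, μ.real {ω | M.output (M.run ω G t) = none} ≤ T)
    (hd : 2 / 3 ≤ μ.real {ω | ∃ t b, M.output (M.run ω G t) = some b ∧
      (b = true ↔ ¬ G.CliqueFree 3)}) (m : ℕ) (hm : 20 * T ≤ m) (hm0 : 0 < m) :
    37 / 60 ≤ μ.real {ω | M.output (M.run ω G m) = some false} := by
  have h1 := prob_none M μ G T hT m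
  have hm0' : (0 : ℝ) < m := by exact_mod_cast hm0
  have h2 : μ.real {ω | M.output (M.run ω G m) = none} ≤ 1 / 20 := by
    by_contra hcon
    push Not at hcon
    have := mul_lt_mul_of_pos_left hcon hm0'
    linarith
  have h3 : μ.real {ω | ∃ t b, M.output (M.run ω G t) = some b ∧ (b = true ↔ ¬ G.CliqueFree 3)} ≤
      μ.real ({ω | M.output (M.run ω G m) = some false} ∪
        {ω | M.output (M.run ω G m) = none}) := by
    apply measureReal_mono
    · rintro ω ⟨t, b, hb, hb'⟩
      have hbf : b = false := by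
        cases b
        · rfl
        · exact absurd hG (hb'.1 rfl)
      subst hbf
      rcases ho : M.output (M.run ω G m) with _ | b'
      · exact Or.inr ho
      · left
        have := out_some M ω G t m false b' hb ho
        rw [← this] at ho
        exact ho
    · exact measure_ne_top _ _
  have h4 := measureReal_union_le (μ := μ) {ω | M.output (M.run ω G m) = some false}
        {ω | M.output (M.run ω G m) = none}
  linarith

lemma prob_tri (G : SimpleGraph (Fin n)) (hG : ¬ G.CliqueFree 3)
    (hm : ∀ t x, MeasurableSet {ω | M.run ω G t = x})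
    (hd : 2 / 3 ≤ μ.real {ω | ∃ t b, M.output (M.run ω G t) = some b ∧
      (b = true ↔ ¬ G.CliqueFree 3)}) (m : ℕ) :
    μ.real {ω | M.output (M.run ω G m) = some false} ≤ 1 / 3 := by
  have h1 : μ.real {ω | ∃ t b, M.output (M.run ω G t) = some b ∧ (b = true ↔ ¬ G.CliqueFree 3)} ≤
      μ.real ({ω | M.output (M.run ω G m) = some false}ᶜ) := by
    apply measureReal_mono
    · rintro ω ⟨t, b, hb, hb'⟩ hω
      have hbt : b = true := hb'.2 hG
      subst hbt
      have := out_some M ω G t m true false hb hω
      exact absurd this (by decide)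
    · exact measure_ne_top _ _
  rw [measureReal_compl (meas_out M G hm m (some false)), probReal_univ] at h1
  linarith

end Runs

section Avg

variable {Z Ω : Type} [MeasurableSpace Ω] (μ : Measure Ω) [IsProbabilityMeasure μ]

lemma card_ind (S : Finset Z) (P : Z → Prop) [DecidablePred P] (A : Z → Set Ω) (ω : Ω)
    (h : ∀ z ∈ S, P z ↔ ω ∈ A z) :
    ((S.filter P).card : ℝ) = ∑ z ∈ S, (A z).indicator (fun _ => (1 : ℝ)) ω := by
  classical
  rw [Finset.card_filter]
  push_cast
  refine Finset.sum_congr rfl fun z hz => ?_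
  rw [Set.indicator_apply]
  by_cases hp : P z
  · rw [if_pos hp, if_pos ((h z hz).1 hp)]
  · rw [if_neg hp, if_neg (fun h' => hp ((h z hz).2 h'))]

lemma avg_ineq (S1 S0 : Finset Z) (A : Z → Set Ω) (hA : ∀ z, MeasurableSet (A z))
    (α β : ℝ) (h : ∀ ω, α * (∑ z ∈ S0, (A z).indicator (fun _ => (1 : ℝ)) ω) - β ≤
      ∑ z ∈ S1, (A z).indicator (fun _ => (1 : ℝ)) ω) :
    α * (∑ z ∈ S0, μ.real (A z)) - β ≤ ∑ z ∈ S1, μ.real (A z) := by
  have hint : ∀ z, Integrable ((A z).indicator (fun _ => (1 : ℝ))) μ := by
    intro z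
    exact (integrable_const 1).indicator (hA z)
  have hval : ∀ z, ∫ ω, (A z).indicator (fun _ => (1 : ℝ)) ω ∂μ = μ.real (A z) := by
    intro z
    rw [integral_indicator_const _ (hA z)]
    simp
  have h1 : 0 ≤ ∫ ω, (∑ z ∈ S1, (A z).indicator (fun _ => (1 : ℝ)) ω -
      (α * ∑ z ∈ S0, (A z).indicator (fun _ => (1 : ℝ)) ω - β)) ∂μ := by
    apply integral_nonneg
    intro ω
    have := h ω
    simp only [Pi.zero_apply]
    linarith
  have i1 : Integrable (fun ω => ∑ z ∈ S1, (A z).indicator (fun _ => (1 : ℝ)) ω) μ :=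
    integrable_finsetSum _ fun z _ => hint z
  have i0 : Integrable (fun ω => ∑ z ∈ S0, (A z).indicator (fun _ => (1 : ℝ)) ω) μ :=
    integrable_finsetSum _ fun z _ => hint z
  have i2 : Integrable (fun ω => α * ∑ z ∈ S0, (A z).indicator (fun _ => (1 : ℝ)) ω - β) μ :=
    (i0.const_mul α).sub (integrable_const β)
  rw [integral_sub i1 i2,
    integral_sub (i0.const_mul α) (integrable_const β), integral_const_mul,
    integral_finsetSum _ (fun z _ => hint z),
    integral_finsetSum _ (fun z _ => hint z),
    Finset.sum_congr rfl (fun z _ => hval z),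
    Finset.sum_congr rfl (fun z _ => hval z)] at h1
  simp only [integral_const, probReal_univ, smul_eq_mul, one_mul] at h1
  linarith

end Avg

end Pool.Agent.TR
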