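import Mathlib
import Pool.Agent.Lib_helper21.TR.Rand

/-!
# No fast randomised machine with little memory, under numerical conditions
-/

set_option linter.unusedSectionVars false

open MeasureTheory

namespace Pool.Agent.TR

open Finset Equiv Pool.Agent.TS

section Adj

variable {U CU : Type} [AddCommGroup U] [Fintype U] [Fintype CU] [DecidableEq U] (γU : CU → U)

/-- Adjacency of values. -/
def adjU (x y : U) : Prop := ∃ c, y = x + γU c

open Classical in
lemma adjU_row (x : U) : (Finset.univ.filter fun y => adjU γU x y).card ≤ Fintype.card CU := by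
  have h : (Finset.univ.filter fun y => adjU γU x y) ⊆
      (Finset.univ : Finset CU).image fun c => x + γU c := by
    intro y hy
    obtain ⟨c, hc⟩ := (Finset.mem_filter.1 hy).2
    exact Finset.mem_image.2 ⟨c, Finset.mem_univ _, hc.symm⟩
  exact (Finset.card_le_card h).trans (Finset.card_image_le.trans (le_of_eq Finset.card_univ))

open Classical in
lemma adjU_col (y : U) : (Finset.univ.filter fun x => adjU γU x y).card ≤ Fintype.card CU := by
  have h : (Finset.univ.filter fun x => adjU γU x y) ⊆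
      (Finset.univ : Finset CU).image fun c => y - γU c := by
    intro x hx
    obtain ⟨c, hc⟩ := (Finset.mem_filter.1 hx).2
    exact Finset.mem_image.2 ⟨c, Finset.mem_univ _, by rw [hc]; simp⟩
  exact (Finset.card_le_card h).trans (Finset.card_image_le.trans (le_of_eq Finset.card_univ))

open Classical in
lemma adjU_mix (hinj : Function.Injective γU) (lam : ℝ) (hlam : 0 ≤ lam)
    (hψ : ∀ ψ : AddChar U ℂ, ψ ≠ 0 → ‖∑ k, ψ (γU k)‖ ≤ lam) (a b : U → ℝ) :
    |(∑ x, ∑ y, if adjU γU x y then a x * b y else 0) -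
      (Fintype.card CU : ℝ) / (Fintype.card U) * ((∑ x, a x) * (∑ y, b y))| ≤
      lam * (Real.sqrt (∑ x, a x ^ 2) * Real.sqrt (∑ y, b y ^ 2)) := by
  have h := mixingR γU lam hlam hψ a b
  have h1 : ∀ x, ∑ y, (if adjU γU x y then a x * b y else 0) = ∑ k, a x * b (x + γU k) := by
    intro x
    have h2 : (Finset.univ.filter fun y => adjU γU x y) =
        (Finset.univ : Finset CU).image fun c => x + γU c := by
      ext y
      rw [Finset.mem_filter, Finset.mem_image]
      exact ⟨fun ⟨_, c, hc⟩ => ⟨c, Finset.mem_univ _, hc.symm⟩,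
        fun ⟨c, _, hc⟩ => ⟨Finset.mem_univ _, c, hc.symm⟩⟩
    rw [← Finset.sum_filter, h2, Finset.sum_image]
    intro c _ c' _ hcc
    exact hinj (add_left_cancel hcc)
  simp_rw [h1]
  exact h

end Adj

variable {J B U C CU Q Ω : Type} [Fintype J] [AddCommGroup B] [Fintype B] [AddCommGroup U]
  [Fintype U] [Fintype C] [Fintype CU]
  [DecidableEq J] [DecidableEq B] [DecidableEq U] [DecidableEq C] [Fintype Q]
  [MeasurableSpace Ω] (μ : Measure Ω) [IsProbabilityMeasure μ]
  (γ : C → B) (hγ : Function.Injective γ) (γU : CU → U) (hγU : Function.Injective γU)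
  {t d w pad : ℕ} (eJ : J ≃ Fin t) (eB : B ≃ Fin d) (eU : U ≃ Fin w)

include hγ hγU in
open Classical in
/-- The combined statement. -/
theorem no_ram (M : RAM (t * w + (d * w + (d * w + pad))) Q Ω)
    (dg' : Fin (t * w + (d * w + (d * w + pad))) → ℕ) (T : ℝ)
    (hdet : M.DetectsTriangles μ dg') (hexp : M.ExpectedTimeLE μ dg' T)
    (hdeg : ∀ z : Inp J B U, HasDegrees (theGraph eJ eB eU pad (EE γ (adjU γU)) z) dg')
    (lam lamU : ℝ) (hlam : 0 ≤ lam) (hlamU : 0 ≤ lamU)
    (hψ : ∀ ψ : AddChar B ℂ, ψ ≠ 0 → ‖∑ k, ψ (γ k)‖ ≤ lam)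
    (hψU : ∀ ψ : AddChar U ℂ, ψ ≠ 0 → ‖∑ k, ψ (γU k)‖ ≤ lamU)
    (L r k g V f h0 : ℕ) (hL : 0 < L) (hr : 0 < r) (hk : 0 < k) (hg : 2 ≤ g) (hkg : k ≤ g + 2)
    (hV : (g + 2) ^ k ≤ V) (hf : 0 < f) (Λ τ1 : ℝ) (hΛ : 0 < Λ) (hτ : 0 < τ1)
    (hU : 0 < Fintype.card U) (hJ : 0 < Fintype.card J) (hC : 0 < Fintype.card C)
    (hCU : 0 < Fintype.card CU)
    (hκ : 120 * (Fintype.card CU : ℝ) ≤ Fintype.card U)
    (hlΛ : 60 * (lamU * Λ) ≤ Fintype.card CU)
    (hY : 2 * (Fintype.card C : ℝ) * L ≤ τ1 * Fintype.card B)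
    (hbad : 2 * (Fintype.card C * (r * L) / k) +
      r * ((Fintype.card C : ℝ) / (Fintype.card B) * (L : ℝ) ^ 2 + lam * L) +
      2 * (4 * lam ^ 2 / τ1 * (r * L)) ≤
        1 / 40 * (Fintype.card J * Fintype.card B * Fintype.card C * Fintype.card U))
    (hw : (2 * Fintype.card C + 2 * k * τ1 * ((g : ℝ) + 2) ^ k) / V +
      (2 + 8 * (2 * (Fintype.card J * Fintype.card B) * Fintype.card U) / V + 2 * k * L) / f ≤
        1 / 40)
    (h2D : 40 * ((Fintype.card C : ℝ) * Fintype.card CU) ≤ Fintype.card U)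
    (hmain : 480 * (V : ℝ) ^ 2 * ((h0 + 2 * (Fintype.card J * Fintype.card B) * Fintype.card U /
        Real.sqrt Λ) + nDesc r f V (Fintype.card Q)
          (2 * (Fintype.card J * Fintype.card B) * Fintype.card U) *
        (f * (2 ^ f * ((Real.exp 1 / Real.sqrt Λ) ^ h0 *
          (Fintype.card U : ℝ) ^ (2 * (Fintype.card C * Fintype.card CU) *
            (Fintype.card J * Fintype.card B)))))) ≤
      1 / 20 * (Fintype.card J * Fintype.card B * Fintype.card C * Fintype.card U)) :
    (r * L : ℝ) < 20 * T := by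
  by_contra hT
  push Not at hT
  set H := HH γ J hγ with hH
  set adj := adjU γU with hadj
  set Gr := fun z : Bool × (J × B) → Perm U =>
    theGraph eJ eB eU pad (EE γ adj) (toInp z) with hGr
  have hcU : (0 : ℝ) < Fintype.card U := by exact_mod_cast hU
  have hcJ : (0 : ℝ) < Fintype.card J := by exact_mod_cast hJ
  have hcC : (0 : ℝ) < Fintype.card C := by exact_mod_cast hC
  have hcCU : (0 : ℝ) < Fintype.card CU := by exact_mod_cast hCU
  have hcB : (0 : ℝ) < Fintype.card B := by exact_mod_cast Fintype.card_pos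
  set κ₀ : ℝ := (Fintype.card CU : ℝ) / Fintype.card U with hκ₀
  have hκ₀0 : 0 < κ₀ := by positivity
  have cloc : (Fintype.card (((J × B) × C) × U) : ℝ) =
      Fintype.card J * Fintype.card B * Fintype.card C * Fintype.card U := by
    rw [Fintype.card_prod, Fintype.card_prod, Fintype.card_prod]; push_cast; ring
  have cKU : Fintype.card ((Bool × (J × B)) × U) =
      2 * (Fintype.card J * Fintype.card B) * Fintype.card U := by
    rw [Fintype.card_prod, Fintype.card_prod, Fintype.card_prod, Fintype.card_bool]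
  -- the sets
  set TF := (Finset.univ.filter fun z : Bool × (J × B) → Perm U =>
    ∀ ℓ : ((J × B) × C) × U, ¬ tri H adj z ℓ) with hTF
  set OT := (Finset.univ.filter fun z : Bool × (J × B) → Perm U =>
    ∃ ℓ : ((J × B) × C) × U, only H adj z ℓ) with hOT
  -- counting of triangle-free inputs
  have htf := tf_count' (J := J) γ hγ adj (Fintype.card CU) (adjU_col γU) (adjU_row γU) (by
    have : (2 * (Fintype.card C * Fintype.card CU) : ℝ) ≤ Fintype.card U := by
      have : (0 : ℝ) ≤ Fintype.card C * Fintype.card CU := by positivity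
      linarith
    exact_mod_cast this)
  rw [← hH, ← hTF, Fintype.card_prod J B] at htf
  have hTF0 : (0 : ℝ) < TF.card := by
    have h1 : 0 < Fintype.card (Bool × (J × B) → Perm U) := Fintype.card_pos
    have h2 := h1.trans_le htf
    exact_mod_cast Nat.pos_of_mul_pos_left h2
  have htfR : (Fintype.card (Bool × (J × B) → Perm U) : ℝ) ≤
      (Fintype.card U : ℝ) ^ (2 * (Fintype.card C * Fintype.card CU) *
        (Fintype.card J * Fintype.card B)) * TF.card := by exact_mod_cast htf
  set A : (Bool × (J × B) → Perm U) → Set Ω := fun z =>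
    {ω | M.output (M.run ω (Gr z) (r * L)) = some false} with hA
  set c1 : ℝ := κ₀ * ((1 - 3 * (1 / 60)) * ((1 - (1 / 40 + 1 / 40)) *
    Fintype.card (((J × B) × C) × U))) with hc1
  set c2 : ℝ := κ₀ * (8 / (1 / 60) * (V : ℝ) ^ 2 * ((TF.card : ℝ) * (h0 +
        Fintype.card ((Bool × (J × B)) × U) / Real.sqrt Λ) +
        nDesc r f V (Fintype.card Q) (Fintype.card ((Bool × (J × B)) × U)) *
        (f * (2 ^ f * ((Real.exp 1 / Real.sqrt Λ) ^ h0 *
          Fintype.card (Bool × (J × B) → Perm U)))))) with hc2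
  -- the deterministic inequality for every seed
  have hdetω : ∀ ω : Ω, c1 * (∑ z ∈ TF, (A z).indicator (fun _ => (1 : ℝ)) ω) - c2 ≤
      ∑ z ∈ OT, (A z).indicator (fun _ => (1 : ℝ)) ω := by
    intro ω
    have h := det_ineq' (E := (J × B) × C) H (dm eJ eB eU (EE γ adj) M ω) L
      (fun x => M.output x = some false) adj k f hL hr hV κ₀ lamU Λ (1 / 60) (1 / 40 + 1 / 40)
      (by norm_num) (by norm_num) hκ₀0.le (by
        rw [hκ₀, div_le_iff₀ hcU]; linarith) hlamU hΛ hU
      (fun a b _ => by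
        have := adjU_mix γU hγU lamU hlamU hψU a b
        rw [← hadj, ← hκ₀] at this
        convert this)
      (by
        rw [hκ₀, div_le_iff₀ hcU]
        have : 1 / 60 * ((Fintype.card CU : ℝ) / Fintype.card U) * Fintype.card U =
            1 / 60 * Fintype.card CU := by field_simp
        rw [this]
        linarith) h0
      (fun z => by
        refine good_sum γ hγ _ L r k lam hlam hψ hL hk hV hg hkg hf τ1 hτ hY (1 / 40) (1 / 40)
          (by norm_num) (by norm_num) (by norm_num) ?_ ?_ z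
        · rw [cloc]; exact hbad
        · rw [cKU]; push_cast; exact hw)
      (TF.filter fun z => M.output ((dm eJ eB eU (EE γ adj) M ω).run z (r * L)) = some false)
      (OT.filter fun z => M.output ((dm eJ eB eU (EE γ adj) M ω).run z (r * L)) = some false)
      TF (by
        intro z
        simp only [hTF, Finset.mem_filter, Finset.mem_univ, true_and, and_comm]) (by
        intro z
        simp only [hTF, Finset.mem_filter, Finset.mem_univ, true_and]) (by
        intro z
        simp only [hOT, Finset.mem_filter, Finset.mem_univ, true_and, and_comm])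
    rw [card_ind TF _ A ω (fun z _ => by rw [dm_run]; rfl),
      card_ind OT _ A ω (fun z _ => by rw [dm_run]; rfl)] at h
    refine le_trans (le_of_eq ?_) h
    rw [hc1, hc2]
    ring
  -- averaging
  have hmeas : ∀ z, MeasurableSet (A z) := fun z =>
    meas_out M (Gr z) (hdet (Gr z) (hdeg (toInp z))).1 (r * L) (some false)
  have havg := avg_ineq μ OT TF A hmeas c1 c2 hdetω
  -- bounds for the probabilities
  have hrL0 : 0 < r * L := Nat.mul_pos hr hL
  have hp0 : ∀ z ∈ TF, (37 / 60 : ℝ) ≤ μ.real (A z) := by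
    intro z hz
    have hfree : (Gr z).CliqueFree 3 := by
      rw [hGr]
      exact (cliqueFree_iff eJ eB eU (EE γ adj) (toInp z)).2
        ((tfree_iff_tri γ hγ adj z).2 (Finset.mem_filter.1 hz).2)
    exact prob_free M μ (Gr z) hfree T (hexp (Gr z) (hdeg (toInp z)))
      (hdet (Gr z) (hdeg (toInp z))).2 (r * L) (by push_cast; exact hT) hrL0
  have hp1 : ∀ z ∈ OT, μ.real (A z) ≤ 1 / 3 := by
    intro z hz
    obtain ⟨ℓ, hℓ⟩ := (Finset.mem_filter.1 hz).2
    have hntf : ¬ (Gr z).CliqueFree 3 := by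
      intro hfree
      rw [hGr] at hfree
      exact (tfree_iff_tri γ hγ adj z).1
        ((cliqueFree_iff eJ eB eU (EE γ adj) (toInp z)).1 hfree) ℓ hℓ.1
    exact prob_tri M μ (Gr z) hntf (hdet (Gr z) (hdeg (toInp z))).1
      (hdet (Gr z) (hdeg (toInp z))).2 (r * L)
  have hs0 : (37 / 60 : ℝ) * TF.card ≤ ∑ z ∈ TF, μ.real (A z) := by
    calc (37 / 60 : ℝ) * TF.card = ∑ _z ∈ TF, (37 / 60 : ℝ) := by
          rw [Finset.sum_const, nsmul_eq_mul]; ring
      _ ≤ _ := Finset.sum_le_sum hp0
  have hs1 : ∑ z ∈ OT, μ.real (A z) ≤ (1 / 3 : ℝ) * OT.card := by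
    calc _ ≤ ∑ _z ∈ OT, (1 / 3 : ℝ) := Finset.sum_le_sum hp1
      _ = _ := by rw [Finset.sum_const, nsmul_eq_mul]; ring
  -- the number of inputs with one triangle
  have hot := ot_bound H adj (Fintype.card C) (Fintype.card CU) (by
    intro κ
    rw [← Finset.card_univ]
    refine Finset.card_le_card_of_injOn (fun ε => ε.2) (fun _ _ => Finset.mem_coe.2
      (Finset.mem_univ _)) ?_
    rintro ⟨⟨j, b⟩, c⟩ h1 ⟨⟨j', b'⟩, c'⟩ h2 hc
    simp only [hH, HH, Finset.coe_filter, Finset.mem_univ, true_and, Set.mem_ofPred_eq,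
      if_true] at h1 h2 hc
    subst h1
    simp only [Prod.mk.injEq, true_and] at h2
    rw [h2.1, h2.2, hc]) (adjU_col γU) (adjU_row γU)
  rw [← hOT, ← hTF] at hot
  have hot2 : (OT.card : ℝ) ≤ 20 / 19 * (κ₀ * Fintype.card (((J × B) × C) × U) * TF.card) := by
    have h1 : (OT.card : ℝ) * (19 / 20 * Fintype.card U) ≤
        (TF.card : ℝ) * Fintype.card (((J × B) × C) × U) * Fintype.card CU := by
      refine le_trans ?_ hot
      apply mul_le_mul_of_nonneg_left _ (by positivity)
      linarith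
    have h2 : (OT.card : ℝ) * (19 / 20 * Fintype.card U) ≤
        (20 / 19 * (κ₀ * Fintype.card (((J × B) × C) × U) * TF.card)) *
          (19 / 20 * Fintype.card U) := by
      refine h1.trans (le_of_eq ?_)
      rw [hκ₀]
      field_simp
    exact le_of_mul_le_mul_right h2 (by positivity)
  -- the error term
  have hloc0 : (0 : ℝ) < Fintype.card (((J × B) × C) × U) := by rw [cloc]; positivity
  have hc2le : c2 ≤ κ₀ * (1 / 20 * Fintype.card (((J × B) × C) × U) * TF.card) := by
    rw [hc2]
    apply mul_le_mul_of_nonneg_left _ hκ₀0.le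
    have hnd : 0 ≤ nDesc r f V (Fintype.card Q) (Fintype.card ((Bool × (J × B)) × U)) := by
      unfold nDesc; positivity
    calc 8 / (1 / 60) * (V : ℝ) ^ 2 * ((TF.card : ℝ) * (h0 +
        Fintype.card ((Bool × (J × B)) × U) / Real.sqrt Λ) +
        nDesc r f V (Fintype.card Q) (Fintype.card ((Bool × (J × B)) × U)) *
        (f * (2 ^ f * ((Real.exp 1 / Real.sqrt Λ) ^ h0 *
          Fintype.card (Bool × (J × B) → Perm U)))))
        ≤ 8 / (1 / 60) * (V : ℝ) ^ 2 * ((TF.card : ℝ) * (h0 +
        Fintype.card ((Bool × (J × B)) × U) / Real.sqrt Λ) +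
        nDesc r f V (Fintype.card Q) (Fintype.card ((Bool × (J × B)) × U)) *
        (f * (2 ^ f * ((Real.exp 1 / Real.sqrt Λ) ^ h0 *
          ((Fintype.card U : ℝ) ^ (2 * (Fintype.card C * Fintype.card CU) *
        (Fintype.card J * Fintype.card B)) * TF.card))))) := by
          gcongr
      _ = TF.card * (480 * (V : ℝ) ^ 2 * ((h0 + 2 * (Fintype.card J * Fintype.card B) *
          Fintype.card U / Real.sqrt Λ) + nDesc r f V (Fintype.card Q)
          (2 * (Fintype.card J * Fintype.card B) * Fintype.card U) *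
        (f * (2 ^ f * ((Real.exp 1 / Real.sqrt Λ) ^ h0 *
          (Fintype.card U : ℝ) ^ (2 * (Fintype.card C * Fintype.card CU) *
            (Fintype.card J * Fintype.card B))))))) := by
          rw [cKU]
          push_cast
          ring
      _ ≤ TF.card * (1 / 20 * (Fintype.card J * Fintype.card B * Fintype.card C *
          Fintype.card U)) := mul_le_mul_of_nonneg_left hmain hTF0.le
      _ = _ := by rw [cloc]; ring
  -- conclusion
  have hX : 0 < κ₀ * Fintype.card (((J × B) × C) × U) * TF.card := by positivity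
  have hc10 : 0 ≤ c1 := by
    rw [hc1]
    apply mul_nonneg hκ₀0.le
    apply mul_nonneg (by norm_num)
    apply mul_nonneg (by norm_num) hloc0.le
  have e3 := mul_le_mul_of_nonneg_left hs0 hc10
  have e4 : c1 * (37 / 60 * TF.card) = (361 / 400 * (37 / 60)) *
      (κ₀ * Fintype.card (((J × B) × C) × U) * TF.card) := by
    rw [hc1]; ring
  rw [e4] at e3
  have e5 : κ₀ * (1 / 20 * (Fintype.card (((J × B) × C) × U) : ℝ) * TF.card) =
      1 / 20 * (κ₀ * Fintype.card (((J × B) × C) × U) * TF.card) := by ring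
  rw [e5] at hc2le
  nlinarith

end Pool.Agent.TR
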