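import Mathlib

/-!
# Numerical estimates
-/

namespace Pool.Agent.TR

lemma exists_half (x : ℝ) (hx : 1 ≤ x) : ∃ m : ℕ, 0 < m ∧ x / 2 ≤ m ∧ (m : ℝ) ≤ x := by
  have h1 : 1 ≤ ⌊x⌋₊ := Nat.le_floor (by exact_mod_cast hx)
  have h2 := Nat.floor_le (show 0 ≤ x by linarith)
  have h3 := Nat.lt_floor_add_one x
  have h4 : (1 : ℝ) ≤ ⌊x⌋₊ := by exact_mod_cast h1
  exact ⟨⌊x⌋₊, by omega, by linarith, h2⟩

lemma num_bad {P D hB N K k A L r : ℝ} (hP : 0 < P) (hD1 : P ^ 2 ≤ 2 * D) (hB0 : 0 < hB)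
    (hN : 0 ≤ N) (hK : 1 ≤ K) (hk : 1 ≤ k) (hA : 1 ≤ A) (h1 : k * A ≤ P)
    (h2 : 16 * A ^ 2 * (k ^ 2 * K) ≤ P ^ 2) (hL0 : 0 < L) (hL : 2 * k * K * L ≤ hB)
    (hr0 : 0 ≤ r) (hX : 320 * (r * L) ≤ k * N) :
    2 * (D * (r * L) / k) + r * (D / hB * L ^ 2 + (A * P) * L) +
      2 * (4 * (A * P) ^ 2 / (D / (k * K)) * (r * L)) ≤ 1 / 40 * (N * D) := by
  have hD : 0 < D := by nlinarith
  have hk0 : 0 < k := by linarith
  have hK0 : 0 < K := by linarith
  have hX0 : 0 ≤ r * L := by positivity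
  have e1 : D * (r * L) / k ≤ N * D / 320 := by
    rw [div_le_iff₀ hk0]
    nlinarith [mul_le_mul_of_nonneg_left hX hD.le]
  have e2 : r * (D / hB * L ^ 2) ≤ N * D / 160 := by
    have : r * (D / hB * L ^ 2) = (r * L) * D * (L / hB) := by field_simp
    rw [this]
    have h3 : L / hB ≤ 1 / (2 * k) := by
      rw [div_le_div_iff₀ hB0 (by positivity)]
      nlinarith [mul_le_mul_of_nonneg_left hK (show 0 ≤ 2 * k * L by positivity)]
    calc (r * L) * D * (L / hB) ≤ (r * L) * D * (1 / (2 * k)) :=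
          mul_le_mul_of_nonneg_left h3 (by positivity)
      _ = (D * (r * L) / k) / 2 := by field_simp
      _ ≤ N * D / 160 := by
          have : 0 ≤ N * D := by positivity
          linarith
  have e3 : r * ((A * P) * L) ≤ N * D / 160 := by
    have h3 : k * A * P ≤ 2 * D := by nlinarith
    have h4 : (r * L) * (A * P) ≤ (k * N / 320) * (A * P) :=
      mul_le_mul_of_nonneg_right (by linarith) (by positivity)
    have h5 : (k * N / 320) * (A * P) = N / 320 * (k * A * P) := by ring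
    have h6 : N / 320 * (k * A * P) ≤ N / 320 * (2 * D) :=
      mul_le_mul_of_nonneg_left h3 (by positivity)
    calc r * ((A * P) * L) = (r * L) * (A * P) := by ring
      _ ≤ _ := h4
      _ = _ := h5
      _ ≤ _ := h6
      _ = _ := by ring
  have e4 : 4 * (A * P) ^ 2 / (D / (k * K)) * (r * L) ≤ N * D / 320 := by
    have h3 : 4 * (A * P) ^ 2 / (D / (k * K)) * (r * L) =
        4 * (A * P) ^ 2 * (k * K) * (r * L) / D := by field_simp
    rw [h3, div_le_iff₀ hD]
    have h4 : 4 * (A * P) ^ 2 * (k * K) * (r * L) ≤ 4 * (A * P) ^ 2 * (k * K) * (k * N / 320) :=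
      mul_le_mul_of_nonneg_left (by linarith) (by positivity)
    have h5 : 4 * (A * P) ^ 2 * (k * K) * (k * N / 320) =
        (16 * A ^ 2 * (k ^ 2 * K)) * (P ^ 2 * N / 1280) := by ring
    have h6 : (16 * A ^ 2 * (k ^ 2 * K)) * (P ^ 2 * N / 1280) ≤ P ^ 2 * (P ^ 2 * N / 1280) :=
      mul_le_mul_of_nonneg_right h2 (by positivity)
    have h7 : P ^ 2 * (P ^ 2 * N / 1280) ≤ (2 * D) * ((2 * D) * N / 1280) := by
      apply mul_le_mul hD1 _ (by positivity) (by positivity)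
      apply div_le_div_of_nonneg_right _ (by norm_num)
      exact mul_le_mul_of_nonneg_right hD1 hN
    calc _ ≤ _ := h4
      _ = _ := h5
      _ ≤ _ := h6
      _ ≤ _ := h7
      _ = _ := by ring
  have e5 : r * (D / hB * L ^ 2 + (A * P) * L) = r * (D / hB * L ^ 2) + r * ((A * P) * L) := by ring
  rw [e5]
  have : 0 ≤ N * D := by positivity
  linarith

lemma num_w {D K k N L f : ℝ} (hD : 0 < D) (hK : 1 ≤ K) (hk : 1 ≤ k) (hf0 : 0 < f)
    (hf : 17 / 4 * (N / D) ≤ f) (hkL : 640 * (1 + k * L) ≤ N / D) :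
    (2 * D + 2 * k * (D / (k * K)) * K) / (320 * D) +
      (2 + 8 * (2 * N) / (320 * D) + 2 * k * L) / f ≤ 1 / 40 := by
  have hk0 : 0 < k := by linarith
  have hK0 : 0 < K := by linarith
  have e1 : (2 * D + 2 * k * (D / (k * K)) * K) / (320 * D) = 1 / 80 := by
    have : 2 * k * (D / (k * K)) * K = 2 * D := by field_simp
    rw [this, div_eq_div_iff (by positivity) (by norm_num)]
    ring
  have e2 : 8 * (2 * N) / (320 * D) = (N / D) / 20 := by
    field_simp
    ring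
  rw [e1, e2]
  have e3 : (2 + (N / D) / 20 + 2 * k * L) / f ≤ 1 / 80 := by
    rw [div_le_iff₀ hf0]
    nlinarith
  linarith

/-- The product of all counting factors is at most one. -/
lemma prod_le_one (cQ V Λ n x : ℝ) (r f h0 m : ℕ) (hcQ : 1 ≤ cQ) (hV : 1 ≤ V) (hΛ : 0 < Λ)
    (hn : 1 ≤ n) (hf : 0 < f)
    (h : r * Real.log cQ + f * Real.log V + x + f + f + m * Real.log n ≤
      h0 * (1 / 2 * Real.log Λ - 1)) :
    (cQ ^ r * (V ^ f * Real.exp x)) * (f * (2 ^ f * ((Real.exp 1 / Real.sqrt Λ) ^ h0 * n ^ m))) ≤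
      1 := by
  have hpow : ∀ (y : ℝ) (i : ℕ), 1 ≤ y → y ^ i = Real.exp (i * Real.log y) := by
    intro y i hy
    rw [mul_comm, ← Real.rpow_def_of_pos (by linarith), Real.rpow_natCast]
  have e1 := hpow cQ r hcQ
  have e2 := hpow V f hV
  have e3 := hpow n m hn
  have e4 : (2 : ℝ) ^ f ≤ Real.exp f := by
    rw [← mul_one (f : ℝ), Real.exp_nat_mul]
    apply pow_le_pow_left₀ (by norm_num)
    have := Real.add_one_le_exp (1 : ℝ)
    linarith
  have e5 : (f : ℝ) ≤ Real.exp f := by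
    have := Real.add_one_le_exp (f : ℝ)
    linarith
  have e6 : (Real.exp 1 / Real.sqrt Λ) ^ h0 = Real.exp (h0 * (1 - 1 / 2 * Real.log Λ)) := by
    have h1 : Real.sqrt Λ = Real.exp (1 / 2 * Real.log Λ) := by
      rw [Real.sqrt_eq_rpow, Real.rpow_def_of_pos hΛ]
      ring_nf
    rw [h1, ← Real.exp_sub, ← Real.exp_nat_mul]
  rw [e1, e2, e3, e6]
  calc _ ≤ (Real.exp (r * Real.log cQ) * (Real.exp (f * Real.log V) * Real.exp x)) *
        (Real.exp f * (Real.exp f * (Real.exp (h0 * (1 - 1 / 2 * Real.log Λ)) *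
          Real.exp (m * Real.log n)))) := by
        gcongr
    _ = Real.exp (r * Real.log cQ + f * Real.log V + x + f + f + m * Real.log n -
        h0 * (1 / 2 * Real.log Λ - 1)) := by
        simp only [← Real.exp_add]
        congr 1
        ring
    _ ≤ 1 := by
        rw [Real.exp_le_one_iff]
        linarith

end Pool.Agent.TR
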