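import Mathlib
import Pool.Agent.Lib_helper21.TR.Combine
import Pool.Agent.Lib_helper21.TR.Numeric

/-!
# The parameters
-/

set_option linter.unusedSectionVars false

open MeasureTheory

namespace Pool.Agent.TR

open Finset Equiv Pool.Agent.TS

lemma num_main {D N V Λ R h0 : ℝ} (hD : 1 ≤ D) (hN : 0 ≤ N) (hV : V = 320 * D)
    (hν : 3 * 10 ^ 9 ≤ N / D) (hh0 : h0 ≤ (N / D) / (3 * 10 ^ 9))
    (hΛ : 6 * 10 ^ 9 * D ≤ Real.sqrt Λ) (hR : R ≤ 1) :
    480 * V ^ 2 * ((h0 + 2 * N / Real.sqrt Λ) + R) ≤ 1 / 20 * (N * D) := by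
  have hD0 : 0 < D := by linarith
  have e1 : 2 * N / Real.sqrt Λ ≤ (N / D) / (3 * 10 ^ 9) := by
    calc 2 * N / Real.sqrt Λ ≤ 2 * N / (6 * 10 ^ 9 * D) :=
          div_le_div_of_nonneg_left (by positivity) (by positivity) hΛ
      _ = _ := by field_simp; ring
  have e2 : R ≤ (N / D) / (3 * 10 ^ 9) := by
    refine hR.trans ?_
    rw [le_div_iff₀ (by norm_num)]
    linarith
  have e3 : (h0 + 2 * N / Real.sqrt Λ) + R ≤ (N / D) / 10 ^ 9 := by
    have : (N / D) / (3 * 10 ^ 9) + (N / D) / (3 * 10 ^ 9) + (N / D) / (3 * 10 ^ 9) =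
        (N / D) / 10 ^ 9 := by ring
    linarith
  calc 480 * V ^ 2 * ((h0 + 2 * N / Real.sqrt Λ) + R)
      ≤ 480 * V ^ 2 * ((N / D) / 10 ^ 9) := mul_le_mul_of_nonneg_left e3 (by positivity)
    _ = (480 * 320 ^ 2 / 10 ^ 9) * (N * D) := by rw [hV]; field_simp
    _ ≤ 1 / 20 * (N * D) := mul_le_mul_of_nonneg_right (by norm_num) (by positivity)

lemma num_log {ν rQ f lV lΛ ml h0 K0 : ℝ} (hν : 0 ≤ ν) (hrQ : rQ ≤ ν)
    (hf : f ≤ 5 * ν) (hlV : 13 / 3 ≤ lV) (hml : ml ≤ ν) (hh0 : (ν / (3 * 10 ^ 9)) / 2 ≤ h0)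
    (hK0 : 2 * 10 ^ 11 ≤ K0) (hΛ : lΛ = K0 * lV) :
    rQ + f * lV + ν / 80 + f + f + ml ≤ h0 * (1 / 2 * lΛ - 1) := by
  have h1 : f * lV ≤ 5 * ν * lV := mul_le_mul_of_nonneg_right hf (by linarith)
  have h2 : rQ + f * lV + ν / 80 + f + f + ml ≤ 8 * ν * lV := by
    nlinarith [mul_le_mul_of_nonneg_left hlV hν]
  have h3 : 10 ^ 11 / 2 * lV ≤ 1 / 2 * lΛ - 1 := by
    rw [hΛ]
    nlinarith
  have h4 : 0 ≤ (10 : ℝ) ^ 11 / 2 * lV := by positivity
  calc rQ + f * lV + ν / 80 + f + f + ml ≤ 8 * ν * lV := h2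
    _ ≤ (ν / (3 * 10 ^ 9)) / 2 * (10 ^ 11 / 2 * lV) := by
        have : 0 ≤ ν * lV := mul_nonneg hν (by linarith)
        nlinarith
    _ ≤ h0 * (10 ^ 11 / 2 * lV) := mul_le_mul_of_nonneg_right hh0 h4
    _ ≤ _ := mul_le_mul_of_nonneg_left h3 (le_trans (by positivity) hh0)

lemma log_le_two_sqrt {x : ℝ} (hx : 0 < x) : Real.log x ≤ 2 * Real.sqrt x := by
  have h1 : Real.log x = 2 * Real.log (Real.sqrt x) := by
    rw [Real.log_sqrt hx.le]; ring
  rw [h1]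
  have := Real.log_le_sub_one_of_pos (Real.sqrt_pos.2 hx)
  linarith

/-- The number of ways to destroy all triangles. -/
lemma num_ml {D q tB d1 : ℝ} (hD : 0 < D) (hq : 0 < q) (htB : 0 ≤ tB) (hd1 : 0 ≤ d1)
    (hd1q : d1 ≤ q ^ 2) (h : 144 * D ^ 4 ≤ q) :
    2 * (D * d1) * tB * (3 * Real.log q) ≤ tB * q ^ 3 / D := by
  rw [le_div_iff₀ hD]
  have h1 := log_le_two_sqrt hq
  have h2 : 12 * D ^ 2 ≤ Real.sqrt q := by
    apply Real.le_sqrt_of_sq_le
    nlinarith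
  have h3 : 12 * D ^ 2 * Real.sqrt q ≤ q := by
    calc 12 * D ^ 2 * Real.sqrt q ≤ Real.sqrt q * Real.sqrt q :=
          mul_le_mul_of_nonneg_right h2 (Real.sqrt_nonneg _)
      _ = q := Real.mul_self_sqrt hq.le
  have h4 : 6 * D ^ 2 * Real.log q ≤ q := by nlinarith [sq_nonneg D]
  calc 2 * (D * d1) * tB * (3 * Real.log q) * D = tB * d1 * (6 * D ^ 2 * Real.log q) := by ring
    _ ≤ tB * d1 * q := mul_le_mul_of_nonneg_left h4 (by positivity)
    _ ≤ tB * q ^ 2 * q := by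
        apply mul_le_mul_of_nonneg_right _ hq.le
        exact mul_le_mul_of_nonneg_left hd1q htB
    _ = tB * q ^ 3 := by ring

/-- The number of sequences of states. -/
lemma num_rQ {D N k K hB L r lQ A P : ℝ} (hD : 0 < D) (hk : 0 < k) (hK : 0 < K) (hN : 0 ≤ N)
    (hL0 : 0 < L) (hL : hB / (2 * k * K) / 2 ≤ L) (hlQ : 0 ≤ lQ)
    (hr : r ≤ k * N / (320 * L)) (hDP : D ≤ P ^ 2) (hkK : k ^ 2 * K ≤ P) (hP : 0 < P)
    (hBA : hB = A * P ^ 3) (hA : lQ ≤ A) :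
    r * lQ ≤ N / D := by
  have h1 : r * lQ ≤ k * N / (320 * L) * lQ := mul_le_mul_of_nonneg_right hr hlQ
  refine h1.trans ?_
  rw [div_mul_eq_mul_div, div_le_div_iff₀ (by positivity) hD]
  have hA0 : 0 ≤ A := hlQ.trans hA
  have h2 : k ^ 2 * K * (D * lQ) ≤ hB := by
    rw [hBA]
    calc k ^ 2 * K * (D * lQ) ≤ P * (P ^ 2 * A) := by
          apply mul_le_mul hkK _ (by positivity) hP.le
          exact mul_le_mul hDP hA hlQ (by positivity)
      _ = A * P ^ 3 := by ring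
  have h3 : k * (D * lQ) ≤ 4 * L := by
    rw [div_div, div_le_iff₀ (by positivity)] at hL
    have h4 : k * K * (k * (D * lQ)) ≤ k * K * (4 * L) := by nlinarith
    exact le_of_mul_le_mul_left h4 (by positivity)
  calc k * N * lQ * D = N * (k * (D * lQ)) := by ring
    _ ≤ N * (4 * L) := mul_le_mul_of_nonneg_left h3 hN
    _ ≤ N * (320 * L) := by
        apply mul_le_mul_of_nonneg_left _ hN
        linarith

/-- Consequences of the size conditions. -/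
lemma num_sizes {D V W q : ℝ} (hD : 2 ≤ D) (hV : V = 320 * D) (hW : V ^ 10 ≤ W)
    (hq : 120 * W + 1 ≤ q) :
    144 * D ^ 4 ≤ q ∧ 10 ^ 12 * D ≤ q ∧ 6 * 10 ^ 9 * D ≤ Real.sqrt W := by
  have hD0 : 0 < D := by linarith
  have h1 : (320 : ℝ) ^ 10 * D ^ 10 ≤ W := by rw [← mul_pow, ← hV]; exact hW
  have hD1 : 1 ≤ D := by linarith
  have h2 : D ^ 4 ≤ D ^ 10 := pow_le_pow_right₀ hD1 (by norm_num)
  have h3 : D ≤ D ^ 10 := le_self_pow₀ hD1 (by norm_num)
  have h4 : D ^ 2 ≤ D ^ 10 := pow_le_pow_right₀ hD1 (by norm_num)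
  refine ⟨?_, ?_, ?_⟩
  · have : 0 ≤ D ^ 4 := by positivity
    nlinarith
  · nlinarith
  · apply Real.le_sqrt_of_sq_le
    calc (6 * 10 ^ 9 * D) ^ 2 = 36 * 10 ^ 18 * D ^ 2 := by ring
      _ ≤ 320 ^ 10 * D ^ 10 := by
        have : (0 : ℝ) ≤ D ^ 10 := by positivity
        nlinarith
      _ ≤ W := h1


lemma aux_kK {k K : ℝ} (hk : 4 ≤ k) (hK : 1 ≤ K) :
    2 * k * K ≤ k ^ 2 * K ∧ K ≤ k ^ 2 * K ∧ k ^ 2 ≤ k ^ 2 * K := by
  have h1 : 2 * k ≤ k ^ 2 := by nlinarith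
  have h2 : 1 ≤ k ^ 2 := by nlinarith
  have hK0 : 0 ≤ K := by linarith
  exact ⟨mul_le_mul_of_nonneg_right h1 hK0, le_mul_of_one_le_left hK0 h2,
    le_mul_of_one_le_right (by positivity) hK⟩

lemma card_BI (q : ℕ) [Fact q.Prime] (a : ℕ) :
    Fintype.card (Blk q a × Inn q) = q ^ (a + 3) := by
  simp [ZMod.card, pow_add]

open Classical in
/-- The lower bound for given primes. -/
theorem params (p q a g t K0 pad d w : ℕ) [Fact p.Prime] [Fact q.Prime] (ht : 0 < t) (hg : 2 ≤ g)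
    (hkp : (g + 2) ^ (g + 4) ≤ p) (hap : 16 * (a + 4) ^ 2 ≤ p) (hK0 : 200000000000 ≤ K0)
    (hq : 120 * (320 * ((p - 1) * p)) ^ K0 + 1 ≤ q)
    (eB : (Blk p (a + 2) × Inn p) ≃ Fin d) (eU : (Blk q 0 × Inn q) ≃ Fin w)
    {Q Ω : Type} [Fintype Q] [MeasurableSpace Ω] (μ : Measure Ω) [IsProbabilityMeasure μ]
    (M : RAM (t * w + (d * w + (d * w + pad))) Q Ω)
    (dg' : Fin (t * w + (d * w + (d * w + pad))) → ℕ) (T : ℝ)
    (hdet : M.DetectsTriangles μ dg') (hexp : M.ExpectedTimeLE μ dg' T)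
    (hdeg : ∀ z : Inp (Fin t) (Blk p (a + 2) × Inn p) (Blk q 0 × Inn q),
      HasDegrees (theGraph (Equiv.refl (Fin t)) eB eU pad
        (EE (gen : Gen p → Blk p (a + 2) × Inn p)
          (adjU (gen : Gen q → Blk q 0 × Inn q))) z) dg')
    (hQ : Real.log (Fintype.card Q) ≤ (p : ℝ) ^ (a + 2)) :
    ((g : ℝ) + 2) * (t * (p : ℝ) ^ (a + 5) * (q : ℝ) ^ 3) ≤ 12800 * T := by
  -- the machine has a state
  have hΩ : Nonempty Ω := by
    by_contra hcon
    rw [not_nonempty_iff] at hcon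
    have h1 := measure_univ (μ := μ)
    rw [Set.univ_eq_empty_iff.2 hcon, measure_empty] at h1
    exact zero_ne_one h1
  have hQne : Nonempty Q := ⟨M.start hΩ.some⟩
  have hcQ : (1 : ℝ) ≤ Fintype.card Q := by exact_mod_cast Fintype.card_pos
  have hlQ0 : 0 ≤ Real.log (Fintype.card Q) := Real.log_nonneg hcQ
  -- cardinalities
  have cB : Fintype.card (Blk p (a + 2) × Inn p) = p ^ (a + 5) := card_BI p (a + 2)
  have cU : Fintype.card (Blk q 0 × Inn q) = q ^ 3 := by rw [card_BI q 0]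
  have cC : Fintype.card (Gen p) = (p - 1) * p := card_gen
  have cCU : Fintype.card (Gen q) = (q - 1) * q := card_gen
  have hp2 : 2 ≤ p := (Fact.out : p.Prime).two_le
  have hq2 : 2 ≤ q := (Fact.out : q.Prime).two_le
  obtain ⟨Dn, hDn⟩ : ∃ Dn, Dn = (p - 1) * p := ⟨_, rfl⟩
  obtain ⟨d1, hd1⟩ : ∃ d1, d1 = (q - 1) * q := ⟨_, rfl⟩
  rw [← hDn] at cC hq
  rw [← hd1] at cCU
  have hDnR : (Dn : ℝ) = ((p : ℝ) - 1) * p := by
    rw [hDn]; push_cast [Nat.cast_sub (show 1 ≤ p by omega)]; ring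
  have hd1R : (d1 : ℝ) = ((q : ℝ) - 1) * q := by
    rw [hd1]; push_cast [Nat.cast_sub (show 1 ≤ q by omega)]; ring
  clear hDn hd1
  have hpR : (2 : ℝ) ≤ p := by exact_mod_cast hp2
  have hqR : (2 : ℝ) ≤ q := by exact_mod_cast hq2
  have hD2 : (2 : ℝ) ≤ Dn := by rw [hDnR]; nlinarith
  have hDP : (Dn : ℝ) ≤ (p : ℝ) ^ 2 := by rw [hDnR]; nlinarith
  have hPD : (p : ℝ) ^ 2 ≤ 2 * Dn := by rw [hDnR]; nlinarith
  have hd1q : (d1 : ℝ) ≤ (q : ℝ) ^ 2 := by rw [hd1R]; nlinarith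
  have hd1q' : (q : ℝ) * (q - 1) ≤ d1 := by rw [hd1R]; nlinarith
  have hd10 : (0 : ℝ) < d1 := by rw [hd1R]; nlinarith
  have hD0 : (0 : ℝ) < Dn := by linarith
  -- the number `k`
  obtain ⟨k, hk⟩ : ∃ k : ℝ, k = (g : ℝ) + 2 := ⟨_, rfl⟩
  have hgR : (2 : ℝ) ≤ g := by exact_mod_cast hg
  have hk4 : 4 ≤ k := by rw [hk]; linarith
  obtain ⟨K, hK⟩ : ∃ K : ℝ, K = ((g : ℝ) + 2) ^ (g + 2) := ⟨_, rfl⟩
  have hK1 : 1 ≤ K := by rw [hK]; exact one_le_pow₀ (by linarith)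
  have hkK : k ^ 2 * K ≤ p := by
    have h1 : ((g : ℝ) + 2) ^ (g + 4) ≤ p := by exact_mod_cast hkp
    calc k ^ 2 * K = ((g : ℝ) + 2) ^ (g + 4) := by rw [hk, hK]; ring
      _ ≤ p := h1
  have hA : 16 * ((a : ℝ) + 4) ^ 2 ≤ p := by exact_mod_cast hap
  have hkA : k * ((a : ℝ) + 4) ≤ p := by
    have h1 : k ^ 2 ≤ (p : ℝ) := (aux_kK hk4 hK1).2.2.trans hkK
    have h2 : ((a : ℝ) + 4) ^ 2 ≤ (p : ℝ) := by
      have : 0 ≤ ((a : ℝ) + 4) ^ 2 := sq_nonneg _
      linarith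
    have h3 : (k * ((a : ℝ) + 4)) ^ 2 ≤ (p : ℝ) ^ 2 := by
      calc (k * ((a : ℝ) + 4)) ^ 2 = k ^ 2 * ((a : ℝ) + 4) ^ 2 := by ring
        _ ≤ (p : ℝ) * (p : ℝ) := mul_le_mul h1 h2 (by positivity) (by linarith)
        _ = (p : ℝ) ^ 2 := by ring
    exact (abs_le_of_sq_le_sq' h3 (by linarith)).2
  clear hap hkp
  -- the number `V`
  obtain ⟨V, hV⟩ : ∃ V : ℕ, V = 320 * Dn := ⟨_, rfl⟩
  rw [← hV] at hq
  have hVR : (V : ℝ) = 320 * Dn := by rw [hV]; push_cast; ring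
  have hV640 : (640 : ℝ) ≤ V := by rw [hVR]; linarith
  obtain ⟨W, hW⟩ : ∃ W : ℝ, W = (V : ℝ) ^ K0 := ⟨_, rfl⟩
  have hqW : 120 * W + 1 ≤ q := by rw [hW]; exact_mod_cast hq
  have hW10 : (V : ℝ) ^ 10 ≤ W := by
    rw [hW]
    exact pow_le_pow_right₀ (by linarith) (le_trans (by norm_num) hK0)
  have hW0 : 0 < W := lt_of_lt_of_le (by positivity) hW10
  have hWlog : Real.log W = K0 * Real.log V := by rw [hW, Real.log_pow]
  clear hq hW
  obtain ⟨hs1, hs2, hs3⟩ := num_sizes hD2 hVR hW10 hqW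
  have hlV : 13 / 3 ≤ Real.log V := by
    rw [Real.le_log_iff_exp_le (by linarith)]
    have h1 : Real.exp (13 / 3) ≤ Real.exp 5 := Real.exp_le_exp.2 (by norm_num)
    have h2 : Real.exp 5 = Real.exp 1 ^ 5 := by rw [← Real.exp_nat_mul]; norm_num
    have h3 : Real.exp 1 ^ 5 ≤ (3 : ℝ) ^ 5 :=
      pow_le_pow_left₀ (Real.exp_pos _).le (by have := Real.exp_one_lt_d9; linarith) _
    linarith
  -- sizes
  obtain ⟨hB, hhB⟩ : ∃ hB : ℝ, hB = (p : ℝ) ^ (a + 5) := ⟨_, rfl⟩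
  have hhBA : hB = (p : ℝ) ^ (a + 2) * (p : ℝ) ^ 3 := by rw [hhB, ← pow_add]
  have hpB : (p : ℝ) ≤ hB := by rw [hhB]; exact le_self_pow₀ (by linarith) (by omega)
  have hB0 : 0 < hB := by linarith
  have htR : (1 : ℝ) ≤ t := by exact_mod_cast ht
  obtain ⟨N, hN⟩ : ∃ N : ℝ, N = t * hB * (q : ℝ) ^ 3 := ⟨_, rfl⟩
  have hN0 : 0 < N := by rw [hN]; positivity
  have hNq : hB * (q : ℝ) ^ 3 ≤ N := by
    rw [hN, mul_assoc]
    exact le_mul_of_one_le_left (by positivity) htR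
  have hq3 : (q : ℝ) ≤ (q : ℝ) ^ 3 := le_self_pow₀ (by linarith) (by norm_num)
  have hν1 : 10 ^ 12 * hB ≤ N / Dn := by
    rw [le_div_iff₀ hD0]
    calc 10 ^ 12 * hB * Dn = hB * (10 ^ 12 * Dn) := by ring
      _ ≤ hB * (q : ℝ) ^ 3 := mul_le_mul_of_nonneg_left (hs2.trans hq3) hB0.le
      _ ≤ N := hNq
  have hB1 : 1 ≤ hB := by linarith
  have hν2 : 10 ^ 12 ≤ N / Dn := by linarith
  -- the parameters
  have hk0 : 0 < k := by linarith
  have hK0' : 0 < K := by linarith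
  obtain ⟨L, hL0, hL1, hL2⟩ := exists_half (hB / (2 * k * K)) (by
    rw [le_div_iff₀ (by positivity), one_mul]
    exact (aux_kK hk4 hK1).1.trans (hkK.trans hpB))
  have hL0R : (0 : ℝ) < L := by exact_mod_cast hL0
  have hL3 : 2 * k * K * L ≤ hB := by
    rw [le_div_iff₀ (by positivity)] at hL2
    linarith
  have hkL : k * L ≤ hB := by
    refine le_trans ?_ hL3
    have : k * L * 1 ≤ k * L * (2 * K) := mul_le_mul_of_nonneg_left (by linarith) (by positivity)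
    linarith
  obtain ⟨r, hr0, hr1, hr2⟩ := exists_half (k * N / (320 * L)) (by
    rw [le_div_iff₀ (by positivity), one_mul]
    have h1 : 320 * (L : ℝ) ≤ 320 * (k * L) := by
      have : (L : ℝ) ≤ k * L := le_mul_of_one_le_left hL0R.le (by linarith)
      linarith
    have h2 : 320 * (k * L) ≤ 320 * hB := by linarith
    have h3 : 320 * hB ≤ N := by
      refine le_trans ?_ hNq
      rw [mul_comm]
      exact mul_le_mul_of_nonneg_left (by linarith) hB0.le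
    have h4 : N ≤ k * N := le_mul_of_one_le_left hN0.le (by linarith)
    linarith)
  have hr0R : (0 : ℝ) < r := by exact_mod_cast hr0
  obtain ⟨h0, hh00, hh01, hh02⟩ := exists_half ((N / Dn) / (3 * 10 ^ 9)) (by
    rw [le_div_iff₀ (by norm_num)]
    linarith)
  obtain ⟨f, hf0, hf1, hf2⟩ : ∃ f : ℕ, 0 < f ∧ 17 / 4 * (N / Dn) ≤ f ∧ (f : ℝ) ≤ 5 * (N / Dn) := by
    have h1 : (0 : ℝ) ≤ 5 * (N / Dn) := by positivity
    have h2 := Nat.floor_le h1
    have h3 := Nat.lt_floor_add_one (5 * (N / (Dn : ℝ)))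
    refine ⟨⌊5 * (N / (Dn : ℝ))⌋₊, ?_, by linarith, h2⟩
    apply Nat.floor_pos.2
    linarith
  have hrL : 320 * ((r : ℝ) * L) ≤ k * N := by
    rw [le_div_iff₀ (by positivity)] at hr2
    linarith
  have hrL' : k * N ≤ 640 * ((r : ℝ) * L) := by
    rw [div_div, div_le_iff₀ (by positivity)] at hr1
    linarith
  have hrQ : (r : ℝ) * Real.log (Fintype.card Q) ≤ N / Dn :=
    num_rQ hD0 hk0 hK0' hN0.le hL0R hL1 hlQ0 hr2 hDP hkK (by linarith) hhBA hQ
  have hml : 2 * ((Dn : ℝ) * d1) * (t * hB) * (3 * Real.log q) ≤ N / Dn := by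
    have := num_ml (D := Dn) (q := q) (tB := t * hB) (d1 := d1) hD0 (by linarith) (by positivity)
      hd10.le hd1q hs1
    rwa [← hN] at this
  have hgq : (q : ℝ) ^ 3 = q * q ^ 2 := by ring
  have hmain := no_ram μ (gen : Gen p → Blk p (a + 2) × Inn p) gen_inj2
    (gen : Gen q → Blk q 0 × Inn q) gen_inj0 (Equiv.refl (Fin t)) eB eU M dg' T hdet hexp
    hdeg ((((a + 2 : ℕ) : ℝ) + 2) * p) ((((0 : ℕ) : ℝ) + 2) * q) (by positivity) (by positivity)
    (fun ψ hψ => char_sum_gen ψ hψ) (fun ψ hψ => char_sum_gen ψ hψ)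
    L r (g + 2) g V f h0 hL0 hr0 (by omega) hg le_rfl (by
      have h1 : ((g : ℝ) + 2) ^ (g + 2) ≤ V := by
        rw [← hK]
        have h2 : K ≤ k ^ 2 * K := (aux_kK hk4 hK1).2.1
        have h3 : (p : ℝ) ≤ p ^ 2 := le_self_pow₀ (by linarith) (by norm_num)
        linarith
      exact_mod_cast h1) hf0 W ((Dn : ℝ) / (k * K)) hW0 (by positivity) (by rw [cU]; positivity)
    (by rw [Fintype.card_fin]; exact ht) (by rw [cC]; exact_mod_cast hD0)
    (by rw [cCU]; exact_mod_cast hd10)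
    (by
      rw [cCU, cU]
      push_cast
      have h1 : (120 : ℝ) ≤ q := by linarith
      calc 120 * (d1 : ℝ) ≤ q * (q : ℝ) ^ 2 := mul_le_mul h1 hd1q hd10.le (by linarith)
        _ = (q : ℝ) ^ 3 := by ring)
    (by
      rw [cCU]
      push_cast
      have h1 : (q : ℝ) * (120 * W) ≤ q * (q - 1) :=
        mul_le_mul_of_nonneg_left (by linarith) (by linarith)
      have h2 : 60 * ((0 + 2) * (q : ℝ) * W) = q * (120 * W) := by ring
      rw [h2]
      exact h1.trans hd1q')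
    (by
      rw [cC, cB]
      push_cast
      rw [← hhB, div_mul_eq_mul_div, le_div_iff₀ (by positivity)]
      have h1 := mul_le_mul_of_nonneg_left hL3 hD0.le
      have h2 : 2 * (Dn : ℝ) * L * (k * K) = Dn * (2 * k * K * L) := by ring
      rw [h2]
      exact h1)
    (by
      rw [Fintype.card_fin, cC, cB, cU]
      push_cast
      rw [← hhB, ← hk]
      have h := num_bad (P := (p : ℝ)) (D := Dn) (hB := hB) (N := N) (K := K) (k := k)
        (A := (a : ℝ) + 4) (L := L) (r := r) (by linarith) hPD hB0 hN0.le hK1 (by linarith)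
        (by have : (0 : ℝ) ≤ a := Nat.cast_nonneg a
            linarith) hkA (by
          calc 16 * ((a : ℝ) + 4) ^ 2 * (k ^ 2 * K) ≤ (p : ℝ) * (p : ℝ) :=
                mul_le_mul hA hkK (by positivity) (by linarith)
            _ = (p : ℝ) ^ 2 := by ring) hL0R hL3 hr0R.le hrL
      have e : (a : ℝ) + 2 + 2 = a + 4 := by ring
      have e2 : (t : ℝ) * hB * Dn * (q : ℝ) ^ 3 = N * Dn := by rw [hN]; ring
      rw [e, e2]
      exact h)
    (by
      rw [Fintype.card_fin, cC, cB, cU]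
      push_cast
      rw [← hhB, ← hK, ← hk, hVR]
      have h := num_w (D := (Dn : ℝ)) (K := K) (k := k) (N := N) (L := L) (f := f) hD0 hK1
        (by linarith) (by exact_mod_cast hf0) hf1 (by linarith)
      have e2 : 8 * (2 * ((t : ℝ) * hB) * (q : ℝ) ^ 3) = 8 * (2 * N) := by rw [hN]; ring
      rw [e2]
      exact h)
    (by
      rw [cC, cCU, cU]
      push_cast
      have h1 : 40 * (Dn : ℝ) ≤ q := by linarith
      calc 40 * ((Dn : ℝ) * d1) = (40 * Dn) * d1 := by ring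
        _ ≤ q * (q : ℝ) ^ 2 := mul_le_mul h1 hd1q hd10.le (by linarith)
        _ = (q : ℝ) ^ 3 := by ring)
    (by
      rw [Fintype.card_fin, cC, cCU, cB, cU]
      have hlam : 2 * ((t : ℝ) * hB) * (q : ℝ) ^ 3 = 2 * N := by rw [hN]; ring
      have h := num_main (D := (Dn : ℝ)) (N := N) (V := V) (Λ := W) (h0 := h0)
        (R := nDesc r f V (Fintype.card Q) (2 * (t * p ^ (a + 5)) * q ^ 3) *
          (f * (2 ^ f * ((Real.exp 1 / Real.sqrt W) ^ h0 *
            ((q ^ 3 : ℕ) : ℝ) ^ (2 * (Dn * d1) * (t * p ^ (a + 5)))))))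
        (by linarith) hN0.le hVR (by linarith) hh02 hs3 (by
          unfold nDesc
          refine prod_le_one _ _ _ _ _ _ _ _ _ hcQ (by linarith) hW0 ?_ hf0 ?_
          · push_cast
            exact one_le_pow₀ (by linarith)
          · have hlog := num_log (ν := N / Dn) (rQ := r * Real.log (Fintype.card Q)) (f := f)
              (lV := Real.log V) (lΛ := Real.log W)
              (ml := 2 * ((Dn : ℝ) * d1) * (t * hB) * (3 * Real.log q)) (h0 := h0) (K0 := K0)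
              (by positivity) hrQ hf2 hlV hml hh01 (by
                have : ((200000000000 : ℕ) : ℝ) ≤ K0 := Nat.cast_le.2 hK0
                refine le_trans (by norm_num) this) hWlog
            refine le_trans (le_of_eq ?_) hlog
            have e1 : Real.log (((q ^ 3 : ℕ) : ℝ)) = 3 * Real.log q := by
              push_cast
              rw [Real.log_pow]
              norm_num
            have e2 : 2 * ((2 * (t * p ^ (a + 5)) * q ^ 3 : ℕ) : ℝ) / V = N / Dn / 80 := by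
              push_cast
              rw [← hhB, hVR, hN]
              field_simp
              ring
            have e3 : ((2 * (Dn * d1) * (t * p ^ (a + 5)) : ℕ) : ℝ) =
                2 * ((Dn : ℝ) * d1) * (t * hB) := by
              push_cast
              rw [hhB]
            rw [e1, e2, e3])
      have e1 : (t : ℝ) * ((p ^ (a + 5) : ℕ) : ℝ) * (Dn : ℝ) * ((q ^ 3 : ℕ) : ℝ) = N * Dn := by
        push_cast
        rw [hN, hhB]
        ring
      have e2 : 2 * ((t : ℝ) * ((p ^ (a + 5) : ℕ) : ℝ)) * ((q ^ 3 : ℕ) : ℝ) = 2 * N := by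
        push_cast
        rw [hN, hhB]
        ring
      rw [e1, e2]
      exact h)
  -- conclusion
  have e : ((g : ℝ) + 2) * (t * (p : ℝ) ^ (a + 5) * (q : ℝ) ^ 3) = k * N := by
    rw [hk, hN, hhB]
  rw [e]
  linarith

end Pool.Agent.TR
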