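import Mathlib
import Pool.Agent.Lib_helper21.TR.Params
import Pool.Agent.Lib_helper21.TS.Final

/-!
# The lower bound for randomised random-access machines
-/

set_option linter.unusedSectionVars false

open MeasureTheory

namespace Pool.Agent.TR

open Finset Equiv Pool.Agent.TS

open Classical in
lemma card_EE {B U C CU : Type} [AddCommGroup B] [Fintype B] [AddCommGroup U] [Fintype U]
    [Fintype C] [Fintype CU] (γ : C → B) (γU : CU → U) :
    (Finset.univ.filter fun p : (B × U) × (B × U) => EE γ (adjU γU) p.1 p.2).card ≤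
      Fintype.card B * Fintype.card U * (Fintype.card C * Fintype.card CU) := by
  have h1 : (Finset.univ.filter fun p : (B × U) × (B × U) => EE γ (adjU γU) p.1 p.2).card =
      ∑ x : B × U, (Finset.univ.filter fun y => EE γ (adjU γU) x y).card := by
    simp only [Finset.card_filter]
    rw [Fintype.sum_prod_type
      (f := fun p : (B × U) × (B × U) => if EE γ (adjU γU) p.1 p.2 then 1 else 0)]
  have h2 : ∀ x : B × U, (Finset.univ.filter fun y => EE γ (adjU γU) x y).card ≤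
      Fintype.card C * Fintype.card CU := by
    intro x
    have h3 : (Finset.univ.filter fun y => EE γ (adjU γU) x y) ⊆
        (Finset.univ : Finset (C × CU)).image fun k => (x.1 + γ k.1, x.2 + γU k.2) := by
      intro y hy
      obtain ⟨c, hc, c', hc'⟩ := (Finset.mem_filter.1 hy).2
      exact Finset.mem_image.2 ⟨(c, c'), Finset.mem_univ _, Prod.ext hc.symm hc'.symm⟩
    refine ((Finset.card_le_card h3).trans Finset.card_image_le).trans ?_
    rw [Finset.card_univ, Fintype.card_prod]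
  rw [h1]
  calc _ ≤ ∑ _x : B × U, Fintype.card C * Fintype.card CU := Finset.sum_le_sum fun x _ => h2 x
    _ = _ := by rw [Finset.sum_const, Finset.card_univ, Fintype.card_prod, smul_eq_mul]

set_option synthInstance.maxSize 100000 in
/-- The lower bound for given primes and every size. -/
theorem bound_primes (p q a g K0 : ℕ) [Fact p.Prime] [Fact q.Prime] (hg : 2 ≤ g)
    (hkp : (g + 2) ^ (g + 4) ≤ p) (hap : 16 * (a + 4) ^ 2 ≤ p) (hK0 : 200000000000 ≤ K0)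
    (hq : 120 * (320 * ((p - 1) * p)) ^ K0 + 1 ≤ q) (s : ℕ)
    (hs : 16 * (p ^ (a + 7) * q ^ 5) ≤ s) :
    ∃ (n : ℕ) (δ : Fin n → ℕ), 2 * n + ∑ v, δ v = 2 * s ∧
      ∀ (Q Ω : Type) [Fintype Q] [MeasurableSpace Ω] (μ : Measure Ω) [IsProbabilityMeasure μ]
        (M : RAM n Q Ω) (T : ℝ),
        Real.log (Fintype.card Q) ≤ (p : ℝ) ^ (a + 2) →
        M.DetectsTriangles μ δ → M.ExpectedTimeLE μ δ T →
        ((g : ℝ) + 2) * s ≤ 204800 * T := by
  classical
  have hp2 : 2 ≤ p := (Fact.out : p.Prime).two_le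
  have hq2 : 2 ≤ q := (Fact.out : q.Prime).two_le
  have cB : Fintype.card (Blk p (a + 2) × Inn p) = p ^ (a + 5) := card_BI p (a + 2)
  have cU : Fintype.card (Blk q 0 × Inn q) = q ^ 3 := by rw [card_BI q 0]
  have cC : Fintype.card (Gen p) ≤ p ^ 2 := by
    rw [card_gen, sq]
    exact Nat.mul_le_mul_right _ (Nat.sub_le _ _)
  have cCU : Fintype.card (Gen q) ≤ q ^ 2 := by
    rw [card_gen, sq]
    exact Nat.mul_le_mul_right _ (Nat.sub_le _ _)
  set b := p ^ (a + 5) * q ^ 3 with hb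
  have hb0 : 0 < b := by positivity
  obtain ⟨t, ht⟩ : ∃ t, t = s / (8 * b) := ⟨_, rfl⟩
  have hbs : 16 * (b * (p ^ 2 * q ^ 2)) ≤ s := by
    have : b * (p ^ 2 * q ^ 2) = p ^ (a + 7) * q ^ 5 := by rw [hb]; ring
    rw [this]; exact hs
  have h4 : 4 ≤ p ^ 2 := by nlinarith
  have hpq : 4 ≤ p ^ 2 * q ^ 2 := h4.trans (Nat.le_mul_of_pos_right _ (by positivity))
  have hb4 : 64 * b ≤ s := by nlinarith
  have ht1 : t * (8 * b) ≤ s := by rw [ht]; exact Nat.div_mul_le_self _ _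
  have ht2 : s < (t + 1) * (8 * b) := by
    rw [ht, mul_comm]; exact Nat.lt_mul_div_succ _ (by positivity)
  have ht0 : 0 < t := by
    by_contra hcon
    have : t = 0 := by omega
    rw [this] at ht2
    omega
  have ht3 : s ≤ 16 * (t * b) := by nlinarith
  set eB : (Blk p (a + 2) × Inn p) ≃ Fin (p ^ (a + 5)) := Fintype.equivFinOfCardEq cB with heB
  set eU : (Blk q 0 × Inn q) ≃ Fin (q ^ 3) := Fintype.equivFinOfCardEq cU with heU
  set E : (Blk p (a + 2) × Inn p) × (Blk q 0 × Inn q) →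
      (Blk p (a + 2) × Inn p) × (Blk q 0 × Inn q) → Prop :=
    EE (gen : Gen p → Blk p (a + 2) × Inn p) (adjU (gen : Gen q → Blk q 0 × Inn q)) with hE
  set cE := (Finset.univ.filter fun x : ((Blk p (a + 2) × Inn p) × (Blk q 0 × Inn q)) ×
    ((Blk p (a + 2) × Inn p) × (Blk q 0 × Inn q)) => E x.1 x.2).card with hcE
  have hcEle : cE ≤ b * (p ^ 2 * q ^ 2) := by
    have h := card_EE (gen : Gen p → Blk p (a + 2) × Inn p) (gen : Gen q → Blk q 0 × Inn q)
    rw [cB, cU, ← hE] at h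
    have h' : cE ≤ p ^ (a + 5) * q ^ 3 * (Fintype.card (Gen p) * Fintype.card (Gen q)) := by
      rw [hcE]; convert h
    exact h'.trans (Nat.mul_le_mul_left _ (Nat.mul_le_mul cC cCU))
  set base := t * q ^ 3 + 2 * (p ^ (a + 5) * q ^ 3) + 2 * (t * p ^ (a + 5) * q ^ 3) + cE with hbase
  have hbase_le : base ≤ s := by
    have e1 : t * q ^ 3 ≤ t * b := by
      apply Nat.mul_le_mul_left
      rw [hb]
      exact Nat.le_mul_of_pos_left _ (by positivity)
    have e3 : t * p ^ (a + 5) * q ^ 3 = t * b := by rw [hb]; ring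
    have e4 : 8 * (t * b) ≤ s := by nlinarith
    rw [hbase, e3, ← hb]
    omega
  set pad := s - base with hpad
  refine ⟨t * q ^ 3 + (p ^ (a + 5) * q ^ 3 + (p ^ (a + 5) * q ^ 3 + pad)),
    fun v => dg (Equiv.refl (Fin t)) eB eU pad E ((enc (Equiv.refl (Fin t)) eB eU pad).symm v),
    ?_, ?_⟩
  · rw [(enc (Equiv.refl (Fin t)) eB eU pad).symm.sum_comp
      (fun x => dg (Equiv.refl (Fin t)) eB eU pad E x), sum_dg, cB, cU, ← hcE, Fintype.card_fin]
    omega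
  · intro Q Ω _ _ μ _ M T hQ hdet hexp
    have h := params p q a g t K0 pad (p ^ (a + 5)) (q ^ 3) ht0 hg hkp hap hK0 hq eB eU μ M _ T
      hdet hexp (by
        intro z v
        obtain ⟨x, rfl⟩ := (enc (Equiv.refl (Fin t)) eB eU pad).surjective v
        rw [adjList_graph, length_lst]
        simp only [Equiv.symm_apply_apply]
        rfl) hQ
    have h1 : (s : ℝ) ≤ 16 * (t * ((p : ℝ) ^ (a + 5) * (q : ℝ) ^ 3)) := by
      have : (s : ℝ) ≤ ((16 * (t * b) : ℕ) : ℝ) := by exact_mod_cast ht3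
      rw [hb] at this
      push_cast at this
      exact this
    have h2 : (0 : ℝ) ≤ (g : ℝ) + 2 := by positivity
    calc ((g : ℝ) + 2) * s ≤ ((g : ℝ) + 2) * (16 * (t * ((p : ℝ) ^ (a + 5) * (q : ℝ) ^ 3))) :=
          mul_le_mul_of_nonneg_left h1 h2
      _ = 16 * (((g : ℝ) + 2) * (t * (p : ℝ) ^ (a + 5) * (q : ℝ) ^ 3)) := by ring
      _ ≤ 16 * (12800 * T) := mul_le_mul_of_nonneg_left h (by norm_num)
      _ = 204800 * T := by ring


lemma exists_p (e P0 s : ℕ) (he : 0 < e) (hs : (2 * (P0 + 1)) ^ e ≤ s) :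
    ∃ p : ℕ, p.Prime ∧ P0 < p ∧ p ^ e ≤ s ∧ s ≤ (2 * p) ^ e := by
  obtain ⟨m, hm1, hm2⟩ : ∃ m : ℕ, m ^ e ≤ s ∧ s < (m + 1) ^ e := by
    refine ⟨Nat.findGreatest (fun k => k ^ e ≤ s) s, ?_, ?_⟩
    · exact Nat.findGreatest_spec (P := fun k => k ^ e ≤ s) (m := 0) (Nat.zero_le _)
        (by rw [zero_pow he.ne']; exact Nat.zero_le _)
    · by_contra hcon
      push Not at hcon
      have h1 : Nat.findGreatest (fun k => k ^ e ≤ s) s + 1 ≤ s :=
        (Nat.le_self_pow he.ne' _).trans hcon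
      exact Nat.findGreatest_is_greatest (P := fun k => k ^ e ≤ s) (Nat.lt_succ_self _) h1 hcon
  have hm3 : 2 * (P0 + 1) ≤ m := by
    by_contra hcon
    have h1 : m + 1 ≤ 2 * (P0 + 1) := by omega
    have h2 := Nat.pow_le_pow_left h1 e
    omega
  obtain ⟨p, hp, hp1, hp2⟩ := Nat.exists_prime_lt_and_le_two_mul (m / 2) (by omega)
  refine ⟨p, hp, by omega, ?_, ?_⟩
  · exact (Nat.pow_le_pow_left (by omega) e).trans hm1
  · exact hm2.le.trans (Nat.pow_le_pow_left (by omega) e)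

lemma exists_q (p K0 : ℕ) (hp : 0 < (p - 1) * p) (hK : 242 * 320 ^ K0 ≤ p) :
    ∃ q : ℕ, q.Prime ∧ 120 * (320 * ((p - 1) * p)) ^ K0 + 1 ≤ q ∧ q ≤ p ^ (2 * K0 + 1) := by
  obtain ⟨q, hq, hq1, hq2⟩ :=
    Nat.exists_prime_lt_and_le_two_mul (120 * (320 * ((p - 1) * p)) ^ K0 + 1) (by omega)
  refine ⟨q, hq, hq1.le, hq2.trans ?_⟩
  have h1 : 1 ≤ (320 * ((p - 1) * p)) ^ K0 := Nat.one_le_pow _ _ (by omega)
  have h2 : (320 * ((p - 1) * p)) ^ K0 ≤ 320 ^ K0 * p ^ (2 * K0) := by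
    rw [pow_mul, ← mul_pow]
    apply Nat.pow_le_pow_left
    apply Nat.mul_le_mul_left
    rw [sq]
    exact Nat.mul_le_mul_right _ (Nat.sub_le _ _)
  calc 2 * (120 * (320 * ((p - 1) * p)) ^ K0 + 1) ≤ 242 * (320 * ((p - 1) * p)) ^ K0 := by omega
    _ ≤ 242 * (320 ^ K0 * p ^ (2 * K0)) := Nat.mul_le_mul_left _ h2
    _ = (242 * 320 ^ K0) * p ^ (2 * K0) := by ring
    _ ≤ p * p ^ (2 * K0) := Nat.mul_le_mul_right _ hK
    _ = p ^ (2 * K0 + 1) := by ring

lemma exists_g (p : ℕ) (hp : 4096 ≤ p) :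
    ∃ g : ℕ, 2 ≤ g ∧ (g + 2) ^ (g + 4) ≤ p ∧ p < (g + 3) ^ (g + 5) := by
  have h0 : (fun g => (g + 2) ^ (g + 4) ≤ p) 2 := by
    change (2 + 2) ^ (2 + 4) ≤ p
    exact le_trans (by norm_num) hp
  refine ⟨Nat.findGreatest (fun g => (g + 2) ^ (g + 4) ≤ p) p, ?_, ?_, ?_⟩
  · exact Nat.le_findGreatest (by omega) h0
  · exact Nat.findGreatest_spec (P := fun g => (g + 2) ^ (g + 4) ≤ p) (m := 2) (by omega) h0
  · by_contra hcon
    push Not at hcon
    have h1 : Nat.findGreatest (fun g => (g + 2) ^ (g + 4) ≤ p) p + 1 ≤ p := by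
      refine le_trans ?_ hcon
      refine le_trans ?_ (Nat.le_self_pow (by omega) _)
      omega
    exact Nat.findGreatest_is_greatest (P := fun g => (g + 2) ^ (g + 4) ≤ p)
      (Nat.lt_succ_self _) h1 hcon

lemma log_p_le {p g : ℕ} (hg : 2 ≤ g) (h1 : (g + 2) ^ (g + 4) ≤ p) (h2 : p < (g + 3) ^ (g + 5)) :
    1 < Real.log p ∧ Real.log p ≤ 2 * ((g : ℝ) + 2) * Real.log (Real.log p) := by
  have hgR : (2 : ℝ) ≤ g := by exact_mod_cast hg
  have h1R : ((g : ℝ) + 2) ^ (g + 4) ≤ p := by exact_mod_cast h1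
  have h2R : (p : ℝ) ≤ ((g : ℝ) + 3) ^ (g + 5) := by exact_mod_cast h2.le
  have hp0 : (0 : ℝ) < p := lt_of_lt_of_le (by positivity) h1R
  have e1 := Real.log_le_log (by positivity) h1R
  have e2 := Real.log_le_log hp0 h2R
  rw [Real.log_pow] at e1 e2
  push_cast at e1 e2
  have h4 : 1 ≤ Real.log ((g : ℝ) + 2) := by
    rw [Real.le_log_iff_exp_le (by positivity)]
    have := Real.exp_one_lt_d9
    linarith
  have h5 : (g : ℝ) + 4 ≤ Real.log p := by
    refine le_trans ?_ e1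
    nlinarith
  have h6 : Real.log ((g : ℝ) + 3) ≤ Real.log (Real.log p) :=
    Real.log_le_log (by positivity) (by linarith)
  have h7 : 0 ≤ Real.log (Real.log p) := Real.log_nonneg (by linarith)
  refine ⟨by linarith, ?_⟩
  calc Real.log p ≤ ((g : ℝ) + 5) * Real.log ((g : ℝ) + 3) := e2
    _ ≤ ((g : ℝ) + 5) * Real.log (Real.log p) := mul_le_mul_of_nonneg_left h6 (by positivity)
    _ ≤ 2 * ((g : ℝ) + 2) * Real.log (Real.log p) :=
        mul_le_mul_of_nonneg_right (by linarith) h7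

lemma final_time {s p e g : ℕ} {T : ℝ} (he : 0 < e) (hg : 2 ≤ g) (h1 : (g + 2) ^ (g + 4) ≤ p)
    (h2 : p < (g + 3) ^ (g + 5)) (hps : p ^ e ≤ s) (hsp : s ≤ (2 * p) ^ e)
    (hT : ((g : ℝ) + 2) * s ≤ 204800 * T) :
    1 / (819200 * e) * s * Real.log s / Real.log (Real.log s) ≤ T := by
  obtain ⟨hx1, hx2⟩ := log_p_le hg h1 h2
  have hp0 : 0 < p := lt_of_lt_of_le (by positivity) h1
  have hp2 : 2 ≤ p := by
    refine le_trans ?_ h1
    exact (show 2 ≤ g + 2 by omega).trans (Nat.le_self_pow (by omega) _)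
  have hp0R : (0 : ℝ) < p := by exact_mod_cast hp0
  have heR : (0 : ℝ) < e := by exact_mod_cast he
  have hpsR : (p : ℝ) ≤ s := by
    have : p ≤ s := (Nat.le_self_pow he.ne' p).trans hps
    exact_mod_cast this
  have hs0 : (0 : ℝ) < s := lt_of_lt_of_le hp0R hpsR
  have hlog1 : Real.log p ≤ Real.log s := Real.log_le_log hp0R hpsR
  have hll : Real.log (Real.log p) ≤ Real.log (Real.log s) := Real.log_le_log (by linarith) hlog1
  have hllp : 0 < Real.log (Real.log p) := Real.log_pos hx1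
  have hlls : 0 < Real.log (Real.log s) := by linarith
  have hlogs : Real.log s ≤ 2 * e * Real.log p := by
    have h3 : (s : ℝ) ≤ (2 * (p : ℝ)) ^ e := by exact_mod_cast hsp
    have h4 := Real.log_le_log hs0 h3
    rw [Real.log_pow, Real.log_mul (by norm_num) hp0R.ne'] at h4
    have h5 : Real.log 2 ≤ Real.log p := Real.log_le_log (by norm_num) (by exact_mod_cast hp2)
    nlinarith
  rw [div_le_iff₀ hlls]
  have hgR : (0 : ℝ) ≤ (g : ℝ) + 2 := by positivity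
  have h6 : Real.log s ≤ 4 * e * ((g : ℝ) + 2) * Real.log (Real.log s) := by
    calc Real.log s ≤ 2 * e * Real.log p := hlogs
      _ ≤ 2 * e * (2 * ((g : ℝ) + 2) * Real.log (Real.log s)) := by
          apply mul_le_mul_of_nonneg_left _ (by positivity)
          refine hx2.trans ?_
          exact mul_le_mul_of_nonneg_left hll (by positivity)
      _ = _ := by ring
  calc 1 / (819200 * (e : ℝ)) * s * Real.log s
      ≤ 1 / (819200 * (e : ℝ)) * s * (4 * e * ((g : ℝ) + 2) * Real.log (Real.log s)) :=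
        mul_le_mul_of_nonneg_left h6 (by positivity)
    _ = (((g : ℝ) + 2) * s) / 204800 * Real.log (Real.log s) := by
        field_simp
        ring
    _ ≤ T * Real.log (Real.log s) := by
        apply mul_le_mul_of_nonneg_right _ hlls.le
        rw [div_le_iff₀ (by norm_num)]
        linarith

lemma final_space {s p e a cQ : ℕ} {ε : ℝ} (hε : 0 < ε) (hε1 : ε ≤ 1) (hp1 : 1 < p)
    (hs1 : 1 ≤ s) (hsp : s ≤ (2 * p) ^ e) (h2e : 2 ^ e ≤ p) (hea : (e : ℝ) * (1 - ε) ≤ a + 1)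
    (hQ : Real.logb 2 cQ ≤ (s : ℝ) ^ (1 - ε)) : Real.log cQ ≤ (p : ℝ) ^ (a + 2) := by
  have hp1R : (1 : ℝ) < p := by exact_mod_cast hp1
  have hp0R : (0 : ℝ) < p := by linarith
  rcases Nat.eq_zero_or_pos cQ with h0 | h0
  · rw [h0]
    simp only [Nat.cast_zero, Real.log_zero]
    positivity
  · have h20 : 0 < Real.log 2 := Real.log_pos (by norm_num)
    have h4 : Real.log cQ = Real.logb 2 cQ * Real.log 2 := by
      rw [Real.logb, div_mul_cancel₀ _ h20.ne']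
    have h5 : 0 ≤ Real.logb 2 cQ := Real.logb_nonneg (by norm_num) (by exact_mod_cast h0)
    have h2 : Real.log 2 ≤ 1 := by
      have := Real.log_two_lt_d9; linarith
    have h6 : Real.log cQ ≤ (s : ℝ) ^ (1 - ε) := by
      rw [h4]
      exact (mul_le_of_le_one_right h5 h2).trans hQ
    refine h6.trans ?_
    have h7 : (s : ℝ) ≤ (2 * (p : ℝ)) ^ e := by exact_mod_cast hsp
    have h8 : (s : ℝ) ^ (1 - ε) ≤ ((2 * (p : ℝ)) ^ e) ^ (1 - ε) :=
      Real.rpow_le_rpow (by positivity) h7 (by linarith)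
    refine h8.trans ?_
    rw [mul_pow, Real.mul_rpow (by positivity) (by positivity)]
    have h9 : ((2 : ℝ) ^ e) ^ (1 - ε) ≤ p := by
      calc ((2 : ℝ) ^ e) ^ (1 - ε) ≤ ((2 : ℝ) ^ e) ^ (1 : ℝ) :=
            Real.rpow_le_rpow_of_exponent_le (one_le_pow₀ (by norm_num)) (by linarith)
        _ = (2 : ℝ) ^ e := Real.rpow_one _
        _ ≤ p := by exact_mod_cast h2e
    have h10 : ((p : ℝ) ^ e) ^ (1 - ε) ≤ (p : ℝ) ^ (a + 1) := by
      rw [← Real.rpow_natCast, ← Real.rpow_natCast, ← Real.rpow_mul hp0R.le]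
      apply Real.rpow_le_rpow_of_exponent_le hp1R.le
      push_cast
      exact hea
    calc _ ≤ (p : ℝ) * (p : ℝ) ^ (a + 1) := mul_le_mul h9 h10 (by positivity) hp0R.le
      _ = (p : ℝ) ^ (a + 2) := by ring

/-- The asymptotic form. -/
theorem main_bound (ε : ℝ) (hε : 0 < ε) : ∃ c : ℝ, 0 < c ∧ ∃ s₀ : ℕ, ∀ s : ℕ, s₀ ≤ s →
    ∃ (n : ℕ) (δ : Fin n → ℕ), 2 * n + ∑ v, δ v = 2 * s ∧
      ∀ (Q Ω : Type) [Fintype Q] [MeasurableSpace Ω] (μ : Measure Ω) [IsProbabilityMeasure μ]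
        (M : RAM n Q Ω) (T : ℝ),
        Real.logb 2 (Fintype.card Q) ≤ (s : ℝ) ^ (1 - ε) →
        M.DetectsTriangles μ δ → M.ExpectedTimeLE μ δ T →
        c * s * Real.log s / Real.log (Real.log s) ≤ T := by
  -- parameters depending on ε
  obtain ⟨ε', hε'⟩ : ∃ ε', ε' = min ε 1 := ⟨_, rfl⟩
  have hε'0 : 0 < ε' := by rw [hε']; exact lt_min hε one_pos
  have hε'1 : ε' ≤ 1 := by rw [hε']; exact min_le_right _ _
  have hε'ε : ε' ≤ ε := by rw [hε']; exact min_le_left _ _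
  obtain ⟨K0, hK0⟩ : ∃ K0 : ℕ, 200000000000 ≤ K0 := ⟨_, le_rfl⟩
  obtain ⟨a, ha⟩ : ∃ a : ℕ, (12 + 10 * (K0 : ℝ)) / ε' ≤ a :=
    ⟨⌈(12 + 10 * (K0 : ℝ)) / ε'⌉₊, Nat.le_ceil _⟩
  obtain ⟨e, he⟩ : ∃ e : ℕ, e = a + 13 + 10 * K0 := ⟨_, rfl⟩
  have he0 : 0 < e := by omega
  have hea : (e : ℝ) * (1 - ε') ≤ a + 1 := by
    rw [div_le_iff₀ hε'0] at ha
    have h1 : (e : ℝ) = a + 13 + 10 * K0 := by rw [he]; push_cast; ring
    have h2 : (a : ℝ) ≤ e := by
      rw [h1]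
      have : (0 : ℝ) ≤ K0 := Nat.cast_nonneg _
      linarith
    have h3 : (a : ℝ) * ε' ≤ e * ε' := mul_le_mul_of_nonneg_right h2 hε'0.le
    have h4 : (e : ℝ) * (1 - ε') = e - e * ε' := by ring
    rw [h4]
    linarith
  obtain ⟨P0, hP0⟩ : ∃ P0 : ℕ, P0 = 4096 + 16 * (a + 4) ^ 2 + 242 * 320 ^ K0 + 2 ^ e := ⟨_, rfl⟩
  refine ⟨1 / (819200 * e), by positivity, (2 * (P0 + 1)) ^ e, ?_⟩
  intro s hs
  obtain ⟨p, hp, hp1, hp2, hp3⟩ := exists_p e P0 s he0 hs
  have : Fact p.Prime := ⟨hp⟩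
  have x1 : 1 ≤ 2 ^ e := Nat.one_le_pow _ _ (by norm_num)
  have x2 : 1 ≤ 320 ^ K0 := Nat.one_le_pow _ _ (by norm_num)
  have b1 : 4096 ≤ p := by omega
  have b2 : 16 * (a + 4) ^ 2 ≤ p := by omega
  have b3 : 242 * 320 ^ K0 ≤ p := by omega
  have b4 : 2 ^ e ≤ p := by omega
  have hpp : 0 < (p - 1) * p := Nat.mul_pos (by omega) (by omega)
  obtain ⟨q, hq, hq1, hq2⟩ := exists_q p K0 hpp b3
  have : Fact q.Prime := ⟨hq⟩
  obtain ⟨g, hg1, hg2, hg3⟩ := exists_g p b1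
  have hsize : 16 * (p ^ (a + 7) * q ^ 5) ≤ s := by
    refine le_trans ?_ hp2
    calc 16 * (p ^ (a + 7) * q ^ 5) ≤ p * (p ^ (a + 7) * (p ^ (2 * K0 + 1)) ^ 5) :=
          Nat.mul_le_mul (by omega) (Nat.mul_le_mul_left _ (Nat.pow_le_pow_left hq2 5))
      _ = p ^ e := by
          rw [he, ← pow_mul, ← pow_add, ← pow_succ']
          congr 1
          ring
  obtain ⟨n, δ, hnδ, hmain⟩ := bound_primes p q a g K0 hg1 hg2 b2 hK0 hq1 s hsize
  refine ⟨n, δ, hnδ, fun Q Ω _ _ μ _ M T hQ hdet hexp => ?_⟩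
  have hs1 : 1 ≤ s := (Nat.one_le_pow e p hp.pos).trans hp2
  have hs1R : (1 : ℝ) ≤ s := by exact_mod_cast hs1
  have hQ' : Real.logb 2 (Fintype.card Q) ≤ (s : ℝ) ^ (1 - ε') :=
    hQ.trans (Real.rpow_le_rpow_of_exponent_le hs1R (by linarith))
  have hspace := final_space hε'0 hε'1 hp.one_lt hs1 hp3 b4 hea hQ'
  exact final_time he0 hg1 hg2 hg3 hp2 hp3 (hmain Q Ω μ M T hspace hdet hexp)

end Pool.Agent.TR
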