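import Mathlib
import Pool.Agent.Lib_helper21.TR.Final

/-!
# The lower bound for randomised random-access machines, all space bounds
-/

set_option linter.unusedSectionVars false

open MeasureTheory

namespace Pool.Agent.TR

open Finset Equiv Pool.Agent.TS

lemma exists_root (x e P0 : ℕ) (he : 0 < e) (hs : (2 * (P0 + 1)) ^ e ≤ x) :
    ∃ p : ℕ, p.Prime ∧ P0 < p ∧ p ^ e ≤ x ∧ x ≤ (2 * p) ^ e :=
  exists_p e P0 x he hs

/-- `log x` in terms of `g`. -/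
lemma log_sigma {x p e g : ℕ} (he : 0 < e) (hg : 2 ≤ g) (h1 : (g + 2) ^ (g + 4) ≤ p)
    (h2 : p < (g + 3) ^ (g + 5)) (hpx : p ^ e ≤ x) (hxp : x ≤ (2 * p) ^ e) :
    Real.log x ≤ 4 * e * ((g : ℝ) + 2) * Real.log (Real.log x) ∧ 1 < Real.log x := by
  obtain ⟨hx1, hx2⟩ := log_p_le hg h1 h2
  have hp0 : 0 < p := lt_of_lt_of_le (by positivity) h1
  have hp2 : 2 ≤ p := by
    refine le_trans ?_ h1
    exact (show 2 ≤ g + 2 by omega).trans (Nat.le_self_pow (by omega) _)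
  have hp0R : (0 : ℝ) < p := by exact_mod_cast hp0
  have heR : (0 : ℝ) < e := by exact_mod_cast he
  have hpxR : (p : ℝ) ≤ x := by
    have : p ≤ x := (Nat.le_self_pow he.ne' p).trans hpx
    exact_mod_cast this
  have hx0 : (0 : ℝ) < x := lt_of_lt_of_le hp0R hpxR
  have hlog1 : Real.log p ≤ Real.log x := Real.log_le_log hp0R hpxR
  have hll : Real.log (Real.log p) ≤ Real.log (Real.log x) := Real.log_le_log (by linarith) hlog1
  have hlogx : Real.log x ≤ 2 * e * Real.log p := by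
    have h3 : (x : ℝ) ≤ (2 * (p : ℝ)) ^ e := by exact_mod_cast hxp
    have h4 := Real.log_le_log hx0 h3
    rw [Real.log_pow, Real.log_mul (by norm_num) hp0R.ne'] at h4
    have h5 : Real.log 2 ≤ Real.log p := Real.log_le_log (by norm_num) (by exact_mod_cast hp2)
    nlinarith
  refine ⟨?_, by linarith⟩
  calc Real.log x ≤ 2 * e * Real.log p := hlogx
    _ ≤ 2 * e * (2 * ((g : ℝ) + 2) * Real.log (Real.log x)) := by
        apply mul_le_mul_of_nonneg_left _ (by positivity)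
        refine hx2.trans ?_
        exact mul_le_mul_of_nonneg_left hll (by positivity)
    _ = _ := by ring

/-- The number of coordinates needed for a given space. -/
lemma exists_a (p S ℓ : ℕ) (hp : 2 ≤ p) (hS : 1 ≤ S) (hℓ : S < 2 ^ (ℓ + 1)) :
    ∃ a : ℕ, a ≤ ℓ ∧ S ≤ p ^ (a + 2) ∧ p ^ (a + 7) ≤ p ^ 7 * S := by
  have hex : ∃ a, S ≤ p ^ (a + 2) :=
    ⟨S, (Nat.lt_pow_self (by omega)).le.trans (Nat.pow_le_pow_right (by omega) (by omega))⟩
  obtain ⟨a, h1, hmin⟩ : ∃ a, S ≤ p ^ (a + 2) ∧ ∀ b < a, ¬ S ≤ p ^ (b + 2) := by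
    classical
    exact ⟨Nat.find hex, Nat.find_spec hex, fun b hb => Nat.find_min hex hb⟩
  refine ⟨a, ?_, h1, ?_⟩
  · rcases Nat.eq_zero_or_pos a with h0 | h0
    · omega
    · have h2 := hmin (a - 1) (by omega)
      push Not at h2
      have h3 : a - 1 + 2 = a + 1 := by omega
      rw [h3] at h2
      have h4 : 2 ^ (a + 1) < 2 ^ (ℓ + 1) :=
        (Nat.pow_le_pow_left hp _).trans_lt (h2.trans hℓ)
      have h5 := (Nat.pow_lt_pow_iff_right (by norm_num : 1 < 2)).1 h4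
      omega
  · rcases Nat.eq_zero_or_pos a with h0 | h0
    · rw [h0]
      exact Nat.le_mul_of_pos_right _ hS
    · have h2 := hmin (a - 1) (by omega)
      push Not at h2
      have h3 : a - 1 + 2 = a + 1 := by omega
      rw [h3] at h2
      calc p ^ (a + 7) = p ^ 6 * p ^ (a + 1) := by rw [← pow_add]; congr 1; omega
        _ ≤ p ^ 6 * S := Nat.mul_le_mul_left _ h2.le
        _ ≤ p ^ 7 * S := Nat.mul_le_mul_right _ (Nat.pow_le_pow_right (by omega) (by omega))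

lemma cube_ge {ℓ p : ℕ} (h1 : ℓ ^ 3 ≤ 2 * p) (h2 : 64 ≤ ℓ) : 16 * (ℓ + 4) ^ 2 ≤ p := by
  have h3 : 32 * (ℓ + 4) ^ 2 ≤ ℓ ^ 3 := by
    obtain ⟨k, rfl⟩ : ∃ k, ℓ = 64 + k := ⟨ℓ - 64, by omega⟩
    ring_nf
    nlinarith [sq_nonneg k]
  omega

/-- The natural-number form. -/
theorem main_nat : ∃ c : ℝ, 0 < c ∧ ∃ C ℓ₀ : ℕ, ∀ s S ℓ : ℕ, ℓ₀ ≤ ℓ → 2 ^ ℓ ≤ s →
    s < 2 ^ (ℓ + 1) → 1 ≤ S → S * ℓ ^ C ≤ s →
    ∃ (n : ℕ) (δ : Fin n → ℕ), 2 * n + ∑ v, δ v = 2 * s ∧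
      ∀ (Q Ω : Type) [Fintype Q] [MeasurableSpace Ω] (μ : Measure Ω) [IsProbabilityMeasure μ]
        (M : RAM n Q Ω) (T : ℝ),
        Real.logb 2 (Fintype.card Q) ≤ S →
        M.DetectsTriangles μ δ → M.ExpectedTimeLE μ δ T →
        c * s * (Real.log ((s / S : ℕ) : ℝ) / Real.log (Real.log ((s / S : ℕ) : ℝ))) ≤ T ∧
          1 < Real.log ((s / S : ℕ) : ℝ) ∧ 2 ≤ s / S := by
  obtain ⟨K0, hK0⟩ : ∃ K0 : ℕ, 200000000000 ≤ K0 := ⟨_, le_rfl⟩
  obtain ⟨e, he⟩ : ∃ e : ℕ, e = 13 + 10 * K0 := ⟨_, rfl⟩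
  have he0 : 0 < e := by omega
  obtain ⟨P0, hP0⟩ : ∃ P0 : ℕ, P0 = 4096 + 242 * 320 ^ K0 := ⟨_, rfl⟩
  refine ⟨1 / (819200 * e), by positivity, 3 * e, 2 * (P0 + 1), ?_⟩
  intro s S ℓ hℓ0 hs1 hs2 hS hSC
  have hℓ1 : 64 ≤ ℓ := by omega
  have hℓpos : 1 ≤ ℓ := by omega
  obtain ⟨x, hx⟩ : ∃ x, x = s / S := ⟨_, rfl⟩
  have hxℓ : ℓ ^ (3 * e) ≤ x := by
    rw [hx, Nat.le_div_iff_mul_le hS, mul_comm]
    exact hSC
  have hx0 : (2 * (P0 + 1)) ^ e ≤ x := by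
    refine le_trans ?_ hxℓ
    refine (Nat.pow_le_pow_left hℓ0 e).trans (Nat.pow_le_pow_right hℓpos (by omega))
  obtain ⟨p, hp, hp1, hp2, hp3⟩ := exists_p e P0 x he0 hx0
  have : Fact p.Prime := ⟨hp⟩
  have hcube : ℓ ^ 3 ≤ 2 * p := by
    have h1 : (ℓ ^ 3) ^ e ≤ (2 * p) ^ e := by
      rw [← pow_mul]
      exact hxℓ.trans hp3
    exact (Nat.pow_le_pow_iff_left he0.ne').1 h1
  have x2 : 1 ≤ 320 ^ K0 := Nat.one_le_pow _ _ (by norm_num)
  have b1 : 4096 ≤ p := by omega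
  have b3 : 242 * 320 ^ K0 ≤ p := by omega
  have hSs : S < 2 ^ (ℓ + 1) := by
    refine lt_of_le_of_lt ?_ hs2
    refine le_trans ?_ hSC
    exact Nat.le_mul_of_pos_right _ (by positivity)
  obtain ⟨a, ha1, ha2, ha3⟩ := exists_a p S ℓ hp.two_le hS hSs
  have b2 : 16 * (a + 4) ^ 2 ≤ p := by
    refine le_trans ?_ (cube_ge hcube hℓ1)
    exact Nat.mul_le_mul_left _ (Nat.pow_le_pow_left (by omega) 2)
  have hpp : 0 < (p - 1) * p := Nat.mul_pos (by omega) (by omega)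
  obtain ⟨q, hq, hq1, hq2⟩ := exists_q p K0 hpp b3
  have : Fact q.Prime := ⟨hq⟩
  obtain ⟨g, hg1, hg2, hg3⟩ := exists_g p b1
  have hxS : x * S ≤ s := by rw [hx]; exact Nat.div_mul_le_self _ _
  have hsize : 16 * (p ^ (a + 7) * q ^ 5) ≤ s := by
    refine le_trans ?_ hxS
    calc 16 * (p ^ (a + 7) * q ^ 5) ≤ p * ((p ^ 7 * S) * (p ^ (2 * K0 + 1)) ^ 5) :=
          Nat.mul_le_mul (by omega) (Nat.mul_le_mul ha3 (Nat.pow_le_pow_left hq2 5))
      _ = p ^ e * S := by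
          rw [he, ← pow_mul]
          have h1 : p ^ (13 + 10 * K0) = p * (p ^ 7 * p ^ ((2 * K0 + 1) * 5)) := by
            rw [← pow_add, ← pow_succ']
            congr 1
            ring
          rw [h1]
          ring
      _ ≤ x * S := Nat.mul_le_mul_right _ hp2
  obtain ⟨n, δ, hnδ, hmain⟩ := bound_primes p q a g K0 hg1 hg2 b2 hK0 hq1 s hsize
  refine ⟨n, δ, hnδ, fun Q Ω _ _ μ _ M T hQ hdet hexp => ?_⟩
  have hspace : Real.log (Fintype.card Q) ≤ (p : ℝ) ^ (a + 2) := by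
    have h20 : 0 < Real.log 2 := Real.log_pos (by norm_num)
    have h2 : Real.log 2 ≤ 1 := by
      have := Real.log_two_lt_d9; linarith
    have h4 : Real.log (Fintype.card Q) = Real.logb 2 (Fintype.card Q) * Real.log 2 := by
      rw [Real.logb, div_mul_cancel₀ _ h20.ne']
    have hS1 : (S : ℝ) ≤ (p : ℝ) ^ (a + 2) := by exact_mod_cast ha2
    rw [h4]
    calc Real.logb 2 (Fintype.card Q) * Real.log 2 ≤ S * 1 :=
          mul_le_mul hQ h2 h20.le (Nat.cast_nonneg _)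
      _ ≤ _ := by rw [mul_one]; exact hS1
  have hT := hmain Q Ω μ M T hspace hdet hexp
  obtain ⟨l1, l2⟩ := log_sigma he0 hg1 hg2 hg3 hp2 hp3
  rw [← hx]
  have hll : 0 < Real.log (Real.log x) := Real.log_pos l2
  have heR : (0 : ℝ) < e := by exact_mod_cast he0
  refine ⟨?_, l2, ?_⟩
  · have h5 : Real.log x / Real.log (Real.log x) ≤ 4 * e * ((g : ℝ) + 2) := by
      rw [div_le_iff₀ hll]
      exact l1
    calc 1 / (819200 * (e : ℝ)) * s * (Real.log x / Real.log (Real.log x))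
        ≤ 1 / (819200 * (e : ℝ)) * s * (4 * e * ((g : ℝ) + 2)) :=
          mul_le_mul_of_nonneg_left h5 (by positivity)
      _ = (((g : ℝ) + 2) * s) / 204800 := by
          field_simp
          ring
      _ ≤ T := by
          rw [div_le_iff₀ (by norm_num)]
          linarith
  · refine le_trans ?_ hx0
    refine le_trans ?_ (Nat.le_self_pow he0.ne' _)
    omega

lemma log_compare {s S : ℕ} (hS : 1 ≤ S) (h2 : 2 ≤ s / S) (h1 : 1 < Real.log ((s / S : ℕ) : ℝ)) :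
    Real.log ((s : ℝ) / S) / Real.log (Real.log ((s : ℝ) / S)) ≤
      2 * (Real.log ((s / S : ℕ) : ℝ) / Real.log (Real.log ((s / S : ℕ) : ℝ))) := by
  obtain ⟨x, hx⟩ : ∃ x, x = s / S := ⟨_, rfl⟩
  rw [← hx] at h1 h2 ⊢
  have hSR : (0 : ℝ) < S := by exact_mod_cast hS
  have hx2 : (2 : ℝ) ≤ x := by exact_mod_cast h2
  have hle : (x : ℝ) ≤ s / S := by
    rw [le_div_iff₀ hSR, hx]
    exact_mod_cast Nat.div_mul_le_self s S
  have hlt : (s : ℝ) / S ≤ (x : ℝ) ^ 2 := by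
    rw [div_le_iff₀ hSR]
    have h3 : s < (x + 1) * S := by
      rw [hx, mul_comm]
      exact Nat.lt_mul_div_succ _ hS
    have h4 : (s : ℝ) ≤ ((x : ℝ) + 1) * S := by exact_mod_cast h3.le
    refine h4.trans ?_
    apply mul_le_mul_of_nonneg_right _ hSR.le
    nlinarith
  have hy0 : (0 : ℝ) < s / S := by linarith
  have e1 : Real.log x ≤ Real.log ((s : ℝ) / S) := Real.log_le_log (by linarith) hle
  have e2 : Real.log ((s : ℝ) / S) ≤ 2 * Real.log x := by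
    have := Real.log_le_log hy0 hlt
    rw [Real.log_pow] at this
    exact_mod_cast this
  have e3 : Real.log (Real.log x) ≤ Real.log (Real.log ((s : ℝ) / S)) :=
    Real.log_le_log (by linarith) e1
  have e4 : 0 < Real.log (Real.log x) := Real.log_pos h1
  rw [← mul_div_assoc]
  exact div_le_div₀ (by linarith) e2 e4 e3

/-- The trade-off for all space bounds. -/
theorem main_all : ∃ c : ℝ, 0 < c ∧ ∃ C s₀ : ℕ, ∀ s S : ℕ, s₀ ≤ s → 1 ≤ S →
    S * Real.log s ^ C ≤ s →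
    ∃ (n : ℕ) (δ : Fin n → ℕ), 2 * n + ∑ v, δ v = 2 * s ∧
      ∀ (Q Ω : Type) [Fintype Q] [MeasurableSpace Ω] (μ : Measure Ω) [IsProbabilityMeasure μ]
        (M : RAM n Q Ω) (T : ℝ),
        Real.logb 2 (Fintype.card Q) ≤ S →
        M.DetectsTriangles μ δ → M.ExpectedTimeLE μ δ T →
        c * s * Real.log (s / S) / Real.log (Real.log (s / S)) ≤ T := by
  obtain ⟨c, hc, C, ℓ₀, h⟩ := main_nat
  refine ⟨c / 2, by positivity, 2 * C, max (2 ^ ℓ₀) 16, ?_⟩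
  intro s S hs hS hSC
  have hs1 : 2 ^ ℓ₀ ≤ s := (le_max_left _ _).trans hs
  have hs2 : 16 ≤ s := (le_max_right _ _).trans hs
  obtain ⟨ℓ, hℓ⟩ : ∃ ℓ, ℓ = Nat.log 2 s := ⟨_, rfl⟩
  have hl1 : 2 ^ ℓ ≤ s := by rw [hℓ]; exact Nat.pow_log_le_self 2 (by omega)
  have hl2 : s < 2 ^ (ℓ + 1) := by rw [hℓ]; exact Nat.lt_pow_succ_log_self (by norm_num) s
  have hl3 : ℓ₀ ≤ ℓ := by
    rw [hℓ]
    exact (Nat.le_log_iff_pow_le (by norm_num) (by omega)).2 hs1
  have hsR : (16 : ℝ) ≤ s := by exact_mod_cast hs2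
  have hlog2 : 2 ≤ Real.log s := by
    have h1 : Real.log 16 ≤ Real.log s := Real.log_le_log (by norm_num) hsR
    have h2 : Real.log 16 = 4 * Real.log 2 := by
      rw [show (16 : ℝ) = 2 ^ 4 by norm_num, Real.log_pow]
      norm_num
    have h3 := Real.log_two_gt_d9
    rw [h2] at h1
    linarith
  have hℓlog : (ℓ : ℝ) ≤ Real.log s ^ 2 := by
    have h1 : ((2 : ℝ) ^ ℓ) ≤ s := by exact_mod_cast hl1
    have h2 := Real.log_le_log (by positivity) h1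
    rw [Real.log_pow] at h2
    have h3 := Real.log_two_gt_d9
    have h4 : (0 : ℝ) ≤ ℓ := Nat.cast_nonneg _
    have h5 : (ℓ : ℝ) * (1 / 2) ≤ Real.log s := by
      refine le_trans ?_ h2
      exact mul_le_mul_of_nonneg_left (by linarith) h4
    nlinarith
  have hSC' : S * ℓ ^ C ≤ s := by
    have h1 : ((S * ℓ ^ C : ℕ) : ℝ) ≤ s := by
      push_cast
      refine le_trans ?_ hSC
      apply mul_le_mul_of_nonneg_left _ (Nat.cast_nonneg _)
      rw [pow_mul]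
      exact pow_le_pow_left₀ (Nat.cast_nonneg _) hℓlog C
    exact_mod_cast h1
  obtain ⟨n, δ, hnδ, hmain⟩ := h s S ℓ hl3 hl1 hl2 hS hSC'
  refine ⟨n, δ, hnδ, fun Q Ω _ _ μ _ M T hQ hdet hexp => ?_⟩
  obtain ⟨m1, m2, m3⟩ := hmain Q Ω μ M T hQ hdet hexp
  have h5 := log_compare hS m3 m2
  calc c / 2 * s * Real.log (s / S) / Real.log (Real.log (s / S))
      = c / 2 * s * (Real.log (s / S) / Real.log (Real.log (s / S))) := by rw [mul_div_assoc]
    _ ≤ c / 2 * s * (2 * (Real.log ((s / S : ℕ) : ℝ) /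
          Real.log (Real.log ((s / S : ℕ) : ℝ)))) := mul_le_mul_of_nonneg_left h5 (by positivity)
    _ = c * s * (Real.log ((s / S : ℕ) : ℝ) / Real.log (Real.log ((s / S : ℕ) : ℝ))) := by ring
    _ ≤ T := m1

end Pool.Agent.TR
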